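import Pool.Agent.Lib.MP_00e05b_nt.UH.Defs
import Pool.Agent.Lib.MP_00e05b_nt.Mont.Trunc0
import Pool.Agent.Lib.MP_00e05b_nt.Mont.NT

open Complex Set Filter Topology MeasureTheory

namespace Pool.Agent.Lib.MP_00e05b_nt.UH

open Pool.Agent.Lib.MP_00e05b_nt Pool.Agent.Lib.MP_00e05b_nt.Mont Pool.Agent.Lib.MP_2a816b_nt.TA

private theorem Tri_weight (u : ℝ) : weight u ≤ 8 * (1 / (1 + |u|) ^ 2) := by
  unfold weight
  rw [mul_one_div, div_le_div_iff₀ (by positivity) (by positivity)]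
  have h1 : |u| ^ 2 = u ^ 2 := sq_abs u
  nlinarith [sq_nonneg (|u| - 1)]

/-- The trivial bound. -/
theorem FF_triv (hRH : RiemannHypothesis) : ∃ C : ℝ, 0 ≤ C ∧ ∀ T α : ℝ, 2 ≤ T → FF α T ≤ C * Real.log T := by
  obtain ⟨C1, hC1, hloc⟩ := local_count hRH
  obtain ⟨C2, hC2, hcnt⟩ := count_asymp hRH
  have hl2 : 0 < Real.log 2 := Real.log_pos (by norm_num)
  have hpi := Real.pi_pos
  refine ⟨(1 + C2 * (2 * Real.pi) / Real.log 2) * (16 * C1), by positivity, fun T α hT => ?_⟩
  have hT0 : 0 < T := by linarith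
  have hL2 : Real.log 2 ≤ Real.log T := Real.log_le_log (by norm_num) hT
  have hL : 0 < Real.log T := hl2.trans_le hL2
  have hN0 : 0 < N0 T := N0_pos (by linarith)
  have hin : ∀ γ ∈ ordinates T, ∑ γ' ∈ ordinates T, (mult γ' : ℝ) * weight (γ - γ') ≤
      16 * C1 * Real.log T := by
    intro γ hγ
    obtain ⟨hγ0, hγT, -⟩ := mem_ordinates.1 hγ
    obtain ⟨hs, hle⟩ := hloc γ
    have h1 := ord_sum_le hRH T (fun x => 1 / (1 + |γ - x|) ^ 2) (fun x => by positivity) hs
    have h2 : ∑ γ' ∈ ordinates T, (mult γ' : ℝ) * weight (γ - γ') ≤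
        8 * ∑ γ' ∈ ordinates T, (mult γ' : ℝ) * (1 / (1 + |γ - γ'|) ^ 2) := by
      rw [Finset.mul_sum]
      refine Finset.sum_le_sum fun γ' _ => ?_
      have h3 : (0 : ℝ) ≤ mult γ' := Nat.cast_nonneg _
      have h4 := mul_le_mul_of_nonneg_left (Tri_weight (γ - γ')) h3
      linarith
    have h3 : Real.log (2 + |γ|) ≤ 2 * Real.log T := by
      have h4 : (2 : ℝ) * Real.log T = Real.log (T ^ 2) := by
        rw [Real.log_pow]
        norm_num
      rw [h4, abs_of_pos hγ0]
      exact Real.log_le_log (by linarith) (by nlinarith)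
    have h4 := mul_le_mul_of_nonneg_left h3 hC1
    beta_reduce at h1
    linarith
  have hNN : NN T ≤ (1 + C2 * (2 * Real.pi) / Real.log 2) * N0 T := by
    have h1 := (abs_le.1 (hcnt T hT)).2
    have h2 : C2 * T ≤ C2 * (2 * Real.pi) / Real.log 2 * N0 T := by
      have h3 : C2 * (2 * Real.pi) / Real.log 2 * N0 T = C2 * T * (Real.log T / Real.log 2) := by
        unfold N0
        field_simp
      rw [h3]
      have h4 : 1 ≤ Real.log T / Real.log 2 := (one_le_div hl2).2 hL2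
      have h5 : 0 ≤ C2 * T := by positivity
      nlinarith
    linarith
  rw [FF_cos hT0]
  have h1 : ∑ γ ∈ ordinates T, ∑ γ' ∈ ordinates T,
      (mult γ : ℝ) * (mult γ' : ℝ) * Real.cos (α * Real.log T * (γ - γ')) * weight (γ - γ') ≤
      NN T * (16 * C1 * Real.log T) := by
    unfold NN
    rw [Finset.sum_mul]
    refine Finset.sum_le_sum fun γ hγ => ?_
    have h2 : (0 : ℝ) ≤ mult γ := Nat.cast_nonneg _
    refine le_trans ?_ (mul_le_mul_of_nonneg_left (hin γ hγ) h2)
    rw [Finset.mul_sum]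
    refine Finset.sum_le_sum fun γ' _ => ?_
    have h3 : (0 : ℝ) ≤ mult γ' := Nat.cast_nonneg _
    have h4 : 0 ≤ weight (γ - γ') := by
      unfold weight
      positivity
    have h5 := Real.cos_le_one (α * Real.log T * (γ - γ'))
    have h6 : 0 ≤ (mult γ : ℝ) * (mult γ' : ℝ) * weight (γ - γ') := by positivity
    have h7 := mul_le_mul_of_nonneg_left h5 h6
    linarith
  have h2 : 0 ≤ 16 * C1 * Real.log T := by positivity
  have h3 := h1.trans (mul_le_mul_of_nonneg_right hNN h2)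
  have h4 := mul_le_mul_of_nonneg_left h3 (inv_nonneg.2 hN0.le)
  refine h4.trans (le_of_eq ?_)
  field_simp

/-- The substitution `u = α L`. -/
private theorem Tri_subst {L : ℝ} (hL : 0 < L) (κ : ℝ) (G : ℝ → ℝ) :
    ∫ u in L..(L ^ (1 + κ)), G (u / L) = L * ∫ α in (1 : ℝ)..(L ^ κ), G α := by
  rw [intervalIntegral.integral_comp_div G hL.ne', smul_eq_mul, div_self hL.ne', Real.rpow_add hL,
    Real.rpow_one, mul_div_cancel_left₀ _ hL.ne']

/-- The hypothesis in the variable `u = α L`. -/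
theorem PF_to {κ : ℝ} (h : Tendsto (fun T : ℝ => Real.log T *
    ∫ α in (1 : ℝ)..(Real.log T ^ κ), max (FF α T - 1 + cF / Real.log T) 0) atTop (𝓝 0)) : PFu κ := by
  intro ε hε
  filter_upwards [h.eventually (gt_mem_nhds hε), eventually_gt_atTop (1 : ℝ)] with T h1 hT
  have hL : 0 < Real.log T := Real.log_pos hT
  have h2 := Tri_subst hL κ
    (fun α => max (Real.log T * FF α T - (Real.log T - cF)) 0)
  beta_reduce at h2
  rw [h2]
  have h3 : ∀ α : ℝ, max (Real.log T * FF α T - (Real.log T - cF)) 0 =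
      Real.log T * max (FF α T - 1 + cF / Real.log T) 0 := by
    intro α
    rw [mul_max_of_nonneg _ _ hL.le, mul_zero]
    congr 1
    field_simp
    ring
  simp only [h3]
  rw [intervalIntegral.integral_const_mul, mul_comm ε]
  exact mul_le_mul_of_nonneg_left h1.le hL.le

/-- And back (`κ ≥ 0`). -/
theorem L1F_back {κ : ℝ} (hκ : 0 ≤ κ) (h : ∀ ε : ℝ, 0 < ε → ∀ᶠ T : ℝ in atTop,
    ∫ u in (Real.log T)..(Real.log T ^ (1 + κ)), |Real.log T - cF - Real.log T * FF (u / Real.log T) T| ≤ ε * Real.log T) :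
    Tendsto (fun T : ℝ => Real.log T * ∫ α in (1 : ℝ)..(Real.log T ^ κ), |FF α T - 1 + cF / Real.log T|) atTop (𝓝 0) := by
  rw [Metric.tendsto_nhds]
  intro ε hε
  filter_upwards [h (ε / 2) (by positivity), Real.tendsto_log_atTop.eventually_ge_atTop 1] with T h1 hL1
  have hL : 0 < Real.log T := by linarith
  have h2 := Tri_subst hL κ (fun α => |Real.log T - cF - Real.log T * FF α T|)
  beta_reduce at h2
  rw [h2] at h1
  have h3 : ∀ α : ℝ, |Real.log T - cF - Real.log T * FF α T| =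
      Real.log T * |FF α T - 1 + cF / Real.log T| := by
    intro α
    rw [← abs_of_pos hL, ← abs_mul, abs_of_pos hL, ← abs_neg]
    congr 1
    field_simp
    ring
  simp only [h3] at h1
  rw [intervalIntegral.integral_const_mul, mul_comm (ε / 2)] at h1
  have h4 := le_of_mul_le_mul_left h1 hL
  have h5 : 0 ≤ ∫ α in (1 : ℝ)..(Real.log T ^ κ), |FF α T - 1 + cF / Real.log T| :=
    intervalIntegral.integral_nonneg (Real.one_le_rpow hL1 hκ) fun _ _ => abs_nonneg _
  rw [Real.dist_eq, sub_zero, abs_of_nonneg (mul_nonneg hL.le h5)]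
  linarith

end Pool.Agent.Lib.MP_00e05b_nt.UH
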