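import Pool.Agent.Lib.MP_00e05b_nt.UH.Low
import Pool.Agent.Lib.MP_00e05b_nt.UH.Tri
import Pool.Agent.Lib.MP_2a816b_nt.TA.EXB

open Complex Set Filter Topology MeasureTheory

namespace Pool.Agent.Lib.MP_00e05b_nt.UH

open Pool.Agent.Lib.MP_00e05b_nt Pool.Agent.Lib.MP_00e05b_nt.Mont Pool.Agent.Lib.MP_2a816b_nt.TA

/-- the tail: a geometric series over unit intervals -/
private theorem De_tail {f g : ℝ → ℝ} {a B A κ : ℝ} (hA : 0 ≤ A) (hB : 0 ≤ B) (hκ : 0 < κ)
    (hf : ∀ u, 0 ≤ f u) (hfi : ∀ b c, IntervalIntegrable f volume b c)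
    (hfu : ∀ x, a ≤ x → ∫ u in x..(x + 1), f u ≤ B) (hg : Continuous g)
    (hga : ∀ (n : ℕ) (u : ℝ), a + n ≤ u → g u ≤ A * Real.exp (-κ) ^ n)
    (hi : IntegrableOn (fun u => g u * f u) (Ioi a)) :
    ∫ u in Ioi a, g u * f u ≤ A * B * (1 + 1 / κ) := by
  have hgf : ∀ b c, IntervalIntegrable (fun u => g u * f u) volume b c := fun b c =>
    (hfi b c).continuousOn_mul hg.continuousOn
  have hr0 : 0 ≤ Real.exp (-κ) := (Real.exp_pos _).le
  have hr1 : Real.exp (-κ) < 1 := by
    rw [Real.exp_lt_one_iff]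
    linarith
  have hgeo : (1 - Real.exp (-κ))⁻¹ ≤ 1 + 1 / κ := by
    have h1 : 1 + κ ≤ Real.exp κ := by linarith [Real.add_one_le_exp κ]
    have h2 : Real.exp (-κ) ≤ 1 / (1 + κ) := by
      rw [Real.exp_neg, ← one_div]
      exact one_div_le_one_div_of_le (by linarith) h1
    have h3 : κ / (1 + κ) ≤ 1 - Real.exp (-κ) := by
      have : κ / (1 + κ) = 1 - 1 / (1 + κ) := by
        field_simp
        ring
      rw [this]
      linarith
    calc (1 - Real.exp (-κ))⁻¹ ≤ (κ / (1 + κ))⁻¹ := inv_anti₀ (by positivity) h3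
      _ = 1 + 1 / κ := by
        field_simp
        ring
  have key : ∀ N : ℕ, ∫ u in a..(a + (N : ℝ)), g u * f u ≤ A * B * (1 + 1 / κ) := by
    intro N
    have e := intervalIntegral.sum_integral_adjacent_intervals (a := fun n : ℕ => a + (n : ℝ)) (n := N)
      (f := fun u => g u * f u) (μ := volume) (fun k _ => hgf _ _)
    have e' : (∫ u in a..(a + (N : ℝ)), g u * f u) =
        ∑ k ∈ Finset.range N, ∫ u in (a + (k : ℝ))..(a + ((k + 1 : ℕ) : ℝ)), g u * f u := by
      rw [e]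
      simp
    rw [e']
    have hk : ∀ k ∈ Finset.range N, (∫ u in (a + (k : ℝ))..(a + ((k + 1 : ℕ) : ℝ)), g u * f u) ≤
        A * B * Real.exp (-κ) ^ k := by
      intro k _
      have hk1 : a + ((k + 1 : ℕ) : ℝ) = a + (k : ℝ) + 1 := by push_cast; ring
      rw [hk1]
      have h1 : (∫ u in (a + (k : ℝ))..(a + (k : ℝ) + 1), g u * f u) ≤
          ∫ u in (a + (k : ℝ))..(a + (k : ℝ) + 1), A * Real.exp (-κ) ^ k * f u := by
        refine intervalIntegral.integral_mono_on (by linarith) (hgf _ _) ((hfi _ _).const_mul _) ?_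
        intro u hu
        exact mul_le_mul_of_nonneg_right (hga k u hu.1) (hf u)
      rw [intervalIntegral.integral_const_mul] at h1
      have h2 := hfu (a + (k : ℝ)) (by linarith [(Nat.cast_nonneg k : (0 : ℝ) ≤ k)])
      have h3 : A * Real.exp (-κ) ^ k * (∫ u in (a + (k : ℝ))..(a + (k : ℝ) + 1), f u) ≤
          A * Real.exp (-κ) ^ k * B := mul_le_mul_of_nonneg_left h2 (by positivity)
      calc _ ≤ _ := h1
        _ ≤ _ := h3
        _ = _ := by ring
    refine (Finset.sum_le_sum hk).trans ?_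
    rw [← Finset.mul_sum]
    refine mul_le_mul_of_nonneg_left ?_ (mul_nonneg hA hB)
    refine le_trans ?_ hgeo
    rw [← tsum_geometric_of_lt_one hr0 hr1]
    exact (summable_geometric_of_lt_one hr0 hr1).sum_le_tsum _ (fun i _ => pow_nonneg hr0 i)
  have hlim : Tendsto (fun N : ℕ => ∫ u in a..(a + (N : ℝ)), g u * f u) atTop
      (𝓝 (∫ u in Ioi a, g u * f u)) :=
    intervalIntegral_tendsto_integral_Ioi a hi
      (tendsto_atTop_add_const_left _ _ tendsto_natCast_atTop_atTop)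
  exact le_of_tendsto hlim (Eventually.of_forall key)

private theorem De_Kg_cont (M : ℝ) : Continuous (Kg M) := by
  unfold Kg
  fun_prop

private theorem De_Kg_int {M : ℝ} (hM : 0 < M) : Integrable (Kg M) := by
  have h := integrable_exp_neg_mul_sq (b := 1 / (2 * M ^ 2)) (by positivity)
  refine h.congr (Eventually.of_forall fun x => ?_)
  show Real.exp (-(1 / (2 * M ^ 2)) * x ^ 2) = Real.exp (-(x ^ 2 / (2 * M ^ 2)))
  congr 1
  ring

private theorem De_rpow {a b : ℝ} (hab : a < b) {η : ℝ} (hη : 0 < η) : ∀ᶠ T : ℝ in atTop,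
    Real.log T ^ a ≤ η * Real.log T ^ b := by
  have h1 : Tendsto (fun T : ℝ => Real.log T ^ (-(b - a))) atTop (𝓝 0) :=
    (tendsto_rpow_neg_atTop (by linarith : 0 < b - a)).comp Real.tendsto_log_atTop
  filter_upwards [h1.eventually_le_const hη, Real.tendsto_log_atTop.eventually_ge_atTop 1] with T h2 h3
  have h4 : 0 < Real.log T := by linarith
  have h5 : Real.log T ^ a = Real.log T ^ (-(b - a)) * Real.log T ^ b := by
    rw [← Real.rpow_add h4]
    congr 1
    ring
  rw [h5]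
  exact mul_le_mul_of_nonneg_right h2 (Real.rpow_nonneg h4.le _)

private theorem De_abs (x y : ℝ) : |x - y| = (x - y) + 2 * max (y - x) 0 := by
  rcases le_total 0 (x - y) with h | h
  · rw [abs_of_nonneg h, max_eq_right (by linarith)]
    ring
  · rw [abs_of_nonpos h, max_eq_left (by linarith)]
    ring

/-- LEAF De (adapt `TA/HDefi.lean` or `TA/GDefi.lean`: `g(u) = L FF(u/L) T` in place of `QQ T u`, `cF` in place of `c0`). `M = L^(1+κ')`,
`M1 = L^(1+κ)`; on `[L, M1]` `|q - g| = (q - g) + 2 max (g - q) 0`; for `u ≥ M1`: `q - g ≥ -g ≥ -C L²` (`FF_triv`) and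
`∫_M1^∞ Kg M ≤ (M²/M1) e^(-M1²/(2M²))`; `L⁴/(6M²) = L^(2-2κ')/6 = o(L)`; `Kg M u ≥ e^(-1/2)` on `[L, M]`; `NC_nonneg` (EXB). -/
theorem defiF (hRH : RiemannHypothesis) {κ κ' : ℝ} (h1 : 1 / 2 < κ') (h2 : κ' < κ) (h : PFu κ) (ε : ℝ) (hε : 0 < ε) :
    ∀ᶠ T : ℝ in atTop,
      (∫ u in (Real.log T)..(Real.log T ^ (1 + κ')), |Real.log T - cF - Real.log T * FF (u / Real.log T) T|) +
        Real.log T ^ (1 + κ') / T * NC T (1 / Real.log T ^ (1 + κ')) ≤ ε * Real.log T := by
  obtain ⟨CU, hCU, hU⟩ := FF_triv hRH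
  set E2 : ℝ := Real.exp (1 / 2) with hE2
  have hE20 : 0 < E2 := Real.exp_pos _
  set η : ℝ := ε / (E2 * 5) with hηd
  have hη : 0 < η := by positivity
  set δ : ℝ := 2 * (κ - κ') with hδd
  have hδ : 0 < δ := by
    rw [hδd]
    linarith
  have hev1 : ∀ᶠ T : ℝ in atTop, (4 : ℝ) ≤ Real.log T :=
    Real.tendsto_log_atTop.eventually_ge_atTop 4
  have hevc : ∀ᶠ T : ℝ in atTop, cF ≤ Real.log T :=
    Real.tendsto_log_atTop.eventually_ge_atTop cF
  have hev2 : ∀ᶠ T : ℝ in atTop, Real.log T ^ (1 + κ') ≤ T ^ (1 / 4 : ℝ) := by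
    have h3 := isLittleO_log_rpow_rpow_atTop (1 + κ') (by norm_num : (0 : ℝ) < 1 / 4)
    filter_upwards [h3.bound (zero_lt_one' ℝ), hev1, eventually_ge_atTop (1 : ℝ)] with T h4 h5 h6
    rw [one_mul, Real.norm_of_nonneg (Real.rpow_nonneg (by linarith) _),
      Real.norm_of_nonneg (Real.rpow_nonneg (by linarith) _)] at h4
    exact h4
  have hev3 : ∀ᶠ T : ℝ in atTop,
      (Real.log T ^ δ) ^ ((3 + κ') / δ) * Real.exp (-(1 / 2) * Real.log T ^ δ) ≤ 1 / (2 * CU + 1) := by
    have h3 := tendsto_rpow_mul_exp_neg_mul_atTop_nhds_zero ((3 + κ') / δ) (1 / 2) (by norm_num)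
    have h4 := h3.comp ((tendsto_rpow_atTop hδ).comp Real.tendsto_log_atTop)
    exact h4.eventually_le_const (by positivity)
  filter_upwards [hev1, hev2, hev3, hevc, lowF hRH η hη, eventually_ge_atTop (2 : ℝ),
    De_rpow (by linarith : 2 - 2 * κ' < 1) hη, De_rpow (by linarith : (0 : ℝ) < 1) hη, h η hη]
    with T hL hT8 hE hLc hmas0 hT2 ha1 ha3 ha4
  have hT0 : 0 < T := by linarith
  have hT1 : 1 < T := by linarith
  set L := Real.log T with hLdef
  set M := L ^ (1 + κ') with hMdef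
  set M1 := L ^ (1 + κ) with hM1def
  obtain ⟨g, hg⟩ : ∃ g : ℝ → ℝ, g = fun u => L * FF (u / L) T := ⟨_, rfl⟩
  have hgu : ∀ u, L * FF (u / L) T = g u := fun u => by rw [hg]
  simp only [hgu] at hmas0 ha4 ⊢
  have hL1 : 1 ≤ L := by linarith
  have hL0 : 0 < L := by linarith
  have hM0 : 0 < M := Real.rpow_pos_of_pos hL0 _
  have hM10 : 0 < M1 := Real.rpow_pos_of_pos hL0 _
  rw [Real.rpow_one] at ha1 ha3
  rw [Real.rpow_zero] at ha3
  have hLM : L ≤ M := by
    rw [hMdef]
    calc L = L ^ (1 : ℝ) := (Real.rpow_one L).symm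
      _ ≤ L ^ (1 + κ') := Real.rpow_le_rpow_of_exponent_le hL1 (by linarith)
  have hMM1 : M ≤ M1 := Real.rpow_le_rpow_of_exponent_le hL1 (by linarith)
  have hLM1 : L ≤ M1 := by linarith
  have hM1' : 1 ≤ M := by linarith
  obtain ⟨hKint, hmas⟩ := hmas0 M hM1' hT8
  -- integrability
  have hgc : Continuous g := by
    rw [hg]
    exact continuous_const.mul ((FF_continuous hT0).comp (by fun_prop))
  have hg0 : ∀ u, 0 ≤ g u := fun u => by
    rw [hg]
    exact mul_nonneg hL0.le (FF_nonneg hT1 _)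
  have hgC : ∀ u, g u ≤ CU * L ^ 2 := by
    intro u
    rw [hg]
    calc L * FF (u / L) T ≤ L * (CU * L) := mul_le_mul_of_nonneg_left (hU T (u / L) hT2) hL0.le
      _ = CU * L ^ 2 := by ring
  have hQi : ∀ a b, IntervalIntegrable g volume a b := fun a b => hgc.intervalIntegrable a b
  have hqi : ∀ a b, IntervalIntegrable (fun u => L - cF - g u) volume a b := fun a b =>
    (_root_.intervalIntegrable_const).sub (hQi a b)
  have hKc : Continuous (Kg M) := De_Kg_cont M
  have hi1 : IntervalIntegrable (fun u => Kg M u * (L - cF - g u)) volume L M1 :=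
    (hqi _ _).continuousOn_mul hKc.continuousOn
  have hi2 : ∀ a b, IntervalIntegrable (fun u => Kg M u * |L - cF - g u|) volume a b := fun a b =>
    (hqi _ _).abs.continuousOn_mul hKc.continuousOn
  have hi3 : IntervalIntegrable (fun u => max (g u - (L - cF)) 0) volume L M1 := by
    have h3 := (((hqi L M1).abs.sub (hqi L M1)).const_mul (1 / 2))
    refine h3.congr (fun u _ => ?_)
    have h4 := De_abs (L - cF) (g u)
    show 1 / 2 * (|L - cF - g u| - (L - cF - g u)) = max (g u - (L - cF)) 0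
    rw [h4]
    ring
  have hKQ : ∀ a, L ≤ a → IntegrableOn (fun u => Kg M u * g u) (Ioi a) := fun a ha =>
    hKint.mono_set (Ioi_subset_Ioi ha)
  have hKcst : ∀ a, IntegrableOn (fun u => Kg M u * (L - cF)) (Ioi a) := fun a =>
    ((De_Kg_int hM0).mul_const _).integrableOn
  have hKf : ∀ a, L ≤ a → IntegrableOn (fun u => Kg M u * (L - cF - g u)) (Ioi a) := by
    intro a ha
    refine ((hKcst a).sub (hKQ a ha)).congr_fun (fun u _ => ?_) measurableSet_Ioi
    show Kg M u * (L - cF) - Kg M u * g u = Kg M u * (L - cF - g u)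
    ring
  have hK0 : ∀ u, 0 ≤ Kg M u := fun u => (Real.exp_pos _).le
  have hK1 : ∀ u, Kg M u ≤ 1 := by
    intro u
    unfold Kg
    rw [Real.exp_le_one_iff, neg_nonpos]
    positivity
  -- the tail
  have htail : ∫ u in Ioi M1, Kg M u * g u ≤ 1 := by
    have hν : 0 < M1 / M ^ 2 := by positivity
    have h1 := De_tail (f := g) (g := Kg M) (a := M1) (B := CU * L ^ 2)
      (A := Real.exp (-(M1 ^ 2 / (2 * M ^ 2)))) (κ := M1 / M ^ 2) (Real.exp_pos _).le (by positivity) hν
      hg0 hQi (fun x hx => by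
        have h5 := intervalIntegral.integral_mono_on (a := x) (b := x + 1) (by linarith) (hQi _ _)
          (_root_.intervalIntegrable_const (c := CU * L ^ 2)) (fun u _ => hgC u)
        rw [intervalIntegral.integral_const, add_sub_cancel_left, one_smul] at h5
        exact h5) hKc (by
        intro n u hu
        unfold Kg
        rw [← Real.exp_nat_mul, ← Real.exp_add]
        apply Real.exp_le_exp.2
        have hn : (0 : ℝ) ≤ n := Nat.cast_nonneg n
        have h2 : (M1 + n) ^ 2 ≤ u ^ 2 := by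
          apply pow_le_pow_left₀ (by positivity) hu
        have h3 : M1 ^ 2 + 2 * (M1 * n) ≤ u ^ 2 := by nlinarith
        have h4 : (M1 ^ 2 + 2 * (M1 * n)) / (2 * M ^ 2) ≤ u ^ 2 / (2 * M ^ 2) :=
          div_le_div_of_nonneg_right h3 (by positivity)
        have h5 : (M1 ^ 2 + 2 * (M1 * n)) / (2 * M ^ 2) = M1 ^ 2 / (2 * M ^ 2) + n * (M1 / M ^ 2) := by
          field_simp
        linarith) (hKQ M1 hLM1)
    refine h1.trans ?_
    have hpow : M1 ^ 2 / (2 * M ^ 2) = 1 / 2 * L ^ δ := by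
      have e1 : M1 ^ 2 = M ^ 2 * L ^ δ := by
        rw [hM1def, hMdef, ← Real.rpow_natCast, ← Real.rpow_natCast, ← Real.rpow_mul hL0.le,
          ← Real.rpow_mul hL0.le, ← Real.rpow_add hL0]
        congr 1
        rw [hδd]
        push_cast
        ring
      rw [e1]
      field_simp
    have hinv : 1 / (M1 / M ^ 2) ≤ M := by
      rw [one_div_div, div_le_iff₀ hM10, pow_two]
      exact mul_le_mul_of_nonneg_left hMM1 hM0.le
    have hLk : (L ^ δ) ^ ((3 + κ') / δ) = L ^ 2 * M := by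
      rw [← Real.rpow_mul hL0.le, show δ * ((3 + κ') / δ) = ((2 : ℕ) : ℝ) + (1 + κ') by
        field_simp
        norm_num
        ring, Real.rpow_add hL0, Real.rpow_natCast]
    rw [hpow]
    rw [hLk] at hE
    have hpoly : L ^ 2 * (1 + 1 / (M1 / M ^ 2)) ≤ 2 * (L ^ 2 * M) := by
      have h6 : 1 + 1 / (M1 / M ^ 2) ≤ 2 * M := by linarith
      calc L ^ 2 * (1 + 1 / (M1 / M ^ 2)) ≤ L ^ 2 * (2 * M) :=
            mul_le_mul_of_nonneg_left h6 (by positivity)
        _ = 2 * (L ^ 2 * M) := by ring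
    have hEx : Real.exp (-(1 / 2 * L ^ δ)) = Real.exp (-(1 / 2) * L ^ δ) := by
      congr 1
      ring
    rw [hEx]
    calc Real.exp (-(1 / 2) * L ^ δ) * (CU * L ^ 2) * (1 + 1 / (M1 / M ^ 2))
        = CU * Real.exp (-(1 / 2) * L ^ δ) * (L ^ 2 * (1 + 1 / (M1 / M ^ 2))) := by ring
      _ ≤ CU * Real.exp (-(1 / 2) * L ^ δ) * (2 * (L ^ 2 * M)) :=
          mul_le_mul_of_nonneg_left hpoly (by positivity)
      _ = 2 * CU * (L ^ 2 * M * Real.exp (-(1 / 2) * L ^ δ)) := by ring
      _ ≤ 2 * CU * (1 / (2 * CU + 1)) := mul_le_mul_of_nonneg_left hE (by positivity)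
      _ ≤ 1 := by
          rw [mul_one_div, div_le_one (by positivity)]
          linarith
  -- splitting
  have hsplit := intervalIntegral.integral_Ioi_sub_Ioi (hKf L le_rfl) hLM1
  have htf : -(∫ u in Ioi M1, Kg M u * (L - cF - g u)) ≤ 1 := by
    refine le_trans ?_ htail
    rw [← integral_neg]
    refine setIntegral_mono_on (hKf M1 hLM1).neg (hKQ M1 hLM1) measurableSet_Ioi fun u _ => ?_
    have h5 : 0 ≤ Kg M u * (L - cF) := mul_nonneg (hK0 u) (by linarith)
    show -(Kg M u * (L - cF - g u)) ≤ Kg M u * g u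
    linarith
  have hpt : ∀ u ∈ Icc L M1, Kg M u * |L - cF - g u| ≤
      Kg M u * (L - cF - g u) + 2 * max (g u - (L - cF)) 0 := by
    intro u hu
    have h7 := De_abs (L - cF) (g u)
    have hD0 : 0 ≤ max (g u - (L - cF)) 0 := le_max_right _ _
    have h9 : Kg M u * (2 * max (g u - (L - cF)) 0) ≤ 1 * (2 * max (g u - (L - cF)) 0) :=
      mul_le_mul_of_nonneg_right (hK1 u) (by linarith)
    rw [h7, mul_add]
    linarith
  have hint := intervalIntegral.integral_mono_on hLM1 (hi2 _ _) (hi1.add (hi3.const_mul 2)) hpt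
  have hadd : (∫ u in L..M1, (Kg M u * (L - cF - g u) + 2 * max (g u - (L - cF)) 0)) =
      (∫ u in L..M1, Kg M u * (L - cF - g u)) + 2 * ∫ u in L..M1, max (g u - (L - cF)) 0 := by
    rw [intervalIntegral.integral_add hi1 (hi3.const_mul _), intervalIntegral.integral_const_mul]
  have hquart : L ^ 4 / (6 * M ^ 2) = 1 / 6 * L ^ (2 - 2 * κ') := by
    have e1 : L ^ 4 = L ^ (2 - 2 * κ') * M ^ 2 := by
      rw [hMdef, ← Real.rpow_natCast (L ^ (1 + κ')), ← Real.rpow_mul hL0.le,
        ← Real.rpow_add hL0, ← Real.rpow_natCast]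
      congr 1
      push_cast
      ring
    rw [e1]
    field_simp
  -- restriction to [L, M]
  have hLM' : (∫ u in L..M, Kg M u * |L - cF - g u|) ≤ ∫ u in L..M1, Kg M u * |L - cF - g u| := by
    rw [← intervalIntegral.integral_add_adjacent_intervals (hi2 L M) (hi2 M M1)]
    have : 0 ≤ ∫ u in M..M1, Kg M u * |L - cF - g u| :=
      intervalIntegral.integral_nonneg hMM1 fun u _ => mul_nonneg (hK0 u) (abs_nonneg _)
    linarith
  have hlow : (∫ u in L..M, |L - cF - g u|) ≤
      E2 * ∫ u in L..M, Kg M u * |L - cF - g u| := by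
    rw [← intervalIntegral.integral_const_mul]
    refine intervalIntegral.integral_mono_on hLM (hqi _ _).abs ((hi2 _ _).const_mul _) fun u hu => ?_
    have hu0 : 0 ≤ u := hL0.le.trans hu.1
    have h5 : Real.exp (-(1 / 2)) ≤ Kg M u := by
      unfold Kg
      apply Real.exp_le_exp.2
      have h6 : u ^ 2 ≤ M ^ 2 := pow_le_pow_left₀ hu0 hu.2 2
      have h7 : u ^ 2 / (2 * M ^ 2) ≤ 1 / 2 := by
        rw [div_le_iff₀ (by positivity)]
        linarith
      linarith
    have h6 : 1 ≤ E2 * Kg M u := by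
      have h7 : E2 * Real.exp (-(1 / 2)) = 1 := by
        rw [hE2, ← Real.exp_add]
        simp
      calc (1 : ℝ) = E2 * Real.exp (-(1 / 2)) := h7.symm
        _ ≤ E2 * Kg M u := mul_le_mul_of_nonneg_left h5 hE20.le
    have h7 := mul_le_mul_of_nonneg_right h6 (abs_nonneg (L - cF - g u))
    rw [one_mul, mul_assoc] at h7
    exact h7
  have hE1 : (1 : ℝ) ≤ E2 := by
    rw [hE2, ← Real.exp_zero]
    exact Real.exp_le_exp.2 (by norm_num)
  have hN0 : 0 ≤ M / T * NC T (1 / M) :=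
    mul_nonneg (by positivity) (NC_nonneg (by positivity))
  have hN1 : M / T * NC T (1 / M) ≤ E2 * (M / T * NC T (1 / M)) := by
    nlinarith
  have hsum : (∫ u in L..M, Kg M u * |L - cF - g u|) + M / T * NC T (1 / M) ≤ 5 * (η * L) := by
    have hA : (∫ u in L..M1, Kg M u * |L - cF - g u|) ≤
        (∫ u in L..M1, Kg M u * (L - cF - g u)) + 2 * ∫ u in L..M1, max (g u - (L - cF)) 0 := by
      rw [← hadd]
      exact hint
    have hB : (∫ u in L..M1, Kg M u * (L - cF - g u)) ≤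
        (∫ u in Ioi L, Kg M u * (L - cF - g u)) + 1 := by
      rw [← hsplit]
      linarith
    have hD : (∫ u in L..M, Kg M u * |L - cF - g u|) + M / T * NC T (1 / M) ≤
        L ^ 4 / (6 * M ^ 2) + η * L + 1 + 2 * (η * L) := by
      linarith
    rw [hquart] at hD
    have hηP : 0 < η * L := lt_of_lt_of_le zero_lt_one ha3
    linarith
  have hfin : E2 * (5 * (η * L)) = ε * L := by
    rw [hηd]
    have : E2 * 5 ≠ 0 := by positivity
    field_simp
  calc (∫ u in L..M, |L - cF - g u|) + M / T * NC T (1 / M)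
      ≤ E2 * (∫ u in L..M, Kg M u * |L - cF - g u|) +
          E2 * (M / T * NC T (1 / M)) := add_le_add hlow hN1
    _ = E2 * ((∫ u in L..M, Kg M u * |L - cF - g u|) + M / T * NC T (1 / M)) := by ring
    _ ≤ E2 * (5 * (η * L)) := mul_le_mul_of_nonneg_left hsum hE20.le
    _ = ε * L := hfin

end Pool.Agent.Lib.MP_00e05b_nt.UH
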