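import Pool.Agent.Lib.MP_2a816b_nt.TA.Kap
import Pool.Agent.Lib.MP_2a816b_nt.TA.GDefs
import Pool.Agent.Lib.MP_00e05b_nt.Mont.BasB
import Pool.Agent.Lib.MP_00e05b_nt.Mont.BasA

/-!
# The strong pair correlation conjecture from its upper half in mean: definitions

`L = log T`, `cF = 1 + log 2π`; the density of the zeros at height `T` is `(L - cF)/2π` on average over `(0, T]`.
Imported notation: `FF α T = F(α, T)`, `SS T v = ∑ m_γ e^(iγv)`, `Kg M x = e^(-x²/(2M²))`, `NC T δ` (close pairs), `AA`, `PP`, `EB`.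
-/

open Complex Set Filter Topology MeasureTheory

namespace Pool.Agent.Lib.MP_00e05b_nt.UH

open Pool.Agent.Lib.MP_00e05b_nt Pool.Agent.Lib.MP_00e05b_nt.Mont Pool.Agent.Lib.MP_2a816b_nt.TA

noncomputable def cF : ℝ := 1 + Real.log (2 * Real.pi)

/-- `Ph W T y = (2π/T) ∫ W(u - y)² |SS T u|² du` -/
noncomputable def Ph (W : ℝ → ℝ) (T y : ℝ) : ℝ := 2 * Real.pi / T * ∫ u, W (u - y) ^ 2 * ‖SS T u‖ ^ 2

/-- the diagonal prime sum -/
noncomputable def fW (W : ℝ → ℝ) (y : ℝ) : ℝ :=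
  ∑' n : ℕ, (ArithmeticFunction.vonMangoldt n * Real.exp (-(Real.log n / 2)) * W (Real.log n - y)) ^ 2

/-- the kernel `1_[-L, L] * e^(-2|.|)` -/
noncomputable def chi (L v : ℝ) : ℝ := ∫ w in (-L)..L, Real.exp (-(2 * |v - w|))

/-- `1_[-Y, Y] * W²` -/
noncomputable def cv (W : ℝ → ℝ) (Y v : ℝ) : ℝ := ∫ y in (-Y)..Y, W (v - y) ^ 2

/-- the upper half in mean, in the variable `u = α log T` -/
def PFu (κ : ℝ) : Prop := ∀ ε : ℝ, 0 < ε → ∀ᶠ T : ℝ in atTop,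
  ∫ u in (Real.log T)..(Real.log T ^ (1 + κ)), max (Real.log T * FF (u / Real.log T) T - (Real.log T - cF)) 0 ≤ ε * Real.log T

end Pool.Agent.Lib.MP_00e05b_nt.UH
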