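import Pool.Agent.Lib.MP_00e05b_nt.UH.Maj

open Complex Set Filter Topology MeasureTheory

namespace Pool.Agent.Lib.MP_00e05b_nt.UH

open Pool.Agent.Lib.MP_00e05b_nt Pool.Agent.Lib.MP_00e05b_nt.Mont Pool.Agent.Lib.MP_2a816b_nt.TA

/-- the square of the absolute value of a Dirichlet polynomial -/
private theorem Mv_sq (S : Finset ℕ) (a : ℕ → ℝ) (t : ℝ) :
    ‖∑ n ∈ S, (a n : ℂ) * cexp (((-(t * Real.log n) : ℝ) : ℂ) * I)‖ ^ 2 =
      ∑ n ∈ S, ∑ m ∈ S, a n * a m * Real.cos ((Real.log n - Real.log m) * t) := by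
  have hre : (∑ n ∈ S, (a n : ℂ) * cexp (((-(t * Real.log n) : ℝ) : ℂ) * I)).re =
      ∑ n ∈ S, a n * Real.cos (t * Real.log n) := by
    rw [Complex.re_sum]
    refine Finset.sum_congr rfl fun n _ => ?_
    rw [Complex.re_ofReal_mul, Complex.exp_ofReal_mul_I_re, Real.cos_neg]
  have him : (∑ n ∈ S, (a n : ℂ) * cexp (((-(t * Real.log n) : ℝ) : ℂ) * I)).im =
      -∑ n ∈ S, a n * Real.sin (t * Real.log n) := by
    rw [Complex.im_sum, ← Finset.sum_neg_distrib]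
    refine Finset.sum_congr rfl fun n _ => ?_
    rw [Complex.im_ofReal_mul, Complex.exp_ofReal_mul_I_im, Real.sin_neg]
    ring
  rw [← Complex.normSq_eq_norm_sq, Complex.normSq_apply, hre, him, neg_mul_neg, Finset.sum_mul_sum,
    Finset.sum_mul_sum, ← Finset.sum_add_distrib]
  refine Finset.sum_congr rfl fun n _ => ?_
  rw [← Finset.sum_add_distrib]
  refine Finset.sum_congr rfl fun m _ => ?_
  have h : (Real.log n - Real.log m) * t = t * Real.log n - t * Real.log m := by ring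
  rw [h, Real.cos_sub]
  ring

private theorem Mv_int {m : ℝ → ℝ} (hm : Integrable m) (ω : ℝ) : Integrable (fun t => m t * Real.cos (ω * t)) := by
  refine Integrable.mono hm (hm.aestronglyMeasurable.mul (by fun_prop : Continuous fun t : ℝ =>
    Real.cos (ω * t)).aestronglyMeasurable) (Eventually.of_forall fun t => ?_)
  rw [norm_mul]
  exact mul_le_of_le_one_right (norm_nonneg _) (Real.abs_cos_le_one _)

/-- near pairs -/
private theorem Mv_near {X δ : ℝ} (hX : 1 ≤ X) (hδ : 0 < δ) (hδ1 : δ ≤ 1) {n m : ℕ} (hn : 1 ≤ n) (hnX : (n : ℝ) ≤ X)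
    (hnm : n ≤ m) (h : |Real.log n - Real.log m| < δ) : ((m - n : ℕ) : ℝ) ≤ 2 * X * δ := by
  have hn0 : (0 : ℝ) < n := by exact_mod_cast hn
  have hm0 : (0 : ℝ) < m := by exact_mod_cast (lt_of_lt_of_le hn hnm)
  have h1 : Real.log m - Real.log n < δ := by
    have := (abs_lt.1 h).1
    linarith
  have h2 : (m : ℝ) < n * Real.exp δ := by
    have h3 : Real.log m < Real.log (n * Real.exp δ) := by
      rw [Real.log_mul hn0.ne' (Real.exp_pos δ).ne', Real.log_exp]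
      linarith
    exact (Real.log_lt_log_iff hm0 (by positivity)).1 h3
  have h4 : Real.exp δ ≤ 1 + 2 * δ := by
    have h5 := Real.abs_exp_sub_one_le (x := δ) (by rw [abs_of_pos hδ]; exact hδ1)
    rw [abs_of_pos hδ] at h5
    linarith [(abs_le.1 h5).2]
  rw [Nat.cast_sub hnm]
  have h6 : (n : ℝ) * Real.exp δ ≤ n * (1 + 2 * δ) := mul_le_mul_of_nonneg_left h4 hn0.le
  have h7 : (n : ℝ) * (2 * δ) ≤ X * (2 * δ) := mul_le_mul_of_nonneg_right hnX (by positivity)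
  linarith

/-- LEAF Mv (a). `majorant` with `δ = 1/(ηT)`: `∫_0^T |D|² ≤ ∫ m |D|² = ∑_n ∑_m a_n a_m ∫ m(t) cos(t (log n - log m)) dt`; the integral is at most
`∫ m ≤ T (1 + C η)`, and vanishes unless `|log n - log m| < δ ≤ 1`, when `|n - m| ≤ 2 X δ` (`e^δ - 1 ≤ 2δ`). -/
theorem mvK : ∃ C : ℝ, 0 ≤ C ∧ ∀ (S : Finset ℕ) (a : ℕ → ℝ) (X T η : ℝ), 1 ≤ X → 0 < T → 0 < η → 1 ≤ η * T →
    (∀ n, 0 ≤ a n) → (∀ n, n ∉ S → a n = 0) → (∀ n ∈ S, 1 ≤ n ∧ (n : ℝ) ≤ X) →
    ∫ t in (0 : ℝ)..T, ‖∑ n ∈ S, (a n : ℂ) * cexp (((-(t * Real.log n) : ℝ) : ℂ) * I)‖ ^ 2 ≤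
      T * (1 + C * η) * (∑ n ∈ S, a n ^ 2 + 2 * ∑ k ∈ Finset.Icc 1 ⌊2 * X / (η * T)⌋₊, ∑ n ∈ S, a n * a (n + k)) := by
  obtain ⟨C, hC0, hC⟩ := majorant
  refine ⟨C, hC0, fun S a X T η hX hT hη hηT ha hS hSX => ?_⟩
  have hηT0 : 0 < η * T := by positivity
  set δ : ℝ := 1 / (η * T) with hδdef
  have hδ : 0 < δ := by positivity
  have hδ1 : δ ≤ 1 := by
    rw [hδdef, div_le_one hηT0]
    exact hηT
  obtain ⟨m, hmc, hmi, hm0, hm1, hmI, hmω⟩ := hC T δ hT hδ
  set K : ℕ := ⌊2 * X / (η * T)⌋₊ with hK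
  have hIm0 : 0 ≤ ∫ t, m t := integral_nonneg hm0
  have hIm : (∫ t, m t) ≤ T * (1 + C * η) := by
    refine hmI.trans (le_of_eq ?_)
    rw [hδdef]
    field_simp
  set J : ℝ → ℝ := fun ω => ∫ t, m t * Real.cos (ω * t) with hJ
  have hJle : ∀ ω, J ω ≤ ∫ t, m t := by
    intro ω
    refine integral_mono (Mv_int hmi ω) hmi fun t => ?_
    exact mul_le_of_le_one_right (hm0 t) (Real.cos_le_one _)
  -- step 1: the majorant
  have hGi : ∀ t, ‖∑ n ∈ S, (a n : ℂ) * cexp (((-(t * Real.log n) : ℝ) : ℂ) * I)‖ ^ 2 =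
      ∑ n ∈ S, ∑ m ∈ S, a n * a m * Real.cos ((Real.log n - Real.log m) * t) := fun t => Mv_sq S a t
  have hexp : ∀ t, m t * ‖∑ n ∈ S, (a n : ℂ) * cexp (((-(t * Real.log n) : ℝ) : ℂ) * I)‖ ^ 2 =
      ∑ n ∈ S, ∑ l ∈ S, a n * a l * (m t * Real.cos ((Real.log n - Real.log l) * t)) := by
    intro t
    rw [hGi t, Finset.mul_sum]
    refine Finset.sum_congr rfl fun n _ => ?_
    rw [Finset.mul_sum]
    refine Finset.sum_congr rfl fun l _ => ?_
    ring
  have hint : Integrable (fun t => m t * ‖∑ n ∈ S, (a n : ℂ) * cexp (((-(t * Real.log n) : ℝ) : ℂ) * I)‖ ^ 2) := by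
    simp only [hexp]
    exact integrable_finsetSum _ fun n _ => integrable_finsetSum _ fun l _ => (Mv_int hmi _).const_mul _
  have h1 : ∫ t in (0 : ℝ)..T, ‖∑ n ∈ S, (a n : ℂ) * cexp (((-(t * Real.log n) : ℝ) : ℂ) * I)‖ ^ 2 ≤
      ∫ t, m t * ‖∑ n ∈ S, (a n : ℂ) * cexp (((-(t * Real.log n) : ℝ) : ℂ) * I)‖ ^ 2 := by
    rw [intervalIntegral.integral_of_le hT.le]
    have hcont : Continuous fun t : ℝ => ‖∑ n ∈ S, (a n : ℂ) * cexp (((-(t * Real.log n) : ℝ) : ℂ) * I)‖ ^ 2 := by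
      simp only [hGi]
      fun_prop
    refine (setIntegral_mono_on (hcont.integrableOn_Ioc) hint.integrableOn measurableSet_Ioc fun t ht => ?_).trans
      (setIntegral_le_integral hint (Eventually.of_forall fun t => mul_nonneg (hm0 t) (sq_nonneg _)))
    exact le_mul_of_one_le_left (sq_nonneg _) (hm1 t ht.1.le ht.2)
  have h2 : ∫ t, m t * ‖∑ n ∈ S, (a n : ℂ) * cexp (((-(t * Real.log n) : ℝ) : ℂ) * I)‖ ^ 2 =
      ∑ n ∈ S, ∑ l ∈ S, a n * a l * J (Real.log n - Real.log l) := by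
    simp only [hexp]
    rw [integral_finsetSum _ fun n _ => integrable_finsetSum _ fun l _ => (Mv_int hmi _).const_mul _]
    refine Finset.sum_congr rfl fun n _ => ?_
    rw [integral_finsetSum _ fun l _ => (Mv_int hmi _).const_mul _]
    refine Finset.sum_congr rfl fun l _ => ?_
    rw [integral_const_mul]
  -- step 2: near pairs
  have h3 : ∀ n ∈ S, ∀ l ∈ S, a n * a l * J (Real.log n - Real.log l) ≤
      (∫ t, m t) * (a n * a l * ((if l = n then (1 : ℝ) else 0) +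
        ∑ k ∈ Finset.Icc 1 K, ((if l = n + k then (1 : ℝ) else 0) + (if n = l + k then (1 : ℝ) else 0)))) := by
    intro n hn l hl
    have hal : 0 ≤ a n * a l := mul_nonneg (ha n) (ha l)
    have hsum0 : (0 : ℝ) ≤ ∑ k ∈ Finset.Icc 1 K, ((if l = n + k then (1 : ℝ) else 0) + (if n = l + k then (1 : ℝ) else 0)) :=
      Finset.sum_nonneg fun k _ => add_nonneg (by split_ifs <;> norm_num) (by split_ifs <;> norm_num)
    have hif0 : (0 : ℝ) ≤ (if l = n then (1 : ℝ) else 0) := by split_ifs <;> norm_num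
    by_cases hfar : δ ≤ |Real.log n - Real.log l|
    · have : J (Real.log n - Real.log l) = 0 := hmω _ hfar
      rw [this, mul_zero]
      positivity
    · have hnear := not_le.1 hfar
      have hone : (1 : ℝ) ≤ (if l = n then (1 : ℝ) else 0) +
          ∑ k ∈ Finset.Icc 1 K, ((if l = n + k then (1 : ℝ) else 0) + (if n = l + k then (1 : ℝ) else 0)) := by
        have hterm : ∀ k ∈ Finset.Icc 1 K, (0 : ℝ) ≤ ((if l = n + k then (1 : ℝ) else 0) + (if n = l + k then (1 : ℝ) else 0)) :=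
          fun k _ => add_nonneg (by split_ifs <;> norm_num) (by split_ifs <;> norm_num)
        have hXδ : 2 * X * δ = 2 * X / (η * T) := by
          rw [hδdef]
          ring
        rcases lt_trichotomy n l with h | h | h
        · have h5 := Mv_near hX hδ hδ1 (hSX n hn).1 (hSX n hn).2 h.le hnear
          rw [hXδ] at h5
          have h6 : l - n ≤ K := Nat.le_floor h5
          have h7 : l - n ∈ Finset.Icc 1 K := Finset.mem_Icc.2 ⟨by omega, h6⟩
          have h8 := Finset.single_le_sum hterm h7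
          rw [if_pos (by omega : l = n + (l - n))] at h8
          have h9 : (0 : ℝ) ≤ (if n = l + (l - n) then (1 : ℝ) else 0) := by split_ifs <;> norm_num
          linarith
        · rw [if_pos h.symm]
          linarith
        · have h5 := Mv_near hX hδ hδ1 (hSX l hl).1 (hSX l hl).2 h.le (by rw [abs_sub_comm]; exact hnear)
          rw [hXδ] at h5
          have h6 : n - l ≤ K := Nat.le_floor h5
          have h7 : n - l ∈ Finset.Icc 1 K := Finset.mem_Icc.2 ⟨by omega, h6⟩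
          have h8 := Finset.single_le_sum hterm h7
          rw [if_pos (by omega : n = l + (n - l))] at h8
          have h9 : (0 : ℝ) ≤ (if l = n + (n - l) then (1 : ℝ) else 0) := by split_ifs <;> norm_num
          linarith
      calc a n * a l * J (Real.log n - Real.log l) ≤ a n * a l * ∫ t, m t := mul_le_mul_of_nonneg_left (hJle _) hal
        _ = (∫ t, m t) * (a n * a l * 1) := by ring
        _ ≤ _ := mul_le_mul_of_nonneg_left (mul_le_mul_of_nonneg_left hone hal) hIm0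
  have h4 : ∑ n ∈ S, ∑ l ∈ S, (a n * a l * ((if l = n then (1 : ℝ) else 0) +
        ∑ k ∈ Finset.Icc 1 K, ((if l = n + k then (1 : ℝ) else 0) + (if n = l + k then (1 : ℝ) else 0)))) =
      ∑ n ∈ S, a n ^ 2 + 2 * ∑ k ∈ Finset.Icc 1 K, ∑ n ∈ S, a n * a (n + k) := by
    have hpick : ∀ q : ℕ, ∑ l ∈ S, a l * (if l = q then (1 : ℝ) else 0) = a q := by
      intro q
      simp only [mul_ite, mul_one, mul_zero]
      rw [Finset.sum_ite_eq']
      split_ifs with h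
      · rfl
      · exact (hS q h).symm
    have e1 : ∀ n l : ℕ, a n * a l * ((if l = n then (1 : ℝ) else 0) +
        ∑ k ∈ Finset.Icc 1 K, ((if l = n + k then (1 : ℝ) else 0) + (if n = l + k then (1 : ℝ) else 0))) =
        a n * (a l * (if l = n then (1 : ℝ) else 0)) + (∑ k ∈ Finset.Icc 1 K, a n * (a l * (if l = n + k then (1 : ℝ) else 0)) +
          ∑ k ∈ Finset.Icc 1 K, a l * (a n * (if n = l + k then (1 : ℝ) else 0))) := by
      intro n l
      rw [mul_add, Finset.sum_add_distrib, mul_add, Finset.mul_sum, Finset.mul_sum]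
      congr 1
      · ring
      · congr 1
        · exact Finset.sum_congr rfl fun k _ => by ring
        · exact Finset.sum_congr rfl fun k _ => by ring
    rw [Finset.sum_congr rfl fun n _ => Finset.sum_congr rfl fun l _ => e1 n l]
    simp only [Finset.sum_add_distrib]
    have t1 : ∑ n ∈ S, ∑ l ∈ S, a n * (a l * (if l = n then (1 : ℝ) else 0)) = ∑ n ∈ S, a n ^ 2 := by
      refine Finset.sum_congr rfl fun n _ => ?_
      rw [← Finset.mul_sum, hpick]
      ring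
    have t2 : ∑ n ∈ S, ∑ l ∈ S, ∑ k ∈ Finset.Icc 1 K, a n * (a l * (if l = n + k then (1 : ℝ) else 0)) =
        ∑ k ∈ Finset.Icc 1 K, ∑ n ∈ S, a n * a (n + k) := by
      have : ∀ n ∈ S, ∑ l ∈ S, ∑ k ∈ Finset.Icc 1 K, a n * (a l * (if l = n + k then (1 : ℝ) else 0)) =
          ∑ k ∈ Finset.Icc 1 K, a n * a (n + k) := by
        intro n _
        rw [Finset.sum_comm]
        refine Finset.sum_congr rfl fun k _ => ?_
        rw [← Finset.mul_sum, hpick]
      rw [Finset.sum_congr rfl this, Finset.sum_comm]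
    have t3 : ∑ n ∈ S, ∑ l ∈ S, ∑ k ∈ Finset.Icc 1 K, a l * (a n * (if n = l + k then (1 : ℝ) else 0)) =
        ∑ k ∈ Finset.Icc 1 K, ∑ n ∈ S, a n * a (n + k) := by
      rw [Finset.sum_comm]
      exact t2
    rw [t1, t2, t3]
    ring
  have h5 : (0 : ℝ) ≤ ∑ n ∈ S, a n ^ 2 + 2 * ∑ k ∈ Finset.Icc 1 K, ∑ n ∈ S, a n * a (n + k) := by
    have : (0 : ℝ) ≤ ∑ k ∈ Finset.Icc 1 K, ∑ n ∈ S, a n * a (n + k) :=
      Finset.sum_nonneg fun k _ => Finset.sum_nonneg fun n _ => mul_nonneg (ha _) (ha _)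
    have h' : (0 : ℝ) ≤ ∑ n ∈ S, a n ^ 2 := Finset.sum_nonneg fun n _ => sq_nonneg _
    linarith
  calc ∫ t in (0 : ℝ)..T, ‖∑ n ∈ S, (a n : ℂ) * cexp (((-(t * Real.log n) : ℝ) : ℂ) * I)‖ ^ 2
      ≤ ∑ n ∈ S, ∑ l ∈ S, a n * a l * J (Real.log n - Real.log l) := h1.trans (le_of_eq h2)
    _ ≤ ∑ n ∈ S, ∑ l ∈ S, (∫ t, m t) * (a n * a l * ((if l = n then (1 : ℝ) else 0) +
        ∑ k ∈ Finset.Icc 1 K, ((if l = n + k then (1 : ℝ) else 0) + (if n = l + k then (1 : ℝ) else 0)))) :=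
        Finset.sum_le_sum fun n hn => Finset.sum_le_sum fun l hl => h3 n hn l hl
    _ = (∫ t, m t) * (∑ n ∈ S, a n ^ 2 + 2 * ∑ k ∈ Finset.Icc 1 K, ∑ n ∈ S, a n * a (n + k)) := by
        rw [← h4, Finset.mul_sum]
        refine Finset.sum_congr rfl fun n _ => ?_
        rw [Finset.mul_sum]
    _ ≤ _ := mul_le_mul_of_nonneg_right hIm h5

/-- LEAF Mv (b): `η = 3X/T` in (a): no off-diagonal terms. -/
theorem mv3 : ∃ C : ℝ, 0 ≤ C ∧ ∀ (S : Finset ℕ) (a : ℕ → ℝ) (X T : ℝ), 1 ≤ X → 0 < T →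
    (∀ n, 0 ≤ a n) → (∀ n, n ∉ S → a n = 0) → (∀ n ∈ S, 1 ≤ n ∧ (n : ℝ) ≤ X) →
    ∫ t in (0 : ℝ)..T, ‖∑ n ∈ S, (a n : ℂ) * cexp (((-(t * Real.log n) : ℝ) : ℂ) * I)‖ ^ 2 ≤
      (T + C * X) * ∑ n ∈ S, a n ^ 2 := by
  obtain ⟨C, hC0, hC⟩ := mvK
  refine ⟨3 * C, by positivity, fun S a X T hX hT ha hS hSX => ?_⟩
  have hX0 : 0 < X := by linarith
  have h := hC S a X T (3 * X / T) hX hT (by positivity) (by
    rw [div_mul_cancel₀ _ hT.ne']
    linarith) ha hS hSX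
  have e1 : 2 * X / (3 * X / T * T) = 2 / 3 := by
    rw [div_mul_cancel₀ _ hT.ne']
    field_simp
  have e2 : ⌊(2 : ℝ) / 3⌋₊ = 0 := by
    rw [Nat.floor_eq_zero]
    norm_num
  rw [e1, e2] at h
  have e3 : Finset.Icc 1 0 = (∅ : Finset ℕ) := rfl
  rw [e3, Finset.sum_empty, mul_zero, add_zero] at h
  refine h.trans (le_of_eq ?_)
  congr 1
  field_simp

end Pool.Agent.Lib.MP_00e05b_nt.UH
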