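import Pool.Agent.Lib.MP_00e05b_nt.UH.Defs
import Pool.Agent.Lib.MP_42948a_nt.EX.C2

open Complex Set Filter Topology MeasureTheory

namespace Pool.Agent.Lib.MP_00e05b_nt.UH

open Pool.Agent.Lib.MP_00e05b_nt Pool.Agent.Lib.MP_00e05b_nt.Mont Pool.Agent.Lib.MP_2a816b_nt.TA

section sieve

open Pool.Agent.Lib.MP_42948a_nt

/-- one class -/
private theorem Tw_base (m : ℕ) (hm : 0 < m) (v N : ℕ) :
    |(((Finset.Ioc 0 N).filter (fun n : ℕ => n ≡ v [MOD m])).card : ℝ) - (N : ℝ) / m| ≤ 1 := by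
  obtain ⟨K, hK⟩ : ∃ K : ℕ, K = ((Finset.Ioc 0 N).filter (fun n : ℕ => n ≡ v [MOD m])).card := ⟨_, rfl⟩
  rw [← hK]
  have hc := Nat.Ioc_filter_modEq_card 0 N hm v
  rw [← hK] at hc
  obtain ⟨A, hA⟩ : ∃ A : ℤ, A = ⌊((N : ℚ) - v) / m⌋ := ⟨_, rfl⟩
  obtain ⟨B, hB⟩ : ∃ B : ℤ, B = ⌊(((0 : ℕ) : ℚ) - v) / m⌋ := ⟨_, rfl⟩
  rw [← hA, ← hB] at hc
  have hd0 : (0 : ℚ) < m := by exact_mod_cast hm
  have hN0 : (0 : ℚ) ≤ N := Nat.cast_nonneg N
  have hA1 : (A : ℚ) ≤ ((N : ℚ) - v) / m := by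
    rw [hA]
    exact Int.floor_le _
  have hA2 : ((N : ℚ) - v) / m < A + 1 := by
    rw [hA]
    exact Int.lt_floor_add_one _
  have hB1 : (B : ℚ) ≤ (((0 : ℕ) : ℚ) - v) / m := by
    rw [hB]
    exact Int.floor_le _
  have hB2 : (((0 : ℕ) : ℚ) - v) / m < B + 1 := by
    rw [hB]
    exact Int.lt_floor_add_one _
  have hAB : B ≤ A := by
    rw [hA, hB]
    apply Int.floor_le_floor
    apply div_le_div_of_nonneg_right _ hd0.le
    push_cast
    linarith
  rw [max_eq_left (by omega)] at hc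
  have hKq : (K : ℚ) = A - B := by exact_mod_cast hc
  have e1 : ((N : ℚ) - v) / m = (N : ℚ) / m - (v : ℚ) / m := by ring
  have e2 : (((0 : ℕ) : ℚ) - v) / m = - ((v : ℚ) / m) := by push_cast; ring
  rw [e1] at hA1 hA2
  rw [e2] at hB1 hB2
  have h1 : (K : ℚ) - (N : ℚ) / m ≤ 1 := by rw [hKq]; linarith
  have h2 : -1 ≤ (K : ℚ) - (N : ℚ) / m := by rw [hKq]; linarith
  rw [abs_le]
  constructor
  · have := (Rat.cast_le (K := ℝ)).2 h2
    push_cast at this
    exact this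
  · have := (Rat.cast_le (K := ℝ)).2 h1
    push_cast at this
    exact this

/-- number of roots of `n (n + k)` mod `p` -/
private noncomputable def Tw_r (k p : ℕ) : ℝ := if p ∣ k then 1 else 2

private theorem Tw_r_pos (k p : ℕ) : 0 < Tw_r k p := by
  unfold Tw_r
  split_ifs <;> norm_num

private theorem Tw_r_le (k p : ℕ) : Tw_r k p ≤ 2 := by
  unfold Tw_r
  split_ifs <;> norm_num

/-- counting solutions of `n (n + k) ≡ 0` modulo all `p ∈ T` in a residue class mod `m` -/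
private theorem Tw_cnt (k N : ℕ) (T : Finset ℕ) : (∀ p ∈ T, p.Prime) → ∀ m v : ℕ, 0 < m →
    (∀ p ∈ T, ¬ p ∣ m) →
    |(((Finset.Ioc 0 N).filter (fun n : ℕ => n ≡ v [MOD m] ∧ ∀ p ∈ T, p ∣ n * (n + k))).card : ℝ) -
      (N : ℝ) / m * ∏ p ∈ T, (Tw_r k p / p)| ≤ ∏ p ∈ T, Tw_r k p := by
  induction T using Finset.induction_on with
  | empty =>
    intro _ m v hm _
    have h := Tw_base m hm v N
    simpa using h
  | insert q T hq ih =>
    intro hT m v hm hmT
    have hqp : q.Prime := hT q (Finset.mem_insert_self q T)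
    have hT' : ∀ p ∈ T, p.Prime := fun p hp => hT p (Finset.mem_insert_of_mem hp)
    have hqm : ¬ q ∣ m := hmT q (Finset.mem_insert_self q T)
    have hcop : m.Coprime q := ((hqp.coprime_iff_not_dvd).2 hqm).symm
    have hq0 : 0 < q := hqp.pos
    have hqr : (0 : ℝ) < q := by exact_mod_cast hq0
    have hmr : (0 : ℝ) < m := by exact_mod_cast hm
    have hmq : 0 < m * q := Nat.mul_pos hm hq0
    have hmqT : ∀ p ∈ T, ¬ p ∣ m * q := by
      intro p hp h
      rcases (hT' p hp).dvd_mul.1 h with h1 | h1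
      · exact hmT p (Finset.mem_insert_of_mem hp) h1
      · have h2 : p = q := (Nat.prime_dvd_prime_iff_eq (hT' p hp) hqp).1 h1
        exact hq (h2 ▸ hp)
    -- the two classes
    obtain ⟨c, hc1, hc2⟩ := Nat.chineseRemainder hcop v 0
    obtain ⟨c', hc1', hc2'⟩ := Nat.chineseRemainder hcop v (q - k % q)
    have hqk : (q - k % q) + k ≡ 0 [MOD q] := by
      have h1 : k % q ≤ q := (Nat.mod_lt k hq0).le
      have h2 : (q - k % q) + k ≡ (q - k % q) + k % q [MOD q] :=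
        Nat.ModEq.add_left _ (Nat.mod_modEq k q).symm
      rw [Nat.sub_add_cancel h1] at h2
      exact h2.trans (Nat.modEq_zero_iff_dvd.2 (dvd_refl q))
    have hcl : ∀ n : ℕ, (n ≡ v [MOD m] ∧ q ∣ n) ↔ n ≡ c [MOD m * q] := by
      intro n
      rw [← Nat.modEq_and_modEq_iff_modEq_mul hcop]
      constructor
      · rintro ⟨h1, h2⟩
        exact ⟨h1.trans hc1.symm, (Nat.modEq_zero_iff_dvd.2 h2).trans hc2.symm⟩
      · rintro ⟨h1, h2⟩
        exact ⟨h1.trans hc1, Nat.modEq_zero_iff_dvd.1 (h2.trans hc2)⟩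
    have hcl' : ∀ n : ℕ, (n ≡ v [MOD m] ∧ q ∣ n + k) ↔ n ≡ c' [MOD m * q] := by
      intro n
      rw [← Nat.modEq_and_modEq_iff_modEq_mul hcop]
      constructor
      · rintro ⟨h1, h2⟩
        refine ⟨h1.trans hc1'.symm, ?_⟩
        have h3 : n + k ≡ (q - k % q) + k [MOD q] := (Nat.modEq_zero_iff_dvd.2 h2).trans hqk.symm
        exact (Nat.ModEq.add_right_cancel' k h3).trans hc2'.symm
      · rintro ⟨h1, h2⟩
        refine ⟨h1.trans hc1', Nat.modEq_zero_iff_dvd.1 ?_⟩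
        exact (Nat.ModEq.add_right k (h2.trans hc2')).trans hqk
    rw [Finset.prod_insert hq, Finset.prod_insert hq]
    have hm2 : (N : ℝ) / ((m * q : ℕ) : ℝ) = (N : ℝ) / m / q := by
      push_cast
      rw [div_div]
    by_cases hk : q ∣ k
    · -- one class
      have hset : (Finset.Ioc 0 N).filter (fun n : ℕ => n ≡ v [MOD m] ∧ ∀ p ∈ insert q T, p ∣ n * (n + k)) =
          (Finset.Ioc 0 N).filter (fun n : ℕ => n ≡ c [MOD m * q] ∧ ∀ p ∈ T, p ∣ n * (n + k)) := by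
        refine Finset.filter_congr fun n _ => ?_
        rw [← hcl, Finset.forall_mem_insert]
        constructor
        · rintro ⟨h1, h2, h3⟩
          refine ⟨⟨h1, ?_⟩, h3⟩
          rcases hqp.dvd_mul.1 h2 with h4 | h4
          · exact h4
          · exact (Nat.dvd_add_left hk).1 h4
        · rintro ⟨⟨h1, h2⟩, h3⟩
          exact ⟨h1, Dvd.dvd.mul_right h2 _, h3⟩
      have h := ih hT' (m * q) c hmq hmqT
      rw [hset]
      have hr : Tw_r k q = 1 := by
        unfold Tw_r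
        rw [if_pos hk]
      rw [hr, one_mul]
      rw [hm2] at h
      have e : (N : ℝ) / m * (1 / q * ∏ p ∈ T, Tw_r k p / p) = (N : ℝ) / m / q * ∏ p ∈ T, Tw_r k p / p := by
        ring
      rw [e]
      exact h
    · have hset : (Finset.Ioc 0 N).filter (fun n : ℕ => n ≡ v [MOD m] ∧ ∀ p ∈ insert q T, p ∣ n * (n + k)) =
          (Finset.Ioc 0 N).filter (fun n : ℕ => n ≡ c [MOD m * q] ∧ ∀ p ∈ T, p ∣ n * (n + k)) ∪
          (Finset.Ioc 0 N).filter (fun n : ℕ => n ≡ c' [MOD m * q] ∧ ∀ p ∈ T, p ∣ n * (n + k)) := by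
        ext n
        rw [Finset.mem_union, Finset.mem_filter, Finset.mem_filter, Finset.mem_filter, ← hcl, ← hcl',
          Finset.forall_mem_insert]
        constructor
        · rintro ⟨h0, h1, h2, h3⟩
          rcases hqp.dvd_mul.1 h2 with h4 | h4
          · exact Or.inl ⟨h0, ⟨h1, h4⟩, h3⟩
          · exact Or.inr ⟨h0, ⟨h1, h4⟩, h3⟩
        · rintro (⟨h0, ⟨h1, h2⟩, h3⟩ | ⟨h0, ⟨h1, h2⟩, h3⟩)
          · exact ⟨h0, h1, Dvd.dvd.mul_right h2 _, h3⟩
          · exact ⟨h0, h1, Dvd.dvd.mul_left h2 _, h3⟩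
      have hdisj : Disjoint
          ((Finset.Ioc 0 N).filter (fun n : ℕ => n ≡ c [MOD m * q] ∧ ∀ p ∈ T, p ∣ n * (n + k)))
          ((Finset.Ioc 0 N).filter (fun n : ℕ => n ≡ c' [MOD m * q] ∧ ∀ p ∈ T, p ∣ n * (n + k))) := by
        rw [Finset.disjoint_left]
        intro n h1 h2
        have h3 := (hcl n).2 (Finset.mem_filter.1 h1).2.1
        have h4 := (hcl' n).2 (Finset.mem_filter.1 h2).2.1
        exact hk ((Nat.dvd_add_right h3.2).1 h4.2)
      have h := ih hT' (m * q) c hmq hmqT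
      have h' := ih hT' (m * q) c' hmq hmqT
      rw [hset, Finset.card_union_of_disjoint hdisj]
      have hr : Tw_r k q = 2 := by
        unfold Tw_r
        rw [if_neg hk]
      rw [hr]
      rw [hm2] at h h'
      have e : (N : ℝ) / m * (2 / q * ∏ p ∈ T, Tw_r k p / p) = 2 * ((N : ℝ) / m / q * ∏ p ∈ T, Tw_r k p / p) := by
        ring
      rw [e]
      push_cast
      rw [abs_le] at h h' ⊢
      constructor
      · linarith [h.1, h'.1]
      · linarith [h.2, h'.2]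

/-- the sieve bound -/
private theorem Tw_sieve {K z : ℕ} {u l : Finset ℕ → ℝ} (hF : TQ.Fund 1 K z u l) (hz : 2 ≤ z) (k : ℕ)
    (hk : 1 ≤ k) (hk2 : 2 ∣ k) (N : ℕ) :
    (((Finset.Ioc 0 N).filter (fun n : ℕ => n.Prime ∧ (n + k).Prime)).card : ℝ) ≤
      z + 2 * (N * (2 ^ k * (1 / Real.log z) ^ 2)) + (z : ℝ) ^ K * (z : ℝ) ^ K := by
  classical
  set f : ℕ → ℕ := fun n => n * (n + k) with hf
  have hfi : Set.InjOn f (Finset.Ioc 0 N : Finset ℕ) := by
    intro a _ b _ hab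
    have h1 : a * (a + k) = b * (b + k) := hab
    rcases lt_trichotomy a b with h | h | h
    · nlinarith
    · exact h
    · nlinarith
  have hg : TQ.Adm z (fun p => Tw_r k p / p) := by
    intro p hp
    have hpp : p.Prime := (Finset.mem_filter.1 hp).2
    have h2 : (2 : ℝ) ≤ p := by exact_mod_cast hpp.two_le
    have h0 : (0 : ℝ) < p := by linarith
    refine ⟨div_nonneg (Tw_r_pos k p).le h0.le, ?_, ?_⟩
    · change Tw_r k p / p ≤ 3 / 4
      rw [div_le_div_iff₀ h0 (by norm_num)]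
      unfold Tw_r
      split_ifs with h
      · linarith
      · have h3 : (3 : ℝ) ≤ p := by
          have : p ≠ 2 := by
            rintro rfl
            exact h hk2
          have h4 := hpp.two_le
          exact_mod_cast (by omega : 3 ≤ p)
        linarith
    · exact div_le_div_of_nonneg_right (Tw_r_le k p) h0.le
  have hcard : ∀ (P : ℕ → Prop) [DecidablePred P], ∑ n ∈ ((Finset.Ioc 0 N).image f).filter P, (1 : ℝ) =
      (((Finset.Ioc 0 N).filter (fun n => P (f n))).card : ℝ) := by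
    intro P _
    rw [Finset.sum_const, nsmul_eq_mul, mul_one, Finset.filter_image, Finset.card_image_of_injOn]
    exact hfi.mono (by
      intro x hx
      exact (Finset.mem_filter.1 hx).1)
  have hR : ∀ T ∈ TQ.TT z K, |∑ n ∈ ((Finset.Ioc 0 N).image f).filter (fun n : ℕ => ∀ p ∈ T, p ∣ n),
      (fun _ => (1 : ℝ)) n - (N : ℝ) * ∏ p ∈ T, (fun p => Tw_r k p / p) p| ≤ (fun _ => (z : ℝ) ^ K) T := by
    intro T hT
    obtain ⟨hTs, hTp⟩ := Finset.mem_filter.1 hT
    rw [Finset.mem_powerset] at hTs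
    have hpr : ∀ p ∈ T, p.Prime := fun p hp => (Finset.mem_filter.1 (hTs hp)).2
    have h1 := Tw_cnt k N T hpr 1 0 one_pos (fun p hp h => (hpr p hp).one_lt.ne' (Nat.dvd_one.1 h))
    have h2 : (Finset.Ioc 0 N).filter (fun n : ℕ => n ≡ 0 [MOD 1] ∧ ∀ p ∈ T, p ∣ n * (n + k)) =
        (Finset.Ioc 0 N).filter (fun n => ∀ p ∈ T, p ∣ f n) := by
      refine Finset.filter_congr fun n _ => ?_
      constructor
      · exact fun h => h.2
      · exact fun h => ⟨Nat.modEq_one, h⟩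
    rw [h2, Nat.cast_one, div_one] at h1
    have hc := hcard (fun n => ∀ p ∈ T, p ∣ n)
    rw [← hc] at h1
    refine h1.trans ?_
    have h3 : ∏ p ∈ T, Tw_r k p ≤ ∏ p ∈ T, (p : ℝ) := by
      refine Finset.prod_le_prod (fun p _ => (Tw_r_pos k p).le) fun p hp => ?_
      have h4 : (2 : ℝ) ≤ p := by exact_mod_cast (hpr p hp).two_le
      exact (Tw_r_le k p).trans h4
    refine h3.trans ?_
    change ∏ p ∈ T, (p : ℝ) ≤ (z : ℝ) ^ K
    rw [← Nat.cast_prod, ← Nat.cast_pow]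
    exact Nat.cast_le.2 hTp
  have hS := (abs_le.1 (TQ.sieve2 hF ((Finset.Ioc 0 N).image f) (fun _ => 1) (fun p => Tw_r k p / p) N
    (fun _ => (z : ℝ) ^ K) (fun _ _ => zero_le_one) hg (Nat.cast_nonneg N) hR)).2
  -- the product
  have hz1 : (1 : ℝ) < z := by exact_mod_cast hz
  have hlz : 0 < Real.log z := Real.log_pos hz1
  have hV1 : ∏ p ∈ OA.PP z, (1 - 1 / (p : ℝ)) ≤ 1 / Real.log z := by
    have h1 := PS.VV_upper 1 z hz
    have h2 : TQ.VV 1 z = ∏ p ∈ OA.PP z, (1 - 1 / (p : ℝ)) := by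
      unfold TQ.VV
      refine Finset.prod_congr rfl fun p hp => ?_
      have hpp : p.Prime := (Finset.mem_filter.1 hp).2
      unfold TQ.gd
      rw [if_neg (fun h => hpp.one_lt.ne' (Nat.dvd_one.1 h))]
    rw [h2] at h1
    have h3 : (Fintype.card (ZMod 1)ˣ : ℝ) / ((1 : ℕ) : ℝ) = 1 := by
      have : Fintype.card (ZMod 1)ˣ = 1 := by
        rw [ZMod.card_units_eq_totient, Nat.totient_one]
      rw [this]
      norm_num
    rw [h3, mul_one] at h1
    exact h1
  have hV : ∏ p ∈ OA.PP z, (1 - Tw_r k p / p) ≤ 2 ^ k * (1 / Real.log z) ^ 2 := by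
    have h0 : ∀ p ∈ OA.PP z, 0 ≤ 1 - 1 / (p : ℝ) := by
      intro p hp
      have h2 : (2 : ℝ) ≤ p := by exact_mod_cast ((Finset.mem_filter.1 hp).2).two_le
      have : 1 / (p : ℝ) ≤ 1 := by
        rw [div_le_one (by linarith)]
        linarith
      linarith
    have h1 : ∏ p ∈ OA.PP z, (1 - Tw_r k p / p) ≤
        ∏ p ∈ OA.PP z, ((if p ∣ k then (2 : ℝ) else 1) * (1 - 1 / (p : ℝ)) ^ 2) := by
      refine Finset.prod_le_prod (fun p hp => ?_) fun p hp => ?_
      · have := (hg p hp).2.1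
        change Tw_r k p / p ≤ 3 / 4 at this
        linarith
      · have h2 : (2 : ℝ) ≤ p := by exact_mod_cast ((Finset.mem_filter.1 hp).2).two_le
        have h3 : 1 / (p : ℝ) ≤ 1 / 2 := one_div_le_one_div_of_le (by norm_num) h2
        have h4 : 0 < 1 / (p : ℝ) := by positivity
        unfold Tw_r
        split_ifs with h
        · nlinarith
        · have e : (2 : ℝ) / p = 2 * (1 / p) := by ring
          rw [e]
          nlinarith
    refine h1.trans ?_
    rw [Finset.prod_mul_distrib, Finset.prod_pow]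
    have h5 : ∏ p ∈ OA.PP z, (if p ∣ k then (2 : ℝ) else 1) ≤ 2 ^ k := by
      rw [Finset.prod_ite, Finset.prod_const, Finset.prod_const_one, mul_one]
      refine pow_le_pow_right₀ (by norm_num) ?_
      have h6 : (OA.PP z).filter (fun p => p ∣ k) ⊆ Finset.Icc 1 k := by
        intro p hp
        obtain ⟨h7, h8⟩ := Finset.mem_filter.1 hp
        exact Finset.mem_Icc.2 ⟨((Finset.mem_filter.1 h7).2).one_lt.le, Nat.le_of_dvd hk h8⟩
      have h7 := Finset.card_le_card h6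
      rw [Nat.card_Icc] at h7
      omega
    have h6 : (∏ p ∈ OA.PP z, (1 - 1 / (p : ℝ))) ^ 2 ≤ (1 / Real.log z) ^ 2 :=
      pow_le_pow_left₀ (Finset.prod_nonneg h0) hV1 2
    exact mul_le_mul h5 h6 (by positivity) (by positivity)
  -- the primes
  have hsub : (((Finset.Ioc 0 N).filter (fun n : ℕ => n.Prime ∧ (n + k).Prime)).card : ℝ) ≤ z +
      ∑ n ∈ ((Finset.Ioc 0 N).image f).filter (fun n : ℕ => ∀ p ∈ OA.PP z, ¬ p ∣ n), (1 : ℝ) := by
    rw [hcard (fun n => ∀ p ∈ OA.PP z, ¬ p ∣ n)]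
    have h1 : (Finset.Ioc 0 N).filter (fun n : ℕ => n.Prime ∧ (n + k).Prime) ⊆
        Finset.Icc 1 z ∪ (Finset.Ioc 0 N).filter (fun n => ∀ p ∈ OA.PP z, ¬ p ∣ f n) := by
      intro n hn
      obtain ⟨h2, h3, h4⟩ := Finset.mem_filter.1 hn
      rw [Finset.mem_union]
      by_cases h5 : n ≤ z
      · exact Or.inl (Finset.mem_Icc.2 ⟨h3.one_lt.le, h5⟩)
      · refine Or.inr (Finset.mem_filter.2 ⟨h2, fun p hp hpn => ?_⟩)
        have hpz : p ≤ z := (Finset.mem_Icc.1 (Finset.mem_filter.1 hp).1).2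
        have hpp : p.Prime := (Finset.mem_filter.1 hp).2
        rcases hpp.dvd_mul.1 hpn with h6 | h6
        · have h7 : p = n := (Nat.prime_dvd_prime_iff_eq hpp h3).1 h6
          omega
        · have h7 : p = n + k := (Nat.prime_dvd_prime_iff_eq hpp h4).1 h6
          omega
    have h2 := (Finset.card_le_card h1).trans (Finset.card_union_le _ _)
    rw [Nat.card_Icc, Nat.add_sub_cancel] at h2
    exact_mod_cast h2
  have hcardT : ∑ T ∈ TQ.TT z K, (fun _ => (z : ℝ) ^ K) T ≤ (z : ℝ) ^ K * (z : ℝ) ^ K := by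
    rw [Finset.sum_const, nsmul_eq_mul]
    exact mul_le_mul_of_nonneg_right (TQ.card_TT z K) (by positivity)
  have hNV : (N : ℝ) * ∏ p ∈ OA.PP z, (1 - (fun p => Tw_r k p / p) p) ≤ N * (2 ^ k * (1 / Real.log z) ^ 2) :=
    mul_le_mul_of_nonneg_left hV (Nat.cast_nonneg N)
  linarith [hsub, hS, hcardT, hNV]

/-- the number of prime pairs -/
private theorem Tw_pairs (k : ℕ) (hk : 1 ≤ k) : ∃ C : ℝ, 0 ≤ C ∧ ∀ᶠ x : ℝ in atTop,
    (((Finset.Ioc 0 ⌊x⌋₊).filter (fun n : ℕ => n.Prime ∧ (n + k).Prime)).card : ℝ) ≤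
      2 * Real.sqrt x + C * (x / Real.log x ^ 2) := by
  by_cases hk2 : 2 ∣ k
  · obtain ⟨K, hK⟩ := TQ.fund 1 one_pos le_rfl
    set a : ℝ := 1 / (4 * (K + 1)) with ha
    have hK0 : (0 : ℝ) ≤ K := Nat.cast_nonneg K
    have ha0 : 0 < a := by positivity
    have ha1 : a ≤ 1 / 2 := by
      rw [ha, div_le_div_iff₀ (by positivity) (by norm_num)]
      linarith
    have haK : a * (K + K) ≤ 1 / 2 := by
      rw [ha, div_mul_eq_mul_div, div_le_div_iff₀ (by positivity) (by norm_num)]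
      linarith
    refine ⟨2 ^ (k + 3) / a ^ 2, by positivity, ?_⟩
    have ev1 : ∀ᶠ x : ℝ in atTop, 2 ≤ x ^ (a / 2) :=
      (tendsto_rpow_atTop (half_pos ha0)).eventually_ge_atTop 2
    filter_upwards [ev1, eventually_gt_atTop (1 : ℝ)] with x h1 h2
    have hx0 : (0 : ℝ) < x := by linarith
    have hxa : x ^ a = x ^ (a / 2) * x ^ (a / 2) := by
      rw [← Real.rpow_add hx0]
      ring_nf
    have hxa4 : 4 ≤ x ^ a := by
      rw [hxa]
      nlinarith
    have hz2 : 2 ≤ ⌊x ^ a⌋₊ := Nat.le_floor (by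
      push_cast
      linarith)
    have hzle : (⌊x ^ a⌋₊ : ℝ) ≤ x ^ a := Nat.floor_le (by positivity)
    have hzge : x ^ (a / 2) ≤ (⌊x ^ a⌋₊ : ℝ) := by
      have h3 : x ^ a < ⌊x ^ a⌋₊ + 1 := Nat.lt_floor_add_one _
      nlinarith
    have hlx : 0 < Real.log x := Real.log_pos h2
    have hlz : a / 2 * Real.log x ≤ Real.log (⌊x ^ a⌋₊ : ℝ) := by
      rw [← Real.log_rpow hx0]
      exact Real.log_le_log (by positivity) hzge
    have hlz0 : 0 < a / 2 * Real.log x := by positivity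
    obtain ⟨u, l, hF⟩ := hK ⌊x ^ a⌋₊ hz2
    have hS := Tw_sieve hF hz2 k hk hk2 ⌊x⌋₊
    have hsq : Real.sqrt x = x ^ (1 / 2 : ℝ) := Real.sqrt_eq_rpow x
    have e1 : (⌊x ^ a⌋₊ : ℝ) ≤ Real.sqrt x := by
      rw [hsq]
      exact hzle.trans (Real.rpow_le_rpow_of_exponent_le h2.le ha1)
    have e2 : (⌊x ^ a⌋₊ : ℝ) ^ K * (⌊x ^ a⌋₊ : ℝ) ^ K ≤ Real.sqrt x := by
      rw [← pow_add]
      have h4 : (⌊x ^ a⌋₊ : ℝ) ^ (K + K) ≤ (x ^ a) ^ (K + K) := pow_le_pow_left₀ (Nat.cast_nonneg _) hzle _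
      refine h4.trans ?_
      rw [← Real.rpow_natCast, ← Real.rpow_mul hx0.le, hsq]
      refine Real.rpow_le_rpow_of_exponent_le h2.le ?_
      push_cast
      exact haK
    have e3 : (⌊x⌋₊ : ℝ) * (2 ^ k * (1 / Real.log (⌊x ^ a⌋₊ : ℝ)) ^ 2) ≤
        x * (2 ^ k * (1 / (a / 2 * Real.log x)) ^ 2) := by
      have h5 : (⌊x⌋₊ : ℝ) ≤ x := Nat.floor_le hx0.le
      have h6 : 1 / Real.log (⌊x ^ a⌋₊ : ℝ) ≤ 1 / (a / 2 * Real.log x) := one_div_le_one_div_of_le hlz0 hlz
      have h7 : 0 ≤ 1 / Real.log (⌊x ^ a⌋₊ : ℝ) := one_div_nonneg.2 (hlz0.le.trans hlz)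
      exact mul_le_mul h5 (mul_le_mul_of_nonneg_left (pow_le_pow_left₀ h7 h6 2) (by positivity)) (by positivity) hx0.le
    have e4 : 2 * (x * (2 ^ k * (1 / (a / 2 * Real.log x)) ^ 2)) = 2 ^ (k + 3) / a ^ 2 * (x / Real.log x ^ 2) := by
      rw [pow_add]
      field_simp
    linarith [hS, e1, e2, e3, e4]
  · refine ⟨0, le_rfl, ?_⟩
    filter_upwards [eventually_ge_atTop (1 : ℝ)] with x hx
    have h1 : (Finset.Ioc 0 ⌊x⌋₊).filter (fun n : ℕ => n.Prime ∧ (n + k).Prime) ⊆ {2} := by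
      intro n hn
      obtain ⟨_, h2, h3⟩ := Finset.mem_filter.1 hn
      rw [Finset.mem_singleton]
      rcases h2.eq_two_or_odd with h4 | h4
      · exact h4
      · rcases h3.eq_two_or_odd with h5 | h5
        · have := h2.two_le
          omega
        · exfalso
          apply hk2
          omega
    have h2 := Finset.card_le_card h1
    rw [Finset.card_singleton] at h2
    have h3 : (((Finset.Ioc 0 ⌊x⌋₊).filter (fun n : ℕ => n.Prime ∧ (n + k).Prime)).card : ℝ) ≤ 1 := by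
      exact_mod_cast h2
    have h4 : 1 ≤ Real.sqrt x := Real.one_le_sqrt.2 hx
    linarith

end sieve

/-- LEAF Tw: pairs of primes at distance `k` have relative density `0`. The sieve of dimension `2` (`TQ.fund`, `TQ.sieve2` with `g p = 2/p`
for `p ∤ k`, `1/p` for `p ∣ k`) for `n (n + k)`; proper prime powers by `Chebyshev.psi_sub_theta_le`. -/
theorem twin (k : ℕ) (hk : 1 ≤ k) : Tendsto (fun x : ℝ =>
    (∑ n ∈ Finset.Icc 1 ⌊x⌋₊, ArithmeticFunction.vonMangoldt n * ArithmeticFunction.vonMangoldt (n + k)) / (x * Real.log x))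
    atTop (𝓝 0) := by
  obtain ⟨C, hC0, hC⟩ := Tw_pairs k hk
  have hup : ∀ᶠ x : ℝ in atTop,
      (∑ n ∈ Finset.Icc 1 ⌊x⌋₊, ArithmeticFunction.vonMangoldt n * ArithmeticFunction.vonMangoldt (n + k)) / (x * Real.log x) ≤
        28 * (Real.log x / x ^ (1 / 2 : ℝ)) + 4 * C * (Real.log x)⁻¹ := by
    filter_upwards [hC, eventually_gt_atTop (2 : ℝ), eventually_ge_atTop (k : ℝ)] with x h1 h2 h3
    have hx0 : (0 : ℝ) < x := by linarith
    have hk0 : (0 : ℝ) ≤ k := Nat.cast_nonneg k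
    set ℓ : ℝ := Real.log x with hℓ
    set Y : ℝ := Real.log (x + k) with hY
    have hℓ0 : 0 < ℓ := Real.log_pos (by linarith)
    have hYle : Y ≤ 2 * ℓ := by
      have h4 : x + k ≤ x ^ 2 := by nlinarith
      have h5 : Real.log (x + k) ≤ Real.log (x ^ 2) := Real.log_le_log (by linarith) h4
      rw [Real.log_pow] at h5
      exact_mod_cast h5
    have hY0 : 0 ≤ Y := Real.log_nonneg (by linarith)
    have hs : Real.sqrt (x + k) ≤ 2 * Real.sqrt x := by
      have h4 : Real.sqrt (x + k) ≤ Real.sqrt (2 ^ 2 * x) := Real.sqrt_le_sqrt (by linarith)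
      rwa [Real.sqrt_mul (by norm_num), Real.sqrt_sq (by norm_num)] at h4
    have hs0 : 0 ≤ Real.sqrt x := Real.sqrt_nonneg x
    have hΛ : ∀ n : ℕ, n ≤ ⌊x⌋₊ + k → ArithmeticFunction.vonMangoldt n ≤ Y := by
      intro n hn
      refine ArithmeticFunction.vonMangoldt_le_log.trans ?_
      rcases Nat.eq_zero_or_pos n with h4 | h4
      · rw [h4, Nat.cast_zero, Real.log_zero]
        exact hY0
      · refine Real.log_le_log (by exact_mod_cast h4) ?_
        have h5 : (⌊x⌋₊ : ℝ) ≤ x := Nat.floor_le hx0.le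
        have h6 : (n : ℝ) ≤ ⌊x⌋₊ + k := by exact_mod_cast hn
        linarith
    have hΛ0 : ∀ n : ℕ, 0 ≤ ArithmeticFunction.vonMangoldt n := fun n => ArithmeticFunction.vonMangoldt_nonneg
    -- pointwise
    have hpt : ∀ n ∈ Finset.Ioc 0 ⌊x⌋₊, ArithmeticFunction.vonMangoldt n * ArithmeticFunction.vonMangoldt (n + k) ≤
        (if ¬ n.Prime then ArithmeticFunction.vonMangoldt n else 0) * Y +
        (if ¬ (n + k).Prime then ArithmeticFunction.vonMangoldt (n + k) else 0) * Y +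
        (if n.Prime ∧ (n + k).Prime then (1 : ℝ) else 0) * Y ^ 2 := by
      intro n hn
      have hn1 := (Finset.mem_Ioc.1 hn).2
      have a1 := hΛ n (by omega)
      have a2 := hΛ (n + k) (by omega)
      have a3 := hΛ0 n
      have a4 := hΛ0 (n + k)
      by_cases p1 : n.Prime
      · by_cases p2 : (n + k).Prime
        · rw [if_neg (not_not.2 p1), if_neg (not_not.2 p2), if_pos ⟨p1, p2⟩]
          nlinarith
        · rw [if_neg (not_not.2 p1), if_pos p2, if_neg (fun h => p2 h.2)]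
          nlinarith
      · have h5 : 0 ≤ (if ¬ (n + k).Prime then ArithmeticFunction.vonMangoldt (n + k) else 0) * Y :=
          mul_nonneg (by split_ifs <;> simp [a4]) hY0
        have h6 : ¬ (n.Prime ∧ (n + k).Prime) := fun h => p1 h.1
        rw [if_pos p1, if_neg h6]
        nlinarith
    have hIcc : Finset.Icc 1 ⌊x⌋₊ = Finset.Ioc 0 ⌊x⌋₊ := rfl
    have hsum := Finset.sum_le_sum hpt
    rw [Finset.sum_add_distrib, Finset.sum_add_distrib, ← Finset.sum_mul, ← Finset.sum_mul, ← Finset.sum_mul] at hsum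
    have s1 : ∑ n ∈ Finset.Ioc 0 ⌊x⌋₊, (if ¬ n.Prime then ArithmeticFunction.vonMangoldt n else 0) ≤
        2 * Real.sqrt x * ℓ := by
      rw [← Finset.sum_filter, ← Chebyshev.psi_sub_theta_eq_sum_not_prime]
      exact Chebyshev.psi_sub_theta_le (by linarith)
    have s2 : ∑ n ∈ Finset.Ioc 0 ⌊x⌋₊, (if ¬ (n + k).Prime then ArithmeticFunction.vonMangoldt (n + k) else 0) ≤
        2 * Real.sqrt (x + k) * Y := by
      have h4 := Chebyshev.psi_sub_theta_le (x := x + k) (by linarith)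
      rw [Chebyshev.psi_sub_theta_eq_sum_not_prime, Finset.sum_filter, Nat.floor_add_natCast hx0.le] at h4
      refine le_trans ?_ h4
      have h5 : ∑ n ∈ Finset.Ioc 0 ⌊x⌋₊, (if ¬ (n + k).Prime then ArithmeticFunction.vonMangoldt (n + k) else 0) =
          ∑ m ∈ (Finset.Ioc 0 ⌊x⌋₊).image (fun n => n + k), (if ¬ m.Prime then ArithmeticFunction.vonMangoldt m else 0) := by
        rw [Finset.sum_image]
        intro a _ b _ hab
        exact Nat.add_right_cancel hab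
      rw [h5]
      refine Finset.sum_le_sum_of_subset_of_nonneg ?_ ?_
      · intro m hm
        obtain ⟨n, hn, rfl⟩ := Finset.mem_image.1 hm
        have := Finset.mem_Ioc.1 hn
        exact Finset.mem_Ioc.2 ⟨by omega, by omega⟩
      · intro m _ _
        split_ifs <;> first | exact le_rfl | exact hΛ0 m
    have s3 : ∑ n ∈ Finset.Ioc 0 ⌊x⌋₊, (if n.Prime ∧ (n + k).Prime then (1 : ℝ) else 0) ≤
        2 * Real.sqrt x + C * (x / ℓ ^ 2) := by
      rw [Finset.sum_boole]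
      exact h1
    have hY2 : Y ^ 2 ≤ 4 * ℓ ^ 2 := by nlinarith
    have t1 : (∑ n ∈ Finset.Ioc 0 ⌊x⌋₊, (if ¬ n.Prime then ArithmeticFunction.vonMangoldt n else 0)) * Y ≤
        4 * Real.sqrt x * ℓ ^ 2 := by
      have h4 : 0 ≤ 2 * Real.sqrt x * ℓ := by positivity
      calc _ ≤ (2 * Real.sqrt x * ℓ) * (2 * ℓ) := mul_le_mul s1 hYle hY0 h4
        _ = 4 * Real.sqrt x * ℓ ^ 2 := by ring
    have t2 : (∑ n ∈ Finset.Ioc 0 ⌊x⌋₊, (if ¬ (n + k).Prime then ArithmeticFunction.vonMangoldt (n + k) else 0)) * Y ≤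
        16 * Real.sqrt x * ℓ ^ 2 := by
      calc _ ≤ (2 * Real.sqrt (x + k) * Y) * Y := mul_le_mul_of_nonneg_right s2 hY0
        _ = 2 * Real.sqrt (x + k) * Y ^ 2 := by ring
        _ ≤ 2 * (2 * Real.sqrt x) * (4 * ℓ ^ 2) :=
            mul_le_mul (mul_le_mul_of_nonneg_left hs (by norm_num)) hY2 (by positivity) (by positivity)
        _ = 16 * Real.sqrt x * ℓ ^ 2 := by ring
    have t3 : (∑ n ∈ Finset.Ioc 0 ⌊x⌋₊, (if n.Prime ∧ (n + k).Prime then (1 : ℝ) else 0)) * Y ^ 2 ≤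
        8 * Real.sqrt x * ℓ ^ 2 + 4 * C * x := by
      have h4 : 0 ≤ 2 * Real.sqrt x + C * (x / ℓ ^ 2) := by positivity
      calc _ ≤ (2 * Real.sqrt x + C * (x / ℓ ^ 2)) * (4 * ℓ ^ 2) := mul_le_mul s3 hY2 (by positivity) h4
        _ = 8 * Real.sqrt x * ℓ ^ 2 + 4 * C * x := by
            field_simp
            ring
    have hx12 : x ^ (1 / 2 : ℝ) = Real.sqrt x := (Real.sqrt_eq_rpow x).symm
    have hsx : Real.sqrt x * Real.sqrt x = x := Real.mul_self_sqrt hx0.le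
    have hs1 : 0 < Real.sqrt x := Real.sqrt_pos.2 hx0
    rw [hx12, div_le_iff₀ (by positivity), hIcc]
    have e5 : (28 * (ℓ / Real.sqrt x) + 4 * C * ℓ⁻¹) * (x * ℓ) = 28 * Real.sqrt x * ℓ ^ 2 + 4 * C * x := by
      have h6 : ℓ / Real.sqrt x * (x * ℓ) = Real.sqrt x * ℓ ^ 2 := by
        rw [div_mul_eq_mul_div, div_eq_iff hs1.ne']
        calc ℓ * (x * ℓ) = ℓ * ((Real.sqrt x * Real.sqrt x) * ℓ) := by rw [hsx]
          _ = Real.sqrt x * ℓ ^ 2 * Real.sqrt x := by ring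
      have h7 : ℓ⁻¹ * (x * ℓ) = x := by
        field_simp
      calc (28 * (ℓ / Real.sqrt x) + 4 * C * ℓ⁻¹) * (x * ℓ) =
          28 * (ℓ / Real.sqrt x * (x * ℓ)) + 4 * C * (ℓ⁻¹ * (x * ℓ)) := by ring
        _ = 28 * Real.sqrt x * ℓ ^ 2 + 4 * C * x := by
            rw [h6, h7]
            ring
    rw [e5]
    linarith [hsum, t1, t2, t3]
  have hlow : ∀ᶠ x : ℝ in atTop, 0 ≤
      (∑ n ∈ Finset.Icc 1 ⌊x⌋₊, ArithmeticFunction.vonMangoldt n * ArithmeticFunction.vonMangoldt (n + k)) / (x * Real.log x) := by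
    filter_upwards [eventually_gt_atTop (1 : ℝ)] with x hx
    have hℓ0 : 0 < Real.log x := Real.log_pos hx
    refine div_nonneg (Finset.sum_nonneg fun n _ => mul_nonneg ?_ ?_) (by positivity)
    · exact ArithmeticFunction.vonMangoldt_nonneg
    · exact ArithmeticFunction.vonMangoldt_nonneg
  have l1 : Tendsto (fun x : ℝ => Real.log x / x ^ (1 / 2 : ℝ)) atTop (𝓝 0) :=
    (isLittleO_log_rpow_atTop (by norm_num)).tendsto_div_nhds_zero
  have l2 : Tendsto (fun x : ℝ => (Real.log x)⁻¹) atTop (𝓝 0) := Real.tendsto_log_atTop.inv_tendsto_atTop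
  have l3 : Tendsto (fun x : ℝ => 28 * (Real.log x / x ^ (1 / 2 : ℝ)) + 4 * C * (Real.log x)⁻¹) atTop (𝓝 0) := by
    have := (l1.const_mul 28).add (l2.const_mul (4 * C))
    simpa using this
  exact tendsto_of_tendsto_of_tendsto_of_le_of_le' tendsto_const_nhds l3 hlow hup

end Pool.Agent.Lib.MP_00e05b_nt.UH
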