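import Pool.Agent.Lib.MP_00e05b_nt.UH.Tr
import Pool.Agent.Lib.MP_00e05b_nt.UH.Mv
import Pool.Agent.Lib.MP_00e05b_nt.UH.Tw
import Pool.Agent.Lib.MP_00e05b_nt.Mont.Prime
import Pool.Agent.Lib.MP_00e05b_nt.Mont.LocalP

open Complex Set Filter Topology MeasureTheory

namespace Pool.Agent.Lib.MP_00e05b_nt.UH

open Pool.Agent.Lib.MP_00e05b_nt Pool.Agent.Lib.MP_00e05b_nt.Mont Pool.Agent.Lib.MP_2a816b_nt.TA

private theorem Ed_J_pos {W : ℝ → ℝ} {s : ℝ} (hW : EB W s) (hs0 : 0 < s) : 0 < ∫ u, W u ^ 2 := by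
  refine Continuous.integral_pos_of_hasCompactSupport_nonneg_nonzero (x := 0) ?_ ?_ ?_ ?_
  · exact hW.es.continuous.pow 2
  · have h := hW.es.compact
    have h2 : HasCompactSupport (fun u => W u * W u) := h.mul_left
    have h3 : (fun u => W u ^ 2) = fun u => W u * W u := by
      funext u
      ring
    rw [h3]
    exact h2
  · intro u
    exact sq_nonneg _
  · have h1 : W 0 = 1 := hW.one 0 (by rw [abs_zero]; linarith)
    show W 0 ^ 2 ≠ 0
    rw [h1]
    norm_num

private theorem Ed_le {W : ℝ → ℝ} {s : ℝ} (hW : EB W s) (hs : s ≤ 1) (y : ℝ) (n : ℕ) :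
    ArithmeticFunction.vonMangoldt n * Real.exp (-(Real.log n / 2)) * W (Real.log n - y) ≤
      ArithmeticFunction.vonMangoldt n * Real.exp ((1 - y) / 2) := by
  have hL : 0 ≤ ArithmeticFunction.vonMangoldt n := ArithmeticFunction.vonMangoldt_nonneg
  by_cases h : s ≤ |Real.log n - y|
  · rw [hW.supp _ h, mul_zero]
    positivity
  · push Not at h
    have h1 := (abs_lt.1 h).1
    have h2 : Real.exp (-(Real.log n / 2)) ≤ Real.exp ((1 - y) / 2) := Real.exp_le_exp.2 (by linarith)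
    calc ArithmeticFunction.vonMangoldt n * Real.exp (-(Real.log n / 2)) * W (Real.log n - y)
        ≤ ArithmeticFunction.vonMangoldt n * Real.exp (-(Real.log n / 2)) * 1 :=
          mul_le_mul_of_nonneg_left (hW.le_one _) (by positivity)
      _ ≤ ArithmeticFunction.vonMangoldt n * Real.exp ((1 - y) / 2) := by
          rw [mul_one]
          exact mul_le_mul_of_nonneg_left h2 hL

private theorem Ed_twin (δ : ℝ) (hδ : 0 < δ) (M : ℕ) : ∃ x0 : ℝ, ∀ x : ℝ, x0 ≤ x → ∀ k ∈ Finset.Icc 1 M,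
    ∑ n ∈ Finset.Icc 1 ⌊x⌋₊, ArithmeticFunction.vonMangoldt n * ArithmeticFunction.vonMangoldt (n + k) ≤
      δ * (x * Real.log x) := by
  have h1 : ∀ᶠ x : ℝ in atTop, ∀ k ∈ Finset.Icc 1 M,
      ∑ n ∈ Finset.Icc 1 ⌊x⌋₊, ArithmeticFunction.vonMangoldt n * ArithmeticFunction.vonMangoldt (n + k) ≤
      δ * (x * Real.log x) := by
    rw [Filter.eventually_all_finset]
    intro k hk
    have h2 := twin k (Finset.mem_Icc.1 hk).1
    have h3 := h2.eventually (gt_mem_nhds hδ)
    filter_upwards [h3, eventually_gt_atTop (1 : ℝ)] with x hx hx1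
    have h4 : 0 < x * Real.log x := mul_pos (by linarith) (Real.log_pos hx1)
    rw [div_lt_iff₀ h4] at hx
    exact hx.le
  obtain ⟨x0, h⟩ := Filter.eventually_atTop.1 h1
  exact ⟨x0, h⟩

/-- The prime sum in mean square, near `y = log T`. -/
private theorem Ed_mean (hRH : RiemannHypothesis) {W : ℝ → ℝ} {s : ℝ} (hW : EB W s) (hs : s ≤ 1 / 8)
    (K e0 : ℝ) (hK : 0 < K) (he0 : 0 < e0) (hJ0 : 0 < ∫ u, W u ^ 2) :
    ∃ C : ℝ, 0 ≤ C ∧ ∀ᶠ T : ℝ in atTop, ∀ y : ℝ, Real.log T - K ≤ y → y ≤ Real.log T + K →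
      1 / T * ∫ t in (0 : ℝ)..T, ‖PP W t y‖ ^ 2 ≤
        (1 + e0) * ((1 + e0) * Real.log T * (∫ u, W u ^ 2) + C) := by
  classical
  obtain ⟨C0, hC0, hmv⟩ := mvK
  obtain ⟨C1, hC1, hsq⟩ := prime_sq hRH hW (by linarith : s ≤ 3 / 4)
  set J := ∫ u, W u ^ 2 with hJ
  set η := e0 / (C0 + 1) with hη
  have hη0 : 0 < η := div_pos he0 (by linarith)
  have hCη : C0 * η ≤ e0 := by
    rw [hη, ← mul_div_assoc, div_le_iff₀ (by linarith)]
    nlinarith
  set M := ⌊2 * Real.exp (K + 1) / η⌋₊ with hM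
  set δ := e0 * J / (4 * Real.exp 2 * (M + 1)) with hδ
  have hM1 : (0 : ℝ) < M + 1 := by positivity
  have hδ0 : 0 < δ := by
    have := Real.exp_pos 2
    positivity
  obtain ⟨x0, hx0⟩ := Ed_twin δ hδ0 M
  refine ⟨K * J + C1, by positivity, ?_⟩
  filter_upwards [eventually_ge_atTop (2 : ℝ), Real.tendsto_log_atTop.eventually_ge_atTop (K + 1),
    eventually_ge_atTop (1 / η), Real.tendsto_log_atTop.eventually_ge_atTop (Real.log (max x0 1) + K)]
    with T hT2 hTK hTη hTx y hy1 hy2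
  have hT0 : 0 < T := by linarith
  have hηT : 1 ≤ η * T := by
    rw [div_le_iff₀ hη0] at hTη
    linarith
  have hy0 : 0 ≤ y := by linarith
  obtain ⟨S, hS1, hS2, hS3⟩ := PP_finite hW.es y
  set b : ℕ → ℝ := fun n => ArithmeticFunction.vonMangoldt n * Real.exp (-(Real.log n / 2)) *
    W (Real.log n - y) with hb
  have hb0 : ∀ n, 0 ≤ b n := fun n =>
    mul_nonneg (mul_nonneg ArithmeticFunction.vonMangoldt_nonneg (Real.exp_pos _).le) (hW.nonneg _)
  have hble : ∀ n, b n ≤ ArithmeticFunction.vonMangoldt n * Real.exp ((1 - y) / 2) := fun n =>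
    Ed_le hW (by linarith) y n
  set X := Real.exp (y + 1) with hX
  have hX1 : 1 ≤ X := Real.one_le_exp (by linarith)
  have hXT : X / T ≤ Real.exp (K + 1) := by
    have e0 : X / T = Real.exp (y + 1 - Real.log T) := by
      rw [Real.exp_sub, Real.exp_log hT0]
    rw [e0]
    exact Real.exp_le_exp.2 (by linarith)
  have hXx0 : x0 ≤ X := by
    have h1 : max x0 1 ≤ X := by
      have h2 : (0 : ℝ) < max x0 1 := lt_of_lt_of_le one_pos (le_max_right _ _)
      rw [← Real.exp_log h2, hX]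
      exact Real.exp_le_exp.2 (by linarith)
    exact (le_max_left _ _).trans h1
  have h1 := hmv S (fun n => if n ∈ S then b n else 0) X T η hX1 hT0 hη0 hηT
    (fun n => by
      show 0 ≤ (if n ∈ S then b n else 0)
      split_ifs
      · exact hb0 n
      · exact le_refl _)
    (fun n hn => if_neg hn)
    (fun n hn => ⟨(hS1 n hn).1, (hS1 n hn).2.trans (Real.exp_le_exp.2 (by linarith))⟩)
  have h2 : ∀ t : ℝ, ∑ n ∈ S, (((fun n => if n ∈ S then b n else 0) n : ℝ) : ℂ) *
      cexp (((-(t * Real.log n) : ℝ) : ℂ) * I) = PP W t y := by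
    intro t
    rw [hS2 t]
    refine Finset.sum_congr rfl fun n hn => ?_
    show (((if n ∈ S then b n else 0 : ℝ)) : ℂ) * _ = _
    rw [if_pos hn]
  simp only [h2] at h1
  have h3 : ∑ n ∈ S, ((fun n => if n ∈ S then b n else 0) n) ^ 2 ≤ (Real.log T + K) * J + C1 := by
    have h4 : ∑ n ∈ S, ((fun n => if n ∈ S then b n else 0) n) ^ 2 = ∑ n ∈ S, b n ^ 2 := by
      refine Finset.sum_congr rfl fun n hn => ?_
      show (if n ∈ S then b n else 0) ^ 2 = _
      rw [if_pos hn]
    rw [h4, ← hS3]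
    have h5 := (abs_le.1 (hsq y hy0)).2
    have h6 : y * J ≤ (Real.log T + K) * J := mul_le_mul_of_nonneg_right hy2 hJ0.le
    linarith
  have h7 : ∀ k ∈ Finset.Icc 1 ⌊2 * X / (η * T)⌋₊,
      ∑ n ∈ S, (fun n => if n ∈ S then b n else 0) n * (fun n => if n ∈ S then b n else 0) (n + k) ≤
        2 * δ * Real.exp 2 * Real.log T := by
    intro k hk
    have hkM : k ∈ Finset.Icc 1 M := by
      rw [Finset.mem_Icc] at hk ⊢
      refine ⟨hk.1, hk.2.trans (Nat.floor_le_floor ?_)⟩
      have e1 : 2 * X / (η * T) = 2 * (X / T) / η := by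
        field_simp
      rw [e1]
      exact div_le_div_of_nonneg_right (mul_le_mul_of_nonneg_left hXT (by norm_num)) hη0.le
    have h8 : ∀ n ∈ S, (fun n => if n ∈ S then b n else 0) n *
        (fun n => if n ∈ S then b n else 0) (n + k) ≤
        Real.exp (1 - y) * (ArithmeticFunction.vonMangoldt n * ArithmeticFunction.vonMangoldt (n + k)) := by
      intro n hn
      show (if n ∈ S then b n else 0) * (if n + k ∈ S then b (n + k) else 0) ≤ _
      rw [if_pos hn]
      have h9 : (if n + k ∈ S then b (n + k) else 0) ≤ b (n + k) := by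
        split_ifs
        · exact le_refl _
        · exact hb0 _
      have h10 : Real.exp (1 - y) = Real.exp ((1 - y) / 2) * Real.exp ((1 - y) / 2) := by
        rw [← Real.exp_add]
        congr 1
        ring
      calc b n * (if n + k ∈ S then b (n + k) else 0) ≤ b n * b (n + k) :=
            mul_le_mul_of_nonneg_left h9 (hb0 n)
        _ ≤ (ArithmeticFunction.vonMangoldt n * Real.exp ((1 - y) / 2)) *
            (ArithmeticFunction.vonMangoldt (n + k) * Real.exp ((1 - y) / 2)) :=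
            mul_le_mul (hble n) (hble (n + k)) (hb0 _)
              (mul_nonneg ArithmeticFunction.vonMangoldt_nonneg (Real.exp_pos _).le)
        _ = _ := by
            rw [h10]
            ring
    have hSsub : S ⊆ Finset.Icc 1 ⌊X⌋₊ := by
      intro n hn
      rw [Finset.mem_Icc]
      refine ⟨(hS1 n hn).1, Nat.le_floor ?_⟩
      exact (hS1 n hn).2.trans (Real.exp_le_exp.2 (by linarith))
    calc ∑ n ∈ S, (fun n => if n ∈ S then b n else 0) n * (fun n => if n ∈ S then b n else 0) (n + k)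
        ≤ ∑ n ∈ S, Real.exp (1 - y) *
          (ArithmeticFunction.vonMangoldt n * ArithmeticFunction.vonMangoldt (n + k)) :=
          Finset.sum_le_sum h8
      _ ≤ ∑ n ∈ Finset.Icc 1 ⌊X⌋₊, Real.exp (1 - y) *
          (ArithmeticFunction.vonMangoldt n * ArithmeticFunction.vonMangoldt (n + k)) := by
          refine Finset.sum_le_sum_of_subset_of_nonneg hSsub fun n _ _ => ?_
          exact mul_nonneg (Real.exp_pos _).le (mul_nonneg ArithmeticFunction.vonMangoldt_nonneg
            ArithmeticFunction.vonMangoldt_nonneg)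
      _ = Real.exp (1 - y) * ∑ n ∈ Finset.Icc 1 ⌊X⌋₊,
          (ArithmeticFunction.vonMangoldt n * ArithmeticFunction.vonMangoldt (n + k)) := by
          rw [Finset.mul_sum]
      _ ≤ Real.exp (1 - y) * (δ * (X * Real.log X)) :=
          mul_le_mul_of_nonneg_left (hx0 X hXx0 k hkM) (Real.exp_pos _).le
      _ = δ * Real.exp 2 * (y + 1) := by
          have h11 : Real.exp 2 = Real.exp (1 - y) * X := by
            rw [hX, ← Real.exp_add]
            congr 1
            ring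
          rw [h11, hX, Real.log_exp]
          ring
      _ ≤ 2 * δ * Real.exp 2 * Real.log T := by
          have h12 : y + 1 ≤ 2 * Real.log T := by linarith
          have h13 : 0 ≤ δ * Real.exp 2 := mul_nonneg hδ0.le (Real.exp_pos _).le
          calc δ * Real.exp 2 * (y + 1) ≤ δ * Real.exp 2 * (2 * Real.log T) :=
                mul_le_mul_of_nonneg_left h12 h13
            _ = _ := by ring
  have hlog : 0 ≤ Real.log T := by linarith
  have h14 : 2 * ∑ k ∈ Finset.Icc 1 ⌊2 * X / (η * T)⌋₊,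
      ∑ n ∈ S, (fun n => if n ∈ S then b n else 0) n * (fun n => if n ∈ S then b n else 0) (n + k) ≤
        e0 * J * Real.log T := by
    have h15 : (⌊2 * X / (η * T)⌋₊ : ℝ) ≤ M + 1 := by
      have h16 : ⌊2 * X / (η * T)⌋₊ ≤ M := by
        refine Nat.floor_le_floor ?_
        have e1 : 2 * X / (η * T) = 2 * (X / T) / η := by
          field_simp
        rw [e1]
        exact div_le_div_of_nonneg_right (mul_le_mul_of_nonneg_left hXT (by norm_num)) hη0.le
      have h17 : (⌊2 * X / (η * T)⌋₊ : ℝ) ≤ M := by exact_mod_cast h16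
      linarith
    have h18 := Finset.sum_le_sum h7
    rw [Finset.sum_const, Nat.card_Icc, Nat.add_sub_cancel, nsmul_eq_mul] at h18
    have h19 : 0 ≤ 2 * δ * Real.exp 2 * Real.log T := by
      have := Real.exp_pos 2
      positivity
    have h20 := mul_le_mul_of_nonneg_right h15 h19
    have h21 : ((M : ℝ) + 1) * (2 * δ * Real.exp 2 * Real.log T) = e0 * J * Real.log T / 2 := by
      rw [hδ]
      have := Real.exp_pos 2
      field_simp
      ring
    linarith
  have h22 : 1 / T * ∫ t in (0 : ℝ)..T, ‖PP W t y‖ ^ 2 ≤ (1 + C0 * η) *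
      (∑ n ∈ S, ((fun n => if n ∈ S then b n else 0) n) ^ 2 +
      2 * ∑ k ∈ Finset.Icc 1 ⌊2 * X / (η * T)⌋₊,
      ∑ n ∈ S, (fun n => if n ∈ S then b n else 0) n * (fun n => if n ∈ S then b n else 0) (n + k)) := by
    rw [one_div, inv_mul_le_iff₀ hT0]
    refine h1.trans (le_of_eq ?_)
    ring
  have h23 : 0 ≤ (1 + e0) * Real.log T * J + (K * J + C1) := by positivity
  calc 1 / T * ∫ t in (0 : ℝ)..T, ‖PP W t y‖ ^ 2 ≤ (1 + C0 * η) *
      (∑ n ∈ S, ((fun n => if n ∈ S then b n else 0) n) ^ 2 +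
      2 * ∑ k ∈ Finset.Icc 1 ⌊2 * X / (η * T)⌋₊,
      ∑ n ∈ S, (fun n => if n ∈ S then b n else 0) n * (fun n => if n ∈ S then b n else 0) (n + k)) := h22
    _ ≤ (1 + C0 * η) * ((1 + e0) * Real.log T * J + (K * J + C1)) := by
        refine mul_le_mul_of_nonneg_left ?_ (by positivity)
        linarith
    _ ≤ (1 + e0) * ((1 + e0) * Real.log T * J + (K * J + C1)) :=
        mul_le_mul_of_nonneg_right (by linarith) h23

/-- LEAF Ed: near `y = L`. `mvK` with a small `η`, `a n = Λ(n) n^(-1/2) W(log n - y)`, `X = e^(y+1) ≤ e^(K+1) T`: the number of shifts is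
`k ≤ 2 e^(K+1)/η`, fixed; `∑ a_n a_(n+k) ≤ e^(1-y) ∑_(n ≤ X) Λ(n) Λ(n+k) = o(L)` by `twin`, uniformly for `|y - L| ≤ K`; `∑ a_n² ≤ y J + C`
(`prime_sq`). Then `Ph_prime`: `(√((1 + ε') L J) + √(C e^K))² ≤ (1 + ε) L J` for large `T`. -/
theorem edge (hRH : RiemannHypothesis) {W : ℝ → ℝ} {s : ℝ} (hW : EB W s) (hs0 : 0 < s) (hs : s ≤ 1 / 8) (K ε : ℝ) (hK : 0 < K)
    (hε : 0 < ε) : ∀ᶠ T : ℝ in atTop, ∀ y : ℝ, Real.log T - K ≤ y → y ≤ Real.log T + K →
      Ph W T y ≤ (1 + ε) * Real.log T * ∫ u, W u ^ 2 := by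
  have hJ0 := Ed_J_pos hW hs0
  set J := ∫ u, W u ^ 2 with hJ
  set e0 := min ε 1 / 8 with he
  have he0 : 0 < e0 := div_pos (lt_min hε one_pos) (by norm_num)
  have he1 : 8 * e0 ≤ ε := by
    rw [he]
    have := min_le_left ε 1
    linarith
  have he2 : e0 ≤ 1 := by
    rw [he]
    have := min_le_right ε 1
    linarith
  obtain ⟨C1, hC1, hmean⟩ := Ed_mean hRH hW hs K e0 hK he0 hJ0
  obtain ⟨C2, hC2, hph⟩ := Ph_prime hRH hW hs0 hs
  set B := C2 * Real.exp K with hB
  have hB0 : 0 ≤ B := mul_nonneg hC2 (Real.exp_pos _).le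
  set C3 := (1 + e0) ^ 2 * C1 + (1 + 1 / e0) * B + 6 * C2 with hC3
  filter_upwards [eventually_ge_atTop (2 : ℝ), Real.tendsto_log_atTop.eventually_ge_atTop (K + 1),
    hmean, Real.tendsto_log_atTop.eventually_ge_atTop (C3 / (e0 * J))] with T hT2 hTK hm hTC y hy1 hy2
  have hT0 : 0 < T := by linarith
  have hlog : 0 < Real.log T := by linarith
  have h1 := hph T y hT2 (by linarith)
  have h2 := hm y hy1 hy2
  set A := 1 / T * ∫ t in (0 : ℝ)..T, ‖PP W t y‖ ^ 2 with hA
  have hA0 : 0 ≤ A := by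
    rw [hA]
    refine mul_nonneg (by positivity) ?_
    exact intervalIntegral.integral_nonneg hT0.le fun t _ => sq_nonneg _
  have h3 : C2 * Real.exp y / T ≤ B := by
    have h4 : Real.exp y / T ≤ Real.exp K := by
      have e0 : Real.exp y / T = Real.exp (y - Real.log T) := by
        rw [Real.exp_sub, Real.exp_log hT0]
      rw [e0]
      exact Real.exp_le_exp.2 (by linarith)
    rw [mul_div_assoc]
    exact mul_le_mul_of_nonneg_left h4 hC2
  have h30 : 0 ≤ C2 * Real.exp y / T := by positivity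
  have h5 : (√A + √(C2 * Real.exp y / T)) ^ 2 ≤ (1 + e0) * A + (1 + 1 / e0) * B := by
    have h6 := Real.sq_sqrt hA0
    have h7 := Real.sq_sqrt h30
    set p := √A
    set q := √(C2 * Real.exp y / T)
    have h8 : 2 * p * q ≤ e0 * p ^ 2 + 1 / e0 * q ^ 2 := by
      have h9 : 0 ≤ 1 / e0 * (e0 * p - q) ^ 2 := by positivity
      have h10 : 1 / e0 * (e0 * p - q) ^ 2 = e0 * p ^ 2 + 1 / e0 * q ^ 2 - 2 * p * q := by
        field_simp
        ring
      linarith
    have h11 : (1 + 1 / e0) * q ^ 2 ≤ (1 + 1 / e0) * B := by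
      rw [h7]
      exact mul_le_mul_of_nonneg_left h3 (by positivity)
    calc (p + q) ^ 2 = p ^ 2 + 2 * p * q + q ^ 2 := by ring
      _ ≤ (1 + e0) * p ^ 2 + (1 + 1 / e0) * q ^ 2 := by linarith
      _ ≤ (1 + e0) * A + (1 + 1 / e0) * B := by
          rw [h6]
          linarith
  have h12 : C2 * Real.log T ^ 3 / T ≤ 6 * C2 := by
    rw [div_le_iff₀ hT0]
    have h13 : Real.log T ^ 3 / 6 ≤ T := by
      have h14 := Real.pow_div_factorial_le_exp (Real.log T) hlog.le 3
      rw [Real.exp_log hT0] at h14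
      have h15 : ((Nat.factorial 3 : ℕ) : ℝ) = 6 := by norm_num [Nat.factorial]
      rwa [h15] at h14
    have h16 : Real.log T ^ 3 ≤ 6 * T := by linarith
    have h17 := mul_le_mul_of_nonneg_left h16 hC2
    linarith
  have h18 : C3 ≤ e0 * J * Real.log T := by
    rw [div_le_iff₀ (mul_pos he0 hJ0)] at hTC
    linarith
  have h19 : (1 + e0) * A ≤ (1 + e0) * ((1 + e0) * ((1 + e0) * Real.log T * J + C1)) :=
    mul_le_mul_of_nonneg_left h2 (by positivity)
  have h20 : (1 + e0) * ((1 + e0) * ((1 + e0) * Real.log T * J + C1)) =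
      (1 + e0) ^ 3 * (Real.log T * J) + (1 + e0) ^ 2 * C1 := by
    ring
  have h21 : (1 + e0) ^ 3 ≤ 1 + 7 * e0 := by
    nlinarith [mul_nonneg he0.le he0.le, mul_nonneg (mul_nonneg he0.le he0.le) he0.le]
  have h22 : (1 + e0) ^ 3 * (Real.log T * J) ≤ (1 + 7 * e0) * (Real.log T * J) :=
    mul_le_mul_of_nonneg_right h21 (by positivity)
  have h23 : 8 * e0 * (Real.log T * J) ≤ ε * (Real.log T * J) :=
    mul_le_mul_of_nonneg_right he1 (by positivity)
  calc Ph W T y ≤ (1 + e0) * A + (1 + 1 / e0) * B + 6 * C2 := by linarith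
    _ ≤ (1 + 7 * e0) * (Real.log T * J) + C3 := by
        rw [hC3]
        linarith
    _ ≤ (1 + ε) * Real.log T * J := by linarith

end Pool.Agent.Lib.MP_00e05b_nt.UH
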