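import Pool.Agent.Lib.MP_00e05b_nt.UH.Low
import Pool.Agent.Lib.MP_2a816b_nt.TA.EXB

open Complex Set Filter Topology MeasureTheory

namespace Pool.Agent.Lib.MP_00e05b_nt.UH

open Pool.Agent.Lib.MP_00e05b_nt Pool.Agent.Lib.MP_00e05b_nt.Mont Pool.Agent.Lib.MP_2a816b_nt.TA

private theorem Ga_rpow : ∀ᶠ T : ℝ in atTop, Real.log T ≤ T ^ (1 / 20 : ℝ) := by
  have h := isLittleO_log_rpow_atTop (show (0 : ℝ) < 1 / 20 by norm_num)
  filter_upwards [h.bound (show (0 : ℝ) < 1 by norm_num), eventually_ge_atTop (1 : ℝ)] with T hT h1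
  rw [one_mul, Real.norm_eq_abs, Real.norm_eq_abs, abs_of_nonneg (Real.log_nonneg h1),
    abs_of_nonneg (Real.rpow_nonneg (by linarith) _)] at hT
  exact hT

/-- LEAF Ga: `lowF` with `M = A L`, `u = α L` (see `TA/HGa.lean`); drop the `NC` term; `A L ≤ T^(1/5) L ≤ T^(1/4)`. -/
theorem gaussF (hRH : RiemannHypothesis) (ε : ℝ) (hε : 0 < ε) : ∀ᶠ T : ℝ in atTop, ∀ A : ℝ, 1 ≤ A → A ≤ T ^ (1 / 5 : ℝ) →
    -(1 / (6 * A ^ 2)) - ε / Real.log T ≤
      ∫ α in Ioi (1 : ℝ), Real.exp (-(α ^ 2 / (2 * A ^ 2))) * (FF α T - 1 + cF / Real.log T) := by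
  filter_upwards [lowF hRH ε hε, Ga_rpow, Real.tendsto_log_atTop.eventually_ge_atTop 1,
    eventually_ge_atTop (1 : ℝ)] with T hlow hlog hL hT1 A hA1 hA2
  have hT0 : 0 < T := by linarith
  have hL0 : 0 < Real.log T := by linarith
  have hM1 : 1 ≤ A * Real.log T := by nlinarith
  have hM2 : A * Real.log T ≤ T ^ (1 / 4 : ℝ) := by
    calc A * Real.log T ≤ T ^ (1 / 5 : ℝ) * T ^ (1 / 20 : ℝ) :=
          mul_le_mul hA2 hlog hL0.le (Real.rpow_nonneg hT0.le _)
      _ = T ^ (1 / 4 : ℝ) := by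
          rw [← Real.rpow_add hT0]
          norm_num
  obtain ⟨-, h1⟩ := hlow (A * Real.log T) hM1 hM2
  have hM0 : 0 < A * Real.log T := by positivity
  have h2 : 0 ≤ A * Real.log T / T * NC T (1 / (A * Real.log T)) :=
    mul_nonneg (by positivity) (NC_nonneg (by positivity))
  have h3 := MeasureTheory.integral_comp_mul_left_Ioi (fun u : ℝ =>
    Kg (A * Real.log T) u * (FF (u / Real.log T) T - 1 + cF / Real.log T)) 1 hL0
  have h4 : ∀ α : ℝ, Kg (A * Real.log T) (Real.log T * α) *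
      (FF (Real.log T * α / Real.log T) T - 1 + cF / Real.log T) =
      Real.exp (-(α ^ 2 / (2 * A ^ 2))) * (FF α T - 1 + cF / Real.log T) := by
    intro α
    have e1 : Real.log T * α / Real.log T = α := by field_simp
    have e2 : (Real.log T * α) ^ 2 / (2 * (A * Real.log T) ^ 2) = α ^ 2 / (2 * A ^ 2) := by
      field_simp
    unfold Kg
    rw [e1, e2]
  simp only [h4, smul_eq_mul, mul_one] at h3
  rw [h3]
  have h5 : ∀ u : ℝ, Kg (A * Real.log T) u * (FF (u / Real.log T) T - 1 + cF / Real.log T) =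
      -(Real.log T)⁻¹ * (Kg (A * Real.log T) u * (Real.log T - cF - Real.log T * FF (u / Real.log T) T)) := by
    intro u
    field_simp
    ring
  simp only [h5]
  rw [integral_const_mul]
  have h6 : (∫ u in Ioi (Real.log T), Kg (A * Real.log T) u *
      (Real.log T - cF - Real.log T * FF (u / Real.log T) T)) ≤
      Real.log T ^ 4 / (6 * (A * Real.log T) ^ 2) + ε * Real.log T := by linarith
  have h7 : (Real.log T)⁻¹ * (-(Real.log T)⁻¹ * (∫ u in Ioi (Real.log T), Kg (A * Real.log T) u *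
      (Real.log T - cF - Real.log T * FF (u / Real.log T) T))) =
      -((Real.log T)⁻¹ ^ 2 * (∫ u in Ioi (Real.log T), Kg (A * Real.log T) u *
      (Real.log T - cF - Real.log T * FF (u / Real.log T) T))) := by ring
  rw [h7]
  have h8 := mul_le_mul_of_nonneg_left h6 (show 0 ≤ (Real.log T)⁻¹ ^ 2 by positivity)
  have h9 : (Real.log T)⁻¹ ^ 2 * (Real.log T ^ 4 / (6 * (A * Real.log T) ^ 2) + ε * Real.log T) =
      1 / (6 * A ^ 2) + ε / Real.log T := by
    field_simp
  rw [h9] at h8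
  linarith

end Pool.Agent.Lib.MP_00e05b_nt.UH
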