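import Pool.Agent.Lib.MP_00e05b_nt.UH.Defs

open Complex Set Filter Topology MeasureTheory

namespace Pool.Agent.Lib.MP_00e05b_nt.UH

open Pool.Agent.Lib.MP_00e05b_nt Pool.Agent.Lib.MP_00e05b_nt.Mont Pool.Agent.Lib.MP_2a816b_nt.TA

/-- the part of `chi` not covered by `cv` -/
noncomputable def rho (W : ℝ → ℝ) (L K v : ℝ) : ℝ := max (chi L v - cv W (L - K) v / ∫ u, W u ^ 2) 0

/-! ### Integrals over moving intervals -/

private lemma Rho_chi (L v : ℝ) :
    chi L v = ∫ x in (v - L)..(v + L), Real.exp (-(2 * |x|)) := by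
  unfold chi
  rw [intervalIntegral.integral_comp_sub_left (fun x => Real.exp (-(2 * |x|))) v, sub_neg_eq_add]

private lemma Rho_cv (W : ℝ → ℝ) (Y v : ℝ) :
    cv W Y v = ∫ x in (v - Y)..(v + Y), W x ^ 2 := by
  unfold cv
  rw [intervalIntegral.integral_comp_sub_left (fun x => W x ^ 2) v, sub_neg_eq_add]

private lemma Rho_hc : Continuous (fun x : ℝ => Real.exp (-(2 * |x|))) := by fun_prop

private lemma Rho_gc {W : ℝ → ℝ} (hW : EB W (1 / 8)) : Continuous (fun x : ℝ => W x ^ 2) :=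
  hW.smooth.continuous.pow 2

private lemma Rho_ev {f : ℝ → ℝ} (hf : ∀ x, f (-x) = f x) (Y v : ℝ) :
    ∫ x in (-v - Y)..(-v + Y), f x = ∫ x in (v - Y)..(v + Y), f x := by
  have h1 := intervalIntegral.integral_comp_neg (a := v - Y) (b := v + Y) f
  have h2 : ∫ x in (v - Y)..(v + Y), f (-x) = ∫ x in (v - Y)..(v + Y), f x :=
    intervalIntegral.integral_congr fun x _ => hf x
  rw [← h2, h1, neg_add', neg_sub, sub_eq_add_neg Y v, add_comm Y (-v)]

private lemma Rho_lip1 {f : ℝ → ℝ} (hc : Continuous f) (h1 : ∀ x, |f x| ≤ 1) (Y v w : ℝ) :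
    |(∫ x in (v - Y)..(v + Y), f x) - ∫ x in (w - Y)..(w + Y), f x| ≤ 2 * |v - w| := by
  have hi : ∀ a b : ℝ, IntervalIntegrable f volume a b := fun a b => hc.intervalIntegrable a b
  rw [intervalIntegral.integral_interval_sub_interval_comm (hi _ _) (hi _ _) (hi _ _)]
  have h2 : ∀ a b : ℝ, |∫ x in a..b, f x| ≤ 1 * |b - a| := by
    intro a b
    rw [← Real.norm_eq_abs (∫ x in a..b, f x)]
    exact intervalIntegral.norm_integral_le_of_norm_le_const (fun x _ => h1 x)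
  have h3 := h2 (v - Y) (w - Y)
  have h4 := h2 (v + Y) (w + Y)
  have e1 : w - Y - (v - Y) = w - v := by ring
  have e2 : w + Y - (v + Y) = w - v := by ring
  rw [e1, abs_sub_comm w v] at h3
  rw [e2, abs_sub_comm w v] at h4
  calc |(∫ x in (v - Y)..(w - Y), f x) - ∫ x in (v + Y)..(w + Y), f x|
      ≤ |∫ x in (v - Y)..(w - Y), f x| + |∫ x in (v + Y)..(w + Y), f x| := abs_sub _ _
    _ ≤ 2 * |v - w| := by linarith

private lemma Rho_le_int {f : ℝ → ℝ} (hi : Integrable f) (h0 : ∀ x, 0 ≤ f x) (a b : ℝ) :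
    ∫ x in a..b, f x ≤ ∫ x, f x := by
  rcases le_total a b with h | h
  · rw [intervalIntegral.integral_of_le h]
    exact setIntegral_le_integral hi (Eventually.of_forall h0)
  · rw [intervalIntegral.integral_of_ge h]
    have h1 : 0 ≤ ∫ x in Ioc b a, f x := integral_nonneg fun x => h0 x
    have h2 : 0 ≤ ∫ x, f x := integral_nonneg fun x => h0 x
    linarith

private lemma Rho_nn {f : ℝ → ℝ} (h0 : ∀ x, 0 ≤ f x) {Y : ℝ} (hY : 0 ≤ Y) (v : ℝ) :
    0 ≤ ∫ x in (v - Y)..(v + Y), f x :=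
  intervalIntegral.integral_nonneg (by linarith) fun x _ => h0 x

private lemma Rho_hi : Integrable (fun x : ℝ => Real.exp (-(2 * |x|))) := by
  rw [← integrableOn_univ, ← Iic_union_Ioi (a := (0 : ℝ)), integrableOn_union]
  constructor
  · refine (integrableOn_exp_mul_Iic (a := 2) (by norm_num) 0).congr_fun (fun x hx => ?_)
      measurableSet_Iic
    have hx0 : x ≤ 0 := hx
    dsimp only
    rw [abs_of_nonpos hx0]
    ring_nf
  · refine (integrableOn_exp_mul_Ioi (a := -2) (by norm_num) 0).congr_fun (fun x hx => ?_)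
      measurableSet_Ioi
    have hx0 : 0 < x := hx
    dsimp only
    rw [abs_of_pos hx0]
    ring_nf

private lemma Rho_h1 : ∫ x : ℝ, Real.exp (-(2 * |x|)) = 1 := by
  have h1 := integral_comp_abs (f := fun x : ℝ => Real.exp (-(2 * x)))
  have h2 : ∫ x in Ioi (0 : ℝ), Real.exp (-(2 * x)) = 1 / 2 := by
    have h3 := integral_exp_mul_Ioi (a := -2) (by norm_num) 0
    have h4 : ∫ x in Ioi (0 : ℝ), Real.exp (-(2 * x)) = ∫ x in Ioi (0 : ℝ), Real.exp (-2 * x) := by
      refine integral_congr_ae (Eventually.of_forall fun x => ?_)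
      dsimp only
      ring_nf
    rw [h4, h3]
    norm_num
  rw [h2] at h1
  rw [h1]
  norm_num

private lemma Rho_gcs {W : ℝ → ℝ} (hW : EB W (1 / 8)) :
    Function.support (fun x : ℝ => W x ^ 2) ⊆ Icc (-(1 / 8)) (1 / 8) := by
  intro x hx
  by_contra h
  apply hx
  have h1 : (1 : ℝ) / 8 ≤ |x| := by
    by_contra h2
    rw [not_le, abs_lt] at h2
    exact h ⟨h2.1.le, h2.2.le⟩
  show W x ^ 2 = 0
  rw [hW.supp x h1]
  norm_num

private lemma Rho_gsupp {W : ℝ → ℝ} (hW : EB W (1 / 8)) :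
    HasCompactSupport (fun x : ℝ => W x ^ 2) :=
  HasCompactSupport.of_support_subset_isCompact isCompact_Icc (Rho_gcs hW)

private lemma Rho_gi {W : ℝ → ℝ} (hW : EB W (1 / 8)) : Integrable (fun x : ℝ => W x ^ 2) :=
  (Rho_gc hW).integrable_of_hasCompactSupport (Rho_gsupp hW)

private lemma Rho_J {W : ℝ → ℝ} (hW : EB W (1 / 8)) : 0 < ∫ x : ℝ, W x ^ 2 := by
  refine (Rho_gc hW).integral_pos_of_hasCompactSupport_nonneg_nonzero (Rho_gsupp hW)
    (fun x => sq_nonneg _) (x := 0) ?_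
  show W 0 ^ 2 ≠ 0
  rw [hW.one 0 (by norm_num)]
  norm_num

private lemma Rho_g1 {W : ℝ → ℝ} (hW : EB W (1 / 8)) (x : ℝ) : |W x ^ 2| ≤ 1 := by
  rw [abs_of_nonneg (sq_nonneg _)]
  exact pow_le_one₀ (hW.nonneg x) (hW.le_one x)

private lemma Rho_h0 (x : ℝ) : |Real.exp (-(2 * |x|))| ≤ 1 := by
  rw [abs_of_pos (Real.exp_pos _), Real.exp_le_one_iff]
  have := abs_nonneg x
  linarith

private lemma Rho_chi_le_one (L v : ℝ) : chi L v ≤ 1 := by
  rw [Rho_chi, ← Rho_h1]
  exact Rho_le_int Rho_hi (fun x => (Real.exp_pos _).le) _ _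

private lemma Rho_chi_nonneg {L : ℝ} (hL : 0 ≤ L) (v : ℝ) : 0 ≤ chi L v := by
  rw [Rho_chi]
  exact Rho_nn (fun x => (Real.exp_pos _).le) hL v

private lemma Rho_cv_nonneg (W : ℝ → ℝ) {Y : ℝ} (hY : 0 ≤ Y) (v : ℝ) : 0 ≤ cv W Y v := by
  rw [Rho_cv]
  exact Rho_nn (fun x => sq_nonneg _) hY v

private lemma Rho_chi_even (L v : ℝ) : chi L (-v) = chi L v := by
  rw [Rho_chi, Rho_chi]
  exact Rho_ev (fun x => by rw [abs_neg]) L v

private lemma Rho_cv_even {W : ℝ → ℝ} (hW : EB W (1 / 8)) (Y v : ℝ) :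
    cv W Y (-v) = cv W Y v := by
  rw [Rho_cv, Rho_cv]
  exact Rho_ev (fun x => by rw [hW.even]) Y v

private lemma Rho_expint (c : ℝ) (hc : c ≠ 0) (a b : ℝ) :
    ∫ x in a..b, Real.exp (c * x) = (Real.exp (c * b) - Real.exp (c * a)) / c := by
  have h1 : ∀ x ∈ uIcc a b, HasDerivAt (fun x => Real.exp (c * x) / c) (Real.exp (c * x)) x := by
    intro x _
    have h2 : HasDerivAt (fun x : ℝ => c * x) c x := by
      simpa using (hasDerivAt_id x).const_mul c
    have h3 := (h2.exp).div_const c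
    rwa [mul_div_assoc, div_self hc, mul_one] at h3
  rw [intervalIntegral.integral_eq_sub_of_hasDerivAt h1
    ((by fun_prop : Continuous (fun x : ℝ => Real.exp (c * x))).intervalIntegrable a b)]
  ring

private lemma Rho_chi_up {L : ℝ} (hL : 0 ≤ L) (v : ℝ) :
    chi L v ≤ Real.exp (-(2 * (|v| - L))) := by
  have h1 : ∀ v : ℝ, chi L v ≤ Real.exp (-(2 * (v - L))) := by
    intro v
    rw [Rho_chi]
    have h2 : ∫ x in (v - L)..(v + L), Real.exp (-(2 * |x|)) ≤
        ∫ x in (v - L)..(v + L), Real.exp (-2 * x) := by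
      refine intervalIntegral.integral_mono_on (by linarith) (Rho_hc.intervalIntegrable _ _)
        ((by fun_prop : Continuous (fun x : ℝ => Real.exp (-2 * x))).intervalIntegrable _ _)
        fun x _ => ?_
      refine Real.exp_le_exp.2 ?_
      have := le_abs_self x
      linarith
    rw [Rho_expint (-2) (by norm_num)] at h2
    have h3 : Real.exp (-(2 * (v - L))) = Real.exp (-2 * (v - L)) := by ring_nf
    have h4 := Real.exp_pos (-2 * (v + L))
    have h5 := Real.exp_pos (-2 * (v - L))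
    rw [h3]
    linarith
  rcases le_total 0 v with hv | hv
  · rw [abs_of_nonneg hv]
    exact h1 v
  · rw [abs_of_nonpos hv, ← Rho_chi_even]
    exact h1 (-v)

private lemma Rho_chi_dn {L v : ℝ} (h0 : 0 ≤ v) (hv : v ≤ L) :
    1 - Real.exp (-2 * (L - v)) ≤ chi L v := by
  rw [Rho_chi]
  have hi : ∀ a b : ℝ, IntervalIntegrable (fun x : ℝ => Real.exp (-(2 * |x|))) volume a b :=
    fun a b => Rho_hc.intervalIntegrable a b
  rw [← intervalIntegral.integral_add_adjacent_intervals (hi (v - L) 0) (hi 0 (v + L))]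
  have h1 : ∫ x in (v - L)..0, Real.exp (-(2 * |x|)) = ∫ x in (v - L)..0, Real.exp (2 * x) := by
    refine intervalIntegral.integral_congr fun x hx => ?_
    rw [uIcc_of_le (by linarith)] at hx
    rw [abs_of_nonpos hx.2]
    ring_nf
  have h2 : ∫ x in (0 : ℝ)..(v + L), Real.exp (-(2 * |x|)) =
      ∫ x in (0 : ℝ)..(v + L), Real.exp (-2 * x) := by
    refine intervalIntegral.integral_congr fun x hx => ?_
    rw [uIcc_of_le (by linarith)] at hx
    rw [abs_of_nonneg hx.1]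
    ring_nf
  rw [h1, h2, Rho_expint 2 (by norm_num), Rho_expint (-2) (by norm_num), mul_zero, mul_zero,
    Real.exp_zero]
  have h3 : Real.exp (2 * (v - L)) = Real.exp (-2 * (L - v)) := by ring_nf
  have h4 : Real.exp (-2 * (v + L)) ≤ Real.exp (-2 * (L - v)) := Real.exp_le_exp.2 (by linarith)
  rw [h3]
  linarith

private lemma Rho_cv_le {W : ℝ → ℝ} (hW : EB W (1 / 8)) (Y v : ℝ) :
    cv W Y v / ∫ u, W u ^ 2 ≤ 1 := by
  rw [div_le_one (Rho_J hW), Rho_cv]
  exact Rho_le_int (Rho_gi hW) (fun x => sq_nonneg _) _ _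

private lemma Rho_cv_one {W : ℝ → ℝ} (hW : EB W (1 / 8)) {Y v : ℝ} (h : |v| ≤ Y - 1 / 8) :
    cv W Y v / ∫ u, W u ^ 2 = 1 := by
  obtain ⟨h1, h2⟩ := abs_le.1 h
  rw [Rho_cv, intervalIntegral.integral_eq_integral_of_support_subset, div_self (Rho_J hW).ne']
  intro x hx
  obtain ⟨h3, h4⟩ := Rho_gcs hW hx
  have h5 : x ≠ -(1 / 8) := by
    intro h6
    apply hx
    show W x ^ 2 = 0
    rw [hW.supp x (by rw [h6, abs_neg, abs_of_pos (by norm_num)])]
    norm_num
  have h6 : -(1 / 8) < x := lt_of_le_of_ne h3 (Ne.symm h5)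
  exact ⟨by linarith, by linarith⟩

private lemma Rho_cv_zero {W : ℝ → ℝ} (hW : EB W (1 / 8)) {Y v : ℝ} (hY : 0 ≤ Y)
    (h : Y + 1 / 8 ≤ v) : cv W Y v = 0 := by
  rw [Rho_cv]
  have h1 : ∫ x in (v - Y)..(v + Y), W x ^ 2 = ∫ x in (v - Y)..(v + Y), (0 : ℝ) := by
    refine intervalIntegral.integral_congr fun x hx => ?_
    rw [uIcc_of_le (by linarith)] at hx
    rw [hW.supp x ((by linarith [hx.1] : (1 : ℝ) / 8 ≤ x).trans (le_abs_self x))]
    norm_num
  rw [h1, intervalIntegral.integral_zero]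

private lemma Rho_lipC {W : ℝ → ℝ} (hW : EB W (1 / 8)) (L K v w : ℝ) :
    |rho W L K v - rho W L K w| ≤ (2 + 2 / ∫ u, W u ^ 2) * |v - w| := by
  have hJ := Rho_J hW
  unfold rho
  refine (abs_max_sub_max_le_abs _ _ _).trans ?_
  have h1 : |chi L v - chi L w| ≤ 2 * |v - w| := by
    rw [Rho_chi, Rho_chi]
    exact Rho_lip1 Rho_hc Rho_h0 L v w
  have h2 : |cv W (L - K) v - cv W (L - K) w| ≤ 2 * |v - w| := by
    rw [Rho_cv, Rho_cv]
    exact Rho_lip1 (Rho_gc hW) (Rho_g1 hW) (L - K) v w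
  have h3 : |cv W (L - K) v / (∫ u, W u ^ 2) - cv W (L - K) w / ∫ u, W u ^ 2| ≤
      2 / (∫ u, W u ^ 2) * |v - w| := by
    rw [← sub_div, abs_div, abs_of_pos hJ, div_mul_eq_mul_div]
    exact div_le_div_of_nonneg_right h2 hJ.le
  have e : chi L v - cv W (L - K) v / (∫ u, W u ^ 2) -
      (chi L w - cv W (L - K) w / ∫ u, W u ^ 2) = (chi L v - chi L w) -
      (cv W (L - K) v / (∫ u, W u ^ 2) - cv W (L - K) w / ∫ u, W u ^ 2) := by ring
  rw [e]
  refine (abs_sub _ _).trans ?_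
  rw [add_mul]
  exact add_le_add h1 h3

/-! ### Integrals over the half line -/

private lemma Rho_conv {f : ℝ → ℝ} (hi : Integrable f) (he : ∀ x, f (-x) = f x) {Y : ℝ}
    (hY : 0 ≤ Y) : Integrable (fun v : ℝ => ∫ x in (v - Y)..(v + Y), f x) ∧
      ∫ v in Ioi (0 : ℝ), (∫ x in (v - Y)..(v + Y), f x) = Y * ∫ x, f x := by
  have hk : Integrable (indicator (Ioc (-Y) Y) (fun _ : ℝ => (1 : ℝ))) :=
    (integrable_indicator_iff measurableSet_Ioc).2 (integrableOn_const (by simp))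
  have h1 : convolution (indicator (Ioc (-Y) Y) (fun _ : ℝ => (1 : ℝ))) f
      (ContinuousLinearMap.lsmul ℝ ℝ) volume = fun v : ℝ => ∫ x in (v - Y)..(v + Y), f x := by
    funext v
    unfold MeasureTheory.convolution
    have h2 : ∫ t, (ContinuousLinearMap.lsmul ℝ ℝ)
        (indicator (Ioc (-Y) Y) (fun _ : ℝ => (1 : ℝ)) t) (f (v - t)) =
        ∫ t in Ioc (-Y) Y, f (v - t) := by
      rw [← integral_indicator measurableSet_Ioc]
      refine integral_congr_ae (Eventually.of_forall fun t => ?_)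
      dsimp only
      by_cases ht : t ∈ Ioc (-Y) Y
      · rw [indicator_of_mem ht, indicator_of_mem ht, ContinuousLinearMap.lsmul_apply, one_smul]
      · rw [indicator_of_notMem ht, indicator_of_notMem ht, ContinuousLinearMap.lsmul_apply,
          zero_smul]
    rw [h2, ← intervalIntegral.integral_of_le (by linarith),
      intervalIntegral.integral_comp_sub_left f v, sub_neg_eq_add]
  have h2 := hk.integrable_convolution (ContinuousLinearMap.lsmul ℝ ℝ) hi
  rw [h1] at h2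
  refine ⟨h2, ?_⟩
  have h3 := integral_convolution (ContinuousLinearMap.lsmul ℝ ℝ) hk hi
  rw [h1, integral_indicator measurableSet_Ioc, ContinuousLinearMap.lsmul_apply,
    setIntegral_const, smul_eq_mul, smul_eq_mul, mul_one, Real.volume_real_Ioc_of_le (by linarith)]
    at h3
  have h4 := integral_comp_abs (f := fun v : ℝ => ∫ x in (v - Y)..(v + Y), f x)
  have h5 : ∫ v : ℝ, (∫ x in (|v| - Y)..(|v| + Y), f x) =
      ∫ v : ℝ, (∫ x in (v - Y)..(v + Y), f x) := by
    refine integral_congr_ae (Eventually.of_forall fun v => ?_)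
    dsimp only
    rcases le_total 0 v with hv | hv
    · rw [abs_of_nonneg hv]
    · rw [abs_of_nonpos hv]
      exact Rho_ev he Y v
  rw [h5, h3] at h4
  linarith

/-- LEAF Rho (calculus only), `Y = L - K`, `J = ∫ W²`. Even, continuous; `chi ≤ 1`, `cv = J` for `|v| ≤ Y - 1/8`. -/
theorem rho_even {W : ℝ → ℝ} (hW : EB W (1 / 8)) (L K v : ℝ) : rho W L K (-v) = rho W L K v := by
  unfold rho
  rw [Rho_chi_even, Rho_cv_even hW]

theorem rho_cont {W : ℝ → ℝ} (hW : EB W (1 / 8)) (L K : ℝ) : Continuous (rho W L K) := by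
  have hJ := Rho_J hW
  have h1 : LipschitzWith (Real.toNNReal (2 + 2 / ∫ u, W u ^ 2)) (rho W L K) := by
    refine LipschitzWith.of_dist_le_mul fun v w => ?_
    rw [Real.dist_eq, Real.dist_eq, Real.coe_toNNReal _ (by positivity)]
    exact Rho_lipC hW L K v w
  exact h1.continuous

theorem rho_zero {W : ℝ → ℝ} (hW : EB W (1 / 8)) {L K v : ℝ} (h : |v| ≤ L - K - 1 / 8) : rho W L K v = 0 := by
  unfold rho
  rw [Rho_cv_one hW h]
  exact max_eq_right (sub_nonpos.2 (Rho_chi_le_one L v))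

/-- `chi v ≤ e^(-2(|v| - L))` for all `v` (`≤ 1` for `|v| ≤ L`). -/
theorem rho_le {W : ℝ → ℝ} (hW : EB W (1 / 8)) {L K : ℝ} (hL : 0 ≤ L) (hK : K ≤ L) (v : ℝ) :
    rho W L K v ≤ 1 ∧ rho W L K v ≤ Real.exp (-(2 * (|v| - L))) := by
  have h1 : rho W L K v ≤ chi L v := by
    unfold rho
    refine max_le ?_ (Rho_chi_nonneg hL v)
    have h2 : 0 ≤ cv W (L - K) v / ∫ u, W u ^ 2 :=
      div_nonneg (Rho_cv_nonneg W (by linarith) v) (Rho_J hW).le
    linarith
  exact ⟨h1.trans (Rho_chi_le_one L v), h1.trans (Rho_chi_up hL v)⟩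

/-- Lipschitz: `|chi'| ≤ 2 chi ≤ 2`, `cv` is an integral of `W²`, `|cv v - cv w| ≤ 2 |v - w|`. -/
theorem rho_lip {W : ℝ → ℝ} (hW : EB W (1 / 8)) : ∃ C : ℝ, 0 ≤ C ∧ ∀ L K v w : ℝ, 0 ≤ L → 0 ≤ K → K ≤ L →
    |rho W L K v - rho W L K w| ≤ C * |v - w| := by
  have hJ := Rho_J hW
  exact ⟨2 + 2 / ∫ u, W u ^ 2, by positivity, fun L K v w _ _ _ => Rho_lipC hW L K v w⟩

/-- `∫_0^∞ chi = L`, `∫_0^∞ cv/J = Y` (halves of integrals of even functions), and the negative part of `chi - cv/J` is at most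
`1 - chi` on `[0, Y + 1/8]`, of integral `≤ e^(-2(K - 1/8))/2 ≤ e^(-K)` (as `1 - chi(v) = (e^(-2(L-v)) + e^(-2(L+v)))/2` there). -/
theorem rho_int {W : ℝ → ℝ} (hW : EB W (1 / 8)) {L K : ℝ} (hK : 1 ≤ K) (hL : K + 1 ≤ L) :
    IntegrableOn (rho W L K) (Ioi 0) ∧ ∫ v in Ioi (0 : ℝ), rho W L K v ≤ K + Real.exp (-K) := by
  have hJ := Rho_J hW
  obtain ⟨Y, hY⟩ : ∃ Y : ℝ, Y = L - K := ⟨_, rfl⟩
  obtain ⟨J, hJe⟩ : ∃ J : ℝ, J = ∫ u, W u ^ 2 := ⟨_, rfl⟩
  have hY0 : 0 ≤ Y := by rw [hY]; linarith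
  obtain ⟨i1, e1⟩ := Rho_conv Rho_hi (fun x => by rw [abs_neg]) (Y := L) (by linarith)
  obtain ⟨i2, e2⟩ := Rho_conv (Rho_gi hW) (fun x => by rw [hW.even]) hY0
  have f1 : (fun v : ℝ => ∫ x in (v - L)..(v + L), Real.exp (-(2 * |x|))) = chi L := by
    funext v
    rw [Rho_chi]
  have f2 : (fun v : ℝ => ∫ x in (v - Y)..(v + Y), W x ^ 2) = cv W Y := by
    funext v
    rw [Rho_cv]
  rw [f1] at i1
  rw [f2] at i2
  have e1' : ∫ v in Ioi (0 : ℝ), chi L v = L := by
    rw [← f1, e1, Rho_h1, mul_one]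
  have e2' : ∫ v in Ioi (0 : ℝ), cv W Y v = Y * J := by
    rw [← f2, e2, hJe]
  obtain ⟨D, hD⟩ : ∃ D : ℝ → ℝ, D = fun v => chi L v - cv W Y v / J := ⟨_, rfl⟩
  have iD : IntegrableOn D (Ioi 0) := by
    rw [hD]
    exact (i1.sub (i2.div_const J)).integrableOn
  have eD : ∫ v in Ioi (0 : ℝ), D v = K := by
    rw [hD, integral_sub i1.integrableOn (i2.div_const J).integrableOn, integral_div, e1', e2',
      mul_div_assoc, div_self (by rw [hJe]; exact hJ.ne'), mul_one, hY]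
    ring
  have hr : rho W L K = fun v => max (D v) 0 := by
    funext v
    unfold rho
    rw [hD, ← hY, ← hJe]
  have hr2 : ∀ v, rho W L K v = D v + max (-D v) 0 := by
    intro v
    rw [hr]
    dsimp only
    rcases le_total (D v) 0 with h | h
    · rw [max_eq_right h, max_eq_left (by linarith)]
      ring
    · rw [max_eq_left h, max_eq_right (by linarith)]
      ring
  refine ⟨?_, ?_⟩
  · rw [hr]
    exact iD.pos_part
  have iN : IntegrableOn (fun v => max (-D v) 0) (Ioi 0) := iD.neg.pos_part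
  have h1 : ∫ v in Ioi (0 : ℝ), rho W L K v = K + ∫ v in Ioi (0 : ℝ), max (-D v) 0 := by
    have h0 : ∫ v in Ioi (0 : ℝ), rho W L K v = ∫ v in Ioi (0 : ℝ), (D v + max (-D v) 0) :=
      integral_congr_ae (Eventually.of_forall fun v => hr2 v)
    rw [h0, integral_add iD iN, eD]
  rw [h1]
  refine add_le_add le_rfl ?_
  have h2 : ∫ v in Ioi (0 : ℝ), max (-D v) 0 = ∫ v in Ioc 0 (Y + 1 / 8), max (-D v) 0 := by
    refine setIntegral_eq_of_subset_of_forall_sdiff_eq_zero measurableSet_Ioi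
      (fun v hv => hv.1) fun v hv => ?_
    have hv1 : Y + 1 / 8 < v := by
      by_contra h3
      exact hv.2 ⟨hv.1, not_lt.1 h3⟩
    rw [hD]
    dsimp only
    rw [Rho_cv_zero hW hY0 hv1.le, zero_div, sub_zero]
    exact max_eq_right (neg_nonpos.2 (Rho_chi_nonneg (by linarith) v))
  rw [h2, ← intervalIntegral.integral_of_le (by linarith)]
  have h3 : ∫ v in (0 : ℝ)..(Y + 1 / 8), max (-D v) 0 ≤
      ∫ v in (0 : ℝ)..(Y + 1 / 8), Real.exp (-(2 * L)) * Real.exp (2 * v) := by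
    refine intervalIntegral.integral_mono_on (by linarith) ?_
      ((by fun_prop : Continuous (fun v : ℝ =>
        Real.exp (-(2 * L)) * Real.exp (2 * v))).intervalIntegrable _ _) fun v hv => ?_
    · rw [intervalIntegrable_iff_integrableOn_Ioc_of_le (by linarith)]
      exact iN.mono_set fun v hv => hv.1
    · have hvL : v ≤ L := by
        have := hv.2
        rw [hY] at this
        linarith
      have h4 := Rho_chi_dn hv.1 hvL
      have h5 := Rho_cv_le hW Y v
      rw [← hJe] at h5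
      have h6 : Real.exp (-(2 * L)) * Real.exp (2 * v) = Real.exp (-2 * (L - v)) := by
        rw [← Real.exp_add]
        ring_nf
      rw [h6]
      refine max_le ?_ (Real.exp_pos _).le
      rw [hD]
      dsimp only
      linarith
  refine h3.trans ?_
  rw [intervalIntegral.integral_const_mul, Rho_expint 2 (by norm_num), mul_zero, Real.exp_zero]
  have h4 : Real.exp (-(2 * L)) * ((Real.exp (2 * (Y + 1 / 8)) - 1) / 2) ≤
      Real.exp (-(2 * L)) * (Real.exp (2 * (Y + 1 / 8)) / 2) := by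
    refine mul_le_mul_of_nonneg_left ?_ (Real.exp_pos _).le
    linarith
  refine h4.trans ?_
  have h5 : Real.exp (-(2 * L)) * (Real.exp (2 * (Y + 1 / 8)) / 2) =
      Real.exp (-K) * (Real.exp (1 / 4 - K) / 2) := by
    rw [mul_div_assoc', mul_div_assoc', ← Real.exp_add, ← Real.exp_add, hY]
    ring_nf
  rw [h5]
  have h6 : Real.exp (1 / 4 - K) ≤ 1 := Real.exp_le_one_iff.2 (by linarith)
  have h7 := Real.exp_pos (-K)
  have h8 := mul_le_mul_of_nonneg_left h6 h7.le
  linarith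

end Pool.Agent.Lib.MP_00e05b_nt.UH
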