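import Pool.Agent.Lib.MP_00e05b_nt.UH.Tr
import Pool.Agent.Lib.MP_00e05b_nt.UH.Rho
import Pool.Agent.Lib.MP_00e05b_nt.Mont.FMass

open Complex Set Filter Topology MeasureTheory

namespace Pool.Agent.Lib.MP_00e05b_nt.UH

open Pool.Agent.Lib.MP_00e05b_nt Pool.Agent.Lib.MP_00e05b_nt.Mont Pool.Agent.Lib.MP_2a816b_nt.TA

private lemma Kn1_k1 {p q u : ℝ} (hpq : p ≤ q) (hq : q ≤ u) :
    ∫ w in p..q, Real.exp (-(2 * |u - w|)) = (Real.exp (-(2 * (u - q))) - Real.exp (-(2 * (u - p)))) / 2 := by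
  have h1 : ∫ w in p..q, Real.exp (-(2 * |u - w|)) = ∫ w in p..q, Real.exp (-(2 * (u - w))) := by
    apply intervalIntegral.integral_congr
    intro w hw
    rw [Set.uIcc_of_le hpq] at hw
    have : 0 ≤ u - w := by linarith [hw.2]
    simp only [abs_of_nonneg this]
  rw [h1]
  have hF : ∀ w ∈ Set.uIcc p q, HasDerivAt (fun w => Real.exp (-(2 * (u - w))) / 2) (Real.exp (-(2 * (u - w)))) w := by
    intro w _
    have h2 : HasDerivAt (fun w : ℝ => -(2 * (u - w))) 2 w := by
      have h : HasDerivAt (fun w : ℝ => -(2 * (u - w))) (-(2 * (-1))) w := (((hasDerivAt_id w).const_sub u).const_mul 2).neg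
      rw [show (-(2 * (-1 : ℝ))) = 2 by norm_num] at h
      exact h
    have h3 := h2.exp.div_const 2
    have h4 : Real.exp (-(2 * (u - w))) * 2 / 2 = Real.exp (-(2 * (u - w))) := by ring
    rw [h4] at h3
    exact h3
  rw [intervalIntegral.integral_eq_sub_of_hasDerivAt hF (Continuous.intervalIntegrable (by fun_prop) _ _)]
  ring

private lemma Kn1_k2 {p q u : ℝ} (hpq : p ≤ q) (hp : u ≤ p) :
    ∫ w in p..q, Real.exp (-(2 * |u - w|)) = (Real.exp (-(2 * (p - u))) - Real.exp (-(2 * (q - u)))) / 2 := by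
  have h1 : ∫ w in p..q, Real.exp (-(2 * |u - w|)) = ∫ w in p..q, Real.exp (-(2 * (w - u))) := by
    apply intervalIntegral.integral_congr
    intro w hw
    rw [Set.uIcc_of_le hpq] at hw
    have h0 : u - w ≤ 0 := by linarith [hw.1]
    have h2 : |u - w| = w - u := by rw [abs_of_nonpos h0]; ring
    simp only [h2]
  rw [h1]
  have hF : ∀ w ∈ Set.uIcc p q, HasDerivAt (fun w => -(Real.exp (-(2 * (w - u))) / 2)) (Real.exp (-(2 * (w - u)))) w := by
    intro w _
    have h2 : HasDerivAt (fun w : ℝ => -(2 * (w - u))) (-2) w := by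
      have h : HasDerivAt (fun w : ℝ => -(2 * (w - u))) (-(2 * 1)) w := (((hasDerivAt_id w).sub_const u).const_mul 2).neg
      rw [show (-(2 * (1 : ℝ))) = -2 by norm_num] at h
      exact h
    have h3 := (h2.exp.div_const 2).neg
    have h4 : -(Real.exp (-(2 * (w - u))) * (-2) / 2) = Real.exp (-(2 * (w - u))) := by ring
    rw [h4] at h3
    exact h3
  rw [intervalIntegral.integral_eq_sub_of_hasDerivAt hF (Continuous.intervalIntegrable (by fun_prop) _ _)]
  ring

/-- The kernel `K`. -/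
private noncomputable def Kn1_K (a u : ℝ) : ℝ := ∫ w in (-a)..a, Real.exp (-(2 * |u - w|))

private lemma Kn1_K_mid {a u : ℝ} (h : |u| ≤ a) :
    Kn1_K a u = 1 - (Real.exp (-(2 * (a - u))) + Real.exp (-(2 * (a + u)))) / 2 := by
  obtain ⟨h1, h2⟩ := abs_le.mp h
  unfold Kn1_K
  have hI : ∀ p q : ℝ, IntervalIntegrable (fun w => Real.exp (-(2 * |u - w|))) volume p q :=
    fun p q => Continuous.intervalIntegrable (by fun_prop) _ _
  rw [← intervalIntegral.integral_add_adjacent_intervals (hI (-a) u) (hI u a), Kn1_k1 h1 le_rfl, Kn1_k2 h2 le_rfl]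
  simp only [sub_self, mul_zero, neg_zero, Real.exp_zero]
  rw [show u - -a = a + u by ring]
  ring

private lemma Kn1_K_right {a u : ℝ} (ha : 0 ≤ a) (h : a ≤ u) :
    Kn1_K a u = (Real.exp (-(2 * (u - a))) - Real.exp (-(2 * (u + a)))) / 2 := by
  unfold Kn1_K
  rw [Kn1_k1 (by linarith) h, show u - -a = u + a by ring]

private lemma Kn1_K_left {a u : ℝ} (ha : 0 ≤ a) (h : u ≤ -a) :
    Kn1_K a u = (Real.exp (-(2 * (-a - u))) - Real.exp (-(2 * (a - u)))) / 2 := by
  unfold Kn1_K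
  rw [Kn1_k2 (by linarith) h]

private lemma Kn1_K_nonneg {a : ℝ} (ha : 0 ≤ a) (u : ℝ) : 0 ≤ Kn1_K a u := by
  unfold Kn1_K
  exact intervalIntegral.integral_nonneg (by linarith) fun w _ => (Real.exp_pos _).le

private lemma Kn1_K_le {a : ℝ} (ha : 0 ≤ a) (u : ℝ) : Kn1_K a u ≤ Real.exp (-(2 * max (|u| - a) 0)) := by
  rcases le_total |u| a with h | h
  · rw [Kn1_K_mid h, max_eq_right (by linarith), mul_zero, neg_zero, Real.exp_zero]
    have h1 := Real.exp_pos (-(2 * (a - u)))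
    have h2 := Real.exp_pos (-(2 * (a + u)))
    linarith
  · rw [max_eq_left (by linarith)]
    rcases le_total 0 u with hu | hu
    · rw [abs_of_nonneg hu] at h ⊢
      rw [Kn1_K_right ha h]
      have h1 := Real.exp_pos (-(2 * (u - a)))
      have h2 := Real.exp_pos (-(2 * (u + a)))
      linarith
    · rw [abs_of_nonpos hu] at h ⊢
      rw [Kn1_K_left ha (by linarith)]
      have h1 := Real.exp_pos (-(2 * (-a - u)))
      have h2 := Real.exp_pos (-(2 * (a - u)))
      rw [show -u - a = -a - u by ring]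
      linarith

private lemma Kn1_K_continuous (a : ℝ) : Continuous (Kn1_K a) := by
  unfold Kn1_K
  apply intervalIntegral.continuous_parametric_intervalIntegral_of_continuous'
  fun_prop

private lemma Kn1_expmax (a : ℝ) : Integrable (fun u : ℝ => Real.exp (-(2 * max (|u| - a) 0))) := by
  have h1 : Integrable (fun u : ℝ => Real.exp (2 * a) * Real.exp (-(2 * |u|))) := exp_abs_integrable.const_mul _
  refine h1.mono' (Continuous.aestronglyMeasurable (by fun_prop)) (Eventually.of_forall fun u => ?_)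
  rw [Real.norm_eq_abs, Real.abs_exp, ← Real.exp_add]
  apply Real.exp_le_exp.mpr
  have := le_max_left (|u| - a) 0
  linarith

private lemma Kn1_SE (T : ℝ) {k : ℝ → ℝ} (hk : Continuous k) (a : ℝ) (hk0 : ∀ u, 0 ≤ k u)
    (hka : ∀ u, k u ≤ Real.exp (-(2 * max (|u| - a) 0))) : Integrable (fun u => ‖SS T u‖ ^ 2 * k u) := by
  have h1 : Integrable (fun u : ℝ => (∑ γ ∈ ordinates T, (mult γ : ℝ)) ^ 2 * Real.exp (-(2 * max (|u| - a) 0))) :=
    (Kn1_expmax a).const_mul _
  have hc := continuous_SS T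
  refine h1.mono' (Continuous.aestronglyMeasurable (by fun_prop)) (Eventually.of_forall fun u => ?_)
  rw [Real.norm_eq_abs, abs_of_nonneg (mul_nonneg (by positivity) (hk0 u))]
  have h2 : ‖SS T u‖ ^ 2 ≤ (∑ γ ∈ ordinates T, (mult γ : ℝ)) ^ 2 :=
    pow_le_pow_left₀ (norm_nonneg _) (SS_bound T u) 2
  exact mul_le_mul h2 (hka u) (hk0 u) (by positivity)

/-- The integral of `FF` in terms of the kernel. -/
private lemma Kn1_formula {T x : ℝ} (hT : 1 < T) (hx : 0 ≤ x) :
    ∫ α in (-x)..x, FF α T = (N0 T * Real.log T)⁻¹ * ∫ u, ‖SS T u‖ ^ 2 * Kn1_K (x * Real.log T) u := by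
  have hL : 0 < Real.log T := Real.log_pos hT
  have hc := continuous_SS T
  set L := Real.log T with hLdef
  have h1 : ∀ α : ℝ, FF α T = (N0 T)⁻¹ * ∫ u : ℝ, ‖SS T u‖ ^ 2 * Real.exp (-(2 * |u - α * L|)) := by
    intro α
    rw [FF_eq (by linarith) α]
    congr 1
    rw [← integral_add_left_eq_self (fun u : ℝ => ‖SS T u‖ ^ 2 * Real.exp (-(2 * |u - α * L|))) (α * L)]
    congr 1
    funext v
    rw [add_sub_cancel_left]
  have h2 : ∫ α in (-x)..x, FF α T = (N0 T)⁻¹ * ∫ α in Ioc (-x) x, ∫ u : ℝ, ‖SS T u‖ ^ 2 * Real.exp (-(2 * |u - α * L|)) := by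
    rw [intervalIntegral.integral_of_le (by linarith), ← integral_const_mul]
    simp only [h1]
  have hint : Integrable (Function.uncurry fun (α u : ℝ) => ‖SS T u‖ ^ 2 * Real.exp (-(2 * |u - α * L|)))
      ((volume.restrict (Ioc (-x) x)).prod volume) := by
    have h3 : Integrable (fun p : ℝ × ℝ => (fun _ : ℝ => (∑ γ ∈ ordinates T, (mult γ : ℝ)) ^ 2 * Real.exp (2 * (x * L))) p.1 *
        (fun u : ℝ => Real.exp (-(2 * |u|))) p.2) ((volume.restrict (Ioc (-x) x)).prod volume) :=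
      Integrable.mul_prod (integrable_const _) exp_abs_integrable
    refine Integrable.mono' h3 (Continuous.aestronglyMeasurable (by fun_prop)) ?_
    have hset : ∀ᵐ p ∂((volume.restrict (Ioc (-x) x)).prod (volume : Measure ℝ)), p.1 ∈ Ioc (-x) x := by
      have h4 : ∀ᵐ α ∂(volume.restrict (Ioc (-x) x)), α ∈ Ioc (-x) x := ae_restrict_mem measurableSet_Ioc
      exact Measure.quasiMeasurePreserving_fst.ae h4
    filter_upwards [hset] with p hp
    simp only [Function.uncurry]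
    rw [Real.norm_eq_abs, abs_of_nonneg (by positivity), mul_assoc, ← Real.exp_add]
    have h5 : ‖SS T p.2‖ ^ 2 ≤ (∑ γ ∈ ordinates T, (mult γ : ℝ)) ^ 2 :=
      pow_le_pow_left₀ (norm_nonneg _) (SS_bound T p.2) 2
    have h6 : Real.exp (-(2 * |p.2 - p.1 * L|)) ≤ Real.exp (2 * (x * L) + -(2 * |p.2|)) := by
      apply Real.exp_le_exp.mpr
      have h7 : |p.1| ≤ x := abs_le.mpr ⟨hp.1.le, hp.2⟩
      have h8 : |p.2| ≤ |p.2 - p.1 * L| + |p.1 * L| := by
        calc |p.2| = |(p.2 - p.1 * L) + p.1 * L| := by congr 1; ring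
          _ ≤ _ := abs_add_le _ _
      have h9 : |p.1 * L| ≤ x * L := by
        rw [abs_mul, abs_of_pos hL]
        exact mul_le_mul_of_nonneg_right h7 hL.le
      linarith
    exact mul_le_mul h5 h6 (Real.exp_pos _).le (by positivity)
  rw [h2, integral_integral_swap hint]
  have h3 : ∀ u : ℝ, ∫ α in Ioc (-x) x, ‖SS T u‖ ^ 2 * Real.exp (-(2 * |u - α * L|)) = L⁻¹ * (‖SS T u‖ ^ 2 * Kn1_K (x * L) u) := by
    intro u
    rw [integral_const_mul, ← intervalIntegral.integral_of_le (by linarith)]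
    have h4 := intervalIntegral.integral_comp_mul_right (a := -x) (b := x) (fun w => Real.exp (-(2 * |u - w|))) hL.ne'
    rw [h4, smul_eq_mul, Kn1_K, neg_mul]
    ring
  simp only [h3]
  rw [integral_const_mul, mul_inv]
  ring

private lemma Kn1_chi (a : ℝ) : chi a = Kn1_K a := rfl

private lemma Kn1_even {f : ℝ → ℝ} (hf : Continuous f) (he : ∀ x, f (-x) = f x) (a : ℝ) :
    ∫ x in (-a)..a, f x = 2 * ∫ x in (0 : ℝ)..a, f x := by
  have hI : ∀ p q : ℝ, IntervalIntegrable f volume p q := fun p q => hf.intervalIntegrable _ _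
  rw [← intervalIntegral.integral_add_adjacent_intervals (hI (-a) 0) (hI 0 a)]
  have h1 : ∫ x in (-a)..0, f x = ∫ x in (0 : ℝ)..a, f x := by
    have h2 := intervalIntegral.integral_comp_neg (a := 0) (b := a) f
    rw [neg_zero] at h2
    rw [← h2]
    exact intervalIntegral.integral_congr fun x _ => he x
  rw [h1]
  ring

/-- LEAF Kn1 (a): `∫_(-1)^1 F` with the kernel (`fm_formula` of `Mont/FMass.lean`, private there: copy it, `x = 1`; `N0 T = T L/2π`). -/
theorem FF_chi {T : ℝ} (hT : 1 < T) : Integrable (fun u => ‖SS T u‖ ^ 2 * chi (Real.log T) u) ∧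
    Real.log T ^ 2 * (2 * ∫ α in (0 : ℝ)..1, FF α T) = 2 * Real.pi / T * ∫ u, ‖SS T u‖ ^ 2 * chi (Real.log T) u := by
  have hL : 0 < Real.log T := Real.log_pos hT
  have hT0 : (0 : ℝ) < T := by linarith
  have hSk := Kn1_SE T (Kn1_K_continuous (Real.log T)) (Real.log T) (Kn1_K_nonneg hL.le)
    (Kn1_K_le hL.le)
  refine ⟨hSk, ?_⟩
  have h1 := Kn1_formula hT zero_le_one
  rw [one_mul] at h1
  rw [← Kn1_even (FF_continuous hT0) (FF_even hT0) 1, h1, Kn1_chi]
  unfold N0
  have hpi := Real.pi_pos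
  field_simp

/-- LEAF Kn1 (b): Fubini and evenness: `(2π/T) ∫ |SS|² cv W Y = ∫_(-Y)^Y Ph W T y dy = 2 ∫_0^Y`. -/
theorem SS_cv {W : ℝ → ℝ} {s : ℝ} (hW : EB W s) {T Y : ℝ} (hT : 1 < T) (hY : 0 ≤ Y) :
    Integrable (fun u => ‖SS T u‖ ^ 2 * cv W Y u) ∧
    2 * Real.pi / T * ∫ u, ‖SS T u‖ ^ 2 * cv W Y u = 2 * ∫ y in (0 : ℝ)..Y, Ph W T y := by
  have hT0 : (0 : ℝ) < T := by linarith
  have hc := continuous_SS T
  have hWc : Continuous W := hW.smooth.continuous
  have hWb : ∀ v : ℝ, W v ^ 2 ≤ Real.exp (2 * |s|) * Real.exp (-(2 * |v|)) := by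
    intro v
    rw [← Real.exp_add]
    rcases le_total s |v| with h | h
    · rw [hW.supp v h]
      have := Real.exp_pos (2 * |s| + -(2 * |v|))
      norm_num
      exact this.le
    · have h1 : W v ^ 2 ≤ 1 := pow_le_one₀ (hW.nonneg v) (hW.le_one v)
      have h2 : 0 ≤ 2 * |s| + -(2 * |v|) := by
        have := le_abs_self s
        linarith
      exact h1.trans (Real.one_le_exp h2)
  have hint : Integrable (Function.uncurry fun (y u : ℝ) => W (u - y) ^ 2 * ‖SS T u‖ ^ 2)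
      ((volume.restrict (Ioc (-Y) Y)).prod volume) := by
    have h3 : Integrable (fun p : ℝ × ℝ => (fun _ : ℝ => (∑ γ ∈ ordinates T, (mult γ : ℝ)) ^ 2 *
        (Real.exp (2 * |s|) * Real.exp (2 * Y))) p.1 *
        (fun u : ℝ => Real.exp (-(2 * |u|))) p.2) ((volume.restrict (Ioc (-Y) Y)).prod volume) :=
      Integrable.mul_prod (integrable_const _) exp_abs_integrable
    refine Integrable.mono' h3 (Continuous.aestronglyMeasurable (by fun_prop)) ?_
    have hset : ∀ᵐ p ∂((volume.restrict (Ioc (-Y) Y)).prod (volume : Measure ℝ)), p.1 ∈ Ioc (-Y) Y := by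
      have h4 : ∀ᵐ α ∂(volume.restrict (Ioc (-Y) Y)), α ∈ Ioc (-Y) Y := ae_restrict_mem measurableSet_Ioc
      exact Measure.quasiMeasurePreserving_fst.ae h4
    filter_upwards [hset] with p hp
    simp only [Function.uncurry]
    rw [Real.norm_eq_abs, abs_of_nonneg (by positivity)]
    have h5 : ‖SS T p.2‖ ^ 2 ≤ (∑ γ ∈ ordinates T, (mult γ : ℝ)) ^ 2 :=
      pow_le_pow_left₀ (norm_nonneg _) (SS_bound T p.2) 2
    have h6 : W (p.2 - p.1) ^ 2 ≤ Real.exp (2 * |s|) * Real.exp (2 * Y) * Real.exp (-(2 * |p.2|)) := by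
      have h7 : |p.1| ≤ Y := abs_le.mpr ⟨hp.1.le, hp.2⟩
      have h8 : |p.2| ≤ |p.2 - p.1| + |p.1| := by
        calc |p.2| = |(p.2 - p.1) + p.1| := by congr 1; ring
          _ ≤ _ := abs_add_le _ _
      have h9 : Real.exp (-(2 * |p.2 - p.1|)) ≤ Real.exp (2 * Y) * Real.exp (-(2 * |p.2|)) := by
        rw [← Real.exp_add]
        exact Real.exp_le_exp.mpr (by linarith)
      calc W (p.2 - p.1) ^ 2 ≤ Real.exp (2 * |s|) * Real.exp (-(2 * |p.2 - p.1|)) := hWb _
        _ ≤ Real.exp (2 * |s|) * (Real.exp (2 * Y) * Real.exp (-(2 * |p.2|))) :=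
          mul_le_mul_of_nonneg_left h9 (Real.exp_pos _).le
        _ = _ := by ring
    calc W (p.2 - p.1) ^ 2 * ‖SS T p.2‖ ^ 2
        ≤ (Real.exp (2 * |s|) * Real.exp (2 * Y) * Real.exp (-(2 * |p.2|))) *
          (∑ γ ∈ ordinates T, (mult γ : ℝ)) ^ 2 :=
          mul_le_mul h6 h5 (by positivity) (by positivity)
      _ = _ := by ring
  have hcv : ∀ u : ℝ, ∫ y in Ioc (-Y) Y, W (u - y) ^ 2 * ‖SS T u‖ ^ 2 = ‖SS T u‖ ^ 2 * cv W Y u := by
    intro u
    rw [integral_mul_const, cv, intervalIntegral.integral_of_le (by linarith), mul_comm]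
  constructor
  · have h := hint.integral_prod_right
    simp only [Function.uncurry, hcv] at h
    exact h
  · have h1 := integral_integral_swap hint
    simp only [hcv] at h1
    rw [← h1, ← Kn1_even (Ph_cont hW hT0) (Ph_even hW T) Y,
      intervalIntegral.integral_of_le (by linarith), ← integral_const_mul]
    rfl

end Pool.Agent.Lib.MP_00e05b_nt.UH
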