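import Pool.Agent.Lib.MP_00e05b_nt.UH.Mn

open Complex Set Filter Topology MeasureTheory

namespace Pool.Agent.Lib.MP_00e05b_nt.UH

open Pool.Agent.Lib.MP_00e05b_nt Pool.Agent.Lib.MP_00e05b_nt.Mont Pool.Agent.Lib.MP_2a816b_nt.TA

/-- Fubini with a kernel, as an inequality. -/
private lemma kn2_fub {P f h k : ℝ → ℝ} {S S' : Set ℝ} (hP : Continuous P) (hP0 : ∀ v, 0 ≤ P v)
    (hf0 : ∀ v ∈ S, 0 ≤ f v) (hh : Continuous h) (hh0 : ∀ y, 0 ≤ h y) (hk : Continuous k) (hk0 : ∀ x, 0 ≤ k x)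
    (hkc : HasCompactSupport k) (hS : MeasurableSet S) (hS' : MeasurableSet S')
    (hsup : ∀ v ∈ S, ∀ y, k (v - y) ≠ 0 → y ∈ S' ∧ f v ≤ h y)
    (hI1 : IntegrableOn (fun v => P v * f v) S)
    (hI2 : IntegrableOn (fun y => h y * ∫ v, k (v - y) * P v) S') :
    (∫ x, k x) * ∫ v in S, P v * f v ≤ ∫ y in S', h y * ∫ v, k (v - y) * P v := by
  have hJ0 : 0 ≤ ∫ x, k x := integral_nonneg hk0
  have hR0 : 0 ≤ ∫ y in S', h y * ∫ v, k (v - y) * P v :=
    integral_nonneg fun y => mul_nonneg (hh0 y) (integral_nonneg fun v => mul_nonneg (hk0 _) (hP0 _))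
  have hkI : Integrable k := hk.integrable_of_hasCompactSupport hkc
  have hkv : ∀ v : ℝ, Integrable (fun y => k (v - y)) := fun v => hkI.comp_sub_left v
  have hky : ∀ y : ℝ, Integrable (fun v => k (v - y) * P v) := by
    intro y
    have hc : HasCompactSupport (fun v => k (v - y)) := by
      have := hkc.comp_homeomorph (Homeomorph.subRight y)
      exact this
    exact Continuous.integrable_of_hasCompactSupport (by fun_prop) hc.mul_right
  rw [← ENNReal.ofReal_le_ofReal_iff hR0]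
  have e1 : ENNReal.ofReal ((∫ x, k x) * ∫ v in S, P v * f v) =
      ∫⁻ v in S, ∫⁻ y, ENNReal.ofReal (P v * f v * k (v - y)) := by
    rw [← integral_const_mul, ofReal_integral_eq_lintegral_ofReal (hI1.const_mul _)]
    · refine setLIntegral_congr_fun hS fun v hv => ?_
      have h1 : ∫ y, P v * f v * k (v - y) = (∫ x, k x) * (P v * f v) := by
        rw [integral_const_mul, integral_sub_left_eq_self k volume v]
        ring
      show ENNReal.ofReal ((∫ x, k x) * (P v * f v)) = _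
      rw [← h1, ofReal_integral_eq_lintegral_ofReal ((hkv v).const_mul _)]
      exact Eventually.of_forall fun y => mul_nonneg (mul_nonneg (hP0 v) (hf0 v hv)) (hk0 _)
    · refine (ae_restrict_iff' hS).2 (Eventually.of_forall fun v hv => ?_)
      exact mul_nonneg hJ0 (mul_nonneg (hP0 v) (hf0 v hv))
  have e2 : ENNReal.ofReal (∫ y in S', h y * ∫ v, k (v - y) * P v) =
      ∫⁻ y in S', ∫⁻ v, ENNReal.ofReal (h y * (k (v - y) * P v)) := by
    rw [ofReal_integral_eq_lintegral_ofReal hI2]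
    · refine lintegral_congr fun y => ?_
      rw [← integral_const_mul, ofReal_integral_eq_lintegral_ofReal ((hky y).const_mul _)]
      exact Eventually.of_forall fun v => mul_nonneg (hh0 y) (mul_nonneg (hk0 _) (hP0 v))
    · exact Eventually.of_forall fun y =>
        mul_nonneg (hh0 y) (integral_nonneg fun v => mul_nonneg (hk0 _) (hP0 _))
  have e3 : ∫⁻ y in S', ∫⁻ v, ENNReal.ofReal (h y * (k (v - y) * P v)) =
      ∫⁻ v, ∫⁻ y in S', ENNReal.ofReal (h y * (k (v - y) * P v)) := by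
    rw [lintegral_lintegral_swap]
    refine Measurable.aemeasurable ?_
    refine ENNReal.measurable_ofReal.comp (Continuous.measurable ?_)
    fun_prop
  rw [e1, e2, e3]
  calc ∫⁻ v in S, ∫⁻ y, ENNReal.ofReal (P v * f v * k (v - y))
      ≤ ∫⁻ v in S, ∫⁻ y in S', ENNReal.ofReal (h y * (k (v - y) * P v)) := by
        refine setLIntegral_mono' hS fun v hv => ?_
        rw [← lintegral_indicator hS']
        refine lintegral_mono fun y => ?_
        by_cases hz : k (v - y) = 0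
        · simp [hz]
        · obtain ⟨hy, hfh⟩ := hsup v hv y hz
          rw [indicator_of_mem hy]
          apply ENNReal.ofReal_le_ofReal
          have h1 : f v * (k (v - y) * P v) ≤ h y * (k (v - y) * P v) :=
            mul_le_mul_of_nonneg_right hfh (mul_nonneg (hk0 _) (hP0 _))
          calc P v * f v * k (v - y) = f v * (k (v - y) * P v) := by ring
            _ ≤ _ := h1
    _ ≤ _ := setLIntegral_le_lintegral _ _

private lemma kn2_J {W : ℝ → ℝ} {s : ℝ} (hW : EB W s) (hs : 0 < s) : 0 < ∫ u, W u ^ 2 := by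
  have hc : Continuous W := ES.continuous hW.es
  have hcs : HasCompactSupport W := ES.compact hW.es
  refine Continuous.integral_pos_of_hasCompactSupport_nonneg_nonzero (x := 0) (hc.pow 2) ?_ ?_ ?_
  · exact hcs.comp_left (g := fun x : ℝ => x ^ 2) (by simp)
  · exact fun u => sq_nonneg _
  · rw [hW.one 0 (by simp; linarith)]
    norm_num

private lemma kn2_expInt (L c : ℝ) : IntegrableOn (fun v => Real.exp (-(2 * (v - L)))) (Ioi c) := by
  have h := (integrableOn_exp_mul_Ioi (a := -2) (by norm_num) c).const_mul (Real.exp (2 * L))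
  refine IntegrableOn.congr_fun h (fun v _ => ?_) measurableSet_Ioi
  show Real.exp (2 * L) * Real.exp (-2 * v) = _
  rw [← Real.exp_add]
  congr 1
  ring

private lemma kn2_PrInt (T : ℝ) {r : ℝ → ℝ} (hr : Continuous r) (hr0 : ∀ v, 0 ≤ r v) (L c : ℝ) (hc : 0 ≤ c)
    (hrL : ∀ v, 0 ≤ v → r v ≤ Real.exp (-(2 * (v - L)))) :
    IntegrableOn (fun u => ‖SS T u‖ ^ 2 * r u) (Ioi c) := by
  have hSc := continuous_SS T
  have h1 := (kn2_expInt L c).const_mul (NN T ^ 2)
  refine Integrable.mono' h1 (Continuous.aestronglyMeasurable (by fun_prop)) ?_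
  refine (ae_restrict_iff' measurableSet_Ioi).2 (Eventually.of_forall fun u hu => ?_)
  rw [Real.norm_eq_abs, abs_of_nonneg (mul_nonneg (by positivity) (hr0 u))]
  have h2 : ‖SS T u‖ ^ 2 ≤ NN T ^ 2 := pow_le_pow_left₀ (norm_nonneg _) (SS_le T u) 2
  exact mul_le_mul h2 (hrL u (hc.trans (le_of_lt hu))) (hr0 u) (by positivity)

/-- `∫_c^∞ e^(-(y - c)/2) dy = 2` -/
private lemma kn2_half (c : ℝ) : IntegrableOn (fun y => Real.exp (-((y - c) / 2))) (Ioi c) ∧
    ∫ y in Ioi c, Real.exp (-((y - c) / 2)) = 2 := by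
  have h := (integrableOn_exp_mul_Ioi (a := -(1 / 2)) (by norm_num) c).const_mul (Real.exp (c / 2))
  have he : ∀ y : ℝ, Real.exp (c / 2) * Real.exp (-(1 / 2) * y) = Real.exp (-((y - c) / 2)) := by
    intro y
    rw [← Real.exp_add]
    congr 1
    ring
  simp only [he] at h
  refine ⟨h, ?_⟩
  have h2 : ∫ y in Ioi c, Real.exp (-((y - c) / 2)) = ∫ y in Ioi c, Real.exp (c / 2) * Real.exp (-(1 / 2) * y) := by
    simp only [he]
  rw [h2, integral_const_mul, integral_exp_mul_Ioi (by norm_num) c]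
  have h3 : Real.exp (c / 2) * Real.exp (-(1 / 2) * c) = 1 := by
    rw [← Real.exp_add]
    rw [show c / 2 + -(1 / 2) * c = 0 by ring, Real.exp_zero]
  calc Real.exp (c / 2) * (-Real.exp (-(1 / 2) * c) / -(1 / 2)) = 2 * (Real.exp (c / 2) * Real.exp (-(1 / 2) * c)) := by ring
    _ = 2 := by rw [h3]; ring

/-- the pointwise bound of the far range -/
private lemma kn2_far {L c y : ℝ} (hc : 0 ≤ c) (hL : L ≤ c) (hy : c ≤ y) :
    Real.exp (-(2 * (y - L))) * ((1 + Real.exp (y - L)) * (1 + y)) ≤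
      4 * (1 + c) * Real.exp (-(c - L)) * Real.exp (-((y - c) / 2)) := by
  have h1 : 1 ≤ Real.exp (y - L) := Real.one_le_exp (by linarith)
  have h2 : 1 + (y - c) ≤ 2 * Real.exp ((y - c) / 2) := by
    have := Real.add_one_le_exp ((y - c) / 2)
    linarith
  have h3 : 1 + y ≤ (1 + c) * (2 * Real.exp ((y - c) / 2)) := by
    calc 1 + y ≤ (1 + c) * (1 + (y - c)) := by nlinarith [mul_nonneg hc (sub_nonneg.2 hy)]
      _ ≤ _ := mul_le_mul_of_nonneg_left h2 (by linarith)
  have h4 : (1 + Real.exp (y - L)) * (1 + y) ≤ (2 * Real.exp (y - L)) * ((1 + c) * (2 * Real.exp ((y - c) / 2))) := by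
    apply mul_le_mul (by linarith) h3 (by linarith) (by positivity)
  calc Real.exp (-(2 * (y - L))) * ((1 + Real.exp (y - L)) * (1 + y))
      ≤ Real.exp (-(2 * (y - L))) * ((2 * Real.exp (y - L)) * ((1 + c) * (2 * Real.exp ((y - c) / 2)))) :=
        mul_le_mul_of_nonneg_left h4 (Real.exp_pos _).le
    _ = 4 * (1 + c) * (Real.exp (-(2 * (y - L))) * Real.exp (y - L) * Real.exp ((y - c) / 2)) := by ring
    _ = 4 * (1 + c) * (Real.exp (-(c - L)) * Real.exp (-((y - c) / 2))) := by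
        rw [← Real.exp_add, ← Real.exp_add, ← Real.exp_add]
        congr 2
        ring
    _ = _ := by ring

/-- LEAF Kn2: a function `r` on the half line against the measure `(2π/T) |SS|² du`. If `0 ≤ r` is continuous, `r = 0` on `[0, a]`, `r` is
`C0`-Lipschitz, `r(v) ≤ e^(-2(v - L))`, then for `W'` = `EB W' s'` and `b > L`:
`∫_[0,b] r P ≤ (1/J') ∫_(a - s')^(b + s') (r(y) + C0 s') Ph W' T y dy` (since `r(v) ≤ r(y) + C0 s'` when `|v - y| ≤ s'`, and `∫ W'(v - y)² dy = J'`),
`∫_(b,∞) r P ≤ (e^(2 s)/J) ∫_(b - s)^∞ e^(-2(y - L)) Ph W T y dy`, `W` = `EB W (1/8)`, `s = 1/8`, and `Ph_far`: `≤ C e^(-(b - L)) (1 + b)`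
(`∫_b^∞ e^(-2(y-L)) (1 + e^(y-L)) (1 + y) dy ≤ C e^(-(b-L)) (1 + b)`). -/
theorem half_line (hRH : RiemannHypothesis) {W : ℝ → ℝ} (hW : EB W (1 / 8)) :
    ∃ C : ℝ, 0 ≤ C ∧ ∀ (W' : ℝ → ℝ) (s' : ℝ), EB W' s' → 0 < s' → s' ≤ 1 / 8 →
      ∀ (T a b C0 : ℝ) (r : ℝ → ℝ), 2 ≤ T → 1 ≤ a → a ≤ Real.log T → Real.log T + 1 ≤ b → 0 ≤ C0 → Continuous r →
      (∀ v, 0 ≤ r v) → (∀ v, 0 ≤ v → v ≤ a → r v = 0) → (∀ v w, |r v - r w| ≤ C0 * |v - w|) →
      (∀ v, 0 ≤ v → r v ≤ Real.exp (-(2 * (v - Real.log T)))) →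
      IntegrableOn (fun u => ‖SS T u‖ ^ 2 * r u) (Ioi 0) ∧
      2 * Real.pi / T * ∫ u in Ioi (0 : ℝ), ‖SS T u‖ ^ 2 * r u ≤
        (∫ y in (a - s')..(b + s'), (r y + C0 * s') * Ph W' T y) / (∫ u, W' u ^ 2) +
          C * Real.exp (-(b - Real.log T)) * (1 + b) := by
  obtain ⟨C1, hC1, hfar⟩ := Ph_far hRH hW (by norm_num) le_rfl
  have hJ : 0 < ∫ u, W u ^ 2 := kn2_J hW (by norm_num)
  have hWc : Continuous W := ES.continuous hW.es
  have hWs : HasCompactSupport (fun x => W x ^ 2) :=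
    (ES.compact hW.es).comp_left (g := fun x : ℝ => x ^ 2) (by simp)
  refine ⟨8 * C1 * Real.exp (3 / 8) / (∫ u, W u ^ 2), by positivity, ?_⟩
  intro W' s' hW' hs0 hs1 T a b C0 r hT ha haL hLb hC0 hr hr0 hra hrL hre
  have hT0 : 0 < T := by linarith
  have hL1 : 1 ≤ Real.log T := ha.trans haL
  have hpi := Real.pi_pos
  have hpt : 0 < 2 * Real.pi / T := by positivity
  have hSc := continuous_SS T
  have hW'c : Continuous W' := ES.continuous hW'.es
  have hW's : HasCompactSupport (fun x => W' x ^ 2) :=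
    (ES.compact hW'.es).comp_left (g := fun x : ℝ => x ^ 2) (by simp)
  have hJ' : 0 < ∫ u, W' u ^ 2 := kn2_J hW' hs0
  have hI0 : IntegrableOn (fun u => ‖SS T u‖ ^ 2 * r u) (Ioi 0) := kn2_PrInt T hr hr0 _ 0 le_rfl hre
  refine ⟨hI0, ?_⟩
  have hab : a ≤ b := by linarith
  have hsplit : ∫ u in Ioi (0 : ℝ), ‖SS T u‖ ^ 2 * r u =
      (∫ u in Ioc a b, ‖SS T u‖ ^ 2 * r u) + ∫ u in Ioi b, ‖SS T u‖ ^ 2 * r u := by
    rw [← setIntegral_union (Set.Ioc_disjoint_Ioi le_rfl) measurableSet_Ioi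
      (hI0.mono_set fun x hx => lt_of_lt_of_le (by linarith) hx.1.le)
      (hI0.mono_set fun x hx => lt_trans (by linarith) (show b < x from hx)), Ioc_union_Ioi_eq_Ioi hab]
    refine setIntegral_eq_of_subset_of_forall_sdiff_eq_zero measurableSet_Ioi
      (fun x hx => lt_trans (by linarith) (show a < x from hx)) ?_
    intro x hx
    have hx0 : 0 < x := hx.1
    have hxa : x ≤ a := not_lt.1 hx.2
    rw [hra x hx0.le hxa, mul_zero]
  -- near part
  have hnear : (∫ u, W' u ^ 2) * ∫ u in Ioc a b, ‖SS T u‖ ^ 2 * r u ≤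
      ∫ y in Ioc (a - s') (b + s'), (r y + C0 * s') * ∫ v, W' (v - y) ^ 2 * ‖SS T v‖ ^ 2 := by
    refine kn2_fub (P := fun v => ‖SS T v‖ ^ 2) (f := r) (h := fun y => r y + C0 * s') (k := fun x => W' x ^ 2)
      (by fun_prop) (fun v => by positivity) (fun v _ => hr0 v) (by fun_prop)
      (fun y => add_nonneg (hr0 y) (mul_nonneg hC0 hs0.le)) (by fun_prop) (fun x => by positivity) hW's
      measurableSet_Ioc measurableSet_Ioc ?_ ?_ ?_
    · intro v hv y hy
      have hy' : W' (v - y) ≠ 0 := by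
        intro h
        apply hy
        simp [h]
      have hlt : |v - y| < s' := by
        by_contra hc
        exact hy' (hW'.supp _ (not_lt.1 hc))
      obtain ⟨h1, h2⟩ := abs_lt.1 hlt
      refine ⟨⟨by linarith [hv.1], by linarith [hv.2]⟩, ?_⟩
      have h3 := (abs_le.1 (hrL v y)).2
      have h4 : C0 * |v - y| ≤ C0 * s' := mul_le_mul_of_nonneg_left hlt.le hC0
      linarith
    · exact hI0.mono_set fun x hx => lt_of_lt_of_le (by linarith) hx.1.le
    · have h1 : Continuous (fun y => (r y + C0 * s') * (T / (2 * Real.pi) * Ph W' T y)) := by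
        have := Ph_cont hW' hT0
        fun_prop
      have h2 : (fun y => (r y + C0 * s') * ∫ v, W' (v - y) ^ 2 * ‖SS T v‖ ^ 2) =
          fun y => (r y + C0 * s') * (T / (2 * Real.pi) * Ph W' T y) := by
        funext y
        congr 1
        unfold Ph
        field_simp
      rw [h2]
      exact (h1.integrableOn_Icc (a := a - s') (b := b + s')).mono_set Ioc_subset_Icc_self
  -- far part
  have hfarI : IntegrableOn (fun y => Real.exp (1 / 4) * Real.exp (-(2 * (y - Real.log T))) * Ph W T y) (Ioi (b - 1 / 8)) ∧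
      ∫ y in Ioi (b - 1 / 8), Real.exp (1 / 4) * Real.exp (-(2 * (y - Real.log T))) * Ph W T y ≤
        8 * C1 * Real.exp (3 / 8) * Real.exp (-(b - Real.log T)) * (1 + b) := by
    obtain ⟨hh1, hh2⟩ := kn2_half (b - 1 / 8)
    have hPc := Ph_cont hW hT0
    have hpt : ∀ y ∈ Ioi (b - 1 / 8), Real.exp (1 / 4) * Real.exp (-(2 * (y - Real.log T))) * Ph W T y ≤
        (4 * C1 * Real.exp (1 / 4) * (1 + (b - 1 / 8)) * Real.exp (-((b - 1 / 8) - Real.log T))) *
          Real.exp (-((y - (b - 1 / 8)) / 2)) := by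
      intro y hy
      have hy' : b - 1 / 8 < y := hy
      have h1 := hfar T y hT (by linarith)
      have h2 := kn2_far (L := Real.log T) (c := b - 1 / 8) (y := y) (by linarith) (by linarith) hy'.le
      have h3 : Real.exp (y - Real.log T) = Real.exp y / T := by rw [Real.exp_sub, Real.exp_log hT0]
      rw [h3] at h2
      have h4 : Real.exp (1 / 4) * Real.exp (-(2 * (y - Real.log T))) * Ph W T y ≤
          Real.exp (1 / 4) * Real.exp (-(2 * (y - Real.log T))) * (C1 * (1 + Real.exp y / T) * (1 + y)) :=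
        mul_le_mul_of_nonneg_left h1 (by positivity)
      calc _ ≤ _ := h4
        _ = Real.exp (1 / 4) * C1 * (Real.exp (-(2 * (y - Real.log T))) * ((1 + Real.exp y / T) * (1 + y))) := by ring
        _ ≤ Real.exp (1 / 4) * C1 * (4 * (1 + (b - 1 / 8)) * Real.exp (-((b - 1 / 8) - Real.log T)) *
            Real.exp (-((y - (b - 1 / 8)) / 2))) := mul_le_mul_of_nonneg_left h2 (by positivity)
        _ = _ := by ring
    have hInt : IntegrableOn (fun y => Real.exp (1 / 4) * Real.exp (-(2 * (y - Real.log T))) * Ph W T y) (Ioi (b - 1 / 8)) := by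
      refine Integrable.mono' (hh1.const_mul
        (4 * C1 * Real.exp (1 / 4) * (1 + (b - 1 / 8)) * Real.exp (-((b - 1 / 8) - Real.log T))))
        (Continuous.aestronglyMeasurable (by fun_prop))
        ((ae_restrict_iff' measurableSet_Ioi).2 (Eventually.of_forall fun y hy => ?_))
      rw [Real.norm_eq_abs, abs_of_nonneg (mul_nonneg (by positivity) (Ph_nonneg W hT0 y))]
      exact hpt y hy
    refine ⟨hInt, ?_⟩
    have h5 := setIntegral_mono_on hInt (hh1.const_mul _) measurableSet_Ioi hpt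
    refine h5.trans ?_
    rw [integral_const_mul, hh2]
    have h6 : Real.exp (-((b - 1 / 8) - Real.log T)) = Real.exp (1 / 8) * Real.exp (-(b - Real.log T)) := by
      rw [← Real.exp_add]
      congr 1
      ring
    have h7 : Real.exp (1 / 4) * Real.exp (1 / 8) = Real.exp (3 / 8) := by
      rw [← Real.exp_add]
      norm_num
    rw [h6]
    calc 4 * C1 * Real.exp (1 / 4) * (1 + (b - 1 / 8)) * (Real.exp (1 / 8) * Real.exp (-(b - Real.log T))) * 2
        = 8 * C1 * (Real.exp (1 / 4) * Real.exp (1 / 8)) * Real.exp (-(b - Real.log T)) * (1 + (b - 1 / 8)) := by ring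
      _ = 8 * C1 * Real.exp (3 / 8) * Real.exp (-(b - Real.log T)) * (1 + (b - 1 / 8)) := by rw [h7]
      _ ≤ _ := mul_le_mul_of_nonneg_left (by linarith) (by positivity)
  have hfar2 : (∫ u, W u ^ 2) * ∫ u in Ioi b, ‖SS T u‖ ^ 2 * r u ≤
      ∫ y in Ioi (b - 1 / 8), Real.exp (1 / 4) * Real.exp (-(2 * (y - Real.log T))) *
        ∫ v, W (v - y) ^ 2 * ‖SS T v‖ ^ 2 := by
    refine kn2_fub (P := fun v => ‖SS T v‖ ^ 2) (f := r)
      (h := fun y => Real.exp (1 / 4) * Real.exp (-(2 * (y - Real.log T)))) (k := fun x => W x ^ 2)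
      (by fun_prop) (fun v => by positivity) (fun v _ => hr0 v) (by fun_prop)
      (fun y => by positivity) (by fun_prop) (fun x => by positivity) hWs
      measurableSet_Ioi measurableSet_Ioi ?_ ?_ ?_
    · intro v hv y hy
      have hy' : W (v - y) ≠ 0 := by
        intro h
        apply hy
        simp [h]
      have hlt : |v - y| < 1 / 8 := by
        by_contra hc
        exact hy' (hW.supp _ (not_lt.1 hc))
      obtain ⟨h1, h2⟩ := abs_lt.1 hlt
      have hv' : b < v := hv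
      refine ⟨show b - 1 / 8 < y by linarith, ?_⟩
      refine (hre v (by linarith)).trans ?_
      show _ ≤ Real.exp (1 / 4) * Real.exp (-(2 * (y - Real.log T)))
      rw [← Real.exp_add]
      apply Real.exp_le_exp.2
      linarith
    · exact hI0.mono_set fun x hx => lt_trans (by linarith) (show b < x from hx)
    · have h2 : (fun y => Real.exp (1 / 4) * Real.exp (-(2 * (y - Real.log T))) * ∫ v, W (v - y) ^ 2 * ‖SS T v‖ ^ 2) =
          fun y => T / (2 * Real.pi) * (Real.exp (1 / 4) * Real.exp (-(2 * (y - Real.log T))) * Ph W T y) := by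
        funext y
        unfold Ph
        field_simp
      rw [h2]
      exact hfarI.1.const_mul _
  -- assembly
  have hA : 2 * Real.pi / T * ∫ u in Ioc a b, ‖SS T u‖ ^ 2 * r u ≤
      (∫ y in (a - s')..(b + s'), (r y + C0 * s') * Ph W' T y) / (∫ u, W' u ^ 2) := by
    rw [le_div_iff₀ hJ', intervalIntegral.integral_of_le (by linarith)]
    calc 2 * Real.pi / T * (∫ u in Ioc a b, ‖SS T u‖ ^ 2 * r u) * ∫ u, W' u ^ 2
        = 2 * Real.pi / T * ((∫ u, W' u ^ 2) * ∫ u in Ioc a b, ‖SS T u‖ ^ 2 * r u) := by ring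
      _ ≤ 2 * Real.pi / T * ∫ y in Ioc (a - s') (b + s'), (r y + C0 * s') * ∫ v, W' (v - y) ^ 2 * ‖SS T v‖ ^ 2 :=
          mul_le_mul_of_nonneg_left hnear hpt.le
      _ = _ := by
          rw [← integral_const_mul]
          congr 1
          funext y
          unfold Ph
          ring
  have hB : 2 * Real.pi / T * ∫ u in Ioi b, ‖SS T u‖ ^ 2 * r u ≤
      8 * C1 * Real.exp (3 / 8) / (∫ u, W u ^ 2) * Real.exp (-(b - Real.log T)) * (1 + b) := by
    have h1 : (2 * Real.pi / T * ∫ u in Ioi b, ‖SS T u‖ ^ 2 * r u) * (∫ u, W u ^ 2) ≤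
        8 * C1 * Real.exp (3 / 8) * Real.exp (-(b - Real.log T)) * (1 + b) := by
      calc 2 * Real.pi / T * (∫ u in Ioi b, ‖SS T u‖ ^ 2 * r u) * ∫ u, W u ^ 2
          = 2 * Real.pi / T * ((∫ u, W u ^ 2) * ∫ u in Ioi b, ‖SS T u‖ ^ 2 * r u) := by ring
        _ ≤ 2 * Real.pi / T * ∫ y in Ioi (b - 1 / 8), Real.exp (1 / 4) * Real.exp (-(2 * (y - Real.log T))) *
              ∫ v, W (v - y) ^ 2 * ‖SS T v‖ ^ 2 := mul_le_mul_of_nonneg_left hfar2 hpt.le
        _ = ∫ y in Ioi (b - 1 / 8), Real.exp (1 / 4) * Real.exp (-(2 * (y - Real.log T))) * Ph W T y := by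
            rw [← integral_const_mul]
            congr 1
            funext y
            unfold Ph
            ring
        _ ≤ _ := hfarI.2
    rw [← le_div_iff₀ hJ] at h1
    refine h1.trans (le_of_eq ?_)
    ring
  rw [hsplit, mul_add]
  exact add_le_add hA hB

end Pool.Agent.Lib.MP_00e05b_nt.UH
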