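import Pool.Agent.Lib.MP_00e05b_nt.UH.Kn1
import Pool.Agent.Lib.MP_00e05b_nt.UH.Kn2
import Pool.Agent.Lib.MP_00e05b_nt.UH.Ed

open Complex Set Filter Topology MeasureTheory

namespace Pool.Agent.Lib.MP_00e05b_nt.UH

open Pool.Agent.Lib.MP_00e05b_nt Pool.Agent.Lib.MP_00e05b_nt.Mont Pool.Agent.Lib.MP_2a816b_nt.TA

private lemma Kn3_J_pos {W : ℝ → ℝ} {s : ℝ} (hW : EB W s) (hs : 0 < s) : 0 < ∫ u, W u ^ 2 := by
  have hc : Continuous fun u => W u ^ 2 := hW.smooth.continuous.pow 2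
  refine hc.integral_pos_of_hasCompactSupport_nonneg_nonzero (x := 0) ?_ (fun u => sq_nonneg _) ?_
  · refine HasCompactSupport.intro (isCompact_Icc : IsCompact (Icc (-s) s)) fun u hu => ?_
    have h1 : s ≤ |u| := by
      by_contra h
      rw [not_le, abs_lt] at h
      exact hu ⟨h.1.le, h.2.le⟩
    rw [hW.supp u h1]
    norm_num
  · rw [hW.one 0 (by rw [abs_zero]; linarith)]
    norm_num

private lemma Kn3_int {W : ℝ → ℝ} (hW : EB W (1 / 8)) {T L K : ℝ} (hL : 0 ≤ L) (hK : K ≤ L) :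
    Integrable (fun u => ‖SS T u‖ ^ 2 * rho W L K u) := by
  have h1 : Integrable (fun u : ℝ => (∑ γ ∈ ordinates T, (mult γ : ℝ)) ^ 2 * Real.exp (2 * L) *
      Real.exp (-(2 * |u|))) := exp_abs_integrable.const_mul _
  have hc := continuous_SS T
  refine h1.mono' (((hc.norm.pow 2).mul (rho_cont hW L K)).aestronglyMeasurable)
    (Eventually.of_forall fun u => ?_)
  have h0 : 0 ≤ rho W L K u := le_max_right _ _
  rw [Real.norm_eq_abs, abs_of_nonneg (mul_nonneg (by positivity) h0)]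
  have h2 : ‖SS T u‖ ^ 2 ≤ (∑ γ ∈ ordinates T, (mult γ : ℝ)) ^ 2 :=
    pow_le_pow_left₀ (norm_nonneg _) (SS_bound T u) 2
  have h3 : rho W L K u ≤ Real.exp (2 * L) * Real.exp (-(2 * |u|)) := by
    rw [← Real.exp_add]
    refine (rho_le hW hL hK u).2.trans (le_of_eq ?_)
    congr 1
    ring
  calc ‖SS T u‖ ^ 2 * rho W L K u
      ≤ (∑ γ ∈ ordinates T, (mult γ : ℝ)) ^ 2 * (Real.exp (2 * L) * Real.exp (-(2 * |u|))) :=
        mul_le_mul h2 h3 h0 (by positivity)
    _ = _ := by ring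

private lemma Kn3_half {W : ℝ → ℝ} (hW : EB W (1 / 8)) (T L K : ℝ) :
    ∫ u, ‖SS T u‖ ^ 2 * rho W L K u = 2 * ∫ u in Ioi (0 : ℝ), ‖SS T u‖ ^ 2 * rho W L K u := by
  have h1 := integral_comp_abs (f := fun u => ‖SS T u‖ ^ 2 * rho W L K u)
  rw [← h1]
  refine integral_congr_ae (Eventually.of_forall fun u => ?_)
  show ‖SS T u‖ ^ 2 * rho W L K u = ‖SS T |u|‖ ^ 2 * rho W L K |u|
  rcases abs_choice u with h | h
  · rw [h]
  · rw [h, SS_neg, rho_even hW]

/-- the first step -/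
private lemma Kn3_one {W : ℝ → ℝ} (hW : EB W (1 / 8)) {T K : ℝ} (hT : 1 < T)
    (hK : K ≤ Real.log T) :
    Real.log T ^ 2 * (2 * ∫ α in (0 : ℝ)..1, FF α T) ≤
      (2 * ∫ y in (0 : ℝ)..(Real.log T - K), Ph W T y) / (∫ u, W u ^ 2) +
        2 * (2 * Real.pi / T * ∫ u in Ioi (0 : ℝ), ‖SS T u‖ ^ 2 * rho W (Real.log T) K u) := by
  have hL : 0 < Real.log T := Real.log_pos hT
  have hJ := Kn3_J_pos hW (by norm_num)
  have hT0 : 0 < T := by linarith
  obtain ⟨i1, e1⟩ := FF_chi hT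
  obtain ⟨i2, e2⟩ := SS_cv hW hT (sub_nonneg.2 hK)
  have i3 := Kn3_int hW (T := T) hL.le hK
  have h1 : ∫ u, ‖SS T u‖ ^ 2 * chi (Real.log T) u ≤
      ∫ u, (‖SS T u‖ ^ 2 * cv W (Real.log T - K) u) * (∫ u, W u ^ 2)⁻¹ +
        ‖SS T u‖ ^ 2 * rho W (Real.log T) K u := by
    refine integral_mono i1 ((i2.mul_const _).add i3) fun u => ?_
    show ‖SS T u‖ ^ 2 * chi (Real.log T) u ≤
      (‖SS T u‖ ^ 2 * cv W (Real.log T - K) u) * (∫ u, W u ^ 2)⁻¹ +
        ‖SS T u‖ ^ 2 * rho W (Real.log T) K u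
    have h2 : chi (Real.log T) u - cv W (Real.log T - K) u / (∫ u, W u ^ 2) ≤
        rho W (Real.log T) K u := le_max_left _ _
    have h3 : chi (Real.log T) u ≤ cv W (Real.log T - K) u * (∫ u, W u ^ 2)⁻¹ +
        rho W (Real.log T) K u := by
      rw [← div_eq_mul_inv]
      linarith
    have h4 := mul_le_mul_of_nonneg_left h3 (sq_nonneg ‖SS T u‖)
    linarith
  rw [integral_add (i2.mul_const _) i3, integral_mul_const, Kn3_half hW] at h1
  have h0 : 0 ≤ 2 * Real.pi / T := by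
    have := Real.pi_pos
    positivity
  have h5 := mul_le_mul_of_nonneg_left h1 h0
  rw [← e1] at h5
  refine h5.trans (le_of_eq ?_)
  rw [mul_add, ← mul_assoc, e2]
  ring

/-- the second step -/
private lemma Kn3_two {W' : ℝ → ℝ} {s' : ℝ} (hW' : EB W' s') (hs0 : 0 < s') (hs : s' ≤ 1 / 8)
    {W : ℝ → ℝ} (hW : EB W (1 / 8)) {T K K' C0 ε' : ℝ} (hT : 1 < T) (hK : 1 ≤ K) (hK' : 1 ≤ K')
    (hL : K + 2 ≤ Real.log T) (hC0 : 0 ≤ C0) (hε : 0 ≤ ε')
    (hed : ∀ y : ℝ, Real.log T - (K + K' + 1) ≤ y → y ≤ Real.log T + (K + K' + 1) →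
      Ph W' T y ≤ (1 + ε') * Real.log T * ∫ u, W' u ^ 2) :
    (∫ y in (Real.log T - K - 1 / 8 - s')..(Real.log T + K' + s'),
      (rho W (Real.log T) K y + C0 * s') * Ph W' T y) / (∫ u, W' u ^ 2) ≤
      (1 + ε') * Real.log T * (K + Real.exp (-K) + C0 * s' * (K + K' + 2)) := by
  have hJ := Kn3_J_pos hW' hs0
  have hL0 : 0 < Real.log T := Real.log_pos hT
  obtain ⟨i1, h1⟩ := rho_int hW hK (show K + 1 ≤ Real.log T by linarith)
  have hrc := rho_cont hW (Real.log T) K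
  have hPc := Ph_cont hW' (T := T) (by linarith)
  have hab : Real.log T - K - 1 / 8 - s' ≤ Real.log T + K' + s' := by linarith
  have h2 : ∫ y in (Real.log T - K - 1 / 8 - s')..(Real.log T + K' + s'),
      (rho W (Real.log T) K y + C0 * s') * Ph W' T y ≤
      ∫ y in (Real.log T - K - 1 / 8 - s')..(Real.log T + K' + s'),
        (rho W (Real.log T) K y + C0 * s') * ((1 + ε') * Real.log T * ∫ u, W' u ^ 2) := by
    refine intervalIntegral.integral_mono_on hab
      (Continuous.intervalIntegrable ((hrc.add continuous_const).mul hPc) _ _)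
      (Continuous.intervalIntegrable ((hrc.add continuous_const).mul continuous_const) _ _)
      fun y hy => ?_
    have h3 : 0 ≤ rho W (Real.log T) K y := le_max_right _ _
    refine mul_le_mul_of_nonneg_left (hed y ?_ ?_) (by positivity)
    · linarith [hy.1]
    · linarith [hy.2]
  rw [intervalIntegral.integral_mul_const, intervalIntegral.integral_add
    (hrc.intervalIntegrable _ _) (continuous_const.intervalIntegrable _ _),
    intervalIntegral.integral_const, smul_eq_mul] at h2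
  have h3 : ∫ y in (Real.log T - K - 1 / 8 - s')..(Real.log T + K' + s'), rho W (Real.log T) K y ≤
      K + Real.exp (-K) := by
    refine le_trans ?_ h1
    rw [intervalIntegral.integral_of_le hab]
    refine setIntegral_mono_set i1 (Eventually.of_forall fun y => le_max_right _ _)
      (Eventually.of_forall fun y hy => ?_)
    have hy1 : Real.log T - K - 1 / 8 - s' < y := hy.1
    show 0 < y
    linarith
  have h4 : (Real.log T + K' + s' - (Real.log T - K - 1 / 8 - s')) * (C0 * s') ≤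
      C0 * s' * (K + K' + 2) := by
    rw [mul_comm]
    exact mul_le_mul_of_nonneg_left (by linarith) (by positivity)
  have h5 : 0 ≤ (1 + ε') * Real.log T * ∫ u, W' u ^ 2 := by positivity
  rw [div_le_iff₀ hJ]
  refine h2.trans ?_
  refine (mul_le_mul_of_nonneg_right (add_le_add h3 h4) h5).trans (le_of_eq ?_)
  ring

/-- the parameters -/
private lemma Kn3_exp {A B ε : ℝ} (hε : 0 < ε) : ∃ K : ℝ, 1 ≤ K ∧
    A * Real.exp (-(K / 2)) ≤ ε ∧ B * Real.exp (-K) ≤ ε := by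
  have h1 : Tendsto (fun K : ℝ => A * Real.exp (-(K / 2))) atTop (𝓝 (A * 0)) := by
    refine Tendsto.const_mul _ (Real.tendsto_exp_atBot.comp ?_)
    exact tendsto_neg_atTop_atBot.comp (tendsto_id.atTop_div_const (by norm_num))
  have h2 : Tendsto (fun K : ℝ => B * Real.exp (-K)) atTop (𝓝 (B * 0)) :=
    Tendsto.const_mul _ (Real.tendsto_exp_atBot.comp tendsto_neg_atTop_atBot)
  rw [mul_zero] at h1 h2
  obtain ⟨K, hK⟩ := ((eventually_ge_atTop (1 : ℝ)).and
    ((h1.eventually (gt_mem_nhds hε)).and (h2.eventually (gt_mem_nhds hε)))).exists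
  exact ⟨K, hK.1, hK.2.1.le, hK.2.2.le⟩

/-- the lower order terms -/
private lemma Kn3_low (A B : ℝ) {ε : ℝ} (hε : 0 < ε) : ∀ᶠ T : ℝ in atTop,
    A + B * √(Real.log T) ≤ ε * Real.log T := by
  have hlog := Real.tendsto_log_atTop
  have h1 : Tendsto (fun T : ℝ => √(Real.log T)) atTop atTop := Real.tendsto_sqrt_atTop.comp hlog
  filter_upwards [hlog.eventually_ge_atTop 0, h1.eventually_ge_atTop ((|A| + |B|) / ε),
    h1.eventually_ge_atTop 1] with T h2 h3 h4
  have h5 : √(Real.log T) * √(Real.log T) = Real.log T := Real.mul_self_sqrt h2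
  rw [div_le_iff₀ hε] at h3
  have h6 : |A| ≤ |A| * √(Real.log T) := by
    have := mul_le_mul_of_nonneg_left h4 (abs_nonneg A)
    linarith
  have h7 : B * √(Real.log T) ≤ |B| * √(Real.log T) :=
    mul_le_mul_of_nonneg_right (le_abs_self B) (by linarith)
  have h8 := mul_le_mul_of_nonneg_right h3 (show 0 ≤ √(Real.log T) by linarith)
  have h9 : √(Real.log T) * ε * √(Real.log T) = ε * Real.log T := by
    calc √(Real.log T) * ε * √(Real.log T) = ε * (√(Real.log T) * √(Real.log T)) := by ring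
      _ = ε * Real.log T := by rw [h5]
  have h10 := le_abs_self A
  linarith

/-- LEAF Kn3 (assembly of the known range). `W` a bump `EB W (1/8)` (`exists_EB`), `J = ∫ W²`. `chi ≤ cv W Y/J + rho W L K`, `Y = L - K`:
`L² 2∫_0^1 F ≤ (2/J) ∫_0^Y Ph W + 2 (2π/T) ∫_0^∞ |SS|² rho ≤ (L² - 2 cF L + (L - K)²) + (2C/J) e^(-K/2) L + .. + 2 [(1 + ε') L (∫ rho + C0 s' (K + K' + 2)) + C e^(-K') (1 + L + K')]`
by `main_int`, `half_line` (`a = Y - 1/8`, `b = L + K'`, `r = rho`), `edge` for `W'` (range `K + K' + 1`), `rho_int`; `(L-K)² + 2KL = L² + K²`. Choose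
`K`, then `K'`, then `s'`, then `ε'`, then `T`. -/
theorem known (hRH : RiemannHypothesis) (ε : ℝ) (hε : 0 < ε) : ∀ᶠ T : ℝ in atTop,
    Real.log T ^ 2 * ∫ α in (0 : ℝ)..1, FF α T ≤ Real.log T ^ 2 - cF * Real.log T + ε * Real.log T := by
  classical
  obtain ⟨W, hW⟩ := exists_EB (1 / 8) (by norm_num)
  have hJ := Kn3_J_pos hW (by norm_num)
  obtain ⟨C1, hC1, hmain⟩ := main_int hRH hW
  obtain ⟨C2, hC2, hhalf⟩ := half_line hRH hW
  obtain ⟨C0, hC0, hlip⟩ := rho_lip hW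
  obtain ⟨K, hK1, hKa, hKb⟩ := Kn3_exp (A := C1 / ∫ u, W u ^ 2) (B := 2)
    (show 0 < ε / 16 by positivity)
  obtain ⟨K', hK'1, -, hK'a⟩ := Kn3_exp (A := 0) (B := C2) (show 0 < ε / 16 by positivity)
  obtain ⟨s', hs'0, hs'1, hs'2⟩ : ∃ s' : ℝ, 0 < s' ∧ s' ≤ 1 / 8 ∧
      2 * (C0 * s' * (K + K' + 2)) ≤ ε / 16 := by
    have hq : 0 ≤ C0 * (K + K' + 2) := by positivity
    refine ⟨min (1 / 8) (ε / (32 * (C0 * (K + K' + 2) + 1))), lt_min (by norm_num) (by positivity),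
      min_le_left _ _, ?_⟩
    have h1 : min (1 / 8) (ε / (32 * (C0 * (K + K' + 2) + 1))) ≤
      ε / (32 * (C0 * (K + K' + 2) + 1)) := min_le_right _ _
    have h0 : 0 ≤ min (1 / 8) (ε / (32 * (C0 * (K + K' + 2) + 1))) :=
      le_min (by norm_num) (by positivity)
    rw [le_div_iff₀ (by positivity)] at h1
    nlinarith
  obtain ⟨ε', hε'0, hε'1, hε'2⟩ : ∃ ε' : ℝ, 0 < ε' ∧ ε' ≤ 1 ∧ ε' * K ≤ ε / 16 := by
    refine ⟨min 1 (ε / (16 * K)), lt_min one_pos (by positivity), min_le_left _ _, ?_⟩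
    have h1 : min 1 (ε / (16 * K)) ≤ ε / (16 * K) := min_le_right _ _
    rw [le_div_iff₀ (by positivity)] at h1
    linarith
  obtain ⟨W', hW'⟩ := exists_EB s' hs'0
  filter_upwards [hmain K hK1, edge hRH hW' hs'0 hs'1 (K + K' + 1) ε' (by linarith) hε'0,
    Kn3_low (K ^ 2 / 2 + C2 * Real.exp (-K') * (1 + K')) (C1 / ∫ u, W u ^ 2)
      (show 0 < ε / 4 by positivity),
    Real.tendsto_log_atTop.eventually_ge_atTop (K + 2), eventually_ge_atTop (2 : ℝ)]
    with T hm hed hlow hLT hT2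
  have hT : 1 < T := by linarith
  have hL0 : 0 < Real.log T := by linarith
  have h1 := Kn3_one hW hT (show K ≤ Real.log T by linarith)
  have h2 := Kn3_two hW' hs'0 hs'1 hW hT hK1 hK'1 hLT hC0 hε'0.le hed
  have h3 := (hhalf W' s' hW' hs'0 hs'1 T (Real.log T - K - 1 / 8) (Real.log T + K') C0
    (rho W (Real.log T) K) hT2 (by linarith) (by linarith) (by linarith) hC0
    (rho_cont hW _ _) (fun v => le_max_right _ _)
    (fun v hv0 hv => rho_zero hW (by rw [abs_of_nonneg hv0]; exact hv))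
    (fun v w => hlip _ _ _ _ hL0.le (by linarith) (by linarith))
    (fun v hv0 => by
      have := (rho_le hW hL0.le (show K ≤ Real.log T by linarith) v).2
      rwa [abs_of_nonneg hv0] at this)).2
  set L : ℝ := Real.log T with hLdef
  set J : ℝ := ∫ u, W u ^ 2 with hJdef
  set I : ℝ := ∫ α in (0 : ℝ)..1, FF α T with hIdef
  have h4 : (2 * ∫ y in (0 : ℝ)..(L - K), Ph W T y) / J ≤
      L ^ 2 - 2 * cF * L + (L - K) ^ 2 + 2 * (C1 / J * Real.exp (-(K / 2)) * L) +
        2 * (C1 / J * √L) := by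
    rw [div_le_iff₀ hJ]
    have e1 : (L ^ 2 - 2 * cF * L + (L - K) ^ 2 + 2 * (C1 / J * Real.exp (-(K / 2)) * L) +
        2 * (C1 / J * √L)) * J = 2 * (J * (L ^ 2 - 2 * cF * L + (L - K) ^ 2) / 2 +
        C1 * Real.exp (-(K / 2)) * L + C1 * √L) := by
      field_simp
    rw [e1]
    linarith
  have h5 : Real.exp (-(L + K' - L)) = Real.exp (-K') := by
    congr 1
    ring
  rw [h5] at h3
  have h6 : L ^ 2 * (2 * I) ≤ L ^ 2 - 2 * cF * L + (L - K) ^ 2 +
      2 * (C1 / J * Real.exp (-(K / 2)) * L) + 2 * (C1 / J * √L) +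
      2 * ((1 + ε') * L * (K + Real.exp (-K) + C0 * s' * (K + K' + 2)) +
        C2 * Real.exp (-K') * (1 + (L + K'))) := by linarith
  have k1 : C1 / J * Real.exp (-(K / 2)) * L ≤ ε / 16 * L := mul_le_mul_of_nonneg_right hKa hL0.le
  have k2 : (1 + ε') * Real.exp (-K) * L ≤ ε / 16 * L := by
    refine mul_le_mul_of_nonneg_right (le_trans ?_ hKb) hL0.le
    exact mul_le_mul_of_nonneg_right (by linarith) (Real.exp_pos _).le
  have k3 : (1 + ε') * (C0 * s' * (K + K' + 2)) * L ≤ ε / 16 * L := by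
    refine mul_le_mul_of_nonneg_right (le_trans ?_ hs'2) hL0.le
    exact mul_le_mul_of_nonneg_right (by linarith) (by positivity)
  have k4 : ε' * K * L ≤ ε / 16 * L := mul_le_mul_of_nonneg_right hε'2 hL0.le
  have k5 : C2 * Real.exp (-K') * L ≤ ε / 16 * L := mul_le_mul_of_nonneg_right hK'a hL0.le
  have k6 : 0 ≤ ε * L := by positivity
  nlinarith [k1, k2, k3, k4, k5, k6, h6, hlow]

end Pool.Agent.Lib.MP_00e05b_nt.UH
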