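import Pool.Agent.Lib.MP_00e05b_nt.UH.Defs
import Pool.Agent.Lib.MP_00e05b_nt.Mont.NT

open Complex Set Filter Topology MeasureTheory

namespace Pool.Agent.Lib.MP_00e05b_nt.UH

open Pool.Agent.Lib.MP_00e05b_nt Pool.Agent.Lib.MP_00e05b_nt.Mont Pool.Agent.Lib.MP_2a816b_nt.TA

/-- tail of the integral -/
private theorem uh_nn_tail {k : ℝ → ℝ} {C : ℝ} (hb : ∀ x, |k x| ≤ C / (1 + |x|) ^ 3)
    {a : ℝ} (ha : 0 ≤ a) : |∫ x in Ioi a, k x| ≤ C / (1 + |a|) ^ 2 := by
  have hC : 0 ≤ C := by
    have := (abs_nonneg _).trans (hb 0)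
    simpa using this
  have hd : ∀ x ∈ Ici a, HasDerivAt (fun x : ℝ => -(C / (1 + x) ^ 2)) (2 * (C / (1 + x) ^ 3)) x := by
    intro x hx
    have hx0 : 0 < 1 + x := by
      have : a ≤ x := hx
      linarith
    have h1 : HasDerivAt (fun x : ℝ => (1 + x) ^ 2) (2 * (1 + x)) x := by
      have := ((hasDerivAt_id x).const_add (1 : ℝ)).fun_pow 2
      simpa using this
    have h2 := (h1.inv (by positivity)).const_mul (-C)
    have e1 : (fun x : ℝ => -(C / (1 + x) ^ 2)) = fun x : ℝ => -C * ((1 + x) ^ 2)⁻¹ := by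
      ext x
      rw [div_eq_mul_inv]
      ring
    rw [e1]
    refine h2.congr_deriv ?_
    have hne : (1 + x) ≠ 0 := hx0.ne'
    field_simp
  have hlim : Tendsto (fun x : ℝ => -(C / (1 + x) ^ 2)) atTop (𝓝 0) := by
    have h1 : Tendsto (fun x : ℝ => (1 + x) ^ 2) atTop atTop :=
      (tendsto_pow_atTop two_ne_zero).comp (tendsto_const_nhds.add_atTop tendsto_id)
    have h2 := (h1.const_div_atTop C).neg
    simpa using h2
  have hpos : ∀ x ∈ Ioi a, 0 ≤ 2 * (C / (1 + x) ^ 3) := by
    intro x hx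
    have : a < x := hx
    have : 0 < 1 + x := by linarith
    positivity
  have hint := integrableOn_Ioi_deriv_of_nonneg' hd hpos hlim
  have hval := integral_Ioi_of_hasDerivAt_of_nonneg' hd hpos hlim
  have h3 : |∫ x in Ioi a, k x| ≤ ∫ x in Ioi a, 2 * (C / (1 + x) ^ 3) := by
    rw [← Real.norm_eq_abs]
    apply norm_integral_le_of_norm_le hint
    rw [ae_restrict_iff' measurableSet_Ioi]
    refine Filter.Eventually.of_forall fun x hx => ?_
    have hx0 : 0 < x := lt_of_le_of_lt ha hx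
    rw [Real.norm_eq_abs]
    refine (hb x).trans ?_
    rw [abs_of_pos hx0]
    have : 0 ≤ C / (1 + x) ^ 3 := by positivity
    linarith
  refine h3.trans (le_of_eq ?_)
  rw [hval, abs_of_nonneg ha]
  ring

private theorem uh_nn_tail' {k : ℝ → ℝ} {C : ℝ} (hb : ∀ x, |k x| ≤ C / (1 + |x|) ^ 3)
    {a : ℝ} (ha : a ≤ 0) : |∫ x in Iic a, k x| ≤ C / (1 + |a|) ^ 2 := by
  have h1 := integral_comp_neg_Iic a (fun x => k (-x))
  simp only [neg_neg] at h1
  rw [h1]
  have h2 := uh_nn_tail (k := fun x => k (-x)) (C := C) (fun x => by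
    have := hb (-x)
    rwa [abs_neg] at this) (a := -a) (by linarith)
  rwa [abs_neg] at h2

/-- the integral of `k` over `[x - T, x]` compared with the indicator of `0 < x ≤ T` -/
private theorem uh_nn_ind {k : ℝ → ℝ} (hki : Integrable k) {C : ℝ} (hb : ∀ x, |k x| ≤ C / (1 + |x|) ^ 3)
    {T x : ℝ} (hT : 0 ≤ T) :
    |(∫ u in (x - T)..x, k u) - (if 0 < x ∧ x ≤ T then (∫ u, k u) else 0)| ≤
      C * (1 / (1 + |0 - x|) ^ 2 + 1 / (1 + |T - x|) ^ 2) := by
  have eR : C * (1 / (1 + |0 - x|) ^ 2 + 1 / (1 + |T - x|) ^ 2) = C / (1 + |x|) ^ 2 + C / (1 + |x - T|) ^ 2 := by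
    rw [zero_sub, abs_neg, abs_sub_comm T x]
    ring
  rw [eR]
  have hle : x - T ≤ x := by linarith
  by_cases h1 : 0 < x
  · by_cases h2 : x ≤ T
    · rw [if_pos ⟨h1, h2⟩]
      have e1 : ∫ u, k u = (∫ u in Iic (x - T), k u) + ∫ u in Ioi (x - T), k u :=
        (intervalIntegral.integral_Iic_add_Ioi hki.integrableOn hki.integrableOn).symm
      have e2 : (∫ u in Ioi (x - T), k u) = (∫ u in (x - T)..x, k u) + ∫ u in Ioi x, k u := by
        rw [intervalIntegral.integral_interval_add_Ioi hki.integrableOn hki.integrableOn]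
      have e3 : (∫ u in (x - T)..x, k u) - ∫ u, k u = -((∫ u in Iic (x - T), k u) + ∫ u in Ioi x, k u) := by
        rw [e1, e2]; ring
      rw [e3, abs_neg]
      refine (abs_add_le _ _).trans ?_
      have h3 := uh_nn_tail' hb (a := x - T) (by linarith)
      have h4 := uh_nn_tail hb (a := x) h1.le
      linarith
    · rw [if_neg (fun h => h2 h.2), sub_zero]
      have h2' : T < x := not_le.1 h2
      have e2 : (∫ u in (x - T)..x, k u) = (∫ u in Ioi (x - T), k u) - ∫ u in Ioi x, k u := by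
        rw [← intervalIntegral.integral_interval_add_Ioi (a := x - T) (b := x) hki.integrableOn hki.integrableOn]
        ring
      rw [e2]
      refine (abs_sub _ _).trans ?_
      have h3 := uh_nn_tail hb (a := x - T) (by linarith)
      have h4 := uh_nn_tail hb (a := x) (by linarith)
      linarith
  · rw [if_neg (fun h => h1 h.1), sub_zero]
    have h1' : x ≤ 0 := not_lt.1 h1
    have e2 : (∫ u in (x - T)..x, k u) = (∫ u in Iic x, k u) - ∫ u in Iic (x - T), k u :=
      (intervalIntegral.integral_Iic_sub_Iic hki.integrableOn hki.integrableOn).symm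
    rw [e2]
    refine (abs_sub _ _).trans ?_
    have h3 := uh_nn_tail' hb (a := x - T) (by linarith)
    have h4 := uh_nn_tail' hb (a := x) h1'
    linarith

/-- exchange of sum and integral for dominated continuous terms, arbitrary index type -/
private theorem uh_nn_exchange {ι : Type*} {g : ι → ℝ → ℝ} {B : ι → ℝ} {T : ℝ} (hT : 0 ≤ T)
    (hg : ∀ i, Continuous (g i)) (hB : Summable B) (hgB : ∀ i, ∀ t ∈ Icc 0 T, |g i t| ≤ B i) :
    ContinuousOn (fun t => ∑' i, g i t) (Icc 0 T) ∧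
      Summable (fun i => ∫ t in (0 : ℝ)..T, g i t) ∧
      ∑' i, ∫ t in (0 : ℝ)..T, g i t = ∫ t in (0 : ℝ)..T, ∑' i, g i t := by
  have hB0 : ∀ i, 0 ≤ B i := fun i => (abs_nonneg _).trans (hgB i 0 ⟨le_rfl, hT⟩)
  have hcont : ContinuousOn (fun t => ∑' i, g i t) (Icc 0 T) :=
    continuousOn_tsum (fun i => (hg i).continuousOn) hB (fun i t ht => by
      rw [Real.norm_eq_abs]; exact hgB i t ht)
  refine ⟨hcont, ?_, ?_⟩
  · refine Summable.of_norm_bounded (g := fun i => B i * T) (hB.mul_right T) ?_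
    intro i
    have := intervalIntegral.norm_integral_le_of_norm_le_const (a := 0) (b := T) (f := g i) (C := B i) (by
      intro t ht
      rw [uIoc_of_le hT] at ht
      exact hgB i t ⟨ht.1.le, ht.2⟩)
    rwa [sub_zero, abs_of_nonneg hT] at this
  · set S : Set ι := Function.support B with hS
    have hSc : S.Countable := hB.countable_support
    have : Countable S := hSc.to_subtype
    have hz : ∀ i, i ∉ S → ∀ t ∈ Icc (0 : ℝ) T, g i t = 0 := by
      intro i hi t ht
      have h0 : B i = 0 := by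
        by_contra h
        exact hi h
      have := hgB i t ht
      rw [h0] at this
      exact abs_eq_zero.1 (le_antisymm this (abs_nonneg _))
    have hBS : Summable (fun i : S => B i) := hB.subtype S
    have e1 : ∑' i, ∫ t in (0 : ℝ)..T, g i t = ∑' i : S, ∫ t in (0 : ℝ)..T, g i t := by
      symm
      refine tsum_subtype_eq_of_support_subset (f := fun i => ∫ t in (0 : ℝ)..T, g i t) (s := S) ?_
      intro i hi
      by_contra hiS
      apply hi
      show ∫ t in (0 : ℝ)..T, g i t = 0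
      rw [intervalIntegral.integral_congr (g := fun _ => (0 : ℝ))]
      · simp
      · intro t ht
        rw [uIcc_of_le hT] at ht
        exact hz i hiS t ht
    have e2 : ∫ t in (0 : ℝ)..T, ∑' i, g i t = ∫ t in (0 : ℝ)..T, ∑' i : S, g i t := by
      apply intervalIntegral.integral_congr
      intro t ht
      rw [uIcc_of_le hT] at ht
      show ∑' i, g i t = ∑' i : S, g i t
      symm
      refine tsum_subtype_eq_of_support_subset (f := fun i => g i t) (s := S) ?_
      intro i hi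
      by_contra hiS
      exact hi (hz i hiS t ht)
    rw [e1, e2]
    refine (intervalIntegral.hasSum_integral_of_dominated_convergence (fun (i : S) _ => B i) ?_ ?_ ?_ ?_ ?_).tsum_eq
    · intro i
      exact (hg i).aestronglyMeasurable
    · intro i
      refine Filter.Eventually.of_forall fun t ht => ?_
      rw [uIoc_of_le hT] at ht
      exact hgB i t ⟨ht.1.le, ht.2⟩
    · exact Filter.Eventually.of_forall fun t _ => hBS
    · exact intervalIntegrable_const
    · refine Filter.Eventually.of_forall fun t ht => ?_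
      rw [uIoc_of_le hT] at ht
      apply Summable.hasSum
      exact Summable.of_norm_bounded hBS (fun i => hgB i t ⟨ht.1.le, ht.2⟩)

/-- LEAF NN: the counting function to second order. As `count_asymp` (`Mont/NT.lean`), with `(kap hRH).1 : Kap (-log 2π)` (for `h = W`,
`EB W (1/8)`, `h 0 = 1`): `∫_1^T ∑' mx a ck h (t - a.im) dt = T L - T - T log 2π + O(√T)`, and the left side is `2π NN T + O(log T)` (`∫ ck h = 2π h 0`,
`ck_bound`, `local_count` at `0` and at `T`). `cF = 1 + log 2π`. -/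
theorem NN_second (hRH : RiemannHypothesis) : ∃ C : ℝ, 0 ≤ C ∧ ∀ T : ℝ, 2 ≤ T →
    Real.log T - cF - C / √T ≤ 2 * Real.pi / T * NN T := by
  obtain ⟨W, hW⟩ := exists_EB (1 / 8) (by norm_num)
  have hW1 : ES W (1 / 8) := hW.es
  have hW2 : ES W (1 / 2) := ⟨hW.smooth, hW.even, fun u hu => hW.supp u (by linarith)⟩
  have hW0 : W 0 = 1 := hW.one 0 (by norm_num)
  obtain ⟨hki, hkint⟩ := int_ck hW1 (by norm_num)
  rw [hW0, mul_one] at hkint
  obtain ⟨C0, hC0, hb⟩ := ck_bound hW1 (by norm_num)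
  have hkc : Continuous (ck W) := ck_continuous hW1
  obtain ⟨C1, hC1, hden⟩ := (kap hRH).1 W hW2
  obtain ⟨C2, hC2, hloc⟩ := local_count hRH
  set K : ℝ := |∫ t in (0 : ℝ)..1, ∑' a : ℂ, (mx a : ℝ) * ck W (a.im - t)| with hK
  have hK0 : 0 ≤ K := abs_nonneg _
  refine ⟨K + 2 * C1 + 5 * C0 * C2, by positivity, ?_⟩
  intro T hT
  have hT0 : (0 : ℝ) ≤ T := by linarith
  have hpi := Real.pi_pos
  -- the terms
  set g : ℂ → ℝ → ℝ := fun a t => (mx a : ℝ) * ck W (a.im - t) with hg
  set B : ℂ → ℝ := fun a => C0 * (1 + T) ^ 2 * ((mx a : ℝ) * (1 / (1 + |0 - a.im|) ^ 2)) with hB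
  have hBs : Summable B := (hloc 0).1.mul_left _
  have hgc : ∀ a, Continuous (g a) := fun a => by
    have : Continuous (fun t : ℝ => ck W (a.im - t)) := hkc.comp (by fun_prop)
    exact continuous_const.mul this
  have hgB : ∀ a, ∀ t ∈ Icc 0 T, |g a t| ≤ B a := by
    intro a t ht
    have h1 := hb (a.im - t)
    have hm : (0 : ℝ) ≤ mx a := Nat.cast_nonneg _
    rw [hg, hB]
    simp only
    rw [abs_mul, abs_of_nonneg hm, zero_sub, abs_neg]
    have h2 : |a.im| ≤ |a.im - t| + T := by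
      have := abs_sub_abs_le_abs_sub a.im t
      have h3 : |t| ≤ T := by rw [abs_of_nonneg ht.1]; exact ht.2
      linarith
    set x := |a.im - t| with hx
    have hx0 : 0 ≤ x := abs_nonneg _
    have h4 : 1 + |a.im| ≤ (1 + T) * (1 + x) := by nlinarith
    have h5 : C0 / (1 + x) ^ 3 ≤ C0 * (1 + T) ^ 2 * (1 / (1 + |a.im|) ^ 2) := by
      have h6 : C0 / (1 + x) ^ 3 ≤ C0 / (1 + x) ^ 2 := by
        apply div_le_div_of_nonneg_left hC0 (by positivity)
        exact pow_le_pow_right₀ (by linarith) (by norm_num)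
      refine h6.trans ?_
      rw [mul_one_div, div_le_div_iff₀ (by positivity) (by positivity)]
      have h7 : (1 + |a.im|) ^ 2 ≤ ((1 + T) * (1 + x)) ^ 2 := by gcongr
      calc C0 * (1 + |a.im|) ^ 2 ≤ C0 * ((1 + T) * (1 + x)) ^ 2 := mul_le_mul_of_nonneg_left h7 hC0
        _ = C0 * (1 + T) ^ 2 * (1 + x) ^ 2 := by ring
    calc (mx a : ℝ) * |ck W (a.im - t)| ≤ (mx a : ℝ) * (C0 * (1 + T) ^ 2 * (1 / (1 + |a.im|) ^ 2)) :=
          mul_le_mul_of_nonneg_left (h1.trans h5) hm
      _ = _ := by ring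
  obtain ⟨hScont, hJs, hex⟩ := uh_nn_exchange hT0 hgc hBs hgB
  -- the integral of the density
  have hS01 : IntervalIntegrable (fun t => ∑' a, g a t) volume 0 1 :=
    (hScont.mono (Icc_subset_Icc_right (by linarith))).intervalIntegrable_of_Icc (by norm_num)
  have hS1T : IntervalIntegrable (fun t => ∑' a, g a t) volume 1 T :=
    (hScont.mono (Icc_subset_Icc_left (by norm_num))).intervalIntegrable_of_Icc (by linarith)
  have hsplit : ∫ t in (0 : ℝ)..T, ∑' a, g a t = (∫ t in (0 : ℝ)..1, ∑' a, g a t) + ∫ t in (1 : ℝ)..T, ∑' a, g a t :=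
    (intervalIntegral.integral_add_adjacent_intervals hS01 hS1T).symm
  have hKb : |∫ t in (0 : ℝ)..1, ∑' a, g a t| ≤ K := le_of_eq rfl
  have hlogint : IntervalIntegrable (fun t : ℝ => Real.log t + -Real.log (2 * Real.pi)) volume 1 T :=
    intervalIntegral.intervalIntegrable_log'.add intervalIntegrable_const
  have hrint : IntervalIntegrable (fun t : ℝ => C1 * t ^ (-(1 / 2) : ℝ)) volume 1 T :=
    (intervalIntegral.intervalIntegrable_rpow' (by norm_num)).const_mul _
  have hI : |(∫ t in (1 : ℝ)..T, ∑' a, g a t) - ∫ t in (1 : ℝ)..T, (Real.log t + -Real.log (2 * Real.pi))| ≤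
      2 * C1 * √T := by
    rw [← intervalIntegral.integral_sub hS1T hlogint]
    have h1 : |∫ t in (1 : ℝ)..T, ((∑' a, g a t) - (Real.log t + -Real.log (2 * Real.pi)))| ≤
        ∫ t in (1 : ℝ)..T, C1 * t ^ (-(1 / 2) : ℝ) := by
      rw [← Real.norm_eq_abs]
      refine intervalIntegral.norm_integral_le_of_norm_le (by linarith) ?_ hrint
      refine Filter.Eventually.of_forall fun t ht => ?_
      have h2 := hden t ht.1.le
      rw [hW0, one_mul] at h2
      rw [Real.norm_eq_abs]
      have e : (∑' a, g a t) = ∑' a : ℂ, (mx a : ℝ) * ck W (t - a.im) := by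
        apply tsum_congr
        intro a
        show (mx a : ℝ) * ck W (a.im - t) = _
        rw [← ck_even, neg_sub]
      rw [e]
      exact h2
    refine h1.trans ?_
    rw [intervalIntegral.integral_const_mul, integral_rpow (Or.inl (by norm_num)), Real.one_rpow]
    have e2 : T ^ ((-(1 / 2) : ℝ) + 1) = √T := by
      rw [Real.sqrt_eq_rpow]
      norm_num
    rw [e2]
    have e3 : (-(1 / 2) : ℝ) + 1 = 1 / 2 := by norm_num
    rw [e3]
    have : C1 * ((√T - 1) / (1 / 2)) = 2 * C1 * √T - 2 * C1 := by ring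
    rw [this]
    linarith
  have hL : ∫ t in (1 : ℝ)..T, (Real.log t + -Real.log (2 * Real.pi)) = T * (Real.log T - cF) + cF := by
    rw [intervalIntegral.integral_add intervalIntegral.intervalIntegrable_log' intervalIntegrable_const,
      integral_log, intervalIntegral.integral_const, Real.log_one, smul_eq_mul]
    unfold cF
    ring
  -- each integral
  have hJ : ∀ a : ℂ, ∫ t in (0 : ℝ)..T, g a t = (mx a : ℝ) * ∫ u in (a.im - T)..a.im, ck W u := by
    intro a
    rw [hg]
    simp only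
    rw [intervalIntegral.integral_const_mul, intervalIntegral.integral_comp_sub_left, sub_zero]
  -- comparison with the counting function
  set Jd : ℂ → ℝ := fun a => (mx a : ℝ) * (if 0 < a.im ∧ a.im ≤ T then (∫ u, ck W u) else 0) with hJd
  have hdiff : ∀ a, |(∫ t in (0 : ℝ)..T, g a t) - Jd a| ≤
      C0 * ((mx a : ℝ) * (1 / (1 + |0 - a.im|) ^ 2) + (mx a : ℝ) * (1 / (1 + |T - a.im|) ^ 2)) := by
    intro a
    rw [hJ, hJd]
    simp only
    rw [← mul_sub, abs_mul, abs_of_nonneg (Nat.cast_nonneg (mx a))]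
    have := mul_le_mul_of_nonneg_left (uh_nn_ind hki hb (T := T) (x := a.im) hT0) (Nat.cast_nonneg (α := ℝ) (mx a))
    refine this.trans (le_of_eq ?_)
    ring
  have hdS : Summable (fun a : ℂ => C0 * ((mx a : ℝ) * (1 / (1 + |0 - a.im|) ^ 2) +
      (mx a : ℝ) * (1 / (1 + |T - a.im|) ^ 2))) := ((hloc 0).1.add (hloc T).1).mul_left _
  have hdS' : Summable (fun a : ℂ => (∫ t in (0 : ℝ)..T, g a t) - Jd a) :=
    Summable.of_norm_bounded hdS (fun a => by rw [Real.norm_eq_abs]; exact hdiff a)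
  have hJdS : Summable Jd := by
    have := hJs.sub hdS'
    refine this.congr fun a => ?_
    ring
  have hNN : ∑' a, Jd a = 2 * Real.pi * NN T := by
    have h1 := ord_sum hRH T (fun _ => ((2 * Real.pi : ℝ) : ℂ))
    have h2 : ((∑' a, Jd a : ℝ) : ℂ) = ∑' a : ℂ, (mx a : ℂ) * (if 0 < a.im ∧ a.im ≤ T then ((2 * Real.pi : ℝ) : ℂ) else 0) := by
      rw [Complex.ofReal_tsum]
      apply tsum_congr
      intro a
      rw [hJd]
      simp only
      rw [hkint]
      split_ifs <;> push_cast <;> ring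
    rw [h1] at h2
    have h3 : ((2 * Real.pi * NN T : ℝ) : ℂ) = ∑ γ ∈ ordinates T, (mult γ : ℂ) * ((2 * Real.pi : ℝ) : ℂ) := by
      unfold NN
      push_cast
      rw [Finset.mul_sum]
      apply Finset.sum_congr rfl
      intro γ _
      ring
    rw [← h3] at h2
    exact_mod_cast h2
  have hcmp : |(∑' a, ∫ t in (0 : ℝ)..T, g a t) - 2 * Real.pi * NN T| ≤ 5 * C0 * C2 * √T := by
    rw [← hNN, ← hJs.tsum_sub hJdS]
    have h1 : |∑' a, ((∫ t in (0 : ℝ)..T, g a t) - Jd a)| ≤ ∑' a : ℂ, C0 * ((mx a : ℝ) * (1 / (1 + |0 - a.im|) ^ 2) +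
        (mx a : ℝ) * (1 / (1 + |T - a.im|) ^ 2)) := by
      rw [← Real.norm_eq_abs]
      exact tsum_of_norm_bounded hdS.hasSum (fun a => by rw [Real.norm_eq_abs]; exact hdiff a)
    refine h1.trans ?_
    rw [tsum_mul_left, (hloc 0).1.tsum_add (hloc T).1]
    have h2 := (hloc 0).2
    have h3 := (hloc T).2
    rw [abs_zero, add_zero] at h2
    rw [abs_of_nonneg hT0] at h3
    have hs1 : 1 ≤ √T := Real.one_le_sqrt.2 (by linarith)
    have h4 : Real.log 2 ≤ √T := by
      have := Real.log_two_lt_d9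
      linarith
    have h5 : Real.log (2 + T) ≤ 4 * √T := by
      have h51 : Real.log (2 + T) = 2 * Real.log (√(2 + T)) := by
        rw [Real.log_sqrt (by linarith)]
        ring
      have h52 : Real.log (√(2 + T)) ≤ √(2 + T) - 1 := Real.log_le_sub_one_of_pos (Real.sqrt_pos.2 (by linarith))
      have h53 : √(2 + T) ≤ 2 * √T := by
        rw [Real.sqrt_le_left (by positivity), mul_pow, Real.sq_sqrt hT0]
        linarith
      rw [h51]
      linarith
    have h6 : C2 * Real.log 2 ≤ C2 * √T := mul_le_mul_of_nonneg_left h4 hC2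
    have h7 : C2 * Real.log (2 + T) ≤ C2 * (4 * √T) := mul_le_mul_of_nonneg_left h5 hC2
    have h8 : (∑' a : ℂ, (mx a : ℝ) * (1 / (1 + |0 - a.im|) ^ 2)) +
        ∑' a : ℂ, (mx a : ℝ) * (1 / (1 + |T - a.im|) ^ 2) ≤ 5 * C2 * √T := by linarith
    calc _ ≤ C0 * (5 * C2 * √T) := mul_le_mul_of_nonneg_left h8 hC0
      _ = _ := by ring
  have hcF : 0 ≤ cF := by
    unfold cF
    have : 0 ≤ Real.log (2 * Real.pi) := Real.log_nonneg (by linarith [Real.pi_gt_three])
    linarith
  have hs0 : 0 < √T := Real.sqrt_pos.2 (by linarith)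
  have hs1 : 1 ≤ √T := Real.one_le_sqrt.2 (by linarith)
  have hfin : T * (Real.log T - cF) - (K + 2 * C1 + 5 * C0 * C2) * √T ≤ 2 * Real.pi * NN T := by
    rw [hex, hsplit] at hcmp
    rw [hL] at hI
    have hKs : K ≤ K * √T := le_mul_of_one_le_right hK0 hs1
    have a1 := (abs_le.1 hcmp).2
    have a2 := (abs_le.1 hI).1
    have a3 := (abs_le.1 hKb).1
    nlinarith
  have hTpos : 0 < T := by linarith
  have e5 : (K + 2 * C1 + 5 * C0 * C2) / √T = (K + 2 * C1 + 5 * C0 * C2) * √T / T := by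
    rw [div_eq_div_iff hs0.ne' hTpos.ne', mul_assoc (K + 2 * C1 + 5 * C0 * C2) (√T) (√T), Real.mul_self_sqrt hT0]
  rw [e5, div_mul_eq_mul_div, le_div_iff₀ hTpos, sub_mul, div_mul_cancel₀ _ hTpos.ne']
  linarith

end Pool.Agent.Lib.MP_00e05b_nt.UH
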