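import Pool.Agent.Lib.MP_00e05b_nt.UH.Pos
import Pool.Agent.Lib.MP_00e05b_nt.UH.NN
import Pool.Agent.Lib.MP_00e05b_nt.UH.Kn3
import Pool.Agent.Lib.MP_2a816b_nt.TA.EXB

open Complex Set Filter Topology MeasureTheory

namespace Pool.Agent.Lib.MP_00e05b_nt.UH

open Pool.Agent.Lib.MP_00e05b_nt Pool.Agent.Lib.MP_00e05b_nt.Mont Pool.Agent.Lib.MP_2a816b_nt.TA

private theorem Low_cF : 0 < cF := by
  unfold cF
  have : 0 < Real.log (2 * Real.pi) := Real.log_pos (by nlinarith [Real.pi_gt_three])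
  linarith

private theorem Low_even {T M : ℝ} (hT : 1 < T) (q : ℝ) (v : ℝ) :
    Kg M |v| * (Real.log T * FF (|v| / Real.log T) T - q) = Kg M v * (Real.log T * FF (v / Real.log T) T - q) := by
  rcases abs_choice v with h | h
  · rw [h]
  · rw [h]
    have h1 : Kg M (-v) = Kg M v := by
      unfold Kg
      rw [neg_sq]
    rw [h1, neg_div, FF_even (by linarith)]

private theorem Low_Kg {M v : ℝ} (hM : 0 < M) : 0 ≤ 1 - Kg M v ∧ 1 - Kg M v ≤ v ^ 2 / (2 * M ^ 2) := by
  unfold Kg
  constructor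
  · rw [sub_nonneg, Real.exp_le_one_iff, neg_nonpos]
    positivity
  · have := Real.add_one_le_exp (-(v ^ 2 / (2 * M ^ 2)))
    linarith

/-- LEAF Low (master inequality). `g(v) = L FF(v/L) T`, even (`FF_even`). `pos`, `NN_second`, `Kg_total`:
`∫ Kg (g - (L - cF)) ≥ -√(2π) C M/√T + (2/5) (2π)^(3/2) (M/T) NC`, `(2π)^(3/2) ≥ 15`. The integral is `2 ∫_0^L + 2 ∫_L^∞`, and
`∫_0^L Kg (g - (L - cF)) ≤ ∫_0^L (g - (L - cF)) + ∫_0^L (1 - Kg) (L - cF)` (`g ≥ 0`) `≤ ε L + L⁴/(6M²)` by `known` (`∫_0^L g = L² ∫_0^1 FF`) and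
`1 - Kg M v ≤ v²/(2M²)`. -/
theorem lowF (hRH : RiemannHypothesis) (ε : ℝ) (hε : 0 < ε) : ∀ᶠ T : ℝ in atTop, ∀ M : ℝ, 1 ≤ M → M ≤ T ^ (1 / 4 : ℝ) →
    IntegrableOn (fun u => Kg M u * (Real.log T * FF (u / Real.log T) T)) (Ioi (Real.log T)) ∧
    (∫ u in Ioi (Real.log T), Kg M u * (Real.log T - cF - Real.log T * FF (u / Real.log T) T)) + M / T * NC T (1 / M) ≤
      Real.log T ^ 4 / (6 * M ^ 2) + ε * Real.log T := by
  obtain ⟨C, hC, hN⟩ := NN_second hRH
  filter_upwards [known hRH (ε / 2) (half_pos hε), eventually_ge_atTop (2 : ℝ),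
    Real.tendsto_log_atTop.eventually_ge_atTop (max 1 (max cF (√(2 * Real.pi) * C / ε)))] with T hk hT hL'
  intro M hM hM4
  have hcF := Low_cF
  have hL1 : 1 ≤ Real.log T := (le_max_left _ _).trans hL'
  have hLc : cF ≤ Real.log T := (le_max_left _ _).trans ((le_max_right _ _).trans hL')
  have hLC : √(2 * Real.pi) * C / ε ≤ Real.log T := (le_max_right _ _).trans ((le_max_right _ _).trans hL')
  have hT1 : 1 < T := by linarith
  have hT0 : 0 < T := by linarith
  have hM0 : 0 < M := by linarith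
  have hpi := Real.pi_gt_three
  obtain ⟨hi, hp⟩ := pos hT1 hM
  obtain ⟨hKi, hKt⟩ := Kg_total hM0
  have hNT := hN T hT
  set L := Real.log T with hL
  have hL0 : 0 < L := by linarith
  set q : ℝ := L - cF with hq
  have hq0 : 0 ≤ q := by linarith
  have hqL : q ≤ L := by linarith
  have hNC : 0 ≤ NC T (1 / M) := NC_nonneg (by positivity)
  have hgc : Continuous (fun v : ℝ => L * FF (v / L) T) :=
    continuous_const.mul ((FF_continuous hT0).comp (continuous_id.div_const L))
  have hg0 : ∀ v : ℝ, 0 ≤ L * FF (v / L) T := fun v => mul_nonneg hL0.le (FF_nonneg hT1 _)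
  have hKc : Continuous (Kg M) := by
    unfold Kg
    fun_prop
  -- the whole line
  have hfi : Integrable (fun v => Kg M v * (L * FF (v / L) T - q)) := by
    refine (hi.sub (hKi.mul_const q)).congr (Eventually.of_forall fun v => ?_)
    show Kg M v * (L * FF (v / L) T) - Kg M v * q = _
    ring
  have hwhole : ∫ v, Kg M v * (L * FF (v / L) T - q) =
      (∫ v, Kg M v * (L * FF (v / L) T)) - √(2 * Real.pi) * M * q := by
    have e1 : (fun v => Kg M v * (L * FF (v / L) T - q)) =
        fun v => Kg M v * (L * FF (v / L) T) - Kg M v * q := by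
      funext v
      ring
    rw [e1, integral_sub hi (hKi.mul_const q), integral_mul_const, hKt]
  have hhalf : ∫ v, Kg M v * (L * FF (v / L) T - q) = 2 * ∫ v in Ioi (0 : ℝ), Kg M v * (L * FF (v / L) T - q) := by
    rw [← integral_comp_abs (f := fun v => Kg M v * (L * FF (v / L) T - q))]
    congr 1
    funext v
    exact (Low_even hT1 q v).symm
  have hsplit := intervalIntegral.integral_Ioi_sub_Ioi (hfi.integrableOn (s := Ioi 0)) hL0.le
  -- the known range
  have hcont1 : Continuous (fun v => Kg M v * (L * FF (v / L) T - q)) := hKc.mul (hgc.sub continuous_const)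
  have hcont2 : Continuous (fun v => (L * FF (v / L) T - q) + q / (2 * M ^ 2) * v ^ 2) :=
    (hgc.sub continuous_const).add (continuous_const.mul (continuous_id.pow 2))
  have hkn : ∫ v in (0 : ℝ)..L, Kg M v * (L * FF (v / L) T - q) ≤ ε / 2 * L + L ^ 4 / (6 * M ^ 2) := by
    have h1 : ∫ v in (0 : ℝ)..L, Kg M v * (L * FF (v / L) T - q) ≤
        ∫ v in (0 : ℝ)..L, ((L * FF (v / L) T - q) + q / (2 * M ^ 2) * v ^ 2) := by
      refine intervalIntegral.integral_mono_on hL0.le (hcont1.intervalIntegrable _ _) (hcont2.intervalIntegrable _ _)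
        fun v _ => ?_
      obtain ⟨k1, k2⟩ := Low_Kg (v := v) hM0
      have k3 := mul_nonneg k1 (hg0 v)
      have k4 := mul_le_mul_of_nonneg_right k2 hq0
      have k5 : v ^ 2 / (2 * M ^ 2) * q = q / (2 * M ^ 2) * v ^ 2 := by ring
      rw [k5] at k4
      nlinarith
    have h2 : ∫ v in (0 : ℝ)..L, ((L * FF (v / L) T - q) + q / (2 * M ^ 2) * v ^ 2) =
        (L ^ 2 * ∫ α in (0 : ℝ)..1, FF α T) - L * q + q * L ^ 3 / (6 * M ^ 2) := by
      have i1 : IntervalIntegrable (fun v : ℝ => L * FF (v / L) T - q) volume 0 L :=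
        (hgc.sub continuous_const).intervalIntegrable _ _
      have i2 : IntervalIntegrable (fun v : ℝ => q / (2 * M ^ 2) * v ^ 2) volume 0 L :=
        Continuous.intervalIntegrable (by fun_prop) _ _
      have i3 : IntervalIntegrable (fun v : ℝ => L * FF (v / L) T) volume 0 L := hgc.intervalIntegrable _ _
      have i4 : IntervalIntegrable (fun _ : ℝ => q) volume 0 L := by simp
      have e2 : ∫ x in (0 : ℝ)..L, x ^ 2 = L ^ 3 / 3 := by
        rw [integral_pow]
        norm_num
      have e5 : ∫ v in (0 : ℝ)..L, L * FF (v / L) T = L ^ 2 * ∫ α in (0 : ℝ)..1, FF α T := by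
        rw [intervalIntegral.integral_const_mul, intervalIntegral.integral_comp_div (fun α => FF α T) hL0.ne',
          zero_div, div_self hL0.ne', smul_eq_mul]
        ring
      have e6 : ∫ v in (0 : ℝ)..L, q / (2 * M ^ 2) * v ^ 2 = q / (2 * M ^ 2) * (L ^ 3 / 3) := by
        rw [intervalIntegral.integral_const_mul, e2]
      rw [intervalIntegral.integral_add i1 i2, intervalIntegral.integral_sub i3 i4,
        e6, e5, intervalIntegral.integral_const, smul_eq_mul, sub_zero]
      field_simp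
      ring
    rw [h2] at h1
    have h3 : q * L ^ 3 / (6 * M ^ 2) ≤ L ^ 4 / (6 * M ^ 2) := by
      apply div_le_div_of_nonneg_right _ (by positivity)
      have : q * L ^ 3 ≤ L * L ^ 3 := by gcongr
      calc q * L ^ 3 ≤ L * L ^ 3 := this
        _ = L ^ 4 := by ring
    have h4 : L * q = L ^ 2 - cF * L := by rw [hq]; ring
    linarith
  -- the lower bound
  have hT14 : M ≤ √T := by
    refine hM4.trans ?_
    rw [Real.sqrt_eq_rpow]
    exact Real.rpow_le_rpow_of_exponent_le hT1.le (by norm_num)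
  have hsT : 0 < √T := Real.sqrt_pos.2 hT0
  have hs2 : 0 < √(2 * Real.pi) := Real.sqrt_pos.2 (by positivity)
  have hs25 : 2 ≤ √(2 * Real.pi) := by
    rw [Real.le_sqrt (by norm_num) (by positivity)]
    nlinarith
  have hlow : √(2 * Real.pi) * M * (q - C / √T) + √(2 * Real.pi) * M * (2 / 5 * (2 * Real.pi / T) * NC T (1 / M)) ≤
      ∫ v, Kg M v * (L * FF (v / L) T) := by
    refine le_trans ?_ hp
    have h1 : √(2 * Real.pi) * M * (2 * Real.pi / T) * (NN T + 2 / 5 * NC T (1 / M)) =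
        √(2 * Real.pi) * M * (2 * Real.pi / T * NN T) + √(2 * Real.pi) * M * (2 / 5 * (2 * Real.pi / T) * NC T (1 / M)) := by
      ring
    rw [h1]
    gcongr
  have hCT : √(2 * Real.pi) * M * (C / √T) ≤ ε * L := by
    have h1 : M / √T ≤ 1 := (div_le_one hsT).2 hT14
    have h2 : √(2 * Real.pi) * C ≤ ε * L := by
      rw [div_le_iff₀ hε] at hLC
      linarith
    calc √(2 * Real.pi) * M * (C / √T) = √(2 * Real.pi) * C * (M / √T) := by ring
      _ ≤ √(2 * Real.pi) * C * 1 := by gcongr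
      _ ≤ ε * L := by linarith
  have hNC2 : 2 * (M / T * NC T (1 / M)) ≤ √(2 * Real.pi) * M * (2 / 5 * (2 * Real.pi / T) * NC T (1 / M)) := by
    have h1 : √(2 * Real.pi) * M * (2 / 5 * (2 * Real.pi / T) * NC T (1 / M)) =
        (√(2 * Real.pi) * (4 / 5 * Real.pi)) * (M / T * NC T (1 / M)) := by ring
    rw [h1]
    apply mul_le_mul_of_nonneg_right _ (by positivity)
    nlinarith
  refine ⟨hi.integrableOn, ?_⟩
  have hneg : ∫ u in Ioi L, Kg M u * (L - cF - L * FF (u / L) T) = -∫ u in Ioi L, Kg M u * (L * FF (u / L) T - q) := by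
    rw [← integral_neg]
    congr 1
    funext u
    rw [hq]
    ring
  rw [hneg]
  have e3 : √(2 * Real.pi) * M * (q - C / √T) = √(2 * Real.pi) * M * q - √(2 * Real.pi) * M * (C / √T) := by ring
  linarith

end Pool.Agent.Lib.MP_00e05b_nt.UH
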