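import Pool.Agent.Lib.MP_00e05b_nt.UH.Defs

open Complex Set Filter Topology MeasureTheory

namespace Pool.Agent.Lib.MP_00e05b_nt.UH

open Pool.Agent.Lib.MP_00e05b_nt Pool.Agent.Lib.MP_00e05b_nt.Mont Pool.Agent.Lib.MP_2a816b_nt.TA

open scoped FourierTransform SchwartzMap Convolution

private noncomputable def mjB : ContDiffBump (0 : ℝ) := ⟨1 / 50, 1 / 25, by norm_num, by norm_num⟩

/-- the translate of the bump as a Schwartz function -/
private noncomputable def mjF (ξ : ℝ) : 𝓢(ℝ, ℂ) :=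
  HasCompactSupport.toSchwartzMap (f := fun x : ℝ => ((mjB (x + ξ) : ℝ) : ℂ))
    (by
      have h1 : HasCompactSupport (fun x : ℝ => mjB (x + ξ)) :=
        mjB.hasCompactSupport.comp_homeomorph (Homeomorph.addRight ξ)
      exact h1.comp_left (g := fun y : ℝ => (y : ℂ)) (by simp))
    (by
      have h2 : ContDiff ℝ (⊤ : ℕ∞) (fun x : ℝ => mjB (x + ξ)) := mjB.contDiff.comp (contDiff_id.add contDiff_const)
      exact Complex.ofRealCLM.contDiff.comp h2)

private theorem mjF_apply (ξ x : ℝ) : mjF ξ x = ((mjB (x + ξ) : ℝ) : ℂ) := rfl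

private theorem mj_mod (ξ u : ℝ) : 𝓕 (mjF ξ) u = cexp (((2 * Real.pi * (ξ * u) : ℝ) : ℂ) * I) * 𝓕 (mjF 0) u := by
  rw [SchwartzMap.fourier_coe, SchwartzMap.fourier_coe, Real.fourier_eq', Real.fourier_eq', ← integral_const_mul]
  rw [← integral_add_right_eq_self (μ := volume) (fun x : ℝ => cexp (((2 * Real.pi * (ξ * u) : ℝ) : ℂ) * I) *
    (cexp (((-2 * Real.pi * inner ℝ x u : ℝ) : ℂ) * I) • mjF 0 x)) ξ]
  refine integral_congr_ae (Eventually.of_forall fun x => ?_)
  simp only [mjF_apply, smul_eq_mul, add_zero]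
  rw [← mul_assoc, ← Complex.exp_add]
  congr 2
  simp only [RCLike.inner_apply, conj_trivial]
  push_cast
  ring

private noncomputable def mjK (u : ℝ) : ℝ := ‖𝓕 (mjF 0) u‖ ^ 2

private theorem mjK_cont : Continuous mjK := (𝓕 (mjF 0)).continuous.norm.pow 2

private theorem mjK_spec (w : ℝ) (hw : 1 ≤ |w|) : ∫ u, (mjK u : ℂ) * cexp ((w * u : ℝ) * I) = 0 := by
  have h1 := SchwartzMap.integral_inner_fourier_fourier (mjF 0) (mjF (w / (2 * Real.pi)))
  have h2 : ∫ x, inner ℂ (mjF 0 x) (mjF (w / (2 * Real.pi)) x) = 0 := by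
    rw [← integral_zero ℝ ℂ]
    refine integral_congr_ae (Eventually.of_forall fun x => ?_)
    simp only [mjF_apply, add_zero]
    by_cases hx : |x| < 1 / 25
    · have hp : 0 < 2 * Real.pi := by positivity
      have h3 : 1 / 25 ≤ |x + w / (2 * Real.pi)| := by
        have h4 : 1 / 7 < |w / (2 * Real.pi)| := by
          rw [abs_div, abs_of_pos hp, lt_div_iff₀ hp]
          have := Real.pi_lt_d2
          nlinarith
        have h5 : |w / (2 * Real.pi)| ≤ |x + w / (2 * Real.pi)| + |x| := by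
          calc |w / (2 * Real.pi)| = |(x + w / (2 * Real.pi)) - x| := by ring_nf
            _ ≤ _ := abs_sub _ _
        linarith
      have h6 : mjB (x + w / (2 * Real.pi)) = 0 := by
        apply mjB.zero_of_le_dist
        simpa [mjB, Real.dist_eq] using h3
      simp [h6]
    · have h6 : mjB x = 0 := by
        apply mjB.zero_of_le_dist
        push Not at hx
        simpa [mjB, Real.dist_eq] using hx
      simp [h6]
  rw [h2] at h1
  rw [← h1]
  refine integral_congr_ae (Eventually.of_forall fun u => ?_)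
  simp only
  rw [mj_mod (w / (2 * Real.pi))]
  have h7 : (2 * Real.pi * (w / (2 * Real.pi) * u) : ℝ) = w * u := by
    field_simp
  rw [h7]
  simp only [mjK, RCLike.inner_apply]
  have h8 : ((‖𝓕 (mjF 0) u‖ ^ 2 : ℝ) : ℂ) = 𝓕 (mjF 0) u * (starRingEnd ℂ) (𝓕 (mjF 0) u) := by
    rw [Complex.mul_conj, Complex.normSq_eq_norm_sq]
  rw [h8]
  ring

private theorem mjK_int : Integrable (fun u => (1 + u ^ 2) * mjK u) := by
  obtain ⟨B, hB⟩ : ∃ B, ∀ u, ‖𝓕 (mjF 0) u‖ ≤ B := ⟨_, fun u => SchwartzMap.norm_le_seminorm ℝ (𝓕 (mjF 0)) u⟩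
  have h0 := (𝓕 (mjF 0)).integrable_pow_mul volume 0
  have h2 := (𝓕 (mjF 0)).integrable_pow_mul volume 2
  refine ((h0.add h2).mul_const B).mono' ((continuous_const.add (continuous_id.pow 2)).mul mjK_cont).aestronglyMeasurable
    (Eventually.of_forall fun u => ?_)
  have hp : 0 ≤ ‖𝓕 (mjF 0) u‖ := norm_nonneg _
  rw [Real.norm_of_nonneg (by unfold mjK; positivity)]
  simp only [mjK, Pi.add_apply, pow_zero, one_mul, Real.norm_eq_abs, sq_abs]
  have := hB u
  calc (1 + u ^ 2) * ‖𝓕 (mjF 0) u‖ ^ 2 = ((1 + u ^ 2) * ‖𝓕 (mjF 0) u‖) * ‖𝓕 (mjF 0) u‖ := by ring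
    _ ≤ ((1 + u ^ 2) * ‖𝓕 (mjF 0) u‖) * B := by gcongr
    _ = _ := by ring

private theorem mjK_pos : 0 < ∫ u, mjK u := by
  unfold mjK
  rw [SchwartzMap.integral_norm_sq_fourier]
  have hc : Continuous (fun x => ‖mjF 0 x‖ ^ 2) := (mjF 0).continuous.norm.pow 2
  have hi : Integrable (fun x => ‖mjF 0 x‖ ^ 2) := by
    have h : HasCompactSupport (fun x => ‖mjF 0 x‖ ^ 2) := by
      have h1 : HasCompactSupport (fun x : ℝ => mjB (x + 0)) :=
        mjB.hasCompactSupport.comp_homeomorph (Homeomorph.addRight 0)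
      exact h1.comp_left (g := fun y : ℝ => ‖(y : ℂ)‖ ^ 2) (by simp)
    exact hc.integrable_of_hasCompactSupport h
  refine (integral_pos_iff_support_of_nonneg (fun x => by positivity) hi).2 ?_
  refine IsOpen.measure_pos volume ?_ ⟨0, ?_⟩
  · exact hc.isOpen_support
  · have h1 : mjB 0 = 1 := mjB.one_of_mem_closedBall (by simp [mjB])
    simp [Function.mem_support, mjF_apply, h1]

private theorem mj_kernel : ∃ k : ℝ → ℝ, Continuous k ∧ (∀ u, 0 ≤ k u) ∧ (∃ B, ∀ u, k u ≤ B) ∧
    Integrable (fun u => (1 + u ^ 2) * k u) ∧ (∫ u, k u) = 1 ∧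
    ∀ w, 1 ≤ |w| → ∫ u, (k u : ℂ) * cexp ((w * u : ℝ) * I) = 0 := by
  have hp := mjK_pos
  set c := ∫ u, mjK u with hc
  refine ⟨fun u => mjK u / c, mjK_cont.div_const c, fun u => by unfold mjK; positivity, ?_, ?_, ?_, fun w hw => ?_⟩
  · obtain ⟨B, hB⟩ : ∃ B, ∀ u, ‖𝓕 (mjF 0) u‖ ≤ B := ⟨_, fun u => SchwartzMap.norm_le_seminorm ℝ (𝓕 (mjF 0)) u⟩
    refine ⟨B ^ 2 / c, fun u => ?_⟩
    have := hB u
    have h0 := norm_nonneg (𝓕 (mjF 0) u)
    exact div_le_div_of_nonneg_right (pow_le_pow_left₀ h0 this 2) hp.le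
  · refine (mjK_int.div_const c).congr (Eventually.of_forall fun u => ?_)
    simp only
    ring
  · rw [integral_div, ← hc, div_self hp.ne']
  · have h := mjK_spec w hw
    have h2 : (fun u => ((mjK u / c : ℝ) : ℂ) * cexp ((w * u : ℝ) * I)) = fun u => ((mjK u : ℂ) * cexp ((w * u : ℝ) * I)) / (c : ℂ) := by
      funext u
      push_cast
      ring
    rw [h2, integral_div, h, zero_div]

/-- substitution -/
private theorem mj_sub (g : ℝ → ℝ) (t δ : ℝ) (hδ : 0 < δ) : ∫ x, δ * g (δ * (t - x)) = ∫ u, g u := by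
  rw [integral_sub_left_eq_self (fun x => δ * g (δ * x)) volume t, integral_const_mul, Measure.integral_comp_mul_left]
  rw [abs_of_pos (inv_pos.2 hδ), smul_eq_mul, mul_inv_cancel_left₀ hδ.ne']

private theorem mj_subi (g : ℝ → ℝ) (hg : Integrable g) (t δ : ℝ) (hδ : 0 < δ) : Integrable fun x => δ * g (δ * (t - x)) :=
  ((hg.comp_mul_left' hδ.ne').comp_sub_left t).const_mul δ

private theorem mj_inv : (∫ x : ℝ, (1 + x ^ 2)⁻¹) = Real.pi := integral_univ_inv_one_add_sq

/-- A majorant of `[0, T]` with bounded spectrum: `m = W * k_δ`, `k_δ(u) = δ k(δu)`, where `k = |f̂|² / ∫ |f̂|²` for a bump function `f` supported in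
`[-1/25, 1/25]` (so `∫ k(u) e^(iωu) du = 0` for `|ω| ≥ 1`), and `W(x) = 1_[0,T](x) + c/(1 + (δx)²) + c/(1 + (δ(x - T))²)`. With `s = δt`, `s' = δ(T - t)`,
`u = δ(t - x)`: `1_[0,T](x) ≥ 1 - (1 + u²) (1/(1 + s²) + 1/(1 + s'²))` and `1/(1 + (s - u)²) ≥ 1/(2 (1 + s²)(1 + u²))`; so `c = 2 ∫ (1 + u²) k / ∫ k/(1 + u²)`
gives `m(t) ≥ 1` on `[0, T]`. -/
theorem majorant : ∃ C : ℝ, 0 ≤ C ∧ ∀ T δ : ℝ, 0 < T → 0 < δ → ∃ m : ℝ → ℝ, Continuous m ∧ Integrable m ∧ (∀ t, 0 ≤ m t) ∧
    (∀ t, 0 ≤ t → t ≤ T → 1 ≤ m t) ∧ (∫ t, m t) ≤ T + C / δ ∧ ∀ ω : ℝ, δ ≤ |ω| → ∫ t, m t * Real.cos (ω * t) = 0 := by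
  obtain ⟨k, hkc, hk0, ⟨B, hB⟩, hkA, hk1, hks⟩ := mj_kernel
  have hki : Integrable k := by
    refine hkA.mono' hkc.aestronglyMeasurable (Eventually.of_forall fun u => ?_)
    rw [Real.norm_of_nonneg (hk0 u)]
    nlinarith [mul_nonneg (sq_nonneg u) (hk0 u)]
  have hkD : Integrable (fun u => (1 + u ^ 2)⁻¹ * k u) := by
    refine hki.mono' (((continuous_const.add (continuous_id.pow 2)).inv₀ (fun u => by
      have : 0 < 1 + u ^ 2 := by positivity
      exact this.ne')).mul hkc).aestronglyMeasurable (Eventually.of_forall fun u => ?_)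
    rw [Real.norm_of_nonneg (mul_nonneg (by positivity) (hk0 u))]
    have : (1 + u ^ 2)⁻¹ ≤ 1 := inv_le_one_of_one_le₀ (by nlinarith [sq_nonneg u])
    exact mul_le_of_le_one_left (hk0 u) this
  set A := ∫ u, (1 + u ^ 2) * k u with hA
  set D := ∫ u, (1 + u ^ 2)⁻¹ * k u with hD
  have hA0 : 0 ≤ A := integral_nonneg fun u => mul_nonneg (by positivity) (hk0 u)
  have hDp : 0 < D := by
    refine (integral_pos_iff_support_of_nonneg (fun u => mul_nonneg (by positivity) (hk0 u)) hkD).2 ?_
    have h1 : 0 < ∫ u, k u := by rw [hk1]; norm_num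
    have h2 := (integral_pos_iff_support_of_nonneg hk0 hki).1 h1
    have h3 : Function.support (fun u => (1 + u ^ 2)⁻¹ * k u) = Function.support k := by
      ext u
      have : (1 + u ^ 2)⁻¹ ≠ 0 := by positivity
      simp only [Function.mem_support, ne_eq, mul_eq_zero, this, false_or]
    rw [h3]
    exact h2
  set c := 2 * A / D with hc
  have hc0 : 0 ≤ c := by positivity
  refine ⟨2 * c * Real.pi, by positivity, fun T δ hT hδ => ?_⟩
  have hwi : Integrable fun x : ℝ => (1 + x ^ 2)⁻¹ := integrable_inv_one_add_sq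
  set W : ℝ → ℝ := fun x => Set.indicator (Icc 0 T) (fun _ => (1 : ℝ)) x + c * (1 + (δ * x) ^ 2)⁻¹ + c * (1 + (δ * (x - T)) ^ 2)⁻¹ with hW
  set kd : ℝ → ℝ := fun u => δ * k (δ * u) with hkd
  have hI1 : Integrable (Set.indicator (Icc 0 T) (fun _ => (1 : ℝ))) :=
    (integrable_indicator_iff measurableSet_Icc).2 (integrableOn_const (by simp) (by simp))
  have hI2 : Integrable fun x : ℝ => c * (1 + (δ * x) ^ 2)⁻¹ := (hwi.comp_mul_left' hδ.ne').const_mul c
  have hI3 : Integrable fun x : ℝ => c * (1 + (δ * (x - T)) ^ 2)⁻¹ := hI2.comp_sub_right T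
  have hWi : Integrable W := (hI1.add hI2).add hI3
  have hW0 : ∀ x, 0 ≤ W x := fun x => by
    have : 0 ≤ Set.indicator (Icc 0 T) (fun _ => (1 : ℝ)) x := Set.indicator_nonneg (fun _ _ => zero_le_one) x
    simp only [hW]
    positivity
  have hkdc : Continuous kd := continuous_const.mul (hkc.comp (continuous_const.mul continuous_id))
  have hkdi : Integrable kd := (hki.comp_mul_left' hδ.ne').const_mul δ
  have hkd0 : ∀ u, 0 ≤ kd u := fun u => mul_nonneg hδ.le (hk0 _)
  have hkd1 : ∫ u, kd u = 1 := by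
    simp only [hkd]
    rw [integral_const_mul, Measure.integral_comp_mul_left, hk1, abs_of_pos (inv_pos.2 hδ), smul_eq_mul, mul_one, mul_inv_cancel₀ hδ.ne']
  have hbd : BddAbove (range fun x => ‖kd x‖) := by
    refine ⟨δ * B, ?_⟩
    rintro _ ⟨x, rfl⟩
    simp only
    rw [Real.norm_of_nonneg (hkd0 x)]
    exact mul_le_mul_of_nonneg_left (hB _) hδ.le
  set m : ℝ → ℝ := W ⋆[ContinuousLinearMap.mul ℝ ℝ, volume] kd with hm
  have hmt : ∀ t, m t = ∫ x, W x * kd (t - x) := fun t => rfl
  have hmc : Continuous m := hbd.continuous_convolution_right_of_integrable (ContinuousLinearMap.mul ℝ ℝ) hWi hkdc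
  have hmi : Integrable m := hWi.integrable_convolution (ContinuousLinearMap.mul ℝ ℝ) hkdi
  have hmI : ∫ t, m t = (∫ x, W x) * 1 := by
    rw [← hkd1, hm, integral_convolution (ContinuousLinearMap.mul ℝ ℝ) hWi hkdi]
    rfl
  have hWI : ∫ x, W x = T + 2 * c * Real.pi / δ := by
    have e1 : ∫ x, Set.indicator (Icc 0 T) (fun _ => (1 : ℝ)) x = T := by
      rw [integral_indicator measurableSet_Icc]
      simp [hT.le]
    have e2 : ∫ x : ℝ, c * (1 + (δ * x) ^ 2)⁻¹ = c * Real.pi / δ := by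
      rw [integral_const_mul, Measure.integral_comp_mul_left (fun x : ℝ => (1 + x ^ 2)⁻¹), mj_inv, abs_of_pos (inv_pos.2 hδ), smul_eq_mul]
      ring
    have e3 : ∫ x : ℝ, c * (1 + (δ * (x - T)) ^ 2)⁻¹ = c * Real.pi / δ := by
      rw [integral_sub_right_eq_self (fun x => c * (1 + (δ * x) ^ 2)⁻¹) T, e2]
    have hI12 : Integrable fun x : ℝ => Set.indicator (Icc 0 T) (fun _ => (1 : ℝ)) x + c * (1 + (δ * x) ^ 2)⁻¹ := hI1.add hI2
    simp only [hW]
    rw [integral_add hI12 hI3, integral_add hI1 hI2, e1, e2, e3]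
    ring
  refine ⟨m, hmc, hmi, fun t => ?_, fun t ht0 htT => ?_, ?_, fun ω hω => ?_⟩
  · rw [hmt]
    exact integral_nonneg fun x => mul_nonneg (hW0 x) (hkd0 _)
  · rw [hmt]
    set s := δ * t with hs
    set s' := δ * (T - t) with hs'
    have hs0 : 0 ≤ s := mul_nonneg hδ.le ht0
    have hs0' : 0 ≤ s' := mul_nonneg hδ.le (by linarith)
    set a := (1 + s ^ 2)⁻¹ with ha
    set b := (1 + s' ^ 2)⁻¹ with hb
    have ha0 : 0 < a := by positivity
    have hb0 : 0 < b := by positivity
    -- the lower bound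
    set g : ℝ → ℝ := fun u => k u - (a + b) * ((1 + u ^ 2) * k u) + (a + b) * c / 2 * ((1 + u ^ 2)⁻¹ * k u) with hg
    have hgi : Integrable g := (hki.sub (hkA.const_mul (a + b))).add (hkD.const_mul ((a + b) * c / 2))
    have hgI : ∫ u, g u = 1 := by
      have hI12 : Integrable fun u => k u - (a + b) * ((1 + u ^ 2) * k u) := hki.sub (hkA.const_mul (a + b))
      simp only [hg]
      rw [integral_add hI12 (hkD.const_mul ((a + b) * c / 2)), integral_sub hki (hkA.const_mul (a + b)),
        integral_const_mul, integral_const_mul, hk1, ← hA, ← hD, hc]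
      field_simp
      ring
    rw [← hgI, ← mj_sub g t δ hδ]
    refine integral_mono (mj_subi g hgi t δ hδ) ?_ fun x => ?_
    · refine (hkdi.comp_sub_left t).bdd_mul (c := 1 + c + c) hWi.aestronglyMeasurable (Eventually.of_forall fun x => ?_)
      rw [Real.norm_of_nonneg (hW0 x)]
      have e1 : Set.indicator (Icc 0 T) (fun _ => (1 : ℝ)) x ≤ 1 := Set.indicator_le_self' (fun _ _ => zero_le_one) x
      have e2 : (1 + (δ * x) ^ 2)⁻¹ ≤ 1 := inv_le_one_of_one_le₀ (by nlinarith [sq_nonneg (δ * x)])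
      have e3 : (1 + (δ * (x - T)) ^ 2)⁻¹ ≤ 1 := inv_le_one_of_one_le₀ (by nlinarith [sq_nonneg (δ * (x - T))])
      simp only [hW]
      nlinarith [mul_le_mul_of_nonneg_left e2 hc0, mul_le_mul_of_nonneg_left e3 hc0]
    · simp only [hkd, hg]
      set u := δ * (t - x) with hu
      have hk := hk0 u
      have hq : 0 < 1 + u ^ 2 := by positivity
      -- weights
      have w1 : a * (1 + u ^ 2)⁻¹ / 2 ≤ (1 + (δ * x) ^ 2)⁻¹ := by
        have e : δ * x = s - u := by rw [hs, hu]; ring
        rw [e, ha, ← mul_inv, div_eq_mul_inv, ← mul_inv]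
        refine inv_anti₀ (by positivity) ?_
        nlinarith [sq_nonneg (s + u), sq_nonneg (s * u)]
      have w2 : b * (1 + u ^ 2)⁻¹ / 2 ≤ (1 + (δ * (x - T)) ^ 2)⁻¹ := by
        have e : δ * (x - T) = -(s' + u) := by rw [hs', hu]; ring
        rw [e, hb, ← mul_inv, div_eq_mul_inv, ← mul_inv]
        refine inv_anti₀ (by positivity) ?_
        nlinarith [sq_nonneg (s' - u), sq_nonneg (s' * u)]
      have i1 : 1 - (a + b) * (1 + u ^ 2) ≤ Set.indicator (Icc 0 T) (fun _ => (1 : ℝ)) x := by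
        by_cases hx : x ∈ Icc 0 T
        · rw [Set.indicator_of_mem hx]
          have : 0 ≤ (a + b) * (1 + u ^ 2) := by positivity
          linarith
        · rw [Set.indicator_of_notMem hx]
          rw [mem_Icc, not_and_or] at hx
          rcases hx with hx | hx
          · push Not at hx
            have e : s ≤ u := by rw [hs, hu]; nlinarith
            have : 1 ≤ a * (1 + u ^ 2) := by
              rw [ha, inv_mul_eq_div, le_div_iff₀ (by positivity)]
              nlinarith
            have h2 : 0 ≤ b * (1 + u ^ 2) := by positivity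
            linarith
          · push Not at hx
            have e : s' ≤ -u := by rw [hs', hu]; nlinarith
            have : 1 ≤ b * (1 + u ^ 2) := by
              rw [hb, inv_mul_eq_div, le_div_iff₀ (by positivity)]
              nlinarith
            have h2 : 0 ≤ a * (1 + u ^ 2) := by positivity
            linarith
      have key : 1 - (a + b) * (1 + u ^ 2) + (a + b) * c / 2 * (1 + u ^ 2)⁻¹ ≤ W x := by
        simp only [hW]
        have f1 := mul_le_mul_of_nonneg_left w1 hc0
        have f2 := mul_le_mul_of_nonneg_left w2 hc0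
        linarith
      have : W x * (δ * k u) ≥ (1 - (a + b) * (1 + u ^ 2) + (a + b) * c / 2 * (1 + u ^ 2)⁻¹) * (δ * k u) :=
        mul_le_mul_of_nonneg_right key (mul_nonneg hδ.le hk)
      calc _ = (1 - (a + b) * (1 + u ^ 2) + (a + b) * c / 2 * (1 + u ^ 2)⁻¹) * (δ * k u) := by ring
        _ ≤ _ := this
  · rw [hmI, hWI, mul_one]
  · -- spectrum
    have hz : ∫ v, (kd v : ℂ) * cexp ((ω * v : ℝ) * I) = 0 := by
      have h1 := hks (ω / δ) (by rw [abs_div, abs_of_pos hδ, one_le_div hδ]; exact hω)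
      have h2 := Measure.integral_comp_mul_left (fun u : ℝ => (k u : ℂ) * cexp ((ω / δ * u : ℝ) * I)) δ
      rw [h1, smul_zero] at h2
      calc ∫ v, (kd v : ℂ) * cexp ((ω * v : ℝ) * I)
          = ∫ v, (δ : ℂ) * ((k (δ * v) : ℂ) * cexp ((ω / δ * (δ * v) : ℝ) * I)) := by
            refine integral_congr_ae (Eventually.of_forall fun v => ?_)
            have e : ω / δ * (δ * v) = ω * v := by field_simp
            simp only [hkd, e]
            push_cast
            ring
        _ = 0 := by rw [integral_const_mul, h2, mul_zero]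
    have hz2 : ∀ x, ∫ v, kd v * Real.cos (ω * (v + x)) = 0 := by
      intro x
      have h1 : ∫ v, (kd v : ℂ) * cexp ((ω * (v + x) : ℝ) * I) = 0 := by
        calc ∫ v, (kd v : ℂ) * cexp ((ω * (v + x) : ℝ) * I)
            = ∫ v, cexp ((ω * x : ℝ) * I) * ((kd v : ℂ) * cexp ((ω * v : ℝ) * I)) := by
              refine integral_congr_ae (Eventually.of_forall fun v => ?_)
              have e : cexp ((ω * (v + x) : ℝ) * I) = cexp ((ω * x : ℝ) * I) * cexp ((ω * v : ℝ) * I) := by
                rw [← Complex.exp_add]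
                congr 1
                push_cast
                ring
              simp only [e]
              ring
          _ = 0 := by rw [integral_const_mul, hz, mul_zero]
      have hint : Integrable fun v => (kd v : ℂ) * cexp ((ω * (v + x) : ℝ) * I) := by
        refine hkdi.ofReal.mul_bdd (c := 1) (by fun_prop) (Eventually.of_forall fun v => ?_)
        rw [Complex.norm_exp_ofReal_mul_I]
      have h2 := Complex.reCLM.integral_comp_comm hint
      rw [h1, map_zero] at h2
      rw [← h2]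
      refine integral_congr_ae (Eventually.of_forall fun v => ?_)
      simp only [Complex.reCLM_apply]
      rw [Complex.re_ofReal_mul, Complex.exp_ofReal_mul_I_re]
    have hF : Integrable (fun p : ℝ × ℝ => W p.2 * kd (p.1 - p.2) * Real.cos (ω * p.1)) (volume.prod volume) := by
      have h0 : Integrable (fun p : ℝ × ℝ => W p.2 * kd (p.1 - p.2)) (volume.prod volume) :=
        hWi.convolution_integrand (ContinuousLinearMap.mul ℝ ℝ) hkdi
      refine h0.mul_bdd (c := 1) (by fun_prop) (Eventually.of_forall fun p => ?_)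
      rw [Real.norm_eq_abs]
      exact Real.abs_cos_le_one _
    calc ∫ t, m t * Real.cos (ω * t) = ∫ t, ∫ x, W x * kd (t - x) * Real.cos (ω * t) := by
          refine integral_congr_ae (Eventually.of_forall fun t => ?_)
          simp only [hmt]
          rw [integral_mul_const]
      _ = ∫ x, ∫ t, W x * kd (t - x) * Real.cos (ω * t) := integral_integral_swap hF
      _ = ∫ x : ℝ, (0 : ℝ) := by
          refine integral_congr_ae (Eventually.of_forall fun x => ?_)
          simp only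
          rw [← integral_add_right_eq_self (μ := volume) (fun t => W x * kd (t - x) * Real.cos (ω * t)) x]
          have e : (fun v => W x * kd (v + x - x) * Real.cos (ω * (v + x))) = fun v => W x * (kd v * Real.cos (ω * (v + x))) := by
            funext v
            rw [add_sub_cancel_right]
            ring
          rw [e, integral_const_mul, hz2, mul_zero]
      _ = 0 := integral_zero _ _

end Pool.Agent.Lib.MP_00e05b_nt.UH
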