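import Pool.Agent.Lib.MP_00e05b_nt.UH.Defs
import Pool.Agent.Lib.MP_00e05b_nt.Mont.Prime

open Complex Set Filter Topology MeasureTheory
open scoped ContDiff

namespace Pool.Agent.Lib.MP_00e05b_nt.UH

open Pool.Agent.Lib.MP_00e05b_nt Pool.Agent.Lib.MP_00e05b_nt.Mont Pool.Agent.Lib.MP_2a816b_nt.TA

private lemma Ps_range {y z : ℝ} (hyz : y ≤ z) {n : ℕ}
    (hn : n ∉ Finset.range (⌈Real.exp (z + 1)⌉₊ + 1)) : 1 ≤ Real.log n - y := by
  rw [Finset.mem_range, not_lt] at hn
  have h1 : Real.exp (z + 1) ≤ n := by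
    calc Real.exp (z + 1) ≤ (⌈Real.exp (z + 1)⌉₊ : ℝ) := Nat.le_ceil _
      _ ≤ n := by exact_mod_cast (Nat.le_succ _).trans hn
  have h2 : z + 1 ≤ Real.log n := (Real.le_log_iff_exp_le ((Real.exp_pos _).trans_le h1)).2 h1
  linarith

private lemma Ps_supp {G : ℝ → ℝ} (hG : ∀ u, 3 / 4 ≤ |u| → G u = 0) {y z : ℝ} (hyz : y ≤ z)
    {n : ℕ} (hn : n ∉ Finset.range (⌈Real.exp (z + 1)⌉₊ + 1)) : G (Real.log n - y) = 0 := by
  have h := Ps_range hyz hn
  apply hG
  rw [abs_of_nonneg (by linarith)]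
  linarith

private lemma Ps_term (n : ℕ) (w : ℝ) :
    (ArithmeticFunction.vonMangoldt n * Real.exp (-(Real.log n / 2)) * w) ^ 2 =
      ArithmeticFunction.vonMangoldt n ^ 2 / n * w ^ 2 := by
  rcases Nat.eq_zero_or_pos n with rfl | hn
  · simp
  · have hn' : (0 : ℝ) < n := by exact_mod_cast hn
    have h1 : Real.exp (-(Real.log n / 2)) ^ 2 = 1 / n := by
      rw [← Real.exp_nat_mul]
      have : ((2 : ℕ) : ℝ) * -(Real.log n / 2) = -Real.log n := by push_cast; ring
      rw [this, Real.exp_neg, Real.exp_log hn', one_div]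
    rw [mul_pow, mul_pow, h1]
    ring

private lemma Ps_term2 (n : ℕ) (y w : ℝ) :
    ArithmeticFunction.vonMangoldt n *
        (Real.exp (-(y / 2)) * (w * Real.exp (-(Real.log n - y) - 1))) =
      Real.exp (y / 2 - 1) * (ArithmeticFunction.vonMangoldt n / n * w) := by
  rcases Nat.eq_zero_or_pos n with rfl | hn
  · simp
  · have hn' : (0 : ℝ) < n := by exact_mod_cast hn
    have h1 : Real.exp (-(y / 2)) * Real.exp (-(Real.log n - y) - 1) =
        Real.exp (y / 2 - 1) * (1 / n) := by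
      have e1 : (1 : ℝ) / n = Real.exp (-Real.log n) := by
        rw [Real.exp_neg, Real.exp_log hn', one_div]
      rw [e1, ← Real.exp_add, ← Real.exp_add]
      congr 1
      ring
    calc _ = ArithmeticFunction.vonMangoldt n * w *
          (Real.exp (-(y / 2)) * Real.exp (-(Real.log n - y) - 1)) := by ring
      _ = _ := by rw [h1]; ring

private lemma Ps_psi (hRH : RiemannHypothesis) {G : ℝ → ℝ} (hG : ContDiff ℝ ∞ G)
    (h0 : ∀ u, 0 ≤ G u) (h1 : ∀ u, G u ≤ 1) (hsupp : ∀ u, 3 / 4 ≤ |u| → G u = 0) :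
    ∃ C : ℝ, 0 ≤ C ∧ ∀ y : ℝ, 2 ≤ y →
      |(∑ n ∈ Finset.range (⌈Real.exp (y + 1)⌉₊ + 1),
          ArithmeticFunction.vonMangoldt n / n * G (Real.log n - y)) - ∫ u, G u| ≤
        C * Real.exp (1 - y / 2) := by
  obtain ⟨C, hC, h⟩ := psi_RH hRH (W := fun v => G v * Real.exp (-v - 1))
    (hG.mul (Real.contDiff_exp.comp (contDiff_neg.sub contDiff_const)))
    (fun u => mul_nonneg (h0 u) (Real.exp_pos _).le)
    (fun u => by
      by_cases hu : 3 / 4 ≤ |u|
      · simp [hsupp u hu]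
      · have hu' := abs_lt.1 (not_le.1 hu)
        have h2 : Real.exp (-u - 1) ≤ 1 := Real.exp_le_one_iff.2 (by linarith [hu'.1])
        exact mul_le_one₀ (h1 u) (Real.exp_pos _).le h2)
    (fun u hu => by simp [hsupp u hu])
  refine ⟨C, hC, fun y hy => ?_⟩
  have h1 := h y hy
  have hint : (∫ v in (-1 : ℝ)..1, G v * Real.exp (-v - 1) * Real.exp v) =
      Real.exp (-1) * ∫ u, G u := by
    have e1 : (∫ v in (-1 : ℝ)..1, G v * Real.exp (-v - 1) * Real.exp v) =
        ∫ v in (-1 : ℝ)..1, Real.exp (-1) * G v := by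
      apply intervalIntegral.integral_congr
      intro v _
      show G v * Real.exp (-v - 1) * Real.exp v = Real.exp (-1) * G v
      rw [mul_assoc, ← Real.exp_add]
      have : -v - 1 + v = -1 := by ring
      rw [this]
      ring
    rw [e1, intervalIntegral.integral_const_mul]
    congr 1
    rw [intervalIntegral.integral_of_le (by norm_num)]
    apply setIntegral_eq_integral_of_forall_compl_eq_zero
    intro u hu
    have : 3 / 4 ≤ |u| := by
      by_contra hcon
      have hu' := abs_lt.1 (not_le.1 hcon)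
      exact hu ⟨by linarith [hu'.1], by linarith [hu'.2]⟩
    exact hsupp u this
  rw [hint] at h1
  set N := ⌈Real.exp (y + 1)⌉₊ + 1 with hN
  have hsum : (∑' n : ℕ, ((ArithmeticFunction.vonMangoldt n : ℝ) : ℂ) *
        ((Real.exp (-(y / 2)) * ((fun v => G v * Real.exp (-v - 1)) (Real.log n - y)) : ℝ) : ℂ)) =
      ((Real.exp (y / 2 - 1) * ∑ n ∈ Finset.range N,
        ArithmeticFunction.vonMangoldt n / n * G (Real.log n - y) : ℝ) : ℂ) := by
    rw [tsum_eq_sum (s := Finset.range N)]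
    · rw [Finset.mul_sum, Complex.ofReal_sum]
      apply Finset.sum_congr rfl
      intro n _
      have := Ps_term2 n y (G (Real.log n - y))
      rw [← Complex.ofReal_mul]
      exact congrArg _ this
    · intro n hn
      have := Ps_supp hsupp (le_refl y) hn
      simp [this]
  rw [hsum] at h1
  set A := ∑ n ∈ Finset.range N, ArithmeticFunction.vonMangoldt n / n * G (Real.log n - y)
    with hA
  set J := ∫ u, G u with hJ
  rw [← Complex.ofReal_sub, Complex.norm_real, Real.norm_eq_abs] at h1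
  have h2 : Real.exp (y / 2 - 1) * A - Real.exp (y / 2) * (Real.exp (-1) * J) =
      Real.exp (y / 2 - 1) * (A - J) := by
    rw [← mul_assoc, ← Real.exp_add]
    have : y / 2 + -1 = y / 2 - 1 := by ring
    rw [this]
    ring
  rw [h2, abs_mul, abs_of_pos (Real.exp_pos _)] at h1
  have h3 : Real.exp (1 - y / 2) * Real.exp (y / 2 - 1) = 1 := by
    rw [← Real.exp_add]
    have : 1 - y / 2 + (y / 2 - 1) = 0 := by ring
    rw [this, Real.exp_zero]
  calc |A - J| = Real.exp (1 - y / 2) * (Real.exp (y / 2 - 1) * |A - J|) := by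
        rw [← mul_assoc, h3, one_mul]
    _ ≤ Real.exp (1 - y / 2) * C := mul_le_mul_of_nonneg_left h1 (Real.exp_pos _).le
    _ = _ := by ring

/-- `fW W` is a finite sum below `z`. -/
private lemma Ps_fin {W : ℝ → ℝ} (hsupp : ∀ u, 3 / 4 ≤ |u| → W u = 0) {y z : ℝ} (hyz : y ≤ z) :
    fW W y = ∑ n ∈ Finset.range (⌈Real.exp (z + 1)⌉₊ + 1),
      ArithmeticFunction.vonMangoldt n ^ 2 / n * W (Real.log n - y) ^ 2 := by
  unfold fW
  rw [tsum_eq_sum (s := Finset.range (⌈Real.exp (z + 1)⌉₊ + 1))]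
  · exact Finset.sum_congr rfl fun n _ => Ps_term n _
  · intro n hn
    rw [Ps_supp hsupp hyz hn]
    ring

private lemma Ps_integrable {W : ℝ → ℝ} (hc : Continuous W)
    (hsupp : ∀ u, 3 / 4 ≤ |u| → W u = 0) (a b : ℝ) :
    IntervalIntegrable (fW W) volume a b := by
  have h1 : Continuous (fun y : ℝ => ∑ n ∈ Finset.range (⌈Real.exp (max a b + 1)⌉₊ + 1),
      ArithmeticFunction.vonMangoldt n ^ 2 / n * W (Real.log n - y) ^ 2) := by
    refine continuous_finsetSum _ fun n _ => ?_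
    exact continuous_const.mul ((hc.comp (continuous_const.sub continuous_id)).pow 2)
  refine (h1.intervalIntegrable a b).congr ?_
  intro y hy
  have hy' : y ≤ max a b := by
    rw [uIoc, mem_Ioc] at hy
    exact hy.2
  exact (Ps_fin hsupp hy').symm

/-- The weight `(1 + v) / 2 * W v ^ 2`. -/
private lemma Ps_half {W : ℝ → ℝ} (hc : Continuous W) (he : ∀ u, W (-u) = W u)
    (hsupp : ∀ u, 3 / 4 ≤ |u| → W u = 0) :
    2 * ∫ u, (1 + u) / 2 * W u ^ 2 = ∫ u, W u ^ 2 := by
  have hcomp : ∀ c : ℝ → ℝ, Continuous c → Integrable (fun u => c u * W u ^ 2) := by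
    intro c hcc
    refine (hcc.mul (hc.pow 2)).integrable_of_hasCompactSupport ?_
    refine HasCompactSupport.intro (isCompact_Icc (a := (-1 : ℝ)) (b := 1)) fun x hx => ?_
    have : 3 / 4 ≤ |x| := by
      by_contra hcon
      have hu' := abs_lt.1 (not_le.1 hcon)
      exact hx ⟨by linarith [hu'.1], by linarith [hu'.2]⟩
    show c x * W x ^ 2 = 0
    rw [hsupp x this]
    ring
  have i1 := hcomp (fun u => (1 + u) / 2) (by fun_prop)
  have i2 := hcomp (fun u => (1 - u) / 2) (by fun_prop)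
  have e1 : ∫ u, (1 - u) / 2 * W u ^ 2 = ∫ u, (1 + u) / 2 * W u ^ 2 := by
    rw [← integral_neg_eq_self (fun u => (1 + u) / 2 * W u ^ 2)]
    refine integral_congr_ae (Eventually.of_forall fun u => ?_)
    show (1 - u) / 2 * W u ^ 2 = (1 + -u) / 2 * W (-u) ^ 2
    rw [he]
    ring
  have e2 : ∫ u, W u ^ 2 = (∫ u, (1 + u) / 2 * W u ^ 2) + ∫ u, (1 - u) / 2 * W u ^ 2 := by
    rw [← integral_add i1 i2]
    refine integral_congr_ae (Eventually.of_forall fun u => ?_)
    show W u ^ 2 = (1 + u) / 2 * W u ^ 2 + (1 - u) / 2 * W u ^ 2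
    ring
  rw [e2, e1]
  ring

/-- LEAF Ps: the diagonal to second order. As in `Mont/Prime.lean` (`Prime_psi`, `prime_sq`): `Λ(n)² ≤ Λ(n) log n`, so
`fW W y ≤ ∑ Λ(n)/n W(log n - y)² log n = ∫ W(v)² (y + v) dv + O((1 + y) e^(-y/2)) = y J + O((1 + y) e^(-y/2))` (`psi_RH` also for the weight
`v W(v)²`, or for `(v + 1) W(v)² ≥ 0`; `W` even). Integrate over `[2, Y]`; `fW` is continuous and bounded on `[0, 2]`. -/
theorem prime_int (hRH : RiemannHypothesis) {W : ℝ → ℝ} {s : ℝ} (hW : EB W s) (hs : s ≤ 3 / 4) : ∃ C : ℝ, 0 ≤ C ∧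
    (∀ a b : ℝ, IntervalIntegrable (fW W) volume a b) ∧
    ∀ Y : ℝ, 0 ≤ Y → ∫ y in (0 : ℝ)..Y, fW W y ≤ (∫ u, W u ^ 2) * Y ^ 2 / 2 + C := by
  have hsupp : ∀ u, 3 / 4 ≤ |u| → W u = 0 := fun u hu => hW.supp u (hs.trans hu)
  have hc : Continuous W := hW.smooth.continuous
  have hw2 : ∀ u, W u ^ 2 ≤ 1 := fun u => pow_le_one₀ (hW.nonneg u) (hW.le_one u)
  obtain ⟨C₁, hC₁, h₁⟩ := Ps_psi hRH (G := fun v => W v ^ 2) (hW.smooth.pow 2)
    (fun u => sq_nonneg _) hw2 (fun u hu => by simp [hsupp u hu])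
  obtain ⟨C₂, hC₂, h₂⟩ := Ps_psi hRH (G := fun v => (1 + v) / 2 * W v ^ 2)
    (((contDiff_const.add contDiff_id).div_const 2).mul (hW.smooth.pow 2))
    (fun u => by
      by_cases hu : 3 / 4 ≤ |u|
      · simp [hsupp u hu]
      · have hu' := abs_lt.1 (not_le.1 hu)
        exact mul_nonneg (by linarith [hu'.1]) (sq_nonneg _))
    (fun u => by
      by_cases hu : 3 / 4 ≤ |u|
      · simp [hsupp u hu]
      · have hu' := abs_lt.1 (not_le.1 hu)
        exact mul_le_one₀ (by linarith [hu'.2]) (sq_nonneg _) (hw2 u))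
    (fun u hu => by simp [hsupp u hu])
  obtain ⟨C₀, hC₀, h₀⟩ := prime_sq hRH hW hs
  have hhalf := Ps_half hc hW.even hsupp
  obtain ⟨J, hJ⟩ : ∃ J : ℝ, J = ∫ u, W u ^ 2 := ⟨_, rfl⟩
  obtain ⟨J₂, hJ₂⟩ : ∃ J₂ : ℝ, J₂ = ∫ u, (1 + u) / 2 * W u ^ 2 := ⟨_, rfl⟩
  rw [← hJ, ← hJ₂] at hhalf
  have hint := Ps_integrable hc hsupp
  obtain ⟨K, hK⟩ : ∃ K : ℝ, K = 4 * (C₁ + 2 * C₂) + C₀ := ⟨_, rfl⟩
  have hK0 : 0 ≤ K := by
    rw [hK]
    positivity
  -- the pointwise bound
  have hpt : ∀ y : ℝ, 0 ≤ y → fW W y ≤ y * J + K * Real.exp (1 - y / 4) := by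
    intro y hy
    rcases le_or_gt 2 y with h2 | h2
    · have g1 := h₁ y h2
      have g2 := h₂ y h2
      rw [← hJ] at g1
      rw [← hJ₂] at g2
      rw [Ps_fin hsupp (le_refl y)]
      obtain ⟨N, hN⟩ : ∃ N : ℕ, N = ⌈Real.exp (y + 1)⌉₊ + 1 := ⟨_, rfl⟩
      rw [← hN] at g1 g2 ⊢
      have e1 : ∑ n ∈ Finset.range N,
          ArithmeticFunction.vonMangoldt n ^ 2 / n * W (Real.log n - y) ^ 2 ≤
          y * (∑ n ∈ Finset.range N,
            ArithmeticFunction.vonMangoldt n / n * W (Real.log n - y) ^ 2) +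
          (2 * (∑ n ∈ Finset.range N, ArithmeticFunction.vonMangoldt n / n *
            ((1 + (Real.log n - y)) / 2 * W (Real.log n - y) ^ 2)) -
          ∑ n ∈ Finset.range N,
            ArithmeticFunction.vonMangoldt n / n * W (Real.log n - y) ^ 2) := by
        rw [Finset.mul_sum, Finset.mul_sum, ← Finset.sum_sub_distrib, ← Finset.sum_add_distrib]
        refine Finset.sum_le_sum fun n _ => ?_
        have h5 : 0 ≤ (ArithmeticFunction.vonMangoldt n * Real.log n -
            ArithmeticFunction.vonMangoldt n ^ 2) / n * W (Real.log n - y) ^ 2 :=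
          mul_nonneg (div_nonneg (pp_nonneg n) (Nat.cast_nonneg n)) (sq_nonneg _)
        have h6 : y * (ArithmeticFunction.vonMangoldt n / n * W (Real.log n - y) ^ 2) +
            (2 * (ArithmeticFunction.vonMangoldt n / n *
              ((1 + (Real.log n - y)) / 2 * W (Real.log n - y) ^ 2)) -
            ArithmeticFunction.vonMangoldt n / n * W (Real.log n - y) ^ 2) -
            ArithmeticFunction.vonMangoldt n ^ 2 / n * W (Real.log n - y) ^ 2 =
            (ArithmeticFunction.vonMangoldt n * Real.log n -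
            ArithmeticFunction.vonMangoldt n ^ 2) / n * W (Real.log n - y) ^ 2 := by ring
        linarith
      refine e1.trans ?_
      obtain ⟨A₁, hA₁⟩ : ∃ A : ℝ, A = ∑ n ∈ Finset.range N,
            ArithmeticFunction.vonMangoldt n / n * W (Real.log n - y) ^ 2 := ⟨_, rfl⟩
      obtain ⟨A₂, hA₂⟩ : ∃ A : ℝ, A = ∑ n ∈ Finset.range N, ArithmeticFunction.vonMangoldt n / n *
            ((1 + (Real.log n - y)) / 2 * W (Real.log n - y) ^ 2) := ⟨_, rfl⟩
      rw [← hA₁] at g1 ⊢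
      rw [← hA₂] at g2 ⊢
      have a1 := abs_le.1 g1
      have a2 := abs_le.1 g2
      have ee : 0 < Real.exp (1 - y / 2) := Real.exp_pos _
      have b1 : y * A₁ ≤ y * (J + C₁ * Real.exp (1 - y / 2)) :=
        mul_le_mul_of_nonneg_left (by linarith [a1.2]) hy
      have b2 : 1 + y ≤ 4 * Real.exp (y / 4) := by
        have := Real.add_one_le_exp (y / 4)
        linarith
      have b3 : (1 + y) * Real.exp (1 - y / 2) ≤ 4 * Real.exp (1 - y / 4) := by
        have h3 := mul_le_mul_of_nonneg_right b2 ee.le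
        have h4 : 4 * Real.exp (y / 4) * Real.exp (1 - y / 2) = 4 * Real.exp (1 - y / 4) := by
          rw [mul_assoc, ← Real.exp_add]
          congr 2
          ring
        rw [h4] at h3
        exact h3
      have b4 : (C₁ + 2 * C₂) * ((1 + y) * Real.exp (1 - y / 2)) ≤
          (C₁ + 2 * C₂) * (4 * Real.exp (1 - y / 4)) :=
        mul_le_mul_of_nonneg_left b3 (by positivity)
      have b5 : 0 ≤ C₂ * (y * Real.exp (1 - y / 2)) := by positivity
      have b6 : 0 ≤ C₀ * Real.exp (1 - y / 4) := by positivity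
      have b7 : K * Real.exp (1 - y / 4) = (C₁ + 2 * C₂) * (4 * Real.exp (1 - y / 4)) +
          C₀ * Real.exp (1 - y / 4) := by
        rw [hK]
        ring
      rw [b7]
      nlinarith [a1.1, a1.2, a2.1, a2.2]
    · have g0 := h₀ y hy
      have g1 : fW W y - y * J ≤ C₀ := by
        rw [hJ]
        exact (abs_le.1 g0).2
      have g2 : (1 : ℝ) ≤ Real.exp (1 - y / 4) := Real.one_le_exp (by linarith)
      have g3 : C₀ * 1 ≤ C₀ * Real.exp (1 - y / 4) := mul_le_mul_of_nonneg_left g2 hC₀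
      have g4 : 0 ≤ 4 * (C₁ + 2 * C₂) * Real.exp (1 - y / 4) := by positivity
      rw [hK]
      linarith
  refine ⟨4 * K * Real.exp 1, by positivity, hint, fun Y hY => ?_⟩
  rw [← hJ]
  have hderiv : ∀ y : ℝ, HasDerivAt (fun y : ℝ => J * y ^ 2 / 2 - 4 * K * Real.exp (1 - y / 4))
      (y * J + K * Real.exp (1 - y / 4)) y := by
    intro y
    have d1 : HasDerivAt (fun y : ℝ => J * y ^ 2 / 2) (y * J) y := by
      have h := ((hasDerivAt_pow 2 y).const_mul J).div_const 2
      refine h.congr_deriv ?_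
      push_cast
      ring
    have d2 : HasDerivAt (fun y : ℝ => 1 - y / 4) (-(1 / 4)) y := by
      have h := ((hasDerivAt_id y).div_const 4).const_sub 1
      refine h.congr_deriv ?_
      ring
    have d3 := (d2.exp).const_mul (4 * K)
    refine (d1.sub d3).congr_deriv ?_
    ring
  have hcont : Continuous (fun y : ℝ => y * J + K * Real.exp (1 - y / 4)) := by fun_prop
  have h1 : ∫ y in (0 : ℝ)..Y, fW W y ≤ ∫ y in (0 : ℝ)..Y, (y * J + K * Real.exp (1 - y / 4)) :=
    intervalIntegral.integral_mono_on hY (hint 0 Y) (hcont.intervalIntegrable 0 Y)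
      fun y hy => hpt y hy.1
  rw [intervalIntegral.integral_eq_sub_of_hasDerivAt (fun y _ => hderiv y)
    (hcont.intervalIntegrable 0 Y)] at h1
  have h2 : 0 ≤ 4 * K * Real.exp (1 - Y / 4) := by positivity
  have h3 : Real.exp (1 - 0 / 4) = Real.exp 1 := by norm_num
  rw [h3] at h1
  linarith

end Pool.Agent.Lib.MP_00e05b_nt.UH
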