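import Pool.Agent.Lib.MP_00e05b_nt.UH.Tr
import Pool.Agent.Lib.MP_00e05b_nt.UH.Mv
import Pool.Agent.Lib.MP_00e05b_nt.UH.Ps
import Pool.Agent.Lib.MP_00e05b_nt.Mont.LocalP

open Complex Set Filter Topology MeasureTheory

namespace Pool.Agent.Lib.MP_00e05b_nt.UH

open Pool.Agent.Lib.MP_00e05b_nt Pool.Agent.Lib.MP_00e05b_nt.Mont Pool.Agent.Lib.MP_2a816b_nt.TA

private theorem Mn_fW_nonneg (W : ℝ → ℝ) (y : ℝ) : 0 ≤ fW W y := by
  unfold fW
  exact tsum_nonneg fun n => sq_nonneg _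

/-- LEAF Mn (a): `mv3` for `PP` (a finite sum: `PP_finite`; `X = e^(y+1)`). -/
theorem PP_mv {W : ℝ → ℝ} {s : ℝ} (hW : EB W s) (hs : s ≤ 1 / 8) : ∃ C : ℝ, 0 ≤ C ∧ ∀ T y : ℝ, 0 < T → 0 ≤ y →
    1 / T * ∫ t in (0 : ℝ)..T, ‖PP W t y‖ ^ 2 ≤ (1 + C * Real.exp y / T) * fW W y := by
  obtain ⟨C0, hC0, hmv⟩ := mv3
  refine ⟨C0 * Real.exp 1, by positivity, fun T y hT hy => ?_⟩
  obtain ⟨S, hS1, hS2, hS3⟩ := PP_finite hW.es y
  classical
  obtain ⟨a, ha⟩ : ∃ a : ℕ → ℝ, a = fun n => if n ∈ S then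
      ArithmeticFunction.vonMangoldt n * Real.exp (-(Real.log n / 2)) * W (Real.log n - y)
      else 0 := ⟨_, rfl⟩
  have haS : ∀ n ∈ S, a n = ArithmeticFunction.vonMangoldt n * Real.exp (-(Real.log n / 2)) *
      W (Real.log n - y) := by
    intro n hn
    rw [ha]
    exact if_pos hn
  have h1 := hmv S a (Real.exp (y + 1)) T (Real.one_le_exp (by linarith)) hT
    (by
      intro n
      by_cases hn : n ∈ S
      · rw [haS n hn]
        have h2 : 0 ≤ ArithmeticFunction.vonMangoldt n := ArithmeticFunction.vonMangoldt_nonneg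
        have h3 := hW.nonneg (Real.log n - y)
        positivity
      · rw [ha]
        exact (if_neg hn).ge)
    (by
      intro n hn
      rw [ha]
      exact if_neg hn)
    (by
      intro n hn
      refine ⟨(hS1 n hn).1, (hS1 n hn).2.trans (Real.exp_le_exp.2 (by linarith))⟩)
  have h2 : ∀ t : ℝ, PP W t y = ∑ n ∈ S, (a n : ℂ) * cexp (((-(t * Real.log n) : ℝ) : ℂ) * I) := by
    intro t
    rw [hS2 t]
    refine Finset.sum_congr rfl fun n hn => ?_
    rw [haS n hn]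
  have h3 : ∑ n ∈ S, a n ^ 2 = fW W y := by
    unfold fW
    rw [hS3]
    refine Finset.sum_congr rfl fun n hn => ?_
    rw [haS n hn]
  rw [h3] at h1
  have h4 : ∫ t in (0 : ℝ)..T, ‖PP W t y‖ ^ 2 = ∫ t in (0 : ℝ)..T,
      ‖∑ n ∈ S, (a n : ℂ) * cexp (((-(t * Real.log n) : ℝ) : ℂ) * I)‖ ^ 2 := by
    refine intervalIntegral.integral_congr fun t _ => ?_
    rw [h2 t]
  rw [h4]
  calc 1 / T * ∫ t in (0 : ℝ)..T,
        ‖∑ n ∈ S, (a n : ℂ) * cexp (((-(t * Real.log n) : ℝ) : ℂ) * I)‖ ^ 2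
      ≤ 1 / T * ((T + C0 * Real.exp (y + 1)) * fW W y) :=
        mul_le_mul_of_nonneg_left h1 (by positivity)
    _ = (1 + C0 * Real.exp 1 * Real.exp y / T) * fW W y := by
        rw [Real.exp_add]
        field_simp

private theorem Mn_fW_le (hRH : RiemannHypothesis) {W : ℝ → ℝ} {s : ℝ} (hW : EB W s)
    (hs : s ≤ 1 / 8) : ∃ C : ℝ, 0 ≤ C ∧ ∀ y : ℝ, 0 ≤ y → fW W y ≤ C * (1 + y) := by
  obtain ⟨C, hC, h⟩ := prime_sq hRH hW (by linarith)
  have hJ : 0 ≤ ∫ u, W u ^ 2 := integral_nonneg fun u => sq_nonneg _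
  refine ⟨C + ∫ u, W u ^ 2, by positivity, fun y hy => ?_⟩
  have h1 := (abs_le.1 (h y hy)).2
  have h2 : fW W y - y * ∫ u, W u ^ 2 ≤ C := h1
  nlinarith [mul_nonneg hC hy]

private theorem Mn_log3 {T : ℝ} (hT : 2 ≤ T) : Real.log T ^ 3 / T ≤ 27 := by
  have hT0 : 0 < T := by linarith
  have h1 : Real.log T ≤ 3 * T ^ ((1 : ℝ) / 3) := by
    have h2 := Real.log_le_rpow_div hT0.le (show (0 : ℝ) < 1 / 3 by norm_num)
    linarith
  have h0 : 0 ≤ Real.log T := Real.log_nonneg (by linarith)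
  have h3 : Real.log T ^ 3 ≤ (3 * T ^ ((1 : ℝ) / 3)) ^ 3 := pow_le_pow_left₀ h0 h1 3
  have h4 : (3 * T ^ ((1 : ℝ) / 3)) ^ 3 = 27 * T := by
    rw [mul_pow, ← Real.rpow_natCast (T ^ ((1 : ℝ) / 3)) 3, ← Real.rpow_mul hT0.le]
    norm_num
  rw [div_le_iff₀ hT0]
  linarith

private theorem Mn_log4 {T : ℝ} (hT : 2 ≤ T) : Real.log T ^ 4 / T ≤ 256 := by
  have hT0 : 0 < T := by linarith
  have h1 : Real.log T ≤ 4 * T ^ ((1 : ℝ) / 4) := by
    have h2 := Real.log_le_rpow_div hT0.le (show (0 : ℝ) < 1 / 4 by norm_num)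
    linarith
  have h0 : 0 ≤ Real.log T := Real.log_nonneg (by linarith)
  have h3 : Real.log T ^ 4 ≤ (4 * T ^ ((1 : ℝ) / 4)) ^ 4 := pow_le_pow_left₀ h0 h1 4
  have h4 : (4 * T ^ ((1 : ℝ) / 4)) ^ 4 = 256 * T := by
    rw [mul_pow, ← Real.rpow_natCast (T ^ ((1 : ℝ) / 4)) 4, ← Real.rpow_mul hT0.le]
    norm_num
  rw [div_le_iff₀ hT0]
  linarith

private theorem Mn_sq {a b : ℝ} : (a + b) ^ 2 ≤ 2 * a ^ 2 + 2 * b ^ 2 := by
  nlinarith [sq_nonneg (a - b)]

/-- LEAF Mn (b): far range, from (a), `Ph_prime`, `prime_sq` (`fW W y ≤ y J + C`). -/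
theorem Ph_far (hRH : RiemannHypothesis) {W : ℝ → ℝ} {s : ℝ} (hW : EB W s) (hs0 : 0 < s) (hs : s ≤ 1 / 8) : ∃ C : ℝ, 0 ≤ C ∧
    ∀ T y : ℝ, 2 ≤ T → 1 / 4 ≤ y → Ph W T y ≤ C * (1 + Real.exp y / T) * (1 + y) := by
  obtain ⟨C1, hC1, h1⟩ := PP_mv hW hs
  obtain ⟨C2, hC2, h2⟩ := Ph_prime hRH hW hs0 hs
  obtain ⟨C3, hC3, h3⟩ := Mn_fW_le hRH hW hs
  refine ⟨2 * (1 + C1) * C3 + 2 * C2 + 27 * C2, by positivity, fun T y hT hy => ?_⟩
  have hT0 : 0 < T := by linarith
  obtain ⟨x, hx⟩ : ∃ x, x = Real.exp y / T := ⟨_, rfl⟩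
  have hx0 : 0 ≤ x := by
    rw [hx]
    positivity
  have e1 := h1 T y hT0 (by linarith)
  have e2 := h2 T y hT hy
  have e3 := h3 y (by linarith)
  have e4 := Mn_log3 hT
  have eA : C1 * Real.exp y / T = C1 * x := by rw [hx, mul_div_assoc]
  have eB : C2 * Real.exp y / T = C2 * x := by rw [hx, mul_div_assoc]
  rw [eA] at e1
  rw [eB] at e2
  obtain ⟨A, hA⟩ : ∃ A, A = 1 / T * ∫ t in (0 : ℝ)..T, ‖PP W t y‖ ^ 2 := ⟨_, rfl⟩
  rw [← hA] at e1 e2
  have hA0 : 0 ≤ A := by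
    rw [hA]
    refine mul_nonneg (by positivity) (intervalIntegral.integral_nonneg hT0.le fun t _ => by
      positivity)
  have e5 : (√A + √(C2 * x)) ^ 2 ≤ 2 * A + 2 * (C2 * x) := by
    have h := Mn_sq (a := √A) (b := √(C2 * x))
    rwa [Real.sq_sqrt hA0, Real.sq_sqrt (by positivity)] at h
  have e6 : C2 * Real.log T ^ 3 / T ≤ 27 * C2 := by
    rw [mul_div_assoc, mul_comm 27 C2]
    exact mul_le_mul_of_nonneg_left e4 hC2
  have e7 : (1 + C1 * x) * fW W y ≤ (1 + C1) * (1 + x) * (C3 * (1 + y)) := by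
    refine mul_le_mul ?_ e3 (Mn_fW_nonneg W y) (by positivity)
    nlinarith
  rw [← hx]
  have e8 : 0 ≤ (1 + x) * (1 + y) := by
    have : 0 ≤ 1 + y := by linarith
    positivity
  have e9 : x ≤ (1 + x) * (1 + y) := by nlinarith
  have e10 : 1 ≤ (1 + x) * (1 + y) := by nlinarith
  calc Ph W T y ≤ 2 * A + 2 * (C2 * x) + 27 * C2 := by linarith
    _ ≤ 2 * ((1 + C1) * (1 + x) * (C3 * (1 + y))) + 2 * (C2 * ((1 + x) * (1 + y))) +
        27 * C2 * ((1 + x) * (1 + y)) := by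
        have g1 := mul_le_mul_of_nonneg_left e9 hC2
        have g2 := mul_le_mul_of_nonneg_left e10 (show 0 ≤ 27 * C2 by positivity)
        linarith
    _ = (2 * (1 + C1) * C3 + 2 * C2 + 27 * C2) * (1 + x) * (1 + y) := by ring

private theorem Mn_int_exp (a b L : ℝ) :
    ∫ y in a..b, Real.exp (y - L) = Real.exp (b - L) - Real.exp (a - L) := by
  rw [intervalIntegral.integral_comp_sub_right (fun x => Real.exp x) L, integral_exp]

private theorem Mn_int_exp2 (a b L : ℝ) :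
    ∫ y in a..b, Real.exp ((y - L) / 2) =
      2 * Real.exp ((b - L) / 2) - 2 * Real.exp ((a - L) / 2) := by
  have h : ∀ y ∈ uIcc a b, HasDerivAt (fun y => 2 * Real.exp ((y - L) / 2))
      (Real.exp ((y - L) / 2)) y := by
    intro y _
    have h1 : HasDerivAt (fun y : ℝ => (y - L) / 2) (1 / 2) y :=
      ((hasDerivAt_id y).sub_const L).div_const 2
    have h2 := (h1.exp).const_mul 2
    have h3 : 2 * (Real.exp ((y - L) / 2) * (1 / 2)) = Real.exp ((y - L) / 2) := by ring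
    rwa [h3] at h2
  exact intervalIntegral.integral_eq_sub_of_hasDerivAt h
    ((by fun_prop : Continuous fun y : ℝ => Real.exp ((y - L) / 2)).intervalIntegrable _ _)

private theorem Mn_half {W : ℝ → ℝ} (hW : EB W (1 / 8)) :
    ∫ y in (0 : ℝ)..(1 / 4), W y ^ 2 = (∫ u, W u ^ 2) / 2 := by
  have hc : Continuous fun y => W y ^ 2 := hW.smooth.continuous.pow 2
  have h1 : ∫ y in (-(1 / 4) : ℝ)..(1 / 4), W y ^ 2 = ∫ u, W u ^ 2 := by
    refine intervalIntegral.integral_eq_integral_of_support_subset ?_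
    intro u hu
    rw [Function.mem_support] at hu
    by_contra hn
    apply hu
    have h2 : W u = 0 := by
      apply hW.supp
      by_contra hlt
      rw [not_le, abs_lt] at hlt
      exact hn ⟨by linarith [hlt.1], by linarith [hlt.2]⟩
    rw [h2]
    norm_num
  have h2 : ∫ y in (-(1 / 4) : ℝ)..0, W y ^ 2 = ∫ y in (0 : ℝ)..(1 / 4), W y ^ 2 := by
    have h3 := intervalIntegral.integral_comp_neg (a := 0) (b := 1 / 4) fun y => W y ^ 2
    rw [neg_zero] at h3
    rw [← h3]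
    refine intervalIntegral.integral_congr fun y _ => ?_
    rw [hW.even]
  have h3 := intervalIntegral.integral_add_adjacent_intervals
    (hc.intervalIntegrable (μ := volume) (-(1 / 4)) 0) (hc.intervalIntegrable (μ := volume) 0 (1 / 4))
  rw [h1, h2] at h3
  linarith

/-- LEAF Mn (c): `[0, 1/4]` by `Ph_spike` (`∫_0^(1/4) W² = J/2`), `[1/4, L - K]` by `Ph_prime`, (a), `prime_int`: with `f = fW W y ≤ C (1 + y)`,
`e = e^y/T = e^(y - L)`: `Ph ≤ f + C e f + 2 √(f (1 + C e)) √(C e) + C e + C L³/T`; the integrals over `1/4 ≤ y ≤ L - K` are at most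
`J (L-K)²/2 + C`, `C L e^(-K)`, `C √L e^(-K/2)`, `C`, `C`. -/
theorem main_int (hRH : RiemannHypothesis) {W : ℝ → ℝ} (hW : EB W (1 / 8)) : ∃ C : ℝ, 0 ≤ C ∧ ∀ K : ℝ, 1 ≤ K → ∀ᶠ T : ℝ in atTop,
    ∫ y in (0 : ℝ)..(Real.log T - K), Ph W T y ≤
      (∫ u, W u ^ 2) * (Real.log T ^ 2 - 2 * cF * Real.log T + (Real.log T - K) ^ 2) / 2 +
        C * Real.exp (-(K / 2)) * Real.log T + C * √(Real.log T) := by
  obtain ⟨C1, hC1, h1⟩ := PP_mv hW le_rfl
  obtain ⟨C2, hC2, h2⟩ := Ph_prime hRH hW (by norm_num) le_rfl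
  obtain ⟨C3, hC3, h3⟩ := Mn_fW_le hRH hW le_rfl
  obtain ⟨C4, hC4, h4⟩ := Ph_spike hRH hW
  obtain ⟨C5, hC5, h5i, h5⟩ := prime_int hRH hW (by norm_num)
  obtain ⟨J, hJ⟩ : ∃ J, J = ∫ u, W u ^ 2 := ⟨_, rfl⟩
  obtain ⟨E, hE⟩ : ∃ E, E = (1 + C1) * C3 * C2 := ⟨_, rfl⟩
  have hE0 : 0 ≤ E := by
    rw [hE]
    positivity
  refine ⟨2 * C1 * C3 + C2 + C4 + C5 + 8 * √E + C2 * 256 + C2, by positivity,
    fun K hK => ?_⟩
  filter_upwards [eventually_ge_atTop (Real.exp (K + 1)), eventually_ge_atTop 2] with T hT1 hT2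
  have hT0 : 0 < T := by linarith
  obtain ⟨L, hL⟩ : ∃ L, L = Real.log T := ⟨_, rfl⟩
  have hLK : K + 1 ≤ L := by
    rw [hL, Real.le_log_iff_exp_le hT0]
    exact hT1
  have hexp : Real.exp L = T := by rw [hL, Real.exp_log hT0]
  rw [← hL, ← hJ]
  have hJ0 : 0 ≤ J := by
    rw [hJ]
    exact integral_nonneg fun u => sq_nonneg _
  have hPc := Ph_cont hW (T := T) hT0
  have hL4 : L ^ 4 / T ≤ 256 := by
    rw [hL]
    exact Mn_log4 hT2
  -- split
  have hsplit := intervalIntegral.integral_add_adjacent_intervals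
    (hPc.intervalIntegrable (μ := volume) 0 (1 / 4))
    (hPc.intervalIntegrable (μ := volume) (1 / 4) (L - K))
  rw [← hsplit]
  -- first part
  have hcW : Continuous fun y => W y ^ 2 * (L ^ 2 - 2 * cF * L) :=
    (hW.smooth.continuous.pow 2).mul continuous_const
  have hA : ∫ y in (0 : ℝ)..(1 / 4), Ph W T y ≤ J * (L ^ 2 - 2 * cF * L) / 2 + C4 := by
    have g1 : ∫ y in (0 : ℝ)..(1 / 4), Ph W T y ≤
        ∫ y in (0 : ℝ)..(1 / 4), (W y ^ 2 * (L ^ 2 - 2 * cF * L) + C4) := by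
      refine intervalIntegral.integral_mono_on (by norm_num)
        (hPc.intervalIntegrable _ _) ((hcW.add continuous_const).intervalIntegrable _ _) ?_
      intro y hy
      rw [hL]
      exact h4 T y hT2 hy.1 hy.2
    have g2 : ∫ y in (0 : ℝ)..(1 / 4), (W y ^ 2 * (L ^ 2 - 2 * cF * L) + C4) =
        (J / 2) * (L ^ 2 - 2 * cF * L) + C4 * (1 / 4) := by
      rw [intervalIntegral.integral_add (hcW.intervalIntegrable _ _)
        (continuous_const.intervalIntegrable _ _), intervalIntegral.integral_mul_const,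
        Mn_half hW, ← hJ, intervalIntegral.integral_const, smul_eq_mul]
      ring
    rw [g2] at g1
    have g3 : C4 * (1 / 4) ≤ C4 := by linarith
    linarith
  -- second part
  obtain ⟨al, hal⟩ : ∃ al, al = C1 * (C3 * (1 + L)) + C2 := ⟨_, rfl⟩
  obtain ⟨be, hbe⟩ : ∃ be, be = 2 * √(E * (1 + L)) := ⟨_, rfl⟩
  obtain ⟨ga, hga⟩ : ∃ ga, ga = C2 * L ^ 3 / T := ⟨_, rfl⟩
  have hL0 : 0 < L := by linarith
  have hal0 : 0 ≤ al := by
    rw [hal]
    positivity
  have hbe0 : 0 ≤ be := by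
    rw [hbe]
    positivity
  have hga0 : 0 ≤ ga := by
    rw [hga]
    positivity
  have hpt : ∀ y ∈ Icc (1 / 4) (L - K), Ph W T y ≤
      fW W y + (al * Real.exp (y - L) + be * Real.exp ((y - L) / 2) + ga) := by
    intro y hy
    obtain ⟨hy1, hy2⟩ := hy
    have hy0 : 0 ≤ y := by linarith
    have e0 : Real.exp y / T = Real.exp (y - L) := by rw [Real.exp_sub, hexp]
    obtain ⟨x, hx⟩ : ∃ x, x = Real.exp (y - L) := ⟨_, rfl⟩
    have hx0 : 0 ≤ x := by
      rw [hx]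
      positivity
    have hx1 : x ≤ 1 := by
      rw [hx]
      exact Real.exp_le_one_iff.2 (by linarith)
    have hxs : √x = Real.exp ((y - L) / 2) := by
      rw [hx, Real.exp_half]
    have e1 := h1 T y hT0 hy0
    have e2 := h2 T y hT2 hy1
    have e3 := h3 y hy0
    rw [mul_div_assoc, e0, ← hx] at e1
    rw [mul_div_assoc C2 (Real.exp y), e0, ← hx, ← hL, ← hga] at e2
    obtain ⟨A, hA⟩ : ∃ A, A = 1 / T * ∫ t in (0 : ℝ)..T, ‖PP W t y‖ ^ 2 := ⟨_, rfl⟩
    rw [← hA] at e1 e2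
    have hA0 : 0 ≤ A := by
      rw [hA]
      refine mul_nonneg (by positivity) (intervalIntegral.integral_nonneg hT0.le fun t _ => by
        positivity)
    have hf0 := Mn_fW_nonneg W y
    have e4 : fW W y ≤ C3 * (1 + L) :=
      e3.trans (mul_le_mul_of_nonneg_left (by linarith) hC3)
    have e5 : A ≤ (1 + C1) * (C3 * (1 + L)) := by
      refine e1.trans (mul_le_mul ?_ e4 hf0 (by positivity))
      nlinarith
    have e6 : √A * √(C2 * x) ≤ √(E * (1 + L)) * √x := by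
      rw [← Real.sqrt_mul hA0, ← Real.sqrt_mul (by positivity)]
      apply Real.sqrt_le_sqrt
      calc A * (C2 * x) ≤ ((1 + C1) * (C3 * (1 + L))) * (C2 * x) :=
            mul_le_mul_of_nonneg_right e5 (by positivity)
        _ = E * (1 + L) * x := by
            rw [hE]
            ring
    have e7 : (√A + √(C2 * x)) ^ 2 = A + 2 * (√A * √(C2 * x)) + C2 * x := by
      rw [add_sq, Real.sq_sqrt hA0, Real.sq_sqrt (by positivity)]
      ring
    rw [e7] at e2
    have e8 : C1 * x * fW W y ≤ C1 * (C3 * (1 + L)) * x := by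
      have := mul_le_mul_of_nonneg_left e4 (mul_nonneg hC1 hx0)
      calc C1 * x * fW W y ≤ C1 * x * (C3 * (1 + L)) := this
        _ = C1 * (C3 * (1 + L)) * x := by ring
    rw [← hx, ← hxs, hal, hbe]
    have e9 : (1 + C1 * x) * fW W y = fW W y + C1 * x * fW W y := by ring
    rw [e9] at e1
    linarith
  have hgc : Continuous fun y : ℝ => al * Real.exp (y - L) + be * Real.exp ((y - L) / 2) + ga := by
    fun_prop
  have hB : ∫ y in (1 / 4)..(L - K), Ph W T y ≤ (∫ y in (1 / 4)..(L - K), fW W y) +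
      (al * Real.exp (-K) + be * (2 * Real.exp (-(K / 2))) + ga * L) := by
    have g1 : ∫ y in (1 / 4)..(L - K), Ph W T y ≤ ∫ y in (1 / 4)..(L - K),
        (fW W y + (al * Real.exp (y - L) + be * Real.exp ((y - L) / 2) + ga)) :=
      intervalIntegral.integral_mono_on (by linarith) (hPc.intervalIntegrable _ _)
        ((h5i _ _).add (hgc.intervalIntegrable _ _)) hpt
    have g2 : ∫ y in (1 / 4)..(L - K),
        (fW W y + (al * Real.exp (y - L) + be * Real.exp ((y - L) / 2) + ga)) =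
        (∫ y in (1 / 4)..(L - K), fW W y) +
          (al * (Real.exp (-K) - Real.exp (1 / 4 - L)) +
            be * (2 * Real.exp (-(K / 2)) - 2 * Real.exp ((1 / 4 - L) / 2)) +
            ga * (L - K - 1 / 4)) := by
      rw [intervalIntegral.integral_add (h5i _ _) (hgc.intervalIntegrable _ _),
        intervalIntegral.integral_add
          ((by fun_prop : Continuous fun y : ℝ => al * Real.exp (y - L) +
            be * Real.exp ((y - L) / 2)).intervalIntegrable _ _)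
          (continuous_const.intervalIntegrable _ _),
        intervalIntegral.integral_add
          ((by fun_prop : Continuous fun y : ℝ => al * Real.exp (y - L)).intervalIntegrable _ _)
          ((by fun_prop : Continuous fun y : ℝ =>
            be * Real.exp ((y - L) / 2)).intervalIntegrable _ _),
        intervalIntegral.integral_const_mul, intervalIntegral.integral_const_mul, Mn_int_exp,
        Mn_int_exp2, intervalIntegral.integral_const, smul_eq_mul]
      have k1 : L - K - L = -K := by ring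
      have k2 : -K / 2 = -(K / 2) := by ring
      rw [k1, k2]
      ring
    have g3 : 0 ≤ al * Real.exp (1 / 4 - L) := by positivity
    have g4 : 0 ≤ be * (2 * Real.exp ((1 / 4 - L) / 2)) := by positivity
    have g5 : ga * (L - K - 1 / 4) ≤ ga * L := mul_le_mul_of_nonneg_left (by linarith) hga0
    rw [g2] at g1
    linarith
  have hf : ∫ y in (1 / 4)..(L - K), fW W y ≤ J * (L - K) ^ 2 / 2 + C5 := by
    have g1 := intervalIntegral.integral_add_adjacent_intervals (h5i 0 (1 / 4))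
      (h5i (1 / 4) (L - K))
    have g2 := h5 (L - K) (by linarith)
    rw [← hJ] at g2
    have g3 : 0 ≤ ∫ y in (0 : ℝ)..(1 / 4), fW W y :=
      intervalIntegral.integral_nonneg (by norm_num) fun y _ => Mn_fW_nonneg W y
    linarith
  -- numbers
  have hsL : 1 ≤ √L := Real.one_le_sqrt.2 (by linarith)
  have hK2 : Real.exp (-K) ≤ Real.exp (-(K / 2)) := Real.exp_le_exp.2 (by linarith)
  have hK1 : Real.exp (-(K / 2)) ≤ 1 := Real.exp_le_one_iff.2 (by linarith)
  have hK0 : 0 < Real.exp (-(K / 2)) := Real.exp_pos _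
  have n1 : al * Real.exp (-K) ≤ 2 * C1 * C3 * (Real.exp (-(K / 2)) * L) + C2 * √L := by
    calc al * Real.exp (-K) ≤ al * Real.exp (-(K / 2)) := mul_le_mul_of_nonneg_left hK2 hal0
      _ = C1 * C3 * ((1 + L) * Real.exp (-(K / 2))) + C2 * Real.exp (-(K / 2)) := by
          rw [hal]
          ring
      _ ≤ C1 * C3 * ((2 * L) * Real.exp (-(K / 2))) + C2 * √L := by
          refine add_le_add (mul_le_mul_of_nonneg_left (mul_le_mul_of_nonneg_right
            (by linarith) hK0.le) (by positivity)) (mul_le_mul_of_nonneg_left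
            (hK1.trans hsL) hC2)
      _ = 2 * C1 * C3 * (Real.exp (-(K / 2)) * L) + C2 * √L := by ring
  have n2 : be * (2 * Real.exp (-(K / 2))) ≤ 8 * √E * √L := by
    have k1 : √(E * (1 + L)) ≤ √E * (2 * √L) := by
      rw [Real.sqrt_mul hE0]
      refine mul_le_mul_of_nonneg_left ?_ (Real.sqrt_nonneg _)
      calc √(1 + L) ≤ √(2 ^ 2 * L) := Real.sqrt_le_sqrt (by linarith)
        _ = 2 * √L := by rw [Real.sqrt_mul (by norm_num), Real.sqrt_sq (by norm_num)]
    calc be * (2 * Real.exp (-(K / 2))) ≤ be * 2 :=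
          mul_le_mul_of_nonneg_left (by linarith) hbe0
      _ ≤ 2 * (√E * (2 * √L)) * 2 := by
          rw [hbe]
          linarith
      _ = 8 * √E * √L := by ring
  have n3 : ga * L ≤ C2 * 256 * √L := by
    have k1 : ga * L = C2 * (L ^ 4 / T) := by
      rw [hga]
      ring
    rw [k1]
    calc C2 * (L ^ 4 / T) ≤ C2 * 256 := mul_le_mul_of_nonneg_left hL4 hC2
      _ ≤ C2 * 256 * √L := le_mul_of_one_le_right (by positivity) hsL
  have n4 : C4 ≤ C4 * √L := le_mul_of_one_le_right hC4 hsL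
  have n5 : C5 ≤ C5 * √L := le_mul_of_one_le_right hC5 hsL
  obtain ⟨Q, hQ⟩ : ∃ Q, Q = 2 * C1 * C3 + C2 + C4 + C5 + 8 * √E + C2 * 256 + C2 := ⟨_, rfl⟩
  have n6 : 2 * C1 * C3 * (Real.exp (-(K / 2)) * L) ≤ Q * Real.exp (-(K / 2)) * L := by
    rw [mul_assoc Q]
    refine mul_le_mul_of_nonneg_right ?_ (by positivity)
    rw [hQ]
    have := Real.sqrt_nonneg E
    linarith
  have n7 : (C2 + C4 + C5 + 8 * √E + C2 * 256) * √L ≤ Q * √L := by
    refine mul_le_mul_of_nonneg_right ?_ (Real.sqrt_nonneg _)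
    rw [hQ]
    have : 0 ≤ 2 * C1 * C3 := by positivity
    linarith
  rw [← hQ]
  have n8 : (C2 + C4 + C5 + 8 * √E + C2 * 256) * √L = C2 * √L + C4 * √L + C5 * √L +
      8 * √E * √L + C2 * 256 * √L := by ring
  have n9 : J * (L ^ 2 - 2 * cF * L + (L - K) ^ 2) / 2 =
      J * (L ^ 2 - 2 * cF * L) / 2 + J * (L - K) ^ 2 / 2 := by ring
  rw [n9]
  linarith

end Pool.Agent.Lib.MP_00e05b_nt.UH
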