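import Pool.Agent.Lib.MP_00e05b_nt.UH.Defs

open Complex Set Filter Topology MeasureTheory

namespace Pool.Agent.Lib.MP_00e05b_nt.UH

open Pool.Agent.Lib.MP_00e05b_nt Pool.Agent.Lib.MP_00e05b_nt.Mont Pool.Agent.Lib.MP_2a816b_nt.TA

private lemma Pos_int {M : ℝ} (hM : 0 < M) : Integrable (Kg M) := by
  have h1 := integrable_exp_neg_mul_sq (b := 1 / (2 * M ^ 2)) (by positivity)
  have h2 : (fun x : ℝ => Real.exp (-(1 / (2 * M ^ 2)) * x ^ 2)) = Kg M := by
    funext x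
    unfold Kg
    congr 1
    ring
  rwa [h2] at h1

private lemma Pos_cont (M : ℝ) : Continuous (Kg M) := by
  unfold Kg
  fun_prop

private lemma Pos_gauss {M : ℝ} (hM : 0 < M) (θ : ℝ) :
    Integrable (fun v => Kg M v * Real.cos (v * θ)) ∧
      ∫ v, Kg M v * Real.cos (v * θ) = √(2 * Real.pi) * M * Real.exp (-(M ^ 2 * θ ^ 2 / 2)) := by
  have hMC : (M : ℂ) ≠ 0 := by exact_mod_cast hM.ne'
  set b : ℂ := ((-(1 / (2 * M ^ 2)) : ℝ) : ℂ) with hb
  have hbre : b.re < 0 := by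
    rw [hb, Complex.ofReal_re]
    have : 0 < 1 / (2 * M ^ 2) := by positivity
    linarith
  have h1 := integral_cexp_quadratic hbre ((θ : ℂ) * I) 0
  have h2 : Integrable fun v : ℝ => cexp (b * (v : ℂ) ^ 2 + (θ : ℂ) * I * v + 0) := by
    have h2a := integrable_cexp_quadratic (b := -b) (by rw [Complex.neg_re]; linarith) ((θ : ℂ) * I) 0
    rw [neg_neg] at h2a
    exact h2a
  have h3 : ∀ v : ℝ, (cexp (b * (v : ℂ) ^ 2 + (θ : ℂ) * I * v + 0)).re = Kg M v * Real.cos (v * θ) := by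
    intro v
    have e1 : b * (v : ℂ) ^ 2 + (θ : ℂ) * I * v + 0 =
        ((-(v ^ 2 / (2 * M ^ 2)) : ℝ) : ℂ) + ((v * θ : ℝ) : ℂ) * I := by
      rw [hb]
      push_cast
      ring
    rw [e1, Complex.exp_re]
    unfold Kg
    rw [Complex.add_re, Complex.add_im, Complex.ofReal_re, Complex.ofReal_im, Complex.re_ofReal_mul,
      Complex.im_ofReal_mul, Complex.I_re, Complex.I_im, mul_zero, mul_one, add_zero, zero_add]
  constructor
  · have h4 := h2.re
    refine h4.congr (Eventually.of_forall fun v => ?_)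
    exact h3 v
  · have h4 := integral_re h2
    rw [h1] at h4
    have h5 : ∫ v : ℝ, RCLike.re (cexp (b * (v : ℂ) ^ 2 + (θ : ℂ) * I * v + 0)) =
        ∫ v, Kg M v * Real.cos (v * θ) := integral_congr_ae (Eventually.of_forall fun v => h3 v)
    rw [← h5, h4]
    have e2 : (Real.pi : ℂ) / -b = ((2 * Real.pi * M ^ 2 : ℝ) : ℂ) := by
      rw [hb]
      push_cast
      field_simp
    have e3 : (0 : ℂ) - ((θ : ℂ) * I) ^ 2 / (4 * b) = ((-(M ^ 2 * θ ^ 2 / 2) : ℝ) : ℂ) := by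
      rw [hb, mul_pow, I_sq]
      push_cast
      field_simp
      ring
    have e4 : (((2 * Real.pi * M ^ 2 : ℝ) : ℂ)) ^ (1 / 2 : ℂ) = ((√(2 * Real.pi) * M : ℝ) : ℂ) := by
      have e5 : (1 / 2 : ℂ) = ((1 / 2 : ℝ) : ℂ) := by push_cast; rfl
      rw [e5, ← Complex.ofReal_cpow (by positivity), ← Real.sqrt_eq_rpow,
        Real.sqrt_mul (by positivity), Real.sqrt_sq hM.le]
    rw [e2, e3, e4, ← Complex.ofReal_exp, ← Complex.ofReal_mul]
    exact Complex.ofReal_re _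

private lemma Pos_eq {T : ℝ} (hT : 1 < T) (v : ℝ) : Real.log T * FF (v / Real.log T) T =
    2 * Real.pi / T * ∑ γ ∈ ordinates T, ∑ γ' ∈ ordinates T,
      (mult γ : ℝ) * (mult γ' : ℝ) * Real.cos (v * (γ - γ')) * weight (γ - γ') := by
  have hL : Real.log T ≠ 0 := (Real.log_pos hT).ne'
  have hT0 : T ≠ 0 := by linarith
  rw [FF_cos (by linarith), div_mul_cancel₀ v hL]
  unfold N0
  rw [← mul_assoc]
  congr 1
  field_simp

private lemma Pos_term {M θ : ℝ} (hM : 1 ≤ M) (hθ : |θ| ≤ 1 / M) :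
    2 / 5 ≤ weight θ * Real.exp (-(M ^ 2 * θ ^ 2 / 2)) := by
  have hM0 : 0 < M := by linarith
  have h1 : |θ| * M ≤ 1 := by
    rwa [le_div_iff₀ hM0] at hθ
  have h2 : M ^ 2 * θ ^ 2 ≤ 1 := by
    have h3 : (|θ| * M) ^ 2 ≤ 1 := pow_le_one₀ (by positivity) h1
    rw [mul_pow, sq_abs] at h3
    linarith
  have h3 : θ ^ 2 ≤ 1 := by
    have h4 : 1 ≤ M ^ 2 := one_le_pow₀ hM
    nlinarith [sq_nonneg θ]
  have h4 : 4 / 5 ≤ weight θ := by
    unfold weight
    rw [div_le_div_iff₀ (by norm_num) (by positivity)]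
    linarith
  have h5 : 1 / 2 ≤ Real.exp (-(M ^ 2 * θ ^ 2 / 2)) := by
    have := Real.add_one_le_exp (-(M ^ 2 * θ ^ 2 / 2))
    linarith
  nlinarith

private lemma Pos_w (θ : ℝ) : 0 ≤ weight θ := by
  unfold weight
  positivity

/-- LEAF Pos (finite sums): `FF_cos`: `L FF(v/L) = (2π/T) ∑ ∑ m m' cos(v (γ - γ')) w(γ - γ')` and
`∫ Kg M v cos(vθ) dv = √(2π) M e^(-M²θ²/2)` (`fourierIntegral_gaussian`, or `integral_gaussian` and `integral_cexp_quadratic`). All terms are `≥ 0`; those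
with `γ = γ'` give `m²`, those with `0 < |γ - γ'| ≤ 1/M` at least `(2/5) m m'` (`e^(-1/2) · 4/5 ≥ 2/5`, `M ≥ 1`). Since
`NC T (1/M) = (∑ m² - ∑ m) + ∑_(γ ≠ γ', |γ - γ'| ≤ 1/M) m m'` and `∑ m = NN T`, the double sum is `≥ NN T + (2/5) NC T (1/M)`. -/
theorem pos {T M : ℝ} (hT : 1 < T) (hM : 1 ≤ M) :
    Integrable (fun v => Kg M v * (Real.log T * FF (v / Real.log T) T)) ∧
    √(2 * Real.pi) * M * (2 * Real.pi / T) * (NN T + 2 / 5 * NC T (1 / M)) ≤
      ∫ v, Kg M v * (Real.log T * FF (v / Real.log T) T) := by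
  have hM0 : 0 < M := by linarith
  have hT0 : 0 < T := by linarith
  have he : (fun v => Kg M v * (Real.log T * FF (v / Real.log T) T)) = fun v =>
      2 * Real.pi / T * ∑ γ ∈ ordinates T, ∑ γ' ∈ ordinates T,
        (mult γ : ℝ) * (mult γ' : ℝ) * weight (γ - γ') * (Kg M v * Real.cos (v * (γ - γ'))) := by
    funext v
    rw [Pos_eq hT]
    simp only [Finset.mul_sum]
    refine Finset.sum_congr rfl fun γ _ => Finset.sum_congr rfl fun γ' _ => ?_
    ring
  have hi : ∀ γ γ' : ℝ, Integrable fun v => (mult γ : ℝ) * (mult γ' : ℝ) * weight (γ - γ') *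
      (Kg M v * Real.cos (v * (γ - γ'))) := fun γ γ' => (Pos_gauss hM0 _).1.const_mul _
  rw [he]
  constructor
  · exact (integrable_finsetSum _ fun γ _ => integrable_finsetSum _ fun γ' _ => hi γ γ').const_mul _
  rw [integral_const_mul, integral_finsetSum _ fun γ _ => integrable_finsetSum _ fun γ' _ => hi γ γ']
  have h1 : ∑ γ ∈ ordinates T, ∫ v, ∑ γ' ∈ ordinates T,
      (mult γ : ℝ) * (mult γ' : ℝ) * weight (γ - γ') * (Kg M v * Real.cos (v * (γ - γ'))) =
      √(2 * Real.pi) * M * ∑ γ ∈ ordinates T, ∑ γ' ∈ ordinates T, (mult γ : ℝ) * (mult γ' : ℝ) *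
        (weight (γ - γ') * Real.exp (-(M ^ 2 * (γ - γ') ^ 2 / 2))) := by
    rw [Finset.mul_sum]
    refine Finset.sum_congr rfl fun γ _ => ?_
    rw [integral_finsetSum _ fun γ' _ => hi γ γ', Finset.mul_sum]
    refine Finset.sum_congr rfl fun γ' _ => ?_
    rw [integral_const_mul, (Pos_gauss hM0 _).2]
    ring
  rw [h1]
  have h2 : NN T + 2 / 5 * NC T (1 / M) ≤ ∑ γ ∈ ordinates T, ∑ γ' ∈ ordinates T,
      (mult γ : ℝ) * (mult γ' : ℝ) *
        (weight (γ - γ') * Real.exp (-(M ^ 2 * (γ - γ') ^ 2 / 2))) := by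
    have h3 : ∑ γ ∈ ordinates T, ∑ γ' ∈ ordinates T,
        (2 / 5 * (if |γ - γ'| ≤ 1 / M then (mult γ : ℝ) * (mult γ' : ℝ) else 0) +
          3 / 5 * (if γ = γ' then (mult γ : ℝ) * (mult γ' : ℝ) else 0)) ≤
        ∑ γ ∈ ordinates T, ∑ γ' ∈ ordinates T, (mult γ : ℝ) * (mult γ' : ℝ) *
          (weight (γ - γ') * Real.exp (-(M ^ 2 * (γ - γ') ^ 2 / 2))) := by
      refine Finset.sum_le_sum fun γ _ => Finset.sum_le_sum fun γ' _ => ?_
      have hm : 0 ≤ (mult γ : ℝ) * (mult γ' : ℝ) := by positivity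
      by_cases h4 : γ = γ'
      · subst h4
        rw [sub_self, abs_zero, if_pos (by positivity), if_pos rfl]
        have h5 : weight 0 = 1 := by unfold weight; norm_num
        rw [h5]
        simp only [ne_eq, OfNat.ofNat_ne_zero, not_false_eq_true, zero_pow, mul_zero, zero_div,
          neg_zero, Real.exp_zero, mul_one]
        linarith
      · rw [if_neg h4, mul_zero, add_zero]
        by_cases h5 : |γ - γ'| ≤ 1 / M
        · rw [if_pos h5]
          have := mul_le_mul_of_nonneg_left (Pos_term hM h5) hm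
          linarith
        · rw [if_neg h5, mul_zero]
          exact mul_nonneg hm (mul_nonneg (Pos_w _) (Real.exp_pos _).le)
    refine le_trans ?_ h3
    simp only [Finset.sum_add_distrib, ← Finset.mul_sum, Finset.sum_ite_eq]
    have h4 : ∑ γ ∈ ordinates T, (mult γ : ℝ) ≤
        ∑ γ ∈ ordinates T, (if γ ∈ ordinates T then (mult γ : ℝ) * (mult γ : ℝ) else 0) := by
      refine Finset.sum_le_sum fun γ hγ => ?_
      rw [if_pos hγ]
      have h5 : mult γ ≤ mult γ * mult γ := Nat.le_mul_self _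
      exact_mod_cast h5
    unfold NN NC
    linarith
  have h3 : 0 ≤ √(2 * Real.pi) * M * (2 * Real.pi / T) := by positivity
  have h4 := mul_le_mul_of_nonneg_left h2 h3
  linarith

theorem Kg_total {M : ℝ} (hM : 0 < M) : Integrable (Kg M) ∧ ∫ v, Kg M v = √(2 * Real.pi) * M := by
  refine ⟨Pos_int hM, ?_⟩
  have h1 := (Pos_gauss hM 0).2
  simp only [mul_zero, Real.cos_zero, mul_one, ne_eq, OfNat.ofNat_ne_zero, not_false_eq_true,
    zero_pow, zero_div, neg_zero, Real.exp_zero] at h1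
  exact h1

end Pool.Agent.Lib.MP_00e05b_nt.UH
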