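import Pool.Agent.Lib.MP_00e05b_nt.UH.Defs
import Pool.Agent.Lib.MP_00e05b_nt.Mont.Planch
import Pool.Agent.Lib.MP_00e05b_nt.Mont.Trunc
import Pool.Agent.Lib.MP_00e05b_nt.Mont.EF

open Complex Set Filter Topology MeasureTheory

namespace Pool.Agent.Lib.MP_00e05b_nt.UH

open Pool.Agent.Lib.MP_00e05b_nt Pool.Agent.Lib.MP_00e05b_nt.Mont Pool.Agent.Lib.MP_2a816b_nt.TA

/-- `log T ≤ 2 √T`. -/
private lemma Tr_log {T : ℝ} (hT : 2 ≤ T) : Real.log T ≤ 2 * √T := by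
  have hT0 : 0 < T := by linarith
  have h2 : Real.log (√T) ≤ √T := by
    have := Real.log_le_sub_one_of_pos (Real.sqrt_pos.mpr hT0)
    linarith
  rw [Real.log_sqrt hT0.le] at h2
  linarith

/-- `log³ T ≤ 216 T`. -/
private lemma Tr_log3 {T : ℝ} (hT : 2 ≤ T) : Real.log T ^ 3 / T ≤ 216 := by
  have hT0 : 0 < T := by linarith
  have hL0 : 0 ≤ Real.log T := Real.log_nonneg (by linarith)
  have h1 : Real.log T / 6 ≤ T ^ (1 / 6 : ℝ) := by
    have h2 := Real.log_le_sub_one_of_pos (Real.rpow_pos_of_pos hT0 (1 / 6 : ℝ))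
    rw [Real.log_rpow hT0] at h2
    linarith
  have h3 : Real.log T ^ 3 ≤ (6 * T ^ (1 / 6 : ℝ)) ^ 3 := pow_le_pow_left₀ hL0 (by linarith) 3
  have h4 : (6 * T ^ (1 / 6 : ℝ)) ^ 3 = 216 * T ^ (1 / 2 : ℝ) := by
    rw [mul_pow, ← Real.rpow_natCast (T ^ (1 / 6 : ℝ)) 3, ← Real.rpow_mul hT0.le]
    norm_num
  have h5 : T ^ (1 / 2 : ℝ) ≤ T := by
    calc T ^ (1 / 2 : ℝ) ≤ T ^ (1 : ℝ) := Real.rpow_le_rpow_of_exponent_le (by linarith) (by norm_num)
      _ = T := Real.rpow_one T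
  rw [div_le_iff₀ hT0]
  linarith

/-- The triangle inequality in `L²(0, T)`. -/
private lemma Tr_L2 (A P : ℝ → ℂ) (e : ℝ → ℂ) (he : ∀ t, ‖e t‖ = 1) (hA : Continuous A) (hP : Continuous P)
    (hec : Continuous e) {T : ℝ} (hT : 0 ≤ T) :
    (∫ t in (0 : ℝ)..T, ‖A t‖ ^ 2) ≤
      (√(∫ t in (0 : ℝ)..T, ‖P t‖ ^ 2) + √(∫ t in (0 : ℝ)..T, ‖A t + e t * P t‖ ^ 2)) ^ 2 := by
  set d : ℝ → ℂ := fun t => A t + e t * P t with hd
  have hdc : Continuous d := hA.add (hec.mul hP)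
  have i1 : IntervalIntegrable (fun t => ‖P t‖ ^ 2) volume 0 T := (hP.norm.pow 2).intervalIntegrable _ _
  have i2 : IntervalIntegrable (fun t => ‖P t‖ * ‖d t‖) volume 0 T :=
    (hP.norm.mul hdc.norm).intervalIntegrable _ _
  have i3 : IntervalIntegrable (fun t => ‖d t‖ ^ 2) volume 0 T := (hdc.norm.pow 2).intervalIntegrable _ _
  set p := ∫ t in (0 : ℝ)..T, ‖P t‖ ^ 2 with hp
  set r := ∫ t in (0 : ℝ)..T, ‖P t‖ * ‖d t‖ with hr
  set q := ∫ t in (0 : ℝ)..T, ‖d t‖ ^ 2 with hq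
  have hp0 : 0 ≤ p := intervalIntegral.integral_nonneg hT fun t _ => sq_nonneg _
  have hq0 : 0 ≤ q := intervalIntegral.integral_nonneg hT fun t _ => sq_nonneg _
  have hr0 : 0 ≤ r := intervalIntegral.integral_nonneg hT fun t _ => mul_nonneg (norm_nonneg _) (norm_nonneg _)
  have hquad : ∀ x : ℝ, 0 ≤ p * (x * x) + (2 * r) * x + q := by
    intro x
    have h1 : ∫ t in (0 : ℝ)..T, (x * ‖P t‖ + ‖d t‖) ^ 2 = p * (x * x) + (2 * r) * x + q := by
      have h2 : ∀ t, (x * ‖P t‖ + ‖d t‖) ^ 2 = x * x * ‖P t‖ ^ 2 + 2 * x * (‖P t‖ * ‖d t‖) + ‖d t‖ ^ 2 := by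
        intro t
        ring
      simp_rw [h2]
      rw [intervalIntegral.integral_add ((i1.const_mul _).add (i2.const_mul _)) i3,
        intervalIntegral.integral_add (i1.const_mul _) (i2.const_mul _),
        intervalIntegral.integral_const_mul, intervalIntegral.integral_const_mul]
      ring
    rw [← h1]
    exact intervalIntegral.integral_nonneg hT fun t _ => sq_nonneg _
  have hdis := discrim_le_zero hquad
  unfold discrim at hdis
  have hrr : r ≤ √p * √q := by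
    rw [← Real.sqrt_mul hp0]
    apply Real.le_sqrt_of_sq_le
    nlinarith
  have hA1 : (∫ t in (0 : ℝ)..T, ‖A t‖ ^ 2) ≤ p + 2 * r + q := by
    have h3 : p + 2 * r + q = ∫ t in (0 : ℝ)..T, (‖P t‖ + ‖d t‖) ^ 2 := by
      have h4 : ∀ t, (‖P t‖ + ‖d t‖) ^ 2 = ‖P t‖ ^ 2 + 2 * (‖P t‖ * ‖d t‖) + ‖d t‖ ^ 2 := by
        intro t
        ring
      simp_rw [h4]
      rw [intervalIntegral.integral_add (i1.add (i2.const_mul _)) i3,
        intervalIntegral.integral_add i1 (i2.const_mul _), intervalIntegral.integral_const_mul]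
    rw [h3]
    refine intervalIntegral.integral_mono_on hT ((hA.norm.pow 2).intervalIntegrable _ _)
      (((hP.norm.add hdc.norm).pow 2).intervalIntegrable _ _) fun t _ => ?_
    refine pow_le_pow_left₀ (norm_nonneg _) ?_ 2
    have h5 : A t = d t - e t * P t := by
      rw [hd]
      ring
    calc ‖A t‖ = ‖d t - e t * P t‖ := by rw [← h5]
      _ ≤ ‖d t‖ + ‖e t * P t‖ := norm_sub_le _ _
      _ = ‖P t‖ + ‖d t‖ := by rw [norm_mul, he, one_mul, add_comm]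
  calc (∫ t in (0 : ℝ)..T, ‖A t‖ ^ 2) ≤ p + 2 * r + q := hA1
    _ ≤ p + 2 * (√p * √q) + q := by linarith
    _ = (√p + √q) ^ 2 := by
        rw [add_sq, Real.sq_sqrt hp0, Real.sq_sqrt hq0]
        ring

/-- LEAF Tr (a): `planch` and `trunc`. -/
theorem Ph_eq (hRH : RiemannHypothesis) {W : ℝ → ℝ} {s : ℝ} (hW : EB W s) (hs : s ≤ 1 / 8) : ∃ C : ℝ, 0 ≤ C ∧ ∀ T y : ℝ, 2 ≤ T →
    |Ph W T y - 1 / T * ∫ t in (0 : ℝ)..T, ‖AA W t y‖ ^ 2| ≤ C * Real.log T ^ 3 / T := by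
  obtain ⟨C, hC, h⟩ := trunc hRH hW.es (by linarith)
  refine ⟨C, hC, fun T y hT => ?_⟩
  have hT0 : 0 < T := by linarith
  have h1 := h T y hT
  rw [(planch hW.es T y).2] at h1
  have h2 : Ph W T y - 1 / T * ∫ t in (0 : ℝ)..T, ‖AA W t y‖ ^ 2 =
      1 / T * (2 * Real.pi * (∫ u, W (u - y) ^ 2 * ‖SS T u‖ ^ 2) - ∫ t in (0 : ℝ)..T, ‖AA W t y‖ ^ 2) := by
    unfold Ph
    ring
  rw [h2, abs_mul, abs_of_pos (by positivity : (0 : ℝ) < 1 / T)]
  calc 1 / T * |2 * Real.pi * (∫ u, W (u - y) ^ 2 * ‖SS T u‖ ^ 2) - ∫ t in (0 : ℝ)..T, ‖AA W t y‖ ^ 2|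
      ≤ 1 / T * (C * Real.log T ^ 3) := mul_le_mul_of_nonneg_left h1 (by positivity)
    _ = C * Real.log T ^ 3 / T := by ring

/-- The integral of the local density. -/
private lemma Tr_int (w K L κ : ℝ) {T : ℝ} (hT : 1 ≤ T) :
    IntervalIntegrable (fun t : ℝ => w * (Real.log t + κ) ^ 2 + L * (√t)⁻¹ + K * t⁻¹) volume 1 T ∧
    ∫ t in (1 : ℝ)..T, (w * (Real.log t + κ) ^ 2 + L * (√t)⁻¹ + K * t⁻¹) =
      w * (T * ((Real.log T + κ) ^ 2 - 2 * (Real.log T + κ) + 2) - (κ ^ 2 - 2 * κ + 2)) +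
        L * (2 * √T - 2) + K * Real.log T := by
  have hpos : ∀ t ∈ uIcc (1 : ℝ) T, 0 < t := by
    intro t ht
    rw [uIcc_of_le hT] at ht
    linarith [ht.1]
  have hc : ContinuousOn (fun t : ℝ => w * (Real.log t + κ) ^ 2 + L * (√t)⁻¹ + K * t⁻¹) (uIcc 1 T) := by
    have c1 : ContinuousOn Real.log (uIcc (1 : ℝ) T) := fun t ht =>
      (Real.continuousAt_log (hpos t ht).ne').continuousWithinAt
    have c2 : ContinuousOn (fun t : ℝ => (√t)⁻¹) (uIcc (1 : ℝ) T) :=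
      Real.continuous_sqrt.continuousOn.inv₀ fun t ht => (Real.sqrt_pos.2 (hpos t ht)).ne'
    have c3 : ContinuousOn (fun t : ℝ => t⁻¹) (uIcc (1 : ℝ) T) :=
      continuousOn_id.inv₀ fun t ht => (hpos t ht).ne'
    exact (((c1.add continuousOn_const).pow 2).const_smul w |>.add (c2.const_smul L)).add (c3.const_smul K)
  refine ⟨hc.intervalIntegrable, ?_⟩
  have hder : ∀ t ∈ uIcc (1 : ℝ) T, HasDerivAt (fun t : ℝ =>
      w * (t * ((Real.log t + κ) ^ 2 - 2 * (Real.log t + κ) + 2)) + L * (2 * √t) + K * Real.log t)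
      (w * (Real.log t + κ) ^ 2 + L * (√t)⁻¹ + K * t⁻¹) t := by
    intro t ht
    have ht0 := hpos t ht
    have h1 : HasDerivAt (fun t : ℝ => Real.log t + κ) t⁻¹ t := (Real.hasDerivAt_log ht0.ne').add_const κ
    have h2 : HasDerivAt (fun t : ℝ => (Real.log t + κ) ^ 2 - 2 * (Real.log t + κ) + 2)
        (2 * (Real.log t + κ) * t⁻¹ - 2 * t⁻¹) t := by
      have h3 := h1.fun_pow 2
      have h4 := (h3.fun_sub (h1.const_mul 2)).add_const 2
      refine h4.congr_deriv ?_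
      ring
    have h5 := ((hasDerivAt_id t).fun_mul h2).const_mul w
    have h6 : HasDerivAt (fun t : ℝ => L * (2 * √t)) (L * (2 * (1 / (2 * √t)))) t :=
      ((Real.hasDerivAt_sqrt ht0.ne').const_mul 2).const_mul L
    have h7 : HasDerivAt (fun t : ℝ => K * Real.log t) (K * t⁻¹) t := (Real.hasDerivAt_log ht0.ne').const_mul K
    refine ((h5.fun_add h6).fun_add h7).congr_deriv ?_
    have h8 : t * t⁻¹ = 1 := mul_inv_cancel₀ ht0.ne'
    have h9 : √t * (√t)⁻¹ = 1 := mul_inv_cancel₀ (Real.sqrt_pos.2 ht0).ne'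
    simp only [id]
    have h10 : 2 * (1 / (2 * √t)) = (√t)⁻¹ := by
      rw [one_div, mul_inv]
      ring
    rw [h10]
    linear_combination (w * (2 * (Real.log t + κ) - 2)) * h8
  rw [intervalIntegral.integral_eq_sub_of_hasDerivAt hder hc.intervalIntegrable]
  simp only [Real.log_one, Real.sqrt_one, zero_add]
  ring

/-- LEAF Tr (b): `KapA (-log 2π)` (`kap hRH`) for `t ≥ 1`, `AA_le` for `t ≤ 1`:
`(1/T) ∫_1^T (W(y) |log t - log 2π| + C t^(-1/2))² dt ≤ W(y)² ((L + κ)² - 2 (L + κ) + 2) + C'`, `κ = -log 2π`, `(L+κ)² - 2(L+κ) = L² - 2 cF L + O(1)`,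
`W ≤ 1`; the cross term is `O(∫ |log t + κ| t^(-1/2) dt/T) = O(L/√T)`. -/
theorem Ph_spike (hRH : RiemannHypothesis) {W : ℝ → ℝ} (hW : EB W (1 / 8)) : ∃ C : ℝ, 0 ≤ C ∧ ∀ T y : ℝ, 2 ≤ T → 0 ≤ y → y ≤ 1 / 4 →
    Ph W T y ≤ W y ^ 2 * (Real.log T ^ 2 - 2 * cF * Real.log T) + C := by
  obtain ⟨C1, hC1, h1⟩ := Ph_eq hRH hW le_rfl
  obtain ⟨C2, hC2, h2⟩ := AA_le hRH hW.es (by norm_num)
  obtain ⟨C3, hC3, h3⟩ := (kap hRH).2 W hW
  set κ : ℝ := -Real.log (2 * Real.pi) with hκ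
  have hcF : cF = 1 - κ := by
    unfold cF
    rw [hκ]
    ring
  set c : ℝ := κ ^ 2 - 2 * κ + 2 with hc
  have hc0 : 0 ≤ c := by
    rw [hc]
    nlinarith [sq_nonneg (κ - 1)]
  refine ⟨216 * C1 + (C2 * Real.log 3) ^ 2 + c + 4 * C3 * (2 + |κ|) + C3 ^ 2, by positivity, ?_⟩
  intro T y hT hy0 hy1
  have hT0 : 0 < T := by linarith
  have hL0 : 0 ≤ Real.log T := Real.log_nonneg (by linarith)
  have hsq : 0 < √T := Real.sqrt_pos.2 hT0
  have hsq1 : 1 ≤ √T := by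
    rw [Real.one_le_sqrt]
    linarith
  have hss : √T * √T = T := Real.mul_self_sqrt hT0.le
  have hcont : Continuous (fun t => ‖AA W t y‖ ^ 2) := (AA_continuous hW.es (by norm_num) y).norm.pow 2
  have hW0 := hW.nonneg y
  have hW1 := hW.le_one y
  -- the first part
  have e0 : ∫ t in (0 : ℝ)..1, ‖AA W t y‖ ^ 2 ≤ (C2 * Real.log 3) ^ 2 := by
    calc ∫ t in (0 : ℝ)..1, ‖AA W t y‖ ^ 2 ≤ ∫ _t in (0 : ℝ)..1, (C2 * Real.log 3) ^ 2 := by
          refine intervalIntegral.integral_mono_on zero_le_one (hcont.intervalIntegrable _ _) (by simp) fun t ht => ?_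
          refine pow_le_pow_left₀ (norm_nonneg _) ((h2 t y).trans ?_) 2
          refine mul_le_mul_of_nonneg_left (Real.log_le_log ?_ ?_) hC2
          · positivity
          · rw [abs_of_nonneg ht.1]
            linarith [ht.2]
      _ = (C2 * Real.log 3) ^ 2 := by simp
  -- the second part
  obtain ⟨i1, i2⟩ := Tr_int (W y ^ 2) (C3 ^ 2) (2 * C3 * (Real.log T + |κ|)) κ (by linarith : (1 : ℝ) ≤ T)
  have e1 : ∫ t in (1 : ℝ)..T, ‖AA W t y‖ ^ 2 ≤ ∫ t in (1 : ℝ)..T, (W y ^ 2 * (Real.log t + κ) ^ 2 +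
      2 * C3 * (Real.log T + |κ|) * (√t)⁻¹ + C3 ^ 2 * t⁻¹) := by
    refine intervalIntegral.integral_mono_on (by linarith) (hcont.intervalIntegrable _ _) i1 fun t ht => ?_
    have ht0 : 0 < t := by linarith [ht.1]
    have g1 := h3 y hy0 hy1 t ht.1
    have hr : t ^ (-(1 / 2) : ℝ) = (√t)⁻¹ := by
      rw [Real.rpow_neg ht0.le, Real.sqrt_eq_rpow]
    rw [hr] at g1
    have g2 : ‖AA W t y‖ ^ 2 ≤ (W y * |Real.log t + κ| + C3 * (√t)⁻¹) ^ 2 :=
      pow_le_pow_left₀ (norm_nonneg _) g1 2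
    have g3 : |Real.log t + κ| ≤ Real.log T + |κ| := by
      refine (abs_add_le _ _).trans ?_
      have g4 : Real.log t ≤ Real.log T := Real.log_le_log ht0 ht.2
      have g5 : 0 ≤ Real.log t := Real.log_nonneg ht.1
      rw [abs_of_nonneg g5]
      linarith
    have g6 : 0 ≤ (√t)⁻¹ := by positivity
    have g7 : (√t)⁻¹ ^ 2 = t⁻¹ := by
      rw [inv_pow, Real.sq_sqrt ht0.le]
    have g8 : W y * |Real.log t + κ| ≤ Real.log T + |κ| := by
      calc W y * |Real.log t + κ| ≤ 1 * |Real.log t + κ| := mul_le_mul_of_nonneg_right hW1 (abs_nonneg _)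
        _ ≤ _ := by rw [one_mul]; exact g3
    have g9 : 2 * (W y * |Real.log t + κ|) * (C3 * (√t)⁻¹) ≤ 2 * (Real.log T + |κ|) * (C3 * (√t)⁻¹) :=
      mul_le_mul_of_nonneg_right (by linarith) (by positivity)
    calc ‖AA W t y‖ ^ 2 ≤ (W y * |Real.log t + κ| + C3 * (√t)⁻¹) ^ 2 := g2
      _ = W y ^ 2 * |Real.log t + κ| ^ 2 + 2 * (W y * |Real.log t + κ|) * (C3 * (√t)⁻¹) + C3 ^ 2 * (√t)⁻¹ ^ 2 := by ring
      _ ≤ W y ^ 2 * |Real.log t + κ| ^ 2 + 2 * (Real.log T + |κ|) * (C3 * (√t)⁻¹) + C3 ^ 2 * (√t)⁻¹ ^ 2 := by linarith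
      _ = _ := by rw [sq_abs, g7]; ring
  rw [i2] at e1
  have e2 : ∫ t in (0 : ℝ)..T, ‖AA W t y‖ ^ 2 = (∫ t in (0 : ℝ)..1, ‖AA W t y‖ ^ 2) + ∫ t in (1 : ℝ)..T, ‖AA W t y‖ ^ 2 :=
    (intervalIntegral.integral_add_adjacent_intervals (hcont.intervalIntegrable _ _) (hcont.intervalIntegrable _ _)).symm
  have e3 := (abs_le.1 (h1 T y hT)).2
  have e4 := Tr_log3 hT
  have e5 := Tr_log hT
  -- the three error terms
  have f1 : 1 / T * (2 * C3 * (Real.log T + |κ|) * (2 * √T - 2)) ≤ 4 * C3 * (2 + |κ|) := by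
    have h4 : Real.log T + |κ| ≤ (2 + |κ|) * √T := by
      have h5 : |κ| ≤ |κ| * √T := le_mul_of_one_le_right (abs_nonneg _) hsq1
      linarith
    have h6 : 2 * C3 * (Real.log T + |κ|) * (2 * √T - 2) ≤ 2 * C3 * ((2 + |κ|) * √T) * (2 * √T) := by
      refine mul_le_mul (mul_le_mul_of_nonneg_left h4 (by positivity)) (by linarith) (by linarith) (by positivity)
    rw [one_div, inv_mul_le_iff₀ hT0]
    refine h6.trans (le_of_eq ?_)
    linear_combination (4 * C3 * (2 + |κ|)) * hss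
  have f2 : 1 / T * (C3 ^ 2 * Real.log T) ≤ C3 ^ 2 := by
    rw [one_div, inv_mul_le_iff₀ hT0, mul_comm T]
    have h4 : Real.log T ≤ T := by linarith [Real.log_le_sub_one_of_pos hT0]
    exact mul_le_mul_of_nonneg_left h4 (by positivity)
  have f3 : 1 / T * (W y ^ 2 * (T * ((Real.log T + κ) ^ 2 - 2 * (Real.log T + κ) + 2) - (κ ^ 2 - 2 * κ + 2))) ≤
      W y ^ 2 * (Real.log T ^ 2 - 2 * cF * Real.log T) + c := by
    have h4 : 1 / T * (W y ^ 2 * (T * ((Real.log T + κ) ^ 2 - 2 * (Real.log T + κ) + 2) - (κ ^ 2 - 2 * κ + 2))) =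
        W y ^ 2 * ((Real.log T + κ) ^ 2 - 2 * (Real.log T + κ) + 2) - W y ^ 2 * c / T := by
      rw [hc]
      field_simp
    rw [h4]
    have h5 : 0 ≤ W y ^ 2 * c / T := by positivity
    have h6 : W y ^ 2 * c ≤ c := by
      have h7 : W y ^ 2 ≤ 1 := pow_le_one₀ hW0 hW1
      calc W y ^ 2 * c ≤ 1 * c := mul_le_mul_of_nonneg_right h7 hc0
        _ = c := one_mul c
    have h8 : W y ^ 2 * ((Real.log T + κ) ^ 2 - 2 * (Real.log T + κ) + 2) =
        W y ^ 2 * (Real.log T ^ 2 - 2 * cF * Real.log T) + W y ^ 2 * c := by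
      rw [hcF, hc]
      ring
    rw [h8]
    linarith
  have f4 : 1 / T * ∫ t in (0 : ℝ)..1, ‖AA W t y‖ ^ 2 ≤ (C2 * Real.log 3) ^ 2 := by
    have h4 : 0 ≤ ∫ t in (0 : ℝ)..1, ‖AA W t y‖ ^ 2 := intervalIntegral.integral_nonneg zero_le_one fun t _ => by positivity
    have h5 : 1 / T ≤ 1 := by
      rw [div_le_one hT0]
      linarith
    calc 1 / T * ∫ t in (0 : ℝ)..1, ‖AA W t y‖ ^ 2 ≤ 1 * ∫ t in (0 : ℝ)..1, ‖AA W t y‖ ^ 2 :=
          mul_le_mul_of_nonneg_right h5 h4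
      _ ≤ _ := by rw [one_mul]; exact e0
  have f5 : 1 / T * ∫ t in (1 : ℝ)..T, ‖AA W t y‖ ^ 2 ≤
      1 / T * (W y ^ 2 * (T * ((Real.log T + κ) ^ 2 - 2 * (Real.log T + κ) + 2) - (κ ^ 2 - 2 * κ + 2))) +
      1 / T * (2 * C3 * (Real.log T + |κ|) * (2 * √T - 2)) + 1 / T * (C3 ^ 2 * Real.log T) := by
    rw [← mul_add, ← mul_add]
    exact mul_le_mul_of_nonneg_left e1 (by positivity)
  have f6 : C1 * Real.log T ^ 3 / T ≤ 216 * C1 := by
    rw [mul_div_assoc, mul_comm 216 C1]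
    exact mul_le_mul_of_nonneg_left e4 hC1
  rw [e2, mul_add] at e3
  linarith

/-- LEAF Tr (c): `ef` with `u0 = 1/4` and the triangle inequality in `L²(0, T)`. -/
theorem Ph_prime (hRH : RiemannHypothesis) {W : ℝ → ℝ} {s : ℝ} (hW : EB W s) (hs0 : 0 < s) (hs : s ≤ 1 / 8) : ∃ C : ℝ, 0 ≤ C ∧
    ∀ T y : ℝ, 2 ≤ T → 1 / 4 ≤ y →
    Ph W T y ≤ (√(1 / T * ∫ t in (0 : ℝ)..T, ‖PP W t y‖ ^ 2) + √(C * Real.exp y / T)) ^ 2 + C * Real.log T ^ 3 / T := by
  obtain ⟨C1, hC1, h1⟩ := Ph_eq hRH hW hs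
  obtain ⟨C2, hC2, h2⟩ := ef hRH hW hs0 (by linarith) (u0 := 1 / 4) (by linarith)
  refine ⟨max C1 C2, le_max_of_le_left hC1, fun T y hT hy => ?_⟩
  have hT0 : 0 < T := by linarith
  have hL0 : 0 ≤ Real.log T := Real.log_nonneg (by linarith)
  have e1 := (abs_le.1 (h1 T y hT)).2
  have e2 := h2 T y hT0.le hy
  have e3 := Tr_L2 (fun t => AA W t y) (fun t => PP W t y) (fun t => cexp (((t * y : ℝ) : ℂ) * I))
    (fun t => by rw [Complex.norm_exp_ofReal_mul_I]) (AA_continuous hW.es (by linarith) y)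
    (PP_continuous hW.es y) (by fun_prop) hT0.le
  set p := ∫ t in (0 : ℝ)..T, ‖PP W t y‖ ^ 2 with hp
  set q := ∫ t in (0 : ℝ)..T, ‖AA W t y + cexp (((t * y : ℝ) : ℂ) * I) * PP W t y‖ ^ 2 with hq
  have hp0 : 0 ≤ p := intervalIntegral.integral_nonneg hT0.le fun t _ => by positivity
  have hT1 : (0 : ℝ) ≤ 1 / T := by positivity
  have e4 : 1 / T * (√p + √q) ^ 2 = (√(1 / T * p) + √(1 / T * q)) ^ 2 := by
    rw [Real.sqrt_mul hT1, Real.sqrt_mul hT1, ← mul_add, mul_pow, Real.sq_sqrt hT1]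
  have e5 : √(1 / T * q) ≤ √(max C1 C2 * Real.exp y / T) := by
    refine Real.sqrt_le_sqrt ?_
    have h3 : q ≤ max C1 C2 * Real.exp y :=
      e2.trans (mul_le_mul_of_nonneg_right (le_max_right _ _) (Real.exp_pos y).le)
    calc 1 / T * q ≤ 1 / T * (max C1 C2 * Real.exp y) := mul_le_mul_of_nonneg_left h3 hT1
      _ = _ := by ring
  have e6 : (√(1 / T * p) + √(1 / T * q)) ^ 2 ≤ (√(1 / T * p) + √(max C1 C2 * Real.exp y / T)) ^ 2 :=
    pow_le_pow_left₀ (by positivity) (by linarith) 2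
  have e7 : 1 / T * ∫ t in (0 : ℝ)..T, ‖AA W t y‖ ^ 2 ≤ 1 / T * (√p + √q) ^ 2 :=
    mul_le_mul_of_nonneg_left e3 hT1
  have e8 : C1 * Real.log T ^ 3 / T ≤ max C1 C2 * Real.log T ^ 3 / T := by
    refine div_le_div_of_nonneg_right ?_ hT0.le
    exact mul_le_mul_of_nonneg_right (le_max_left _ _) (by positivity)
  rw [e4] at e7
  linarith

/-- LEAF Tr (d): `Ph` is continuous in `y` (or at least locally integrable) and even. -/
theorem Ph_cont {W : ℝ → ℝ} {s : ℝ} (hW : EB W s) {T : ℝ} (hT : 0 < T) : Continuous (Ph W T) := by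
  have hWc : Continuous W := hW.smooth.continuous
  have hSc := continuous_SS T
  have h1 : Ph W T = fun y => 2 * Real.pi / T * ∫ v, W v ^ 2 * ‖SS T (v + y)‖ ^ 2 := by
    funext y
    unfold Ph
    congr 1
    rw [← integral_add_right_eq_self (fun u => W (u - y) ^ 2 * ‖SS T u‖ ^ 2) y]
    simp only [add_sub_cancel_right]
  rw [h1]
  refine Continuous.mul continuous_const ?_
  have hcs : HasCompactSupport (fun v => W v ^ 2 * NN T ^ 2) := by
    refine HasCompactSupport.intro (isCompact_Icc (a := -s) (b := s)) ?_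
    intro u hu
    have h2 : W u = 0 := by
      apply hW.supp
      rw [mem_Icc, not_and_or, not_le, not_le] at hu
      rcases hu with hu | hu
      · exact le_trans (by linarith) (neg_le_abs _)
      · exact le_trans (by linarith) (le_abs_self _)
    rw [h2]
    simp
  have hint : Integrable (fun v => W v ^ 2 * NN T ^ 2) :=
    ((hWc.pow 2).mul continuous_const).integrable_of_hasCompactSupport hcs
  refine continuous_of_dominated (bound := fun v => W v ^ 2 * NN T ^ 2) ?_ ?_ hint ?_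
  · intro y
    exact ((hWc.pow 2).mul ((hSc.comp (continuous_id.add continuous_const)).norm.pow 2)).aestronglyMeasurable
  · intro y
    refine Eventually.of_forall fun v => ?_
    rw [Real.norm_eq_abs, abs_of_nonneg (by positivity)]
    exact mul_le_mul_of_nonneg_left (pow_le_pow_left₀ (norm_nonneg _) (SS_le T _) 2) (sq_nonneg _)
  · refine Eventually.of_forall fun v => ?_
    exact continuous_const.mul ((hSc.comp (continuous_const.add continuous_id)).norm.pow 2)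

theorem Ph_even {W : ℝ → ℝ} {s : ℝ} (hW : EB W s) (T y : ℝ) : Ph W T (-y) = Ph W T y := by
  unfold Ph
  congr 1
  rw [← integral_neg_eq_self]
  refine integral_congr_ae (Eventually.of_forall fun u => ?_)
  show W (-u - -y) ^ 2 * ‖SS T (-u)‖ ^ 2 = W (u - y) ^ 2 * ‖SS T u‖ ^ 2
  rw [SS_neg, show -u - -y = -(u - y) by ring, hW.even]

theorem Ph_nonneg (W : ℝ → ℝ) {T : ℝ} (hT : 0 < T) (y : ℝ) : 0 ≤ Ph W T y := by
  unfold Ph
  have := Real.pi_pos
  have h : 0 ≤ ∫ u, W (u - y) ^ 2 * ‖SS T u‖ ^ 2 := integral_nonneg fun u => by positivity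
  positivity

end Pool.Agent.Lib.MP_00e05b_nt.UH
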