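import Pool.Agent.Lib.MP_00e05b_nt.UH.De

open Complex Set Filter Topology MeasureTheory

namespace Pool.Agent.Lib.MP_00e05b_nt.UH

open Pool.Agent.Lib.MP_00e05b_nt Pool.Agent.Lib.MP_00e05b_nt.Mont Pool.Agent.Lib.MP_2a816b_nt.TA

private theorem Un_cF : 0 < cF := by
  unfold cF
  have h1 : 0 < Real.log (2 * Real.pi) := Real.log_pos (by linarith [Real.pi_gt_three])
  linarith

private theorem Un_int {L κ : ℝ} (hL : 1 ≤ L) (hκ : 0 ≤ κ) (f : ℝ → ℝ) :
    0 ≤ ∫ u in L..(L ^ (1 + κ)), |f u| := by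
  refine intervalIntegral.integral_nonneg ?_ fun u _ => abs_nonneg _
  calc L = L ^ (1 : ℝ) := (Real.rpow_one L).symm
    _ ≤ L ^ (1 + κ) := Real.rpow_le_rpow_of_exponent_le hL (by linarith)

/-- the pointwise lower bound of the integrand near `α` -/
private theorem Un_pt {T α δ s : ℝ} (hT : 1 < T) (hδ : 0 < δ) (hδ2 : δ ≤ 1 / 2) (hs : 0 ≤ s) (hs2 : s ≤ δ / 8)
    (hc : cF ≤ δ / 4 * Real.log T) (h : δ < |FF α T - 1|) :
    δ / 4 * Real.log T ≤ |Real.log T - cF - Real.log T * FF ((α * Real.log T + s) / Real.log T) T| := by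
  have hL : 0 < Real.log T := Real.log_pos hT
  have hc0 := Un_cF
  have e1 : (α * Real.log T + s) / Real.log T = α + s / Real.log T := by
    rw [add_div, mul_div_cancel_right₀ _ hL.ne']
  rw [e1]
  have hsL : 0 ≤ s / Real.log T := div_nonneg hs hL.le
  have e2 : 2 * |s / Real.log T| * Real.log T = 2 * s := by
    rw [abs_of_nonneg hsL]
    field_simp
  have e3 : 2 * |-(s / Real.log T)| * Real.log T = 2 * s := by
    rw [abs_neg]
    exact e2
  set G := FF (α + s / Real.log T) T with hG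
  set L := Real.log T with hLd
  rcases lt_abs.1 h with h1 | h1
  · -- `FF α > 1 + δ`
    have h2 := FF_peak hT α (s / L)
    rw [e2, ← hG] at h2
    have h3 : 1 - 2 * s ≤ Real.exp (-(2 * s)) := by
      have := Real.add_one_le_exp (-(2 * s))
      linarith
    have h4 : (1 - 2 * s) * (1 + δ) ≤ G := by
      have h5 : (1 - 2 * s) * (1 + δ) ≤ Real.exp (-(2 * s)) * FF α T := by
        refine mul_le_mul h3 (by linarith) (by linarith) (Real.exp_pos _).le
      linarith
    have h5 : 1 + δ / 2 ≤ G := by nlinarith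
    have h6 : L * (1 + δ / 2) ≤ L * G := mul_le_mul_of_nonneg_left h5 hL.le
    have h7 : δ / 4 * L ≤ -(L - cF - L * G) := by nlinarith
    exact h7.trans (neg_le_abs _)
  · -- `FF α < 1 - δ`
    have h2 := FF_peak hT (α + s / L) (-(s / L))
    rw [e3, add_neg_cancel_right, ← hG] at h2
    have h3 : 1 - 2 * s ≤ Real.exp (-(2 * s)) := by
      have := Real.add_one_le_exp (-(2 * s))
      linarith
    have hG0 : 0 ≤ G := FF_nonneg hT _
    have h4 : (1 - 2 * s) * G ≤ 1 - δ := by
      have h5 := mul_le_mul_of_nonneg_right h3 hG0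
      linarith
    have h5 : G ≤ 1 - δ / 2 := by
      by_contra h6
      push Not at h6
      have h7 : (1 - 2 * s) * (1 - δ / 2) < (1 - 2 * s) * G := mul_lt_mul_of_pos_left h6 (by linarith)
      nlinarith
    have h6 : L * G ≤ L * (1 - δ / 2) := mul_le_mul_of_nonneg_left h5 hL.le
    have h7 : δ / 4 * L ≤ L - cF - L * G := by nlinarith
    exact h7.trans (le_abs_self _)

/-- LEAF Un (a): pointwise. `FF_peak`: `e^(-2|x|L) FF α ≤ FF (α + x)`. Let `ε ≤ 1/2`, `κ'' = (κ' + κ)/2`, `defiF` for `κ''` with `ε1 = ε²/100`. If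
`FF α ≤ 1 - ε` then `FF (α + s/L) ≤ e^(2s) (1 - ε) ≤ 1 - ε/2` for `0 ≤ s ≤ ε/4`, so the integrand is `≥ ε L/2 - cF ≥ ε L/4` on
`[αL, αL + ε/4]` (inside `[L, L^(1+κ'')]`), integral `≥ ε² L/16`: contradiction. If `FF α ≥ 1 + ε` then `FF (α + s/L) ≥ e^(-2s) (1 + ε) ≥ 1 + ε/2`
for `0 ≤ s ≤ ε/8`. -/
theorem uniF (hRH : RiemannHypothesis) {κ κ' : ℝ} (h1 : 1 / 2 < κ') (h2 : κ' < κ) (h : PFu κ) (ε : ℝ) (hε : 0 < ε) :
    ∀ᶠ T : ℝ in atTop, ∀ α : ℝ, 1 ≤ α → α ≤ Real.log T ^ κ' → |FF α T - 1| ≤ ε := by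
  have hδ : 0 < min ε (1 / 2) := lt_min hε (by norm_num)
  have hδ2 : min ε (1 / 2) ≤ 1 / 2 := min_le_right _ _
  have hδε : min ε (1 / 2) ≤ ε := min_le_left _ _
  generalize min ε (1 / 2) = δ at hδ hδ2 hδε
  have hk1 : κ' < (κ' + κ) / 2 := by linarith
  have hk2 : (κ' + κ) / 2 < κ := by linarith
  generalize (κ' + κ) / 2 = k at hk1 hk2
  have hk0 : 1 / 2 < k := by linarith
  have hlog := Real.tendsto_log_atTop
  filter_upwards [defiF hRH hk0 hk2 h (δ ^ 2 / 100) (by positivity),
    hlog.eventually_ge_atTop 1, hlog.eventually_ge_atTop (4 * cF / δ),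
    ((tendsto_rpow_atTop (sub_pos.2 hk1)).comp hlog).eventually_ge_atTop 2,
    eventually_gt_atTop (1 : ℝ)] with T h3 hL1 h4 h5 hT α ha1 ha2
  refine le_trans ?_ hδε
  by_contra h6
  push Not at h6
  have hL : 0 < Real.log T := by linarith
  have hc : cF ≤ δ / 4 * Real.log T := by
    have h7 := (div_le_iff₀ hδ).1 h4
    linarith
  have h7 : (2 : ℝ) ≤ Real.log T ^ (k - κ') := h5
  have h8 : Real.log T ^ (1 + κ') + 1 ≤ Real.log T ^ (1 + k) := by
    have e1 : Real.log T ^ (1 + k) = Real.log T ^ (1 + κ') * Real.log T ^ (k - κ') := by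
      rw [← Real.rpow_add hL]
      congr 1
      ring
    have e2 : 1 ≤ Real.log T ^ (1 + κ') := Real.one_le_rpow hL1 (by linarith)
    rw [e1]
    nlinarith
  have h9 : α * Real.log T ≤ Real.log T ^ (1 + κ') := by
    rw [add_comm, Real.rpow_add hL, Real.rpow_one]
    exact mul_le_mul_of_nonneg_right ha2 hL.le
  have hcont : Continuous fun u : ℝ => |Real.log T - cF - Real.log T * FF (u / Real.log T) T| := by
    have h10 : Continuous fun u : ℝ => FF (u / Real.log T) T :=
      (FF_continuous (by linarith)).comp (continuous_id.div_const _)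
    exact (continuous_const.sub (continuous_const.mul h10)).abs
  have h10 : ∫ u in (α * Real.log T)..(α * Real.log T + δ / 8),
      |Real.log T - cF - Real.log T * FF (u / Real.log T) T| ≤
      ∫ u in (Real.log T)..(Real.log T ^ (1 + k)),
        |Real.log T - cF - Real.log T * FF (u / Real.log T) T| := by
    refine intervalIntegral.integral_mono_interval ?_ (by linarith) ?_ ?_ (hcont.intervalIntegrable _ _)
    · nlinarith
    · linarith
    · exact Eventually.of_forall fun u => abs_nonneg _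
  have h11 : δ / 8 * (δ / 4 * Real.log T) ≤ ∫ u in (α * Real.log T)..(α * Real.log T + δ / 8),
      |Real.log T - cF - Real.log T * FF (u / Real.log T) T| := by
    have h12 : ∫ _ in (α * Real.log T)..(α * Real.log T + δ / 8), δ / 4 * Real.log T =
        δ / 8 * (δ / 4 * Real.log T) := by
      rw [intervalIntegral.integral_const, add_sub_cancel_left, smul_eq_mul]
    rw [← h12]
    refine intervalIntegral.integral_mono_on (by linarith) intervalIntegrable_const
      (hcont.intervalIntegrable _ _) ?_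
    intro u hu
    have h13 := Un_pt (T := T) (α := α) (δ := δ) (s := u - α * Real.log T) hT hδ hδ2
      (by linarith [hu.1]) (by linarith [hu.2]) hc h6
    have h14 : α * Real.log T + (u - α * Real.log T) = u := by ring
    rw [h14] at h13
    exact h13
  have h12 : 0 ≤ Real.log T ^ (1 + k) / T * NC T (1 / Real.log T ^ (1 + k)) := by
    have h13 : 0 < Real.log T ^ (1 + k) := Real.rpow_pos_of_pos hL _
    exact mul_nonneg (div_nonneg h13.le (by linarith)) (NC_nonneg (by positivity))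
  have h13 : 0 < δ ^ 2 * Real.log T := by positivity
  nlinarith

/-- LEAF Un (b): `L¹` statement (`NC_nonneg`, `L1F_back`). -/
theorem L1F (hRH : RiemannHypothesis) {κ κ' : ℝ} (h1 : 1 / 2 < κ') (h2 : κ' < κ) (h : PFu κ) :
    Tendsto (fun T : ℝ => Real.log T * ∫ α in (1 : ℝ)..(Real.log T ^ κ'), |FF α T - 1 + cF / Real.log T|) atTop (𝓝 0) := by
  refine L1F_back (by linarith) fun ε hε => ?_
  filter_upwards [defiF hRH h1 h2 h ε hε, Real.tendsto_log_atTop.eventually_ge_atTop 1,
    eventually_gt_atTop (1 : ℝ)] with T h3 hL1 hT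
  have hL : 0 < Real.log T := by linarith
  have h12 : 0 ≤ Real.log T ^ (1 + κ') / T * NC T (1 / Real.log T ^ (1 + κ')) := by
    have h13 : 0 < Real.log T ^ (1 + κ') := Real.rpow_pos_of_pos hL _
    exact mul_nonneg (div_nonneg h13.le (by linarith)) (NC_nonneg (by positivity))
  linarith

/-- LEAF Un (c): small gaps. -/
theorem gapsF (hRH : RiemannHypothesis) {κ κ' : ℝ} (h1 : 1 / 2 < κ') (h2 : κ' < κ) (h : PFu κ) (ε : ℝ) (hε : 0 < ε) :
    ∀ᶠ T : ℝ in atTop, NC T (Real.log T ^ (-(1 + κ'))) ≤ ε * T * Real.log T ^ (-κ') := by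
  filter_upwards [defiF hRH h1 h2 h ε hε, Real.tendsto_log_atTop.eventually_ge_atTop 1,
    eventually_gt_atTop (1 : ℝ)] with T h3 hL1 hT
  have hL : 0 < Real.log T := by linarith
  have hT0 : 0 < T := by linarith
  have h4 := Un_int (L := Real.log T) (κ := κ') hL1 (by linarith)
    fun u => Real.log T - cF - Real.log T * FF (u / Real.log T) T
  have h13 : 0 < Real.log T ^ (1 + κ') := Real.rpow_pos_of_pos hL _
  have h5 : Real.log T ^ (1 + κ') / T * NC T (1 / Real.log T ^ (1 + κ')) ≤ ε * Real.log T := by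
    linarith
  have e1 : Real.log T ^ (-(1 + κ')) = 1 / Real.log T ^ (1 + κ') := by
    rw [Real.rpow_neg hL.le, one_div]
  have e2 : Real.log T ^ (-κ') = Real.log T / Real.log T ^ (1 + κ') := by
    rw [Real.rpow_add hL, Real.rpow_one, Real.rpow_neg hL.le]
    field_simp
  rw [e1, e2]
  have h6 : NC T (1 / Real.log T ^ (1 + κ')) =
      T / Real.log T ^ (1 + κ') * (Real.log T ^ (1 + κ') / T * NC T (1 / Real.log T ^ (1 + κ'))) := by
    field_simp
  rw [h6]
  calc T / Real.log T ^ (1 + κ') * (Real.log T ^ (1 + κ') / T * NC T (1 / Real.log T ^ (1 + κ')))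
      ≤ T / Real.log T ^ (1 + κ') * (ε * Real.log T) :=
        mul_le_mul_of_nonneg_left h5 (by positivity)
    _ = ε * T * (Real.log T / Real.log T ^ (1 + κ')) := by ring

end Pool.Agent.Lib.MP_00e05b_nt.UH
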